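import Pool.Agent.Lib.MP_d61fbb_ag.SQ.Z1
import Pool.Agent.Lib.MP_d61fbb_ag.SQ.Z3

/-! Transvections and similitudes. -/

set_option autoImplicit false
set_option linter.unusedSectionVars false

noncomputable section

namespace Pool.Agent.Lib.MP_d61fbb_ag.DW

open Matrix Pool.Agent.Lib.MP_d61fbb_ag.SQ

variable {Ω n : Type} [Field Ω] [CharZero Ω] [Fintype n] [DecidableEq n] {B : Matrix n n Ω}
  {S : Set (Matrix n n Ω)}

/-- The infinitesimal transvection along `x`. -/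
def tv (B : Matrix n n Ω) (x : n → Ω) : Matrix n n Ω := vecMulVec x (x ᵥ* B)

theorem d5_mulVec (hB : Bᵀ = -B) (x : n → Ω) : B *ᵥ x = -(x ᵥ* B) := by
  rw [← vecMul_transpose, hB, vecMul_neg]

theorem d5_skew (hB : Bᵀ = -B) (u v : n → Ω) : u ᵥ* B ⬝ᵥ v = -(v ᵥ* B ⬝ᵥ u) := by
  rw [← dotProduct_mulVec, d5_mulVec hB, dotProduct_neg, dotProduct_comm]

theorem d5_self (hB : Bᵀ = -B) (u : n → Ω) : u ᵥ* B ⬝ᵥ u = 0 :=
  self_eq_neg.1 (d5_skew hB u u)

theorem d5_tv (x v : n → Ω) : tv B x *ᵥ v = (x ᵥ* B ⬝ᵥ v) • x := by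
  rw [tv, vecMulVec_mulVec, op_smul_eq_smul]

theorem d5_iso {g : Matrix n n Ω} (hg : gᵀ * B * g = B) (u v : n → Ω) :
    (g *ᵥ u) ᵥ* B ⬝ᵥ g *ᵥ v = u ᵥ* B ⬝ᵥ v := by
  rw [dotProduct_mulVec, ← vecMul_transpose, vecMul_vecMul, vecMul_vecMul, ← mul_assoc, hg]

theorem d5_nd (hB0 : B.det ≠ 0) {x : n → Ω} (hx : x ≠ 0) : ∃ w, x ᵥ* B ⬝ᵥ w ≠ 0 := by
  obtain ⟨i, hi⟩ := Function.ne_iff.1 (mt (eq_zero_of_vecMul_eq_zero hB0) hx)
  exact ⟨Pi.single i 1, by simpa using hi⟩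

theorem tv_sq (hB : Bᵀ = -B) (x : n → Ω) : tv B x * tv B x = 0 := by
  rw [tv, vecMulVec_mul_vecMulVec, d5_self hB, zero_smul, vecMulVec_zero]

theorem tv_sp (hB : Bᵀ = -B) (x : n → Ω) : (tv B x)ᵀ * B + B * tv B x = 0 := by
  rw [tv, transpose_vecMulVec, vecMulVec_mul, mul_vecMulVec, d5_mulVec hB, neg_vecMulVec,
    add_neg_cancel]

theorem tv_iso (hB : Bᵀ = -B) (x : n → Ω) (c : Ω) :
    (1 + c • tv B x)ᵀ * B * (1 + c • tv B x) = B := by
  have h1 : (tv B x)ᵀ * B = -(B * tv B x) := eq_neg_of_add_eq_zero_left (tv_sp hB x)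
  rw [transpose_add, transpose_one, transpose_smul, add_mul, one_mul, smul_mul_assoc, h1, mul_add,
    mul_one, add_mul, mul_smul_comm, smul_mul_smul_comm, neg_mul, mul_assoc, tv_sq hB, mul_zero,
    neg_zero, smul_zero, add_zero, smul_neg, neg_add_cancel_right]

theorem d5_inv (hB : Bᵀ = -B) (x : n → Ω) (c : Ω) (g : Matrix n n Ω) :
    (1 + (-c) • tv B x) * ((1 + c • tv B x) * g) = g := by
  rw [← mul_assoc, mul_add, mul_one, add_mul 1 _ (c • tv B x), one_mul, smul_mul_smul_comm,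
    tv_sq hB, smul_zero, add_zero, neg_smul, neg_add_cancel_right, one_mul]

theorem d5_mul {g h : Matrix n n Ω} (hg : gᵀ * B * g = B) (hh : hᵀ * B * h = B) :
    (g * h)ᵀ * B * (g * h) = B := by
  rw [transpose_mul, ← mul_assoc, mul_assoc hᵀ, mul_assoc hᵀ, hg, hh]

/-- The fixed space. -/
def d5F (g : Matrix n n Ω) : Submodule Ω (n → Ω) := LinearMap.ker (g - 1).mulVecLin

theorem d5F_mem {g : Matrix n n Ω} {u : n → Ω} : u ∈ d5F g ↔ g *ᵥ u = u := by
  rw [d5F, LinearMap.mem_ker, mulVecLin_apply, sub_mulVec, one_mulVec, sub_eq_zero]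

theorem d5_act (g : Matrix n n Ω) (x w : n → Ω) (c : Ω) :
    ((1 + c • tv B x) * g) *ᵥ w = g *ᵥ w + (c * (x ᵥ* B ⬝ᵥ g *ᵥ w)) • x := by
  rw [← mulVec_mulVec, add_mulVec, one_mulVec, smul_mulVec, d5_tv, smul_smul]

theorem d5F_le {g : Matrix n n Ω} (hg : gᵀ * B * g = B) (v : n → Ω) (c : Ω) :
    d5F g ≤ d5F ((1 + c • tv B (g *ᵥ v - v)) * g) := fun u hu => by
  have h := d5F_mem.1 hu
  rw [d5F_mem, d5_act, sub_vecMul, sub_dotProduct, d5_iso hg, h, sub_self, mul_zero, zero_smul,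
    add_zero]

theorem d5F_lt (hB : Bᵀ = -B) {g : Matrix n n Ω} (hg : gᵀ * B * g = B) {v : n → Ω}
    (hv : (g *ᵥ v) ᵥ* B ⬝ᵥ v ≠ 0) :
    d5F g < d5F ((1 + (-((g *ᵥ v) ᵥ* B ⬝ᵥ v)⁻¹) • tv B (g *ᵥ v - v)) * g) := by
  refine SetLike.lt_iff_le_and_exists.2 ⟨d5F_le hg v _, v, ?_, fun h => hv ?_⟩
  · rw [d5F_mem, d5_act, sub_vecMul, sub_dotProduct, d5_self hB, d5_skew hB v, zero_sub, neg_neg,
      neg_mul, inv_mul_cancel₀ hv, neg_one_smul, neg_sub, add_sub_cancel]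
  · rw [d5F_mem.1 h, d5_self hB]

theorem sp_induction (hB : Bᵀ = -B) (hB0 : B.det ≠ 0) (Q : Matrix n n Ω → Prop) (h1 : Q 1)
    (hm : ∀ g h, Q g → Q h → Q (g * h)) (ht : ∀ x (c : Ω), Q (1 + c • tv B x))
    {g : Matrix n n Ω} (hg : gᵀ * B * g = B) : Q g := by
  have back : ∀ g x (c : Ω), Q ((1 + c • tv B x) * g) → Q g := fun g x c h =>
    d5_inv hB x c g ▸ hm _ _ (ht x (-c)) h
  generalize hF : d5F g = F
  induction F using WellFoundedGT.induction generalizing g with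
  | _ F ih =>
    subst hF
    by_cases h : ∃ v, (g *ᵥ v) ᵥ* B ⬝ᵥ v ≠ 0
    · obtain ⟨v, hv⟩ := h
      exact back _ _ _ (ih _ (d5F_lt hB hg hv) (d5_mul (tv_iso hB _ _) hg) rfl)
    push Not at h
    by_cases e : ∀ u, g *ᵥ u = u
    · rwa [show g = 1 from ext_of_mulVec_single fun i => by rw [e, one_mulVec]]
    obtain ⟨u, hu⟩ := not_forall.1 e
    obtain ⟨w, hw⟩ := d5_nd hB0 (sub_ne_zero.2 hu)
    have a1 := h (u + w)
    rw [mulVec_add, add_vecMul, add_dotProduct, dotProduct_add, dotProduct_add, h u, h w,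
      d5_skew hB (g *ᵥ w) u] at a1
    have a2 : (g *ᵥ u - u) ᵥ* B ⬝ᵥ g *ᵥ w = -((g *ᵥ u - u) ᵥ* B ⬝ᵥ w) := by
      rw [sub_vecMul, sub_dotProduct, sub_dotProduct, d5_iso hg]
      linear_combination a1
    have a3 := d5_mul (tv_iso hB (g *ᵥ u - u) 1) hg
    have a4 : (((1 + (1 : Ω) • tv B (g *ᵥ u - u)) * g) *ᵥ w) ᵥ* B ⬝ᵥ w ≠ 0 := by
      rw [d5_act, add_vecMul, add_dotProduct, h w, zero_add, smul_vecMul, smul_dotProduct, a2,
        one_mul, smul_eq_mul]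
      exact mul_ne_zero (neg_ne_zero.2 hw) hw
    exact back _ _ _ (back _ _ _ (ih _ ((d5F_le hg u 1).trans_lt (d5F_lt hB a3 a4))
      (d5_mul (tv_iso hB _ _) a3) rfl))

/-- The transported form. -/
def d5G (B : Matrix n n Ω) {R : Type} [CommRing R] [Algebra Ω R] (g : Matrix n n R) :
    Matrix n n R := gᵀ * B.map (algebraMap Ω R) * g

theorem d5G_aeval {R : Type} [CommRing R] [Algebra Ω R] (g : Matrix n n R) (i j : n) :
    MvPolynomial.aeval (fun ij : n × n => g ij.1 ij.2)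
      (d5G B (Matrix.of fun x y => (MvPolynomial.X (x, y) : MvPolynomial _ Ω)) i j) =
        d5G B g i j := by
  simp [d5G, mul_apply]

theorem tangent_gsp (h1 : 1 ∈ S) (hB : B ≠ 0) (h : ∀ s ∈ S, ∃ ν : Ω, sᵀ * B * s = ν • B)
    {X : Matrix n n Ω} (hX : Tangent S X) : ∃ t : Ω, Xᵀ * B + B * X = t • B := by
  obtain ⟨k, l, hkl⟩ : ∃ k l, B k l ≠ 0 := by
    by_contra e
    push Not at e
    exact hB (Matrix.ext e)
  have e : d5G B (1 + (DualNumber.eps : DualNumber Ω) •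
      X.map (algebraMap Ω (DualNumber Ω))) = B.map (algebraMap Ω _) +
        (DualNumber.eps : DualNumber Ω) • (Xᵀ * B + B * X).map (algebraMap Ω _) := by
    rw [d5G, Matrix.map_add _ (map_add _), Matrix.map_mul, Matrix.map_mul]
    simp only [transpose_add, transpose_smul, transpose_one, add_mul, mul_add, one_mul, mul_one,
      smul_mul_assoc, mul_smul_comm, smul_smul, DualNumber.eps_mul_eps, zero_smul, add_zero,
      smul_add, transpose_map, add_assoc]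
  refine ⟨(Xᵀ * B + B * X) k l / B k l, Matrix.ext fun i j => ?_⟩
  have h2 := hX.pt (R := DualNumber Ω) h1 _ DualNumber.eps_mul_eps
    (d5G B (Matrix.of fun x y => MvPolynomial.X (x, y)) i j * MvPolynomial.C (B k l) -
      d5G B (Matrix.of fun x y => MvPolynomial.X (x, y)) k l * MvPolynomial.C (B i j))
    fun s hs => by
      obtain ⟨ν, hν⟩ := h s hs
      have e1 : d5G B s = ν • B := hν
      rw [← MvPolynomial.aeval_eq_eval, map_sub, map_mul, map_mul, d5G_aeval, d5G_aeval, e1]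
      simp only [Matrix.smul_apply, smul_eq_mul, MvPolynomial.aeval_C,
        Algebra.algebraMap_self_apply]
      ring
  rw [map_sub, map_mul, map_mul, d5G_aeval, d5G_aeval, e] at h2
  generalize Xᵀ * B + B * X = Y at h2 ⊢
  have h3 : Y i j * B k l - Y k l * B i j = 0 := by
    refine eps_inj _ ?_
    simp only [Matrix.add_apply, Matrix.smul_apply, map_apply, smul_eq_mul,
      MvPolynomial.aeval_C] at h2
    rw [map_sub, map_mul, map_mul]
    linear_combination h2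
  rw [Matrix.smul_apply, smul_eq_mul, div_mul_eq_mul_div, eq_div_iff hkl]
  exact sub_eq_zero.1 h3

theorem tangent_tv (hS : ∀ a ∈ S, ∀ b ∈ S, a * b ∈ S) (h1 : 1 ∈ S) (hB : Bᵀ = -B)
    (hB0 : B.det ≠ 0) (h : ∀ X, Xᵀ * B + B * X = 0 → X ∈ tang S ⊔ Ω ∙ (1 : Matrix n n Ω))
    (x : n → Ω) : Tangent S (tv B x) := by
  by_cases hx : x = 0
  · rw [hx, tv, zero_vecMul, vecMulVec_zero]
    exact (tang S).zero_mem
  obtain ⟨y, hy⟩ := d5_nd hB0 hx
  have br : ∀ X Y, Xᵀ * B + B * X = 0 → Yᵀ * B + B * Y = 0 → X * Y - Y * X ∈ tang S := by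
    intro X Y hX hY
    obtain ⟨X', a1, _, a2, rfl⟩ := Submodule.mem_sup.1 (h X hX)
    obtain ⟨Y', b1, _, b2, rfl⟩ := Submodule.mem_sup.1 (h Y hY)
    obtain ⟨a, rfl⟩ := Submodule.mem_span_singleton.1 a2
    obtain ⟨b, rfl⟩ := Submodule.mem_span_singleton.1 b2
    have e : (X' + a • 1) * (Y' + b • 1) - (Y' + b • 1) * (X' + a • 1) = X' * Y' - Y' * X' := by
      simp only [mul_add, add_mul, smul_mul_assoc, mul_smul_comm, one_mul, mul_one, smul_add,
        smul_smul, mul_comm b a]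
      abel
    rw [e]
    exact Tangent.bracket hS h1 a1 b1
  have a1 := br (vecMulVec x (y ᵥ* B) + vecMulVec y (x ᵥ* B)) (tv B x) (by
    simp only [transpose_add, transpose_vecMulVec, add_mul, mul_add, vecMulVec_mul, mul_vecMulVec,
      d5_mulVec hB, neg_vecMulVec]
    abel) (tv_sp hB x)
  have a2 : (vecMulVec x (y ᵥ* B) + vecMulVec y (x ᵥ* B)) * tv B x -
      tv B x * (vecMulVec x (y ᵥ* B) + vecMulVec y (x ᵥ* B)) = (-2 * (x ᵥ* B ⬝ᵥ y)) • tv B x := by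
    simp only [tv, add_mul, mul_add, vecMulVec_mul_vecMulVec, d5_self hB, d5_skew hB y x,
      vecMulVec_smul]
    module
  rw [a2] at a1
  exact ((tang S).smul_mem_iff (mul_ne_zero (by norm_num) hy)).1 a1

theorem d5_det (hB0 : B.det ≠ 0) {g : Matrix n n Ω} (hg : gᵀ * B * g = B) : IsUnit g.det := by
  refine Ne.isUnit fun e => hB0 ?_
  rw [← hg, det_mul, e, mul_zero]

theorem d5_scale {g : Matrix n n Ω} {t u : Ω} (h : gᵀ * B * g = t • B) (hu : u ^ 2 = t)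
    (h0 : u ≠ 0) : (u⁻¹ • g)ᵀ * B * (u⁻¹ • g) = B := by
  rw [transpose_smul, smul_mul_assoc, smul_mul_smul_comm, h, smul_smul, ← hu,
    show u⁻¹ * u⁻¹ * u ^ 2 = 1 by field_simp, one_smul]

theorem pt_gsp [IsAlgClosed Ω] (hS : ∀ a ∈ S, ∀ b ∈ S, a * b ∈ S) (h1 : 1 ∈ S) (hB : Bᵀ = -B)
    (hB0 : B.det ≠ 0) (ht : ∀ x, Tangent S (tv B x)) {φ : Matrix n n Ω} (hφ : φ ∈ S) {ν : Ω}
    (h0 : ν ≠ 0) (hν : φᵀ * B * φ = ν • B) (hi : ∀ N, 0 < N → ν ^ N ≠ 1) {g : Matrix n n Ω}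
    (hg : g.det ≠ 0) {t : Ω} (h : gᵀ * B * g = t • B) : Pt S g := by
  have sp : ∀ g : Matrix n n Ω, gᵀ * B * g = B → Pt S g := fun g hg =>
    sp_induction hB hB0 (fun g => Pt S g) (pt_self h1) (fun _ _ a b => a.mul hS b)
      (fun x c => pt_one_add hS h1 ((tang S).smul_mem c (ht x))
        (by rw [smul_mul_smul_comm, tv_sq hB, smul_zero])) hg
  obtain ⟨s, hs⟩ := IsAlgClosed.exists_pow_nat_eq ν two_pos
  have s0 : s ≠ 0 := fun e => h0 (by rw [← hs, e, zero_pow two_ne_zero])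
  have a1 := d5_scale hν hs s0
  have a2 := d5_det hB0 a1
  have a3 : (s⁻¹ • φ)⁻¹ᵀ * B * (s⁻¹ • φ)⁻¹ = B := by
    conv_lhs => rw [← a1]
    rw [← mul_assoc, ← mul_assoc, ← transpose_mul, mul_assoc, mul_nonsing_inv _ a2, transpose_one,
      one_mul, mul_one]
  have a4 : Pt S (s • (1 : Matrix n n Ω)) := by
    have := (pt_self hφ).mul hS (sp _ a3)
    rwa [show φ * (s⁻¹ • φ)⁻¹ = s • (1 : Matrix n n Ω) by
      rw [← mul_nonsing_inv _ a2, ← smul_mul_assoc, smul_smul, mul_inv_cancel₀ s0, one_smul]]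
      at this
  have a5 : ∀ N : ℕ, Pt S (s ^ N • (1 : Matrix n n Ω)) := fun N => by
    induction N with
    | zero => rw [pow_zero, one_smul]; exact pt_self h1
    | succ N ih =>
      have := ih.mul hS a4
      rwa [smul_mul_smul_comm, mul_one, ← pow_succ] at this
  have a6 : ∀ u : Ω, u ≠ 0 → Pt S (u • (1 : Matrix n n Ω)) := fun u hu => by
    obtain ⟨χ, hχ⟩ := exists_char_ext (fun _ : Unit => Units.mk0 s s0) (fun m hm => by
      funext i
      by_contra e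
      refine hi (m i).natAbs (Int.natAbs_pos.2 e) ?_
      rw [Fintype.prod_unique, show (default : Unit) = i from rfl, ← pow_natAbs_eq_one] at hm
      have := congrArg Units.val hm
      rw [Units.val_pow_eq_pow_val, Units.val_mk0, Units.val_one] at this
      rw [← hs, ← pow_mul, mul_comm, pow_mul, this, one_pow]) fun _ => Units.mk0 u hu
    have := pt_char (S := S) Finset.univ (fun _ : Unit => Units.mk0 s s0) (fun _ => 1)
      (fun N => by simpa using a5 N) χ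
    rw [Fintype.sum_unique, hχ ()] at this
    exact this
  by_cases t0 : t = 0
  · rcases isEmpty_or_nonempty n with e | e
    · rw [Subsingleton.elim g 1]
      exact pt_self h1
    · have := congrArg det h
      rw [t0, zero_smul, det_zero, det_mul, det_mul, det_transpose] at this
      exact absurd this (mul_ne_zero (mul_ne_zero hg hB0) hg)
  obtain ⟨u, hu⟩ := IsAlgClosed.exists_pow_nat_eq t two_pos
  have u0 : u ≠ 0 := fun e => t0 (by rw [← hu, e, zero_pow two_ne_zero])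
  have := (a6 u u0).mul hS (sp _ (d5_scale h hu u0))
  rwa [smul_mul_smul_comm, mul_inv_cancel₀ u0, one_smul, one_mul] at this

end Pool.Agent.Lib.MP_d61fbb_ag.DW
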