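import Pool.Agent.Lib.MP_d61fbb_ag.DW.T1
import Pool.Agent.Lib.MP_d61fbb_ag.DW.D5
import Pool.Agent.Lib.MP_0d42ed_ag.TP.P7

/-! Invariant tensors of the symplectic group. -/

set_option autoImplicit false
set_option linter.unusedSectionVars false

noncomputable section

namespace Pool.Agent.Lib.MP_d61fbb_ag.DW

open Matrix Pool.Agent.Lib.MP_0d42ed_ag.TP Pool.Agent.Lib.MP_d61fbb_ag.SQ

section aux

variable {Ω ι S S' : Type} [Field Ω] [CharZero Ω] [Fintype ι] [DecidableEq ι] [Fintype S]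
  [DecidableEq S] [Fintype S'] [DecidableEq S'] {B : Matrix ι ι Ω}

theorem t2_add (X Y : Matrix ι ι Ω) (t : (S → ι) → Ω) : dt (X + Y) t = dt X t + dt Y t := by
  funext I
  simp only [dt, Matrix.add_apply, Pi.add_apply, mul_add, Finset.sum_add_distrib]

theorem t2_pol {t : (S → ι) → Ω} (h : ∀ x, dt (tv B x) t = 0) (x y : ι → Ω) :
    dt (vecMulVec x (y ᵥ* B) + vecMulVec y (x ᵥ* B)) t = 0 := by
  have e : tv B (x + y) = vecMulVec x (y ᵥ* B) + vecMulVec y (x ᵥ* B) + tv B x + tv B y := by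
    simp only [tv, add_vecMul, add_vecMulVec, vecMulVec_add]
    abel
  have := h (x + y)
  rwa [e, t2_add, t2_add, h, h, add_zero, add_zero] at this

/-- A multi-index from two indices and a smaller multi-index. -/
def t2x (e : Option (Option S') ≃ S) (a b : ι) (K : S' → ι) : S → ι :=
  fun s => (e.symm s).elim a fun o => o.elim b K

/-- The contraction of two slots. -/
def t2c (B : Matrix ι ι Ω) (e : Option (Option S') ≃ S) (t : (S → ι) → Ω) : (S' → ι) → Ω :=
  fun K => ∑ a, ∑ b, B⁻¹ a b * t (t2x e a b K)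

theorem t2_dt (e : Option (Option S') ≃ S) (X : Matrix ι ι Ω) (t : (S → ι) → Ω) (a b : ι)
    (K : S' → ι) : dt X t (t2x e a b K) = ∑ c, t (t2x e c b K) * X c a +
      (∑ c, t (t2x e a c K) * X c b +
        ∑ s, ∑ c, t (t2x e a b (Function.update K s c)) * X c (K s)) := by
  have h1 : ∀ c, Function.update (t2x e a b K) (e none) c = t2x e c b K := fun c => by
    funext s
    obtain ⟨o, rfl⟩ := e.surjective s
    rcases o with _ | _ | o <;> simp [t2x]
  have h2 : ∀ c, Function.update (t2x e a b K) (e (some none)) c = t2x e a c K := fun c => by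
    funext s
    obtain ⟨o, rfl⟩ := e.surjective s
    rcases o with _ | _ | o <;> simp [t2x]
  have h3 : ∀ s c, Function.update (t2x e a b K) (e (some (some s))) c =
      t2x e a b (Function.update K s c) := fun s c => by
    funext s'
    obtain ⟨o, rfl⟩ := e.surjective s'
    rcases o with _ | _ | o <;> simp [t2x, Function.update_apply]
  rw [dt, ← e.sum_comp, Fintype.sum_option, Fintype.sum_option]
  simp only [h1, h2, h3]
  simp [t2x]

theorem t2_four {α β γ δ : Type} [Fintype α] [Fintype β] [Fintype γ] [Fintype δ]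
    (f : α → β → γ → δ → Ω) : ∑ a, ∑ b, ∑ s, ∑ c, f a b s c = ∑ s, ∑ c, ∑ a, ∑ b, f a b s c := by
  rw [← Fintype.sum_prod_type' (fun a b => ∑ s, ∑ c, f a b s c), Finset.sum_comm]
  refine Finset.sum_congr rfl fun s _ => ?_
  rw [Finset.sum_comm]
  exact Finset.sum_congr rfl fun c _ => Fintype.sum_prod_type' fun a b => f a b s c

theorem t2_con (hB0 : B.det ≠ 0) (e : Option (Option S') ≃ S) {X : Matrix ι ι Ω}
    (hX : Xᵀ * B + B * X = 0) {t : (S → ι) → Ω} (h : dt X t = 0) : dt X (t2c B e t) = 0 := by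
  have u1 := Matrix.nonsing_inv_mul B hB0.isUnit
  have u2 := Matrix.mul_nonsing_inv B hB0.isUnit
  have h1 : X * B⁻¹ + B⁻¹ * Xᵀ = 0 := by
    have : B⁻¹ * (Xᵀ * B + B * X) * B⁻¹ = X * B⁻¹ + B⁻¹ * Xᵀ := by
      rw [Matrix.mul_add, Matrix.add_mul, ← Matrix.mul_assoc B⁻¹ B, u1, Matrix.one_mul,
        Matrix.mul_assoc, Matrix.mul_assoc, u2, Matrix.mul_one, add_comm]
    rw [← this, hX, Matrix.mul_zero, Matrix.zero_mul]
  funext K
  have h2 : ∑ a, ∑ b, B⁻¹ a b * dt X t (t2x e a b K) = 0 := by simp [h]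
  simp only [t2_dt, mul_add, Finset.sum_add_distrib] at h2
  have h3 : ∑ a, ∑ b, B⁻¹ a b * ∑ c, t (t2x e c b K) * X c a =
      ∑ u, ∑ v, t (t2x e u v K) * (X * B⁻¹) u v := by
    simp only [Matrix.mul_apply, Finset.mul_sum]
    rw [Finset.sum_comm]
    conv_rhs => rw [Finset.sum_comm]
    refine Finset.sum_congr rfl fun b _ => ?_
    rw [Finset.sum_comm]
    exact Finset.sum_congr rfl fun c _ => Finset.sum_congr rfl fun a _ => by ring
  have h4 : ∑ a, ∑ b, B⁻¹ a b * ∑ c, t (t2x e a c K) * X c b =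
      ∑ u, ∑ v, t (t2x e u v K) * (B⁻¹ * Xᵀ) u v := by
    simp only [Matrix.mul_apply, Finset.mul_sum, transpose_apply]
    refine Finset.sum_congr rfl fun a _ => ?_
    rw [Finset.sum_comm]
    exact Finset.sum_congr rfl fun c _ => Finset.sum_congr rfl fun b _ => by ring
  have h5 : ∑ a, ∑ b, B⁻¹ a b * ∑ s, ∑ c, t (t2x e a b (Function.update K s c)) * X c (K s) =
      dt X (t2c B e t) K := by
    simp only [dt, t2c, Finset.mul_sum, Finset.sum_mul, mul_assoc]
    exact t2_four _
  rw [h3, h4, h5, ← add_assoc, ← Finset.sum_add_distrib] at h2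
  simp only [← Finset.sum_add_distrib, ← mul_add, ← Matrix.add_apply, h1] at h2
  simpa using h2

/-- One more pair in a matching. -/
def t2e (i : ℕ) : Fin (i + 1) ⊕ Fin (i + 1) ≃ Option (Option (Fin i ⊕ Fin i)) where
  toFun := Sum.elim (Fin.cases none fun k => some (some (.inl k)))
    (Fin.cases (some none) fun k => some (some (.inr k)))
  invFun o := o.elim (.inl 0) fun o => o.elim (.inr 0) (Sum.map Fin.succ Fin.succ)
  left_inv := by
    rintro (k | k) <;> induction k using Fin.cases <;> rfl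
  right_inv := by
    rintro (_ | _ | k | k) <;> rfl

theorem t2_ext {i : ℕ} (e : Option (Option S') ≃ S) {c : (S' → ι) → Ω} (hc : c ∈ MS S' i {B}) :
    (fun I : S → ι => B (I (e none)) (I (e (some none))) * c fun s => I (e (some (some s)))) ∈
      MS S (i + 1) {B} := by
  induction hc using Submodule.span_induction with
  | mem x hx =>
    obtain ⟨f, M, hM, rfl⟩ := hx
    obtain rfl : M = fun _ => B := funext hM
    refine Submodule.subset_span ⟨((t2e i).trans f.optionCongr.optionCongr).trans e,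
      fun _ => B, fun _ => rfl, funext fun I => ?_⟩
    rw [MP_0d42ed_ag.TP.mt, MP_0d42ed_ag.TP.mt, Fin.prod_univ_succ]
    rfl
  | zero =>
    simp only [Pi.zero_apply, mul_zero]
    exact Submodule.zero_mem _
  | add x y _ _ hx hy =>
    simp only [Pi.add_apply, mul_add]
    exact Submodule.add_mem _ hx hy
  | smul a x _ hx =>
    simp only [Pi.smul_apply, smul_eq_mul, mul_left_comm _ a]
    exact Submodule.smul_mem _ a hx

theorem t2_rel (hB0 : B.det ≠ 0) {t : (S → ι) → Ω} (h : ∀ x, dt (tv B x) t = 0) (s0 : S)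
    (I : S → ι) : ((Fintype.card ι : Ω) + 1) * t I +
      ∑ j ∈ Finset.univ.erase s0, t (I ∘ Equiv.swap s0 j) = -∑ j ∈ Finset.univ.erase s0,
        B (I s0) (I j) * ∑ a, ∑ b, B⁻¹ a b * t (Function.update (Function.update I s0 a) j b) := by
  have u1 := Matrix.nonsing_inv_mul B hB0.isUnit
  have u2 := Matrix.mul_nonsing_inv B hB0.isUnit
  have h1 : ∀ a, t I + ∑ b, t (Function.update I s0 b) * (B (I s0) a * B⁻¹ a b) +
      ∑ j ∈ Finset.univ.erase s0,
        ((if I j = a then t (Function.update (Function.update I s0 a) j (I s0)) else 0) +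
        B (I s0) (I j) * ∑ b, B⁻¹ a b * t (Function.update (Function.update I s0 a) j b)) = 0 := by
    intro a
    have h2 := congrFun (t2_pol h (Pi.single (I s0) 1) (Pi.single a 1 ᵥ* B⁻¹))
      (Function.update I s0 a)
    rw [vecMul_vecMul, u1, vecMul_one, dt, ← Finset.add_sum_erase _ _ (Finset.mem_univ s0)] at h2
    refine Eq.trans ?_ h2
    congr 1
    · simp [vecMulVec_apply, add_mul, Finset.sum_add_distrib, Pi.single_apply, mul_comm]
    · refine Finset.sum_congr rfl fun j hj => ?_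
      rw [Function.update_of_ne (Finset.ne_of_mem_erase hj), Finset.mul_sum]
      simp only [Matrix.add_apply, vecMulVec_apply, mul_add, Finset.sum_add_distrib,
        single_one_vecMul, Pi.single_apply, Matrix.row]
      congr 1
      · simp
      · exact Finset.sum_congr rfl fun b _ => by ring
  have h3 := Finset.sum_eq_zero fun a (_ : a ∈ Finset.univ) => h1 a
  have h4 : ∑ a, ∑ b, t (Function.update I s0 b) * (B (I s0) a * B⁻¹ a b) = t I := by
    rw [Finset.sum_comm]
    simp only [← Finset.mul_sum, ← Matrix.mul_apply, u2]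
    simp [one_apply]
  have h5 : ∀ j, Function.update (Function.update I s0 (I j)) j (I s0) = I ∘ Equiv.swap s0 j :=
    fun j => by rw [Equiv.swap_comm, Equiv.comp_swap_eq_update]
  rw [Finset.sum_add_distrib, Finset.sum_add_distrib, h4, Finset.sum_comm] at h3
  simp only [Finset.sum_add_distrib, Finset.sum_ite_eq, Finset.mem_univ, if_true, h5,
    ← Finset.mul_sum, Finset.sum_const, Finset.card_univ, nsmul_eq_mul] at h3
  linear_combination h3

theorem t2_pow {N : Matrix ι ι Ω} (hN : N * N = 0) (c : Ω) (n : ℕ) :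
    (1 + c • N) ^ n = 1 + ((n : Ω) * c) • N := by
  induction n with
  | zero => simp
  | succ n ih =>
    rw [pow_succ, ih]
    simp only [Matrix.mul_add, Matrix.mul_one, Matrix.smul_mul,
      Matrix.mul_smul, hN, smul_zero, add_zero, Nat.cast_succ, add_mul, one_mul, add_smul]
    abel

end aux

theorem fft_sp {Ω ι : Type} [Field Ω] [CharZero Ω] [Fintype ι] [DecidableEq ι] {B : Matrix ι ι Ω}
    (hB : Bᵀ = -B) (hB0 : B.det ≠ 0) (i : ℕ) : ∀ (S : Type) [Fintype S] [DecidableEq S],
    Fintype.card S = 2 * i → ∀ t : (S → ι) → Ω, (∀ x, dt (tv B x) t = 0) → t ∈ MS S i {B} := by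
  induction i with
  | zero =>
    intro S _ _ hS t _
    have : IsEmpty S := Fintype.card_eq_zero_iff.1 hS
    have e : t = t isEmptyElim • MP_0d42ed_ag.TP.mt (i := 0) (Equiv.equivOfIsEmpty _ S) fun _ => B := by
      funext I
      simp [MP_0d42ed_ag.TP.mt, Subsingleton.elim I isEmptyElim]
    rw [e]
    exact Submodule.smul_mem _ _ (Submodule.subset_span ⟨_, _, fun _ => rfl, rfl⟩)
  | succ i ih =>
    intro S _ _ hS t ht
    obtain ⟨s0⟩ : Nonempty S := Fintype.card_pos_iff.1 (by omega)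
    refine ms_of_jm s0 ?_
    rw [funext (t2_rel hB0 ht s0)]
    refine Submodule.neg_mem _ ?_
    rw [← Finset.sum_fn]
    refine Submodule.sum_mem _ fun j hj => ?_
    have hj' : j ≠ s0 := Finset.ne_of_mem_erase hj
    obtain ⟨S', _, _, e, rfl, rfl⟩ : ∃ (S' : Type) (_ : Fintype S') (_ : DecidableEq S')
        (e : Option (Option S') ≃ S), e none = s0 ∧ e (some none) = j :=
      ⟨{b : {b // b ≠ s0} // b ≠ ⟨j, hj'⟩}, inferInstance, inferInstance,
        (Equiv.optionSubtypeNe (⟨j, hj'⟩ : {b // b ≠ s0})).optionCongr.trans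
          (Equiv.optionSubtypeNe s0), rfl, rfl⟩
    have hc := Fintype.card_congr e
    rw [Fintype.card_option, Fintype.card_option] at hc
    have := t2_ext e (ih _ (by omega) (t2c B e t) fun x => t2_con hB0 e (tv_sp hB x) (ht x))
    refine (congrArg (· ∈ MS S (i + 1) {B}) (funext fun I => congrArg (_ * ·)
      (Finset.sum_congr rfl fun a _ => Finset.sum_congr rfl fun b _ =>
        congrArg (fun K => _ * t K) (funext fun s => ?_)))).mp this
    obtain ⟨o, rfl⟩ := e.surjective s
    rcases o with _ | _ | o <;> simp [t2x]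

theorem tate_main {l : ℕ} [Fact l.Prime] {ι Γ : Type} [Fintype ι] [DecidableEq ι] [Group Γ]
    {B : Matrix ι ι ℚ_[l]} (hB : Bᵀ = -B) (hB0 : B.det ≠ 0) {ρ : Γ →* Matrix ι ι ℚ_[l]}
    {χ : Γ → ℚ_[l]} (hρ : ∀ γ, (ρ γ)ᵀ * B * ρ γ = χ γ • B)
    (hz : ∀ g : Matrix ι ι (PadicAlgCl l), g.det ≠ 0 →
      gᵀ * B.map (algebraMap _ _) * g = B.map (algebraMap _ _) → Zar (Set.range ρ) g)
    (i : ℕ) (U : Subgroup Γ) [U.FiniteIndex] (t : (Fin (2 * i) → ι) → ℚ_[l]) :
    (∀ γ ∈ U, t ᵥ* tp (Fin (2 * i)) (ρ γ) = χ γ ^ i • t) ↔ t ∈ MS (Fin (2 * i)) i {B} := by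
  refine ⟨fun h => ?_, fun h γ _ => ?_⟩
  · obtain ⟨M, M0, hM⟩ := closure_inv (S := Fin (2 * i)) (i := i) hB0 ρ χ hρ U
    have b1 : (B.map (algebraMap ℚ_[l] (PadicAlgCl l)))ᵀ = -B.map (algebraMap _ _) := by
      rw [← transpose_map, hB, Matrix.map_neg _ (map_neg _)]
    have b2 : (B.map (algebraMap ℚ_[l] (PadicAlgCl l))).det ≠ 0 := by
      rw [← RingHom.mapMatrix_apply, ← RingHom.map_det]
      exact (map_ne_zero _).2 hB0
    refine MS_descend (Ω := PadicAlgCl l) ?_
    rw [Set.image_singleton]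
    refine fft_sp b1 b2 i _ (Fintype.card_fin _) _ fun x => dt_of_inv fun c => ?_
    have k := tv_iso b1 x (c / M)
    have := hM t h _ (hz _ (fun e => b2 (by rw [← k, det_mul, e, mul_zero])) k) k
    rwa [t2_pow (tv_sq b1 x), mul_div_cancel₀ _ (Nat.cast_ne_zero.2 M0)] at this
  · induction h using Submodule.span_induction with
    | mem x hx =>
      obtain ⟨e, M, hM, rfl⟩ := hx
      obtain rfl : M = fun _ => B := funext hM
      rw [mt_vecMul]
      funext I
      simp [MP_0d42ed_ag.TP.mt, hρ, Finset.prod_mul_distrib]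
    | zero => rw [zero_vecMul, smul_zero]
    | add x y _ _ hx hy => rw [add_vecMul, hx, hy, smul_add]
    | smul a x _ hx => rw [smul_vecMul, hx, smul_comm]

end Pool.Agent.Lib.MP_d61fbb_ag.DW
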