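import Pool.Agent.Lib.MP_d61fbb_ag.DW.F1

/-! The product relation. -/

set_option autoImplicit false

noncomputable section

namespace Pool.Agent.Lib.MP_d61fbb_ag.DW

open Polynomial

theorem q1_pp {M : Type} [Monoid M] {m : ℕ} (f : Fin m → M) :
    Fin.partialProd f (Fin.last m) = (List.ofFn f).prod := by
  rw [Fin.partialProd, List.take_of_length_le (by simp)]

theorem q1_map {M M' : Type} [Monoid M] [Monoid M'] (φ : M →* M') {m : ℕ} (f : Fin m → M) :
    φ (Fin.partialProd f (Fin.last m)) = Fin.partialProd (fun i => φ (f i)) (Fin.last m) := by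
  rw [q1_pp, q1_pp, map_list_prod, List.map_ofFn]
  rfl

section nil

open scoped IsMulCommutative commutatorElement

theorem q1_cen {Q : Type} [Group Q] : ∀ {m : ℕ} (c : Fin m → Subgroup.center Q) (f : Fin m → Q),
    (List.ofFn fun i => (c i : Q) * f i).prod =
      ((∏ i, c i : Subgroup.center Q) : Q) * (List.ofFn f).prod
  | 0, _, _ => by simp
  | m + 1, c, f => by
    rw [List.ofFn_succ, List.ofFn_succ, List.prod_cons, List.prod_cons, Fin.prod_univ_succ,
      q1_cen (fun i => c i.succ) (fun i => f i.succ), Subgroup.coe_mul]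
    have h := Subgroup.mem_center_iff.1 (∏ i : Fin m, c i.succ).2 (f 0)
    simp only [mul_assoc]
    rw [← mul_assoc (f 0), h, mul_assoc]

/-- The commutator as a bimultiplicative map to the center. -/
def q1c {Q : Type} [Group Q] (A : Subgroup Q) (hA : ∀ g ∈ A, ∀ p, ⁅g, p⁆ ∈ Subgroup.center Q) :
    A →* Q →* Subgroup.center Q :=
  MonoidHom.mk' (fun g => MonoidHom.mk' (fun p => ⟨⁅(g : Q), p⁆, hA g g.2 p⟩) fun p q => by
      apply Subtype.ext
      have h := Subgroup.mem_center_iff.1 (hA g g.2 q) p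
      change ⁅(g : Q), p * q⁆ = ⁅(g : Q), p⁆ * ⁅(g : Q), q⁆
      have e : ⁅(g : Q), p * q⁆ = ⁅(g : Q), p⁆ * (p * ⁅(g : Q), q⁆) * p⁻¹ := by
        simp only [commutatorElement_def]
        group
      rw [e, h]
      group) fun g g' => by
    ext p
    have h := Subgroup.mem_center_iff.1 (hA g' g'.2 p) g
    have h' := Subgroup.mem_center_iff.1 (hA g' g'.2 p) ⁅(g : Q), p⁆
    change ⁅(g : Q) * g', p⁆ = ⁅(g : Q), p⁆ * ⁅(g' : Q), p⁆
    have e : ⁅(g : Q) * g', p⁆ = (g * ⁅(g' : Q), p⁆) * (g : Q)⁻¹ * ⁅(g : Q), p⁆ := by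
      simp only [commutatorElement_def]
      group
    rw [e, h, h']
    group

theorem q1_step {Q : Type} [Group Q] (A : Subgroup Q)
    (hA : ∀ g ∈ A, ∀ p, ⁅g, p⁆ ∈ Subgroup.center Q) {m : ℕ} (x : Fin m → Q)
    (hx : Subgroup.closure (Set.range x) = ⊤) (u : Fin m → Q) {d : Q}
    (hd : d ∈ ⁅A, (⊤ : Subgroup Q)⁆) :
    ∃ v : Fin m → Q, (List.ofFn fun i => v i * u i * x i * (v i * u i)⁻¹).prod =
      d * (List.ofFn fun i => u i * x i * (u i)⁻¹).prod := by
  classical
  let Φ : (Fin m → A) →* Subgroup.center Q :=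
    MonoidHom.mk' (fun v => ∏ i, q1c A hA (v i) (x i)) fun v v' => by
      simp only [Pi.mul_apply, map_mul, MonoidHom.mul_apply, Finset.prod_mul_distrib]
  have h1 : ∀ (g : A) (p : Q), q1c A hA g p ∈ Φ.range := by
    intro g p
    have h2 : Subgroup.closure (Set.range x) ≤ Φ.range.comap (q1c A hA g) := by
      rw [Subgroup.closure_le]
      rintro _ ⟨i, rfl⟩
      refine ⟨Pi.mulSingle i g, ?_⟩
      change ∏ l, q1c A hA (Pi.mulSingle (M := fun _ => A) i g l) (x l) = _
      rw [Finset.prod_eq_single i]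
      · rw [Pi.mulSingle_eq_same]
      · intro l _ hl
        rw [Pi.mulSingle_eq_of_ne hl, map_one, MonoidHom.one_apply]
      · intro hi
        exact absurd (Finset.mem_univ i) hi
    rw [hx] at h2
    exact h2 (Subgroup.mem_top p)
  have h3 : ⁅A, (⊤ : Subgroup Q)⁆ ≤ Φ.range.map (Subgroup.center Q).subtype := by
    rw [Subgroup.commutator_le]
    intro g hg p _
    exact ⟨q1c A hA ⟨g, hg⟩ p, h1 _ _, rfl⟩
  obtain ⟨_, ⟨v, rfl⟩, rfl⟩ := h3 hd
  refine ⟨fun i => v i, ?_⟩
  have h4 : (fun i => (v i : Q) * u i * x i * (v i * u i)⁻¹) =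
      fun i => (q1c A hA (v i) (x i) : Q) * (u i * x i * (u i)⁻¹) := by
    funext i
    have h5 : q1c A hA (v i) (x i) = q1c A hA (v i) (u i * x i * (u i)⁻¹) := by
      rw [map_mul, map_mul, map_inv, mul_inv_cancel_comm]
    rw [h5]
    change _ = ⁅(v i : Q), u i * x i * (u i)⁻¹⁆ * _
    simp only [commutatorElement_def]
    group
  rw [h4, q1_cen]
  rfl

/-- In a nilpotent group an element congruent to the product of the generators modulo commutators
is a product of conjugates of the generators. -/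
theorem nil_prod {P : Type} [Group P] [Group.IsNilpotent P] {m : ℕ} (x : Fin m → P)
    (hx : Subgroup.closure (Set.range x) = ⊤) {w : P}
    (hw : w⁻¹ * Fin.partialProd x (Fin.last m) ∈ commutator P) :
    ∃ u : Fin m → P, Fin.partialProd (fun i => u i * x i * (u i)⁻¹) (Fin.last m) = w := by
  have key : ∀ n : ℕ, ∃ u : Fin m → P,
      w⁻¹ * Fin.partialProd (fun i => u i * x i * (u i)⁻¹) (Fin.last m) ∈
        (⊤ : Subgroup P).lowerCentralSeries (n + 1) := by
    intro n
    induction n with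
    | zero =>
      refine ⟨fun _ => 1, ?_⟩
      simp only [one_mul, inv_one, mul_one]
      exact hw
    | succ n ih =>
      obtain ⟨u, hu⟩ := ih
      let π := QuotientGroup.mk' ((⊤ : Subgroup P).lowerCentralSeries (n + 2))
      have hπ : Function.Surjective π := QuotientGroup.mk'_surjective _
      have hc : ∀ g ∈ (⊤ : Subgroup P).lowerCentralSeries (n + 1), π g ∈ Subgroup.center _ := by
        intro g hg
        rw [Subgroup.mem_center_iff]
        intro q
        obtain ⟨q, rfl⟩ := hπ q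
        have h1 : π ⁅g, q⁆ = 1 := (QuotientGroup.eq_one_iff _).2
          (Subgroup.commutator_mem_commutator hg (Subgroup.mem_top q))
        rw [map_commutatorElement, commutatorElement_eq_one_iff_mul_comm] at h1
        exact h1.symm
      have hA : ∀ g ∈ ((⊤ : Subgroup P).lowerCentralSeries n).map π,
          ∀ p : P ⧸ (⊤ : Subgroup P).lowerCentralSeries (n + 2), ⁅g, p⁆ ∈ Subgroup.center _ := by
        rintro _ ⟨g, hg, rfl⟩ p
        obtain ⟨p, rfl⟩ := hπ p
        rw [← map_commutatorElement]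
        exact hc _ (Subgroup.commutator_mem_commutator hg (Subgroup.mem_top p))
      have hx' : Subgroup.closure (Set.range fun i => π (x i)) = ⊤ := by
        have h1 : (Set.range fun i => π (x i)) = π '' Set.range x := by
          rw [← Set.range_comp]
          rfl
        rw [h1, ← MonoidHom.map_closure, hx, Subgroup.map_top_of_surjective _ hπ]
      have hd : (π (w⁻¹ * Fin.partialProd (fun i => u i * x i * (u i)⁻¹) (Fin.last m)))⁻¹ ∈
          ⁅((⊤ : Subgroup P).lowerCentralSeries n).map π, (⊤ : Subgroup _)⁆ := by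
        rw [← Subgroup.map_top_of_surjective _ hπ, ← Subgroup.map_commutator]
        exact Subgroup.inv_mem _ (Subgroup.mem_map_of_mem π hu)
      obtain ⟨v, hv⟩ := q1_step _ hA _ hx' (fun i => π (u i)) hd
      choose v' hv' using fun i => hπ (v i)
      refine ⟨fun i => v' i * u i, (QuotientGroup.eq_one_iff _).1 ?_⟩
      change π _ = 1
      have h2 := Subgroup.mem_center_iff.1 (Subgroup.inv_mem _ (hc _ hu)) (π w⁻¹)
      rw [map_mul, q1_map, q1_pp]
      simp only [map_mul, map_inv, hv'] at hv h2 ⊢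
      rw [hv, ← mul_assoc, h2, q1_map, q1_pp]
      simp only [map_mul, map_inv]
      group
  obtain ⟨n, hn⟩ := Subgroup.nilpotent_iff_lowerCentralSeries.1 ‹Group.IsNilpotent P›
  obtain ⟨u, hu⟩ := key n
  have h1 : (⊤ : Subgroup P).lowerCentralSeries (n + 1) = ⊥ := by
    rw [Subgroup.lowerCentralSeries_succ, hn, Subgroup.commutator_bot_left]
  rw [h1, Subgroup.mem_bot, inv_mul_eq_one] at hu
  exact ⟨u, hu.symm⟩

end nil

variable {k Ω G : Type} [Field k] [IsAlgClosed k] [CharZero k] [Field Ω] [IsAlgClosed Ω]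
  [Algebra k Ω] [Group G] [TopologicalSpace G] [IsTopologicalGroup G] [CompactSpace G]
  [MulSemiringAction G Ω] {z : Ω} {ζ : ℕ → k} {m : ℕ} {a : Fin m → k} {y : Fin m → G} {w : G}

theorem q1_fin {N : Subgroup G} (hN : IsOpen (N : Set G)) : Finite (G ⧸ N) :=
  N.quotient_finite_of_isOpen hN

omit [IsTopologicalGroup G] [CompactSpace G] in
theorem q1_two {N : Subgroup G} [N.Normal] (hN : Tw N) : IsPGroup 2 (G ⧸ N) := by
  intro q
  obtain ⟨g, rfl⟩ := QuotientGroup.mk'_surjective N q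
  obtain ⟨j, hj⟩ := hN.pw g
  exact ⟨j, by rw [← map_pow]; exact (QuotientGroup.eq_one_iff _).2 hj⟩

omit [IsAlgClosed k] [CharZero k] [IsAlgClosed Ω] [CompactSpace G] in
theorem q1_up {S : Set k} {N N' : Subgroup G} (h : Adm z S N) (hn : N'.Normal) (hle : N ≤ N') :
    Adm z S N' :=
  ⟨⟨hn, Subgroup.isOpen_mono hle h.1.opn, fun g => (h.1.pw g).imp fun _ hj => hle hj⟩,
    fun b hb R hR g hg => hle (h.2 b hb R hR g hg)⟩

theorem q1_char (h : GD k G z) (hζ : Rt ζ) (ha : Function.Injective a)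
    (hy : ∀ i, Gn ζ (un z (some (a i))) (y i)) (hw : Gn ζ (un z (none : Option k)) w)
    (φ : G →* kˣ) (hφ : Adm z (Set.range a) φ.ker) {j : ℕ} (hj : ∀ g, φ g ^ 2 ^ j = 1) :
    φ (Fin.partialProd y (Fin.last m) * w) = 1 := by
  classical
  choose κ hκ _ hκ1 hκ2 using fun i => h.kum hζ (a i) j
  have hne : ∀ i l, l ≠ i → κ i (y l) = 1 := fun i l hl =>
    (hκ i).gn (fun e => hl (ha e)) (hy l)
  have : NeZero (2 ^ j) := ⟨by positivity⟩
  have hm : ∀ i, ∃ n : ℕ, φ (y i) = κ i (y i) ^ n := by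
    intro i
    obtain ⟨n, -, hn⟩ := (hζ.prim j).eq_pow_of_pow_eq_one (ξ := (φ (y i) : k))
      (by rw [← Units.val_pow_eq_pow_val, hj, Units.val_one])
    exact ⟨n, Units.ext (by rw [Units.val_pow_eq_pow_val, hκ1 i _ (hy i), hn])⟩
  choose n hn using hm
  have hK : ∀ g, (g ∈ φ.ker ∧ ∀ i, g ∈ (κ i).ker) → g ∈ φ.eqLocus (∏ i, κ i ^ n i) := by
    rintro g ⟨h1, h2⟩
    change φ g = (∏ i, κ i ^ n i) g
    rw [MonoidHom.finsetProd_apply, h1, Finset.prod_eq_one]
    intro i _
    rw [MonoidHom.pow_apply, h2 i, one_pow]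
  have htop : φ.eqLocus (∏ i, κ i ^ n i) = ⊤ := by
    refine h.gen (S := Set.range a) hζ (Subgroup.isClosed_of_isOpen _ ?_) ?_ ?_
    · refine Subgroup.isOpen_mono (H₁ := φ.ker ⊓ ⨅ i, (κ i).ker) ?_ ?_
      · intro g hg
        exact hK g ⟨hg.1, Subgroup.mem_iInf.1 hg.2⟩
      · rw [Subgroup.coe_inf, Subgroup.coe_iInf]
        exact hφ.1.opn.inter (isOpen_iInter_of_finite fun i => (hκ i).1.opn)
    · intro g hg
      exact hK g ⟨nz_le hφ hg, fun i => nz_le ((hκ i).mono (by simp)) hg⟩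
    · rintro _ ⟨l, rfl⟩
      refine ⟨y l, ?_, hy l⟩
      change φ (y l) = (∏ i, κ i ^ n i) (y l)
      rw [MonoidHom.finsetProd_apply, Finset.prod_eq_single l, MonoidHom.pow_apply, hn]
      · intro i _ hi
        rw [MonoidHom.pow_apply, hne i l hi.symm, one_pow]
      · intro hl
        exact absurd (Finset.mem_univ l) hl
  have h3 : Fin.partialProd y (Fin.last m) * w ∈ φ.eqLocus (∏ i, κ i ^ n i) := by
    rw [htop]
    exact Subgroup.mem_top _
  change φ _ = (∏ i, κ i ^ n i) _ at h3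
  rw [h3, MonoidHom.finsetProd_apply, Finset.prod_eq_one]
  intro i _
  have h4 : κ i (Fin.partialProd y (Fin.last m) * w) = 1 := by
    rw [map_mul, q1_map, q1_pp, List.prod_ofFn, Finset.prod_eq_single i]
    · apply Units.ext
      rw [Units.val_mul, hκ1 i _ (hy i), mul_comm, hκ2 i _ hw, Units.val_one]
    · intro l _ hl
      exact hne i l hl
    · intro hl
      exact absurd (Finset.mem_univ i) hl
  rw [MonoidHom.pow_apply, h4, one_pow]

theorem GD.ab_prod (h : GD k G z) (hζ : Rt ζ) (ha : Function.Injective a)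
    (hy : ∀ i, Gn ζ (un z (some (a i))) (y i)) (hw : Gn ζ (un z (none : Option k)) w)
    {A : Type} [CommGroup A] (ψ : G →* A) (hψ : Adm z (Set.range a) ψ.ker) :
    ψ (Fin.partialProd y (Fin.last m) * w) = 1 := by
  have hf : Finite (G ⧸ ψ.ker) := q1_fin hψ.1.opn
  have hf' : Finite ψ.range := Finite.of_equiv _ (QuotientGroup.quotientKerEquivRange ψ).toEquiv
  have hp : IsPGroup 2 ψ.range := (q1_two hψ.1).of_equiv (QuotientGroup.quotientKerEquivRange ψ)
  have : Fact (Nat.Prime 2) := ⟨Nat.prime_two⟩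
  obtain ⟨j, hj⟩ := IsPGroup.iff_card.1 hp
  by_contra hne
  have hne' : ψ.rangeRestrict (Fin.partialProd y (Fin.last m) * w) ≠ 1 := fun e =>
    hne (congrArg Subtype.val e)
  have : NeZero (Monoid.exponent ψ.range) := ⟨Monoid.exponent_ne_zero_of_finite⟩
  obtain ⟨χ, hχ⟩ := CommGroup.exists_apply_ne_one_of_hasEnoughRootsOfUnity ψ.range k hne'
  refine hχ (q1_char h hζ ha hy hw (χ.comp ψ.rangeRestrict) (j := j)
    (q1_up hψ inferInstance ?_) ?_)
  · intro g hg
    have e : ψ.rangeRestrict g = 1 := Subtype.ext hg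
    rw [MonoidHom.mem_ker, MonoidHom.comp_apply, e, map_one]
  · intro g
    rw [MonoidHom.comp_apply, ← map_pow, ← hj, pow_card_eq_one', map_one]

theorem q1_level (h : GD k G z) (hζ : Rt ζ) (ha : Function.Injective a)
    (hy : ∀ i, Gn ζ (un z (some (a i))) (y i)) (hw : Gn ζ (un z (none : Option k)) w)
    {N : Subgroup G} (hN : Adm z (Set.range a) N) :
    ∃ u : Fin m → G, Fin.partialProd (fun i => u i * y i * (u i)⁻¹) (Fin.last m) * w ∈ N := by
  have := hN.1.normal
  have : Finite (G ⧸ N) := q1_fin hN.1.opn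
  have : Fact (Nat.Prime 2) := ⟨Nat.prime_two⟩
  have : Group.IsNilpotent (G ⧸ N) := (q1_two hN.1).isNilpotent
  let π := QuotientGroup.mk' N
  have hπ : Function.Surjective π := QuotientGroup.mk'_surjective N
  have hle : ∀ H : Subgroup (G ⧸ N), N ≤ H.comap π := fun H g hg => by
    have e : π g = 1 := (QuotientGroup.eq_one_iff _).2 hg
    rw [Subgroup.mem_comap, e]
    exact H.one_mem
  have hx : Subgroup.closure (Set.range fun i => π (y i)) = ⊤ := by
    have h1 : (Subgroup.closure (Set.range fun i => π (y i))).comap π = ⊤ := by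
      refine h.gen (S := Set.range a) hζ (Subgroup.isClosed_of_isOpen _
        (Subgroup.isOpen_mono (hle _) hN.1.opn)) ((nz_le hN).trans (hle _)) ?_
      rintro _ ⟨l, rfl⟩
      exact ⟨y l, Subgroup.subset_closure ⟨l, rfl⟩, hy l⟩
    rw [← Subgroup.map_comap_eq_self_of_surjective hπ (Subgroup.closure _), h1,
      Subgroup.map_top_of_surjective _ hπ]
  have hab := h.ab_prod hζ ha hy hw (Abelianization.of.comp π) (q1_up hN inferInstance (by
    rw [← MonoidHom.comap_ker]
    exact hle _))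
  have hc : (π w)⁻¹⁻¹ * Fin.partialProd (fun i => π (y i)) (Fin.last m) ∈ commutator (G ⧸ N) := by
    rw [← Abelianization.ker_of, MonoidHom.mem_ker, inv_inv, map_mul, mul_comm, ← map_mul,
      ← q1_map, ← map_mul]
    exact hab
  obtain ⟨u, hu⟩ := nil_prod _ hx hc
  choose u' hu' using fun i => hπ (u i)
  refine ⟨u', (QuotientGroup.eq_one_iff _).1 ?_⟩
  change π _ = 1
  rw [map_mul, q1_map]
  simp only [map_mul, map_inv, hu']
  rw [hu, inv_mul_cancel]

theorem GD.prod (h : GD k G z) (hζ : Rt ζ) (ha : Function.Injective a)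
    (hy : ∀ i, Gn ζ (un z (some (a i))) (y i)) (hw : Gn ζ (un z (none : Option k)) w) :
    ∃ u : Fin m → G, Fin.partialProd (fun i => u i * y i * (u i)⁻¹) (Fin.last m) * w ∈
      Nz G z (Set.range a) := by
  let F : (Fin m → G) → G := fun u =>
    Fin.partialProd (fun i => u i * y i * (u i)⁻¹) (Fin.last m) * w
  have hF : Continuous F := by
    refine Continuous.mul ?_ continuous_const
    simp only [q1_pp, List.ofFn_eq_map]
    exact continuous_list_prod _ fun i _ => by fun_prop
  have : Nonempty {N : Subgroup G // Adm z (Set.range a) N} := ⟨⟨⊤, adm_top⟩⟩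
  have hcl : ∀ N : {N : Subgroup G // Adm z (Set.range a) N}, IsClosed (F ⁻¹' (N.1 : Set G)) :=
    fun N => (Subgroup.isClosed_of_isOpen _ N.2.1.opn).preimage hF
  obtain ⟨u, hu⟩ := IsCompact.nonempty_iInter_of_directed_nonempty_isCompact_isClosed
    (fun N : {N : Subgroup G // Adm z (Set.range a) N} => F ⁻¹' (N.1 : Set G))
    (fun N N' => ⟨⟨N.1 ⊓ N'.1, N.2.inf N'.2⟩, fun _ hu => hu.1, fun _ hu => hu.2⟩)
    (fun N => q1_level h hζ ha hy hw N.2) (fun N => (hcl N).isCompact) hcl
  refine ⟨u, Subgroup.mem_sInf.2 fun N hN => ?_⟩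
  exact Set.mem_iInter.1 hu ⟨N, hN⟩

end Pool.Agent.Lib.MP_d61fbb_ag.DW
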