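import Pool.Agent.Lib.MP_d61fbb_ag.DW.F2
import Pool.Agent.Lib.MP_d61fbb_ag.DW.Q1

/-! The surface datum. -/

set_option autoImplicit false

noncomputable section

namespace Pool.Agent.Lib.MP_d61fbb_ag.DW

open Polynomial
open scoped Pointwise

lemma a7_cyc {k Ω H : Type} [Field k] [Field Ω] [Algebra k Ω] [IsAlgClosed k] [CharZero k]
    [IsAlgClosed Ω] [Group H] [TopologicalSpace H] [IsTopologicalGroup H] [CompactSpace H]
    [MulSemiringAction H Ω] {z : Ω} {S : Set k} {x y : H} {t : ℤ_[2]}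
    (h : ∀ N : Subgroup H, Adm z S N → ∀ ε : ℝ, 0 < ε →
      ∃ a : ℕ, (y ^ a)⁻¹ * x ∈ N ∧ ‖t - a‖ < ε) : (x, t) ∈ cyc (Nz H z S) y := by
  refine mem_closure_iff_nhds.2 fun W hW => ?_
  obtain ⟨V, hV, B, hB, hVB⟩ := mem_nhds_prod_iff.1 hW
  obtain ⟨ε, e0, hε⟩ := Metric.mem_nhds_iff.1 hB
  obtain ⟨V', v1, v2, v3⟩ := mem_nhds_iff.1 hV
  have o1 : IsOpen {v : H | x * v⁻¹ ∈ V'} := v2.preimage (by fun_prop)
  obtain ⟨N, n1, n2⟩ := exists_adm (z := z) (S := S)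
    (U := (Nz H z S : Set H) * {v : H | x * v⁻¹ ∈ V'}) o1.mul_left
    (fun n hn => ⟨n, hn, 1, by simpa using v3, mul_one n⟩)
  obtain ⟨a, a1, a2⟩ := h N n1 ε e0
  obtain ⟨n, hn, v, hv, e⟩ := n2 a1
  refine ⟨(y ^ a * n, (a : ℤ_[2])), hVB ⟨v1 ?_, hε ?_⟩, a, n, hn, rfl⟩
  · have e' : y ^ a * n = x * v⁻¹ := by
      rw [eq_mul_inv_iff_mul_eq, mul_assoc, show n * v = (y ^ a)⁻¹ * x from e, mul_inv_cancel_left]
    exact e' ▸ hv
  · rw [mem_ball_iff_norm']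
    exact a2

variable {k Ω Γ : Type} [Field k] [IsAlgClosed k] [CharZero k] [Field Ω] [IsAlgClosed Ω]
  [Algebra k Ω] [Group Γ] [TopologicalSpace Γ] [IsTopologicalGroup Γ] [MulSemiringAction Γ Ω]

section
omit [IsAlgClosed k] [CharZero k] [IsAlgClosed Ω] [TopologicalSpace Γ] [IsTopologicalGroup Γ]

lemma a7_ov (hk : ∀ (γ : Γ) (a : k), ∃ b, γ • algebraMap k Ω a = algebraMap k Ω b) (γ : Γ)
    {R : ValuationSubring Ω} {t : Ω} (o : Ov k R t) : Ov k (γ • R) (γ • t) := by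
  refine ⟨fun a => ?_, ?_⟩
  · obtain ⟨b, e⟩ := hk γ⁻¹ a
    rw [ValuationSubring.mem_pointwise_smul_iff_inv_smul_mem, e]
    exact o.1 b
  · have h := o.2
    rw [← ValuationSubring.mem_nonunits_iff, ValuationSubring.mem_nonunits_iff_or] at h ⊢
    rw [← smul_inv'', ValuationSubring.smul_mem_pointwise_smul_iff]
    exact h.imp_left fun e => by rw [e, smul_zero]

lemma a7_dc {G : Subgroup Γ} [G.Normal] (γ : Γ) {R : ValuationSubring Ω} {g : G} (d : Dc R g) :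
    Dc (γ • R) (MulAut.conjNormal γ g) := fun x => by
  rw [ValuationSubring.mem_pointwise_smul_iff_inv_smul_mem,
    ValuationSubring.mem_pointwise_smul_iff_inv_smul_mem, Subgroup.smul_def,
    MulAut.conjNormal_apply, mul_smul, mul_smul, inv_smul_smul]
  exact d _

lemma a7_th {G : Subgroup Γ} [G.Normal] (γ : Γ) {ζ : ℕ → k} {t : Ω} {g : G} {j a : ℕ}
    (e : Th ζ t g j 1) (ha : γ • algebraMap k Ω (ζ j) = algebraMap k Ω (ζ j) ^ a) :
    Th ζ (γ • t) (MulAut.conjNormal γ g) j a := fun p hp => by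
  have h := e (γ⁻¹ • p) (by rw [← smul_pow', hp, inv_smul_smul])
  rw [Subgroup.smul_def] at h
  rw [Subgroup.smul_def, MulAut.conjNormal_apply, mul_smul, mul_smul, h, pow_one, smul_mul',
    smul_inv_smul, ha]

lemma a7_root {ζ : ℕ → k} (hζ : Rt ζ) (γ : Γ) (j : ℕ) :
    ∃ a, γ • algebraMap k Ω (ζ j) = algebraMap k Ω (ζ j) ^ a := by
  have h := (hζ.prim j).map_of_injective (algebraMap k Ω).injective
  obtain ⟨a, -, e⟩ := h.eq_pow_of_pow_eq_one (ξ := γ • algebraMap k Ω (ζ j))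
    (by rw [← smul_pow', h.pow_eq_one, smul_one])
  exact ⟨a, e.symm⟩

end

omit [IsAlgClosed k] [CharZero k] [IsAlgClosed Ω] in
lemma a7_adm {G : Subgroup Γ} [G.Normal] {z : Ω} (hz : ∀ γ : Γ, γ • z = z)
    (hk : ∀ (γ : Γ) (a : k), ∃ b, γ • algebraMap k Ω a = algebraMap k Ω b) {S : Set k}
    (hS : ∀ (γ : Γ), ∀ a ∈ S, ∃ b ∈ S, γ • algebraMap k Ω a = algebraMap k Ω b) (γ : Γ)
    {N : Subgroup G} (hN : Adm z S N) :
    Adm z S (N.comap (MulAut.conjNormal γ : MulAut G).toMonoidHom) := by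
  refine ⟨⟨hN.1.normal.comap _, hN.1.opn.preimage ?_, fun g => ?_⟩, fun b hb R o g d => ?_⟩
  · refine continuous_induced_rng.2 ?_
    have : Continuous fun g : G => γ * (g : Γ) * γ⁻¹ := by fun_prop
    exact this
  · obtain ⟨j, e⟩ := hN.1.pw (MulAut.conjNormal γ g)
    exact ⟨j, by rw [Subgroup.mem_comap, map_pow]; exact e⟩
  · obtain ⟨b', e⟩ := hk γ b
    refine hN.2 b' (fun h' => hb ?_) (γ • R) ?_ _ (a7_dc γ d)
    · obtain ⟨c, hc, e'⟩ := hS γ⁻¹ b' h'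
      rw [← e, inv_smul_smul] at e'
      exact (algebraMap k Ω).injective e' ▸ hc
    · have := a7_ov hk γ o
      rwa [un, smul_sub, hz, e] at this

theorem surf_of (G : Subgroup Γ) [G.Normal] [CompactSpace G] {z : Ω} (h : GD k G z)
    (hz : ∀ γ : Γ, γ • z = z) (hk : ∀ (γ : Γ) (a : k), ∃ b, γ • algebraMap k Ω a = algebraMap k Ω b)
    {ζ : ℕ → k} (hζ : Rt ζ) (χ : Γ → ℤ_[2])
    (hχ : ∀ (γ : Γ) (j a : ℕ), γ • algebraMap k Ω (ζ j) = algebraMap k Ω (ζ j) ^ a →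
      ‖χ γ - a‖ ≤ ((2 : ℝ) ^ j)⁻¹)
    {m : ℕ} {a : Fin m → k} (ha : Function.Injective a) (pa : Γ → Equiv.Perm (Fin m))
    (hp : ∀ γ i, γ • algebraMap k Ω (a i) = algebraMap k Ω (a (pa γ i))) :
    ∃ (y : Fin (m + 1) → G) (pm : Γ → Equiv.Perm (Fin (m + 1))) (N : Subgroup G),
      Surf G {D | ∃ R : ValuationSubring Ω, R ≠ ⊤ ∧ (∀ b : k, algebraMap k Ω b ∈ R) ∧
          D = {γ : Γ | Dc R γ}}
        {D | ∃ (R : ValuationSubring Ω) (b : k), b ∉ Set.range a ∧ Ov k R (un z (some b)) ∧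
          D = {γ : Γ | Dc R γ}} χ y pm N ∧
      (∀ γ i, pm γ i.castSucc = (pa γ i).castSucc) ∧
      ∀ i, Gn ζ (un z (some (a i))) (y i.castSucc) := by
  choose y₀ hy₀ using fun i => h.exists_gn hζ (some (a i))
  obtain ⟨w, hw⟩ := h.exists_gn hζ none
  obtain ⟨u₀, hu₀⟩ := h.prod hζ ha hy₀ hw
  obtain ⟨y, hy⟩ : ∃ y : Fin (m + 1) → G,
    y = Fin.snoc (α := fun _ => G) (fun i => u₀ i * y₀ i * (u₀ i)⁻¹) w := ⟨_, rfl⟩
  obtain ⟨pt, hpt⟩ : ∃ pt : Fin (m + 1) → Option k,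
    pt = fun s => (finSuccEquivLast s).map a := ⟨_, rfl⟩
  obtain ⟨pm, hpm⟩ : ∃ pm : Γ → Equiv.Perm (Fin (m + 1)), pm = fun γ =>
    (finSuccEquivLast.trans (pa γ).optionCongr).trans finSuccEquivLast.symm := ⟨_, rfl⟩
  have p1 : ∀ i : Fin m, pt i.castSucc = some (a i) := fun i => by simp [hpt]
  have p2 : pt (Fin.last m) = none := by simp [hpt]
  have m1 : ∀ γ (i : Fin m), pm γ i.castSucc = (pa γ i).castSucc := fun γ i => by simp [hpm]
  have m2 : ∀ γ, pm γ (Fin.last m) = Fin.last m := fun γ => by simp [hpm]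
  have g1 : ∀ i : Fin m, Gn ζ (un z (some (a i))) (y i.castSucc) := fun i => by
    rw [hy, Fin.snoc_castSucc]
    exact h.gn_conj (hy₀ i) _
  have g2 : ∀ s, Gn ζ (un z (pt s)) (y s) := fun s => by
    refine Fin.lastCases ?_ (fun i => ?_) s
    · rw [p2, hy, Fin.snoc_last]
      exact hw
    · rw [p1]
      exact g1 i
  have g3 : ∀ (γ : Γ) s, γ • un z (pt s) = un z (pt (pm γ s)) := fun γ s => by
    refine Fin.lastCases ?_ (fun i => ?_) s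
    · rw [m2, p2, un, smul_inv'', hz]
    · rw [m1, p1, p1, un, un, smul_sub, hz, hp]
  refine ⟨y, pm, Nz G z (Set.range a), ⟨nz_normal, nz_closed, fun γ g hg => ?_,
    fun U h1 _ h3 g => ?_, fun H h1 h2 h3 => ?_, fun P _ _ hP p => ?_, fun U h1 h2 => ?_, ?_, ?_,
    ?_, fun s => ?_, fun γ s => ?_⟩, m1, g1⟩
  · refine Subgroup.mem_sInf.2 fun N hN => nz_le (a7_adm hz hk ?_ γ hN) hg
    rintro γ _ ⟨i, rfl⟩
    exact ⟨_, ⟨_, rfl⟩, hp γ i⟩
  · obtain ⟨N, n1, n2⟩ := exists_adm h1 h3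
    obtain ⟨j, e⟩ := n1.1.pw g
    exact ⟨j, n2 e⟩
  · refine h.gen hζ h1 h2 ?_
    rintro _ ⟨i, rfl⟩
    exact ⟨_, h3 i, g1 i⟩
  · obtain ⟨φ, f1, f2⟩ := h.free hζ ha g1 P hP p
    exact ⟨φ, f1.1.opn, nz_le f1, f2⟩
  · exact nz_le ⟨h1, fun b hb R o g d => h2 _ ⟨R, b, hb, o, rfl⟩ g d⟩
  · rw [← Fin.succ_last, Fin.partialProd_succ, ← Fin.partialProd_init, hy, Fin.init_snoc,
      Fin.snoc_last]
    exact hu₀
  · rintro _ ⟨R, b, -, o, rfl⟩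
    exact ⟨R, o.ne_top (h.cd.un _), o.1, rfl⟩
  · rintro _ ⟨R, r1, r2, rfl⟩
    obtain ⟨s₀, o⟩ := exists_pt h.cd r1 r2
    by_cases hs : ∃ s, pt s = s₀
    · obtain ⟨s, rfl⟩ := hs
      obtain ⟨u, hu⟩ := h.loc hζ (g2 s) o
      refine Or.inr ⟨s, u, fun g d => ?_⟩
      choose e he using h.th hζ (pt s) g
      obtain ⟨t, ht⟩ := exists_clusterPt_of_compactSpace
        (Filter.map (fun j => (e j : ℤ_[2])) Filter.atTop)
      refine ⟨t, a7_cyc fun N hN ε e0 => ?_⟩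
      obtain ⟨j0, hj⟩ := hu N hN.1
      have fr := mapClusterPt_iff_frequently.1 ht _ (Metric.ball_mem_nhds t e0)
      obtain ⟨j, j1, j2⟩ := (fr.and_eventually (Filter.eventually_ge_atTop j0)).exists
      exact ⟨e j, hj j j2 g _ d (he j), mem_ball_iff_norm'.1 j1⟩
    · refine Or.inl fun g d => Subgroup.mem_sInf.2 fun N hN => ?_
      cases s₀ with
      | none => exact absurd ⟨_, p2⟩ hs
      | some b =>
        refine hN.2 b ?_ R o g d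
        rintro ⟨i, rfl⟩
        exact hs ⟨_, p1 i⟩
  · obtain ⟨R, o, d, -⟩ := g2 s
    exact ⟨_, ⟨R, o.ne_top (h.cd.un _), o.1, rfl⟩, d⟩
  · obtain ⟨R, o, d, e⟩ := g2 s
    have o' := a7_ov hk γ o
    rw [g3] at o'
    obtain ⟨u, hu⟩ := h.loc hζ (g2 (pm γ s)) o'
    refine ⟨u, a7_cyc fun N hN ε e0 => ?_⟩
    obtain ⟨j0, hj⟩ := hu N hN.1
    obtain ⟨j1, hj1⟩ := exists_pow_lt_of_lt_one e0 (by norm_num : (2⁻¹ : ℝ) < 1)
    obtain ⟨b, hb⟩ := a7_root (Ω := Ω) hζ γ (max j0 j1)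
    refine ⟨b, hj _ (le_max_left _ _) _ b (a7_dc γ d) (g3 γ s ▸ a7_th γ (e _) hb),
      (hχ γ _ b hb).trans_lt (lt_of_le_of_lt ?_ hj1)⟩
    rw [← inv_pow]
    exact pow_le_pow_of_le_one (by norm_num) (by norm_num) (le_max_right _ _)

end Pool.Agent.Lib.MP_d61fbb_ag.DW
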