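import Pool.Agent.Lib.MP_d61fbb_ag.DW.SD

/-! Cocycles are given by their values on the generators. -/

set_option autoImplicit false
set_option linter.unusedSectionVars false

noncomputable section

namespace Pool.Agent.Lib.MP_d61fbb_ag.DW

open Matrix

variable {Γ κ : Type} [Group Γ] [TopologicalSpace Γ] [IsTopologicalGroup Γ] {G : Subgroup Γ}
  [G.Normal] [CompactSpace G] [Fintype κ] [DecidableEq κ] {𝒟 good : Set (Set Γ)} {χ : Γ → ℤ_[2]}
  {m : ℕ} {y : Fin (m + 1) → G} {pm : Γ → Equiv.Perm (Fin (m + 1))} {N : Subgroup G}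
  {r : G →* Matrix κ κ ℚ_[2]} {c : G → κ → ℚ_[2]}

theorem co_one (hc : c ∈ Co N r) : c 1 = 0 := by
  simpa using hc.2.1 1 1

theorem co_inv (hc : c ∈ Co N r) (g : G) : c g⁻¹ = -(r g⁻¹ *ᵥ c g) := by
  have := hc.2.1 g⁻¹ g
  rw [inv_mul_cancel, co_one hc] at this
  exact eq_neg_of_add_eq_zero_left this.symm

theorem b1_bdd {X : Type} [TopologicalSpace X] [CompactSpace X] {f : X → κ → ℚ_[2]}
    (hf : Continuous f) : ∃ t : ℚ_[2], t ≠ 0 ∧ ∀ g i, ‖t * f g i‖ ≤ 1 := by
  obtain ⟨C, C0, hC⟩ := (isCompact_range hf).isBounded.exists_pos_norm_le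
  obtain ⟨t, t0, t1⟩ := NormedField.exists_norm_lt ℚ_[2] (inv_pos.2 C0)
  refine ⟨t, norm_pos_iff.1 t0, fun g i => ?_⟩
  rw [norm_mul, ← inv_mul_cancel₀ C0.ne']
  exact mul_le_mul t1.le ((norm_le_pi_norm _ i).trans (hC _ ⟨g, rfl⟩)) (norm_nonneg _)
    (inv_pos.2 C0).le

theorem co_bdd (hc : Continuous c) : ∃ t : ℚ_[2], t ≠ 0 ∧ ∀ g i, ‖t * c g i‖ ≤ 1 := b1_bdd hc

theorem cob_apply (u : κ → ℚ_[2]) (g : G) : cob r u g = r g *ᵥ u - u := by
  simp [cob]

theorem mem_Pa {S : Type} {x : S → G} :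
    c ∈ Pa N r x ↔ c ∈ Co N r ∧ ∀ s, ∃ a, c (x s) = r (x s) *ᵥ a - a := by
  simp [Pa, eq_comm]

theorem Ar.cob_mem {S : Type} (hr : Ar N r) (x : S → G) (u : κ → ℚ_[2]) :
    cob r u ∈ Pa N r x := by
  have e : cob r u = fun g => r g *ᵥ u - u := funext (cob_apply u)
  rw [mem_Pa, e]
  refine ⟨⟨(hr.cont.matrix_mulVec continuous_const).sub continuous_const, fun g h => ?_,
    fun g hg => by simp [hr.kill g hg]⟩, fun s => ⟨u, rfl⟩⟩
  simp only [map_mul, mulVec_sub, mulVec_mulVec]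
  abel

/-- The zeros of a cocycle. -/
def b1_ker (hc : c ∈ Co N r) : Subgroup G where
  carrier := {g | c g = 0}
  one_mem' := co_one hc
  mul_mem' := fun {a b} ha hb => by
    rw [Set.mem_ofPred_eq] at ha hb ⊢
    rw [hc.2.1, ha, hb, mulVec_zero, add_zero]
  inv_mem' := fun {a} ha => by
    rw [Set.mem_ofPred_eq] at ha ⊢
    rw [co_inv hc, ha, mulVec_zero, neg_zero]

theorem b1_closed (hc : c ∈ Co N r) : IsClosed (b1_ker hc : Set G) :=
  isClosed_eq hc.1 continuous_const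

/-- A relation at `x` spreads over the closure. -/
theorem Ar.cyc (hr : Ar N r) (hc : c ∈ Co N r) {x g : G} {t : ℤ_[2]} {a : κ → ℚ_[2]}
    (h : c x = r x *ᵥ a - a) (hg : (g, t) ∈ cyc N x) : c g = r g *ᵥ a - a := by
  have hd := sub_mem hc (hr.cob_mem (fun _ : Unit => x) a).1
  have hx : x ∈ b1_ker hd := by
    show c x - cob r a x = 0
    rw [cob_apply, h, sub_self]
  have k : (g, t) ∈ Prod.fst ⁻¹' (b1_ker hd : Set G) := by
    refine closure_minimal ?_ ((b1_closed hd).preimage continuous_fst) hg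
    rintro _ ⟨n, u, hu, rfl⟩
    exact mul_mem (pow_mem hx n) (hd.2.2 u hu)
  exact (sub_eq_zero.1 k).trans (cob_apply a g)

theorem co_part (hc : c ∈ Co N r) {n : ℕ} (x : Fin n → G) (s : Fin (n + 1)) :
    c (Fin.partialProd x s) = ∑ i : Fin n,
      if (i : ℕ) < s then r (Fin.partialProd x i.castSucc) *ᵥ c (x i) else 0 := by
  induction s using Fin.induction with
  | zero => simp [co_one hc]
  | succ j ih =>
    have e : r (Fin.partialProd x j.castSucc) *ᵥ c (x j) =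
        ∑ i, if i = j then r (Fin.partialProd x i.castSucc) *ᵥ c (x i) else 0 := by simp
    rw [Fin.partialProd_succ, hc.2.1, ih, e, ← Finset.sum_add_distrib]
    refine Finset.sum_congr rfl fun i _ => ?_
    simp only [Fin.val_castSucc, Fin.val_succ, Fin.ext_iff]
    split_ifs <;> first | omega | simp

theorem Surf.ext (h : Surf G 𝒟 good χ y pm N) (hc : c ∈ Co N r)
    (h0 : ∀ i : Fin m, c (y i.castSucc) = 0) : c = 0 :=
  funext fun g => (h.gen (b1_ker hc) (b1_closed hc) hc.2.2 h0).ge (Subgroup.mem_top g)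

section fin

variable {A : Type} [CommRing A] (σ : G →* Matrix κ κ A)

/-- The permutations that are affine with linear part `σ g`. -/
def b1_aff : Subgroup (G × Equiv.Perm (κ → A)) where
  carrier := {p | ∀ x, p.2 x = σ p.1 *ᵥ x + p.2 0}
  one_mem' := fun x => by simp
  mul_mem' := fun {a b} ha hb x => by
    simp only [Prod.snd_mul, Prod.fst_mul, Equiv.Perm.mul_apply, map_mul]
    rw [ha, ha (b.2 0), hb, mulVec_add, mulVec_mulVec, add_assoc]
  inv_mem' := fun {a} ha x => by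
    have e : σ a.1 *ᵥ (a.2⁻¹ x - a.2⁻¹ 0) = x := by
      rw [mulVec_sub, ← add_sub_add_right_eq_sub _ _ (a.2 0), ← ha, ← ha]
      simp
    rw [Prod.snd_inv, Prod.fst_inv, ← sub_eq_iff_eq_add]
    conv_rhs => rw [← e, mulVec_mulVec, ← map_mul, inv_mul_cancel, map_one, one_mulVec]

/-- The affine map with given linear part and translation. -/
def b1_mk (g : G) (b : κ → A) : Equiv.Perm (κ → A) where
  toFun x := σ g *ᵥ x + b
  invFun x := σ g⁻¹ *ᵥ (x - b)
  left_inv x := by simp [← map_mul]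
  right_inv x := by simp [← map_mul]

/-- Locally constant cocycles with finite coefficients. -/
structure b1_Fc (N : Subgroup G) (C : G → κ → A) : Prop where
  mul : ∀ g h, C (g * h) = C g + σ g *ᵥ C h
  opn : ∃ U : Subgroup G, IsOpen (U : Set G) ∧ N ≤ U ∧ ∀ g ∈ U, C g = 0

variable {σ}

theorem b1_ext (h : Surf G 𝒟 good χ y pm N) {C C' : G → κ → A} (hC : b1_Fc σ N C)
    (hC' : b1_Fc σ N C') (e : ∀ i : Fin m, C (y i.castSucc) = C' (y i.castSucc)) : C = C' := by
  obtain ⟨U, u1, u2, u3⟩ := hC.opn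
  obtain ⟨V, v1, v2, v3⟩ := hC'.opn
  let H : Subgroup G :=
    { carrier := {g | C g = C' g}
      one_mem' := (u3 1 U.one_mem).trans (v3 1 V.one_mem).symm
      mul_mem' := fun {a b} ha hb => by
        rw [Set.mem_ofPred_eq] at ha hb ⊢
        rw [hC.mul, hC'.mul, ha, hb]
      inv_mem' := fun {a} ha => by
        rw [Set.mem_ofPred_eq] at ha ⊢
        have e1 := hC.mul a⁻¹ a
        have e2 := hC'.mul a⁻¹ a
        rw [inv_mul_cancel] at e1 e2
        rw [u3 1 U.one_mem, ha] at e1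
        rw [v3 1 V.one_mem] at e2
        exact add_right_cancel (e1.symm.trans e2) }
  have k : U ⊓ V ≤ H := fun g hg => (u3 g hg.1).trans (v3 g hg.2).symm
  exact funext fun g => (h.gen H (H.isClosed_of_isOpen (Subgroup.isOpen_mono k (u1.inter v1)))
    ((le_inf u2 v2).trans k) e).ge (Subgroup.mem_top g)

theorem b1_fin [Finite A] (h : Surf G 𝒟 good χ y pm N) {j : ℕ} (hj : ((2 ^ j : ℕ) : A) = 0)
    (ho : IsOpen {g | σ g = 1}) (hN : ∀ g ∈ N, σ g = 1) (v : Fin m → κ → A) :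
    ∃ C, b1_Fc σ N C ∧ ∀ i, C (y i.castSucc) = v i := by
  have mU : ∀ g, g ∈ σ.toHomUnits.ker ↔ σ g = 1 := fun g => by
    rw [MonoidHom.mem_ker, Units.ext_iff]
    rfl
  have oU : IsOpen (σ.toHomUnits.ker : Set G) := by
    convert ho using 1
    exact Set.ext mU
  have nU : N ≤ σ.toHomUnits.ker := fun g hg => (mU g).2 (hN g hg)
  have hP : IsPGroup 2 ((b1_aff σ).map (MonoidHom.snd _ _)) := by
    rintro ⟨_, ⟨g, π⟩, hp, rfl⟩
    obtain ⟨a, ha⟩ := h.pro _ oU inferInstance nU g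
    have e : ∀ x, (π ^ 2 ^ a) x = x + (π ^ 2 ^ a) 0 := fun x => by
      have := pow_mem hp (2 ^ a) x
      rwa [Prod.pow_fst, (mU _).1 ha, one_mulVec] at this
    have e' : ∀ (n : ℕ) x, ((π ^ 2 ^ a) ^ n) x = x + n • (π ^ 2 ^ a) 0 := fun n x => by
      induction n with
      | zero => simp
      | succ n ih => rw [pow_succ', Equiv.Perm.mul_apply, e, ih, succ_nsmul, add_assoc]
    refine ⟨a + j, Subtype.ext (Equiv.ext fun x => ?_)⟩
    show (π ^ 2 ^ (a + j)) x = x
    rw [pow_add, pow_mul, e', ← Nat.cast_smul_eq_nsmul A, hj, zero_smul, add_zero]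
  obtain ⟨φ, f1, f2, f3⟩ := h.free _ hP fun i => ⟨b1_mk σ (y i.castSucc) (v i),
    (y i.castSucc, b1_mk σ (y i.castSucc) (v i)), fun x => by simp [b1_mk], rfl⟩
  let H := (b1_aff σ).comap ((MonoidHom.id G).prod ((Subgroup.subtype _).comp φ))
  have k : φ.ker ⊓ σ.toHomUnits.ker ≤ H := fun g hg x => by
    show (φ g).1 x = σ g *ᵥ x + (φ g).1 0
    rw [MonoidHom.mem_ker.1 hg.1, (mU g).1 hg.2]
    simp
  have hH : H = ⊤ := h.gen H (H.isClosed_of_isOpen (Subgroup.isOpen_mono k (f1.inter oU)))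
    ((le_inf f2 nU).trans k) fun i x => by
      show (φ _).1 x = σ _ *ᵥ x + (φ _).1 0
      rw [f3]
      simp [b1_mk]
  refine ⟨fun g => (φ g).1 0, ⟨fun g g' => ?_, φ.ker, f1, f2, fun g hg => ?_⟩, fun i => ?_⟩
  · rw [map_mul, add_comm]
    exact hH.ge (Subgroup.mem_top g) ((φ g').1 0)
  · rw [MonoidHom.mem_ker.1 hg]
    rfl
  · simp [f3, b1_mk]

end fin

open PadicInt in
theorem b1_lim (a : ∀ j : ℕ, ZMod (2 ^ j))
    (h : ∀ j, ZMod.castHom (pow_dvd_pow 2 j.le_succ) (ZMod (2 ^ j)) (a (j + 1)) = a j) :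
    ∃ x : ℤ_[2], ∀ j, toZModPow j x = a j := by
  suffices k : ∀ i, ((2 : ℕ) : ℤ) ^ i ∣ ((a (i + 1)).val : ℤ) - (a i).val from ⟨_, fun j =>
    (toZModPow_ofIntSeq_of_pow_dvd_sub (fun j => (a j).val) 2 k j).trans
      ((Int.cast_natCast _).trans (ZMod.natCast_zmod_val _))⟩
  intro i
  have := (ZMod.intCast_zmod_eq_zero_iff_dvd (((a (i + 1)).val : ℤ) - (a i).val) (2 ^ i)).1 (by
    rw [Int.cast_sub, Int.cast_natCast, Int.cast_natCast, ZMod.natCast_zmod_val, ZMod.natCast_val,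
      sub_eq_zero]
    exact h i)
  exact_mod_cast this

open PadicInt in
theorem b1_zero {j : ℕ} {x : ℤ_[2]} : toZModPow j x = 0 ↔ ‖x‖ ≤ ((2 : ℕ) : ℝ) ^ (-(j : ℤ)) := by
  rw [norm_le_pow_iff_mem_span_pow, ← ker_toZModPow, RingHom.mem_ker]

open PadicInt in
theorem b1_int (h : Surf G 𝒟 good χ y pm N) {ρ : G →* Matrix κ κ ℤ_[2]} (hρ : Continuous ρ)
    (hN : ∀ g ∈ N, ρ g = 1) (v : Fin m → κ → ℤ_[2]) : ∃ c : G → κ → ℤ_[2], Continuous c ∧
      (∀ g h, c (g * h) = c g + ρ g *ᵥ c h) ∧ (∀ g ∈ N, c g = 0) ∧ ∀ i, c (y i.castSucc) = v i := by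
  have ex := fun j : ℕ => b1_fin
    (σ := (toZModPow j : ℤ_[2] →+* ZMod (2 ^ j)).mapMatrix.toMonoidHom.comp ρ) h
    (ZMod.natCast_self (2 ^ j)) (by
      have e : {g | (toZModPow j).mapMatrix.toMonoidHom.comp ρ g = 1} = ⋂ a, ⋂ b,
          (fun g => (ρ g - 1) a b) ⁻¹' Metric.closedBall 0 (((2 : ℕ) : ℝ) ^ (-(j : ℤ))) := by
        ext g
        simp only [Set.mem_ofPred_eq, Set.mem_iInter, Set.mem_preimage, mem_closedBall_zero_iff,
          ← b1_zero]
        rw [← sub_eq_zero, ← map_one (toZModPow j).mapMatrix]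
        exact (Iff.of_eq (congrArg (· = 0) (map_sub (toZModPow j).mapMatrix (ρ g) 1).symm)).trans
          Matrix.ext_iff.symm
      rw [e]
      exact isOpen_iInter_of_finite fun a => isOpen_iInter_of_finite fun b =>
        (IsUltrametricDist.isOpen_closedBall _ (by positivity)).preimage
          ((hρ.sub continuous_const).matrix_elem a b))
    (fun g hg => by simp [hN g hg]) fun i a => toZModPow j (v i a)
  choose C c1 c2 using ex
  have cp : ∀ j, (fun g a => ZMod.castHom (pow_dvd_pow 2 j.le_succ) (ZMod (2 ^ j))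
      (C (j + 1) g a)) = C j := fun j => by
    refine b1_ext h ⟨fun g g' => funext fun a => ?_, ?_⟩ (c1 j) fun i => funext fun a => ?_
    · rw [(c1 _).mul, Pi.add_apply, map_add, mulVec, dotProduct, map_sum]
      simp only [map_mul]
      simp [mulVec, dotProduct, cast_toZModPow _ _ j.le_succ]
    · obtain ⟨U, u1, u2, u3⟩ := (c1 (j + 1)).opn
      exact ⟨U, u1, u2, fun g hg => funext fun a => by simp [u3 g hg]⟩
    · simp [c2, cast_toZModPow _ _ j.le_succ]
  choose c hc using fun g a => b1_lim (fun j => C j g a) fun j => congrFun (congrFun (cp j) g) a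
  have mul : ∀ g h, c (g * h) = c g + ρ g *ᵥ c h := fun g g' => funext fun a =>
    ext_of_toZModPow.1 fun j => by
      rw [hc, (c1 j).mul]
      simp [mulVec, dotProduct, hc]
  have nil : ∀ g ∈ N, c g = 0 := fun g hg => funext fun a => ext_of_toZModPow.1 fun j => by
    obtain ⟨U, -, u2, u3⟩ := (c1 j).opn
    simp [hc, u3 g (u2 hg)]
  have one : ContinuousAt c 1 := continuousAt_pi.2 fun a => Metric.continuousAt_iff'.2 fun ε hε => by
    obtain ⟨j, hj⟩ := exists_pow_neg_lt 2 hε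
    obtain ⟨U, u1, -, u3⟩ := (c1 j).opn
    filter_upwards [u1.mem_nhds U.one_mem] with g hg
    rw [nil 1 N.one_mem, Pi.zero_apply, dist_zero_right]
    exact (b1_zero.1 (by simp [hc, u3 g hg])).trans_lt hj
  refine ⟨c, continuous_iff_continuousAt.2 fun g => ?_, mul, nil,
    fun i => funext fun a => ext_of_toZModPow.1 fun j => by rw [hc, c2]⟩
  have e : c = fun x => c g + ρ g *ᵥ c (g⁻¹ * x) := funext fun x => by
    rw [← mul, mul_inv_cancel_left]
  have k : ContinuousAt (fun x => c (g⁻¹ * x)) g :=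
    one.comp_of_eq (continuous_const.mul continuous_id).continuousAt (inv_mul_cancel g)
  rw [e]
  exact continuousAt_const.add
    ((continuous_const.matrix_mulVec continuous_id).continuousAt.comp k)

theorem b1_lift (hr : Ar N r) : ∃ ρ : G →* Matrix κ κ ℤ_[2], Continuous ρ ∧ (∀ g ∈ N, ρ g = 1) ∧
    ∀ g a b, (ρ g a b : ℚ_[2]) = r g a b := by
  have inj : Function.Injective
      ((PadicInt.Coe.ringHom (p := 2)).mapMatrix : Matrix κ κ ℤ_[2] →+* Matrix κ κ ℚ_[2]) :=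
    Matrix.map_injective Subtype.val_injective
  let f : G → Matrix κ κ ℤ_[2] := fun g => Matrix.of fun a b => ⟨r g a b, hr.int g a b⟩
  have e : ∀ g, (PadicInt.Coe.ringHom (p := 2)).mapMatrix (f g) = r g := fun _ => rfl
  exact ⟨⟨⟨f, inj (by rw [e, map_one, map_one])⟩, fun g g' => inj (by
    rw [map_mul, e, e, e, map_mul])⟩,
    continuous_matrix fun a b => (hr.cont.matrix_elem a b).subtype_mk _,
    fun g hg => inj ((e g).trans ((hr.kill g hg).trans (map_one _).symm)), fun _ _ _ => rfl⟩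

theorem Surf.exists_co (h : Surf G 𝒟 good χ y pm N) (hr : Ar N r) (v : Fin m → κ → ℚ_[2]) :
    ∃ c ∈ Co N r, ∀ i, c (y i.castSucc) = v i := by
  obtain ⟨t, t0, ht⟩ := b1_bdd (f := v) continuous_of_discreteTopology
  obtain ⟨ρ, r1, r2, r3⟩ := b1_lift hr
  obtain ⟨c, c1, c2, c3, c4⟩ := b1_int h r1 r2 fun i a => ⟨t * v i a, ht i a⟩
  refine ⟨t⁻¹ • fun g a => (c g a : ℚ_[2]), Submodule.smul_mem _ _ ⟨continuous_pi fun a =>
    continuous_subtype_val.comp ((continuous_apply a).comp c1), fun g g' => funext fun a => ?_,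
    fun g hg => funext fun a => by simp [c3 g hg]⟩, fun i => funext fun a => ?_⟩
  · simp [c2, r3, mulVec, dotProduct, PadicInt.coe_sum]
  · simp [c4, t0]

theorem Surf.sum (h : Surf G 𝒟 good χ y pm N) (hc : c ∈ Co N r) :
    ∑ s, r (Fin.partialProd y s.castSucc) *ᵥ c (y s) = 0 := by
  rw [← hc.2.2 _ h.prod, co_part hc]
  exact Finset.sum_congr rfl fun i _ => (if_pos i.2).symm

theorem Surf.tuple (h : Surf G 𝒟 good χ y pm N) (hr : Ar N r) (v : Fin (m + 1) → κ → ℚ_[2])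
    (hv : ∑ s, r (Fin.partialProd y s.castSucc) *ᵥ v s = 0) :
    ∃ c ∈ Co N r, ∀ s, c (y s) = v s := by
  obtain ⟨c, hc, e⟩ := h.exists_co hr fun i => v i.castSucc
  refine ⟨c, hc, fun s => Fin.lastCases ?_ e s⟩
  have k := (h.sum hc).trans hv.symm
  rw [Fin.sum_univ_castSucc, Fin.sum_univ_castSucc] at k
  simp only [e, add_right_inj] at k
  simpa [← map_mul] using congrArg (r (Fin.partialProd y (Fin.last m).castSucc)⁻¹ *ᵥ ·) k

end Pool.Agent.Lib.MP_d61fbb_ag.DW
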