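import Pool.Agent.Lib.MP_d61fbb_ag.DW.B1

/-! The parabolic condition and the action on cocycles. -/

set_option autoImplicit false
set_option linter.unusedSectionVars false

noncomputable section

namespace Pool.Agent.Lib.MP_d61fbb_ag.DW

open Matrix

variable {Γ κ : Type} [Group Γ] [TopologicalSpace Γ] [IsTopologicalGroup Γ] {G : Subgroup Γ}
  [G.Normal] [CompactSpace G] [Fintype κ] [DecidableEq κ] {𝒟 good : Set (Set Γ)} {χ : Γ → ℤ_[2]}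
  {m : ℕ} {y : Fin (m + 1) → G} {pm : Γ → Equiv.Perm (Fin (m + 1))} {N : Subgroup G}
  {r : Γ →* Matrix κ κ ℚ_[2]} {β : Matrix κ κ ℚ_[2]} {μ : Γ → ℚ_[2]} {c : G → κ → ℚ_[2]}

lemma b1b_add {x y : ℚ_[2]} {e : ℝ} (hx : ‖x‖ ≤ e) (hy : ‖y‖ ≤ e) : ‖x + y‖ ≤ e :=
  (IsUltrametricDist.norm_add_le_max x y).trans (max_le hx hy)

lemma b1b_two {x : ℚ_[2]} {e : ℝ} (hx : ‖x‖ ≤ e) : ‖x + x‖ ≤ 2⁻¹ * e := by
  have h : ‖(2 : ℚ_[2])‖ = 2⁻¹ := by simpa using Padic.norm_p (p := 2)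
  rw [← two_mul, norm_mul, h]
  gcongr

lemma b1b_half {x : ℚ_[2]} (hx : ‖x‖ < 1) : ‖x‖ ≤ 2⁻¹ := by
  have := (Padic.norm_le_pow_iff_norm_lt_pow_add_one x (-1)).2 (by simpa using hx)
  simpa using this

lemma b1b_zero {x : ℚ_[2]} (hx : ∀ j : ℕ, ‖x‖ ≤ ((2 : ℝ) ^ j)⁻¹) : x = 0 := by
  by_contra h
  obtain ⟨j, hj⟩ := exists_pow_lt_of_lt_one (norm_pos_iff.2 h) (by norm_num : (2⁻¹ : ℝ) < 1)
  rw [inv_pow] at hj
  exact absurd (hx j) (not_le.2 hj)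

omit [DecidableEq κ] in
lemma b1b_mulVec {A : Matrix κ κ ℚ_[2]} {v : κ → ℚ_[2]} {e e' : ℝ} (he : 0 ≤ e) (he' : 0 ≤ e')
    (hA : ∀ a b, ‖A a b‖ ≤ e) (hv : ∀ a, ‖v a‖ ≤ e') (a : κ) : ‖(A *ᵥ v) a‖ ≤ e * e' :=
  IsUltrametricDist.norm_sum_le_of_forall_le_of_nonneg (mul_nonneg he he') fun b _ => by
    rw [norm_mul]
    exact mul_le_mul (hA a b) (hv b) (norm_nonneg _) he

omit [DecidableEq κ] in
lemma b1b_mul {A B : Matrix κ κ ℚ_[2]} {e e' : ℝ} (he : 0 ≤ e) (he' : 0 ≤ e')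
    (hA : ∀ a b, ‖A a b‖ ≤ e) (hB : ∀ a b, ‖B a b‖ ≤ e') (a b : κ) : ‖(A * B) a b‖ ≤ e * e' :=
  b1b_mulVec (v := fun l => B l b) he he' hA (fun l => hB l b) a

lemma b1b_sq {Y : Matrix κ κ ℚ_[2]} {e : ℝ} (he : 0 ≤ e) (he' : e ≤ 2⁻¹)
    (h : ∀ a b, ‖(Y - 1 : Matrix κ κ ℚ_[2]) a b‖ ≤ e) (a b : κ) :
    ‖(Y ^ 2 - 1 : Matrix κ κ ℚ_[2]) a b‖ ≤ 2⁻¹ * e := by
  have e1 : Y ^ 2 - 1 = (Y - 1) * (Y - 1) + ((Y - 1) + (Y - 1)) := by noncomm_ring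
  rw [e1, Matrix.add_apply, Matrix.add_apply]
  exact b1b_add (b1b_mul (by norm_num) he (fun a b => (h a b).trans he') h a b) (b1b_two (h a b))

omit [IsTopologicalGroup Γ] [G.Normal] [CompactSpace G] in
lemma b1b_lim (hr : Sys G good r β μ) (γ : Γ) (j : ℕ) (a b : κ) :
    ‖(r γ ^ 4 ^ (j + 1) - 1 : Matrix κ κ ℚ_[2]) a b‖ ≤ ((2 : ℝ) ^ (j + 1))⁻¹ := by
  induction j generalizing a b with
  | zero => simpa using b1b_half (hr.uni γ a b)
  | succ j ih =>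
    have h0 : (0 : ℝ) ≤ ((2 : ℝ) ^ (j + 1))⁻¹ := by positivity
    have h1 : ((2 : ℝ) ^ (j + 1))⁻¹ ≤ 2⁻¹ :=
      inv_anti₀ two_pos (le_self_pow₀ one_le_two (Nat.succ_ne_zero j))
    have h2 := b1b_sq (by positivity) (by linarith) (b1b_sq h0 h1 ih) a b
    rw [← pow_mul, ← pow_mul, ← pow_succ 4] at h2
    refine h2.trans ?_
    rw [pow_succ 2 (j + 1), mul_inv]
    linarith

theorem Sys.lim (hr : Sys G good r β μ) (γ : Γ) (j : ℕ) (a b : κ) :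
    ‖(r γ ^ 4 ^ (j + 1) - 1 : Matrix κ κ ℚ_[2]) a b‖ ≤ ((2 : ℝ) ^ j)⁻¹ := 
  (b1b_lim hr γ j a b).trans
    (inv_anti₀ (by positivity) (pow_le_pow_right₀ one_le_two j.le_succ))

/-- The elements on which the representation and the cocycle are trivial up to `e`. -/
def b1bU (ρ : G →* Matrix κ κ ℚ_[2]) (hρ : ∀ g a b, ‖ρ g a b‖ ≤ 1) (hc : c ∈ Co ⊥ ρ) {e : ℝ}
    (he : 0 ≤ e) : Subgroup G where
  carrier := {g | (∀ a b, ‖(ρ g - 1 : Matrix κ κ ℚ_[2]) a b‖ ≤ e) ∧ ∀ a, ‖c g a‖ ≤ e}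
  one_mem' := ⟨by simpa using fun _ _ => he, by simpa [co_one hc] using fun _ => he⟩
  mul_mem' {g h} hg hh := by
    refine ⟨fun a b => ?_, fun a => ?_⟩
    · have e1 : ρ (g * h) - 1 = ρ g * (ρ h - 1) + (ρ g - 1) := by rw [map_mul]; noncomm_ring
      rw [e1, Matrix.add_apply]
      exact b1b_add (by simpa using b1b_mul zero_le_one he (hρ g) hh.1 a b) (hg.1 a b)
    · rw [hc.2.1, Pi.add_apply]
      exact b1b_add (hg.2 a) (by simpa using b1b_mulVec zero_le_one he (hρ g) hh.2 a)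
  inv_mem' {g} hg := by
    refine ⟨fun a b => ?_, fun a => ?_⟩
    · have e1 : ρ g⁻¹ - 1 = -(ρ g⁻¹ * (ρ g - 1)) := by
        rw [mul_sub, ← map_mul, inv_mul_cancel, map_one, mul_one, neg_sub]
      rw [e1, Matrix.neg_apply, norm_neg]
      simpa using b1b_mul zero_le_one he (hρ g⁻¹) hg.1 a b
    · rw [co_inv hc, Pi.neg_apply, norm_neg]
      simpa using b1b_mulVec zero_le_one he (hρ g⁻¹) hg.2 a

lemma b1b_kill (hr : Sys G good r β μ) (h : Surf G 𝒟 good χ y pm N)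
    (hc : c ∈ Co ⊥ (r.comp G.subtype)) (hi : ∀ g a, ‖c g a‖ ≤ 1)
    (hg : ∀ D ∈ good, ∀ g : G, (g : Γ) ∈ D → c g = 0) (g : G) (hN : g ∈ N) :
    r g = 1 ∧ c g = 0 := by
  set ρ := r.comp G.subtype with hρ
  have h1 : ∀ g a b, ‖ρ g a b‖ ≤ 1 := fun g => hr.int g
  have hp : ∀ j : ℕ, (0 : ℝ) < ((2 : ℝ) ^ j)⁻¹ := fun j => by positivity
  have key : ∀ j : ℕ, N ≤ b1bU ρ h1 hc (hp j).le := fun j => by
    refine h.kill _ ⟨⟨fun g hg u => ⟨fun a b => ?_, fun a => ?_⟩⟩, ?_, fun g => ?_⟩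
      fun D hD g hgD => ⟨fun a b => ?_, fun a => ?_⟩
    · have e1 : ρ (u * g * u⁻¹) - 1 = ρ u * (ρ g - 1) * ρ u⁻¹ := by
        rw [mul_sub, sub_mul, mul_one, ← map_mul, ← map_mul, ← map_mul, mul_inv_cancel, map_one]
      rw [e1]
      simpa using b1b_mul (mul_nonneg zero_le_one (hp j).le) zero_le_one
        (b1b_mul zero_le_one (hp j).le (h1 u) hg.1) (h1 u⁻¹) a b
    · have e0 : c u + ρ u *ᵥ c u⁻¹ = 0 := by rw [← hc.2.1, mul_inv_cancel, co_one hc]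
      have e1 : c (u * g * u⁻¹) = ρ u *ᵥ (c g + (ρ g - 1) *ᵥ c u⁻¹) := by
        rw [hc.2.1, hc.2.1, map_mul, ← mulVec_mulVec, sub_mulVec, one_mulVec, mulVec_add,
          mulVec_sub, eq_neg_of_add_eq_zero_left e0]
        abel
      rw [e1]
      simpa using b1b_mulVec (v := c g + (ρ g - 1) *ᵥ c u⁻¹) zero_le_one (hp j).le (h1 u)
        (fun a => b1b_add (hg.2 a)
        (by simpa using b1b_mulVec (hp j).le zero_le_one hg.1 (hi u⁻¹) a)) a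
    · have e1 : IsOpen {x : ℚ_[2] | ‖x‖ ≤ ((2 : ℝ) ^ j)⁻¹} := by
        simpa [Metric.closedBall] using
          IsUltrametricDist.isOpen_closedBall (0 : ℚ_[2]) (hp j).ne'
      change IsOpen ({g : G | ∀ a b, ‖(ρ g - 1 : Matrix κ κ ℚ_[2]) a b‖ ≤ ((2 : ℝ) ^ j)⁻¹} ∩
        {g : G | ∀ a, ‖c g a‖ ≤ ((2 : ℝ) ^ j)⁻¹})
      simp only [Set.ofPred_forall]
      refine IsOpen.inter (isOpen_iInter_of_finite fun a => isOpen_iInter_of_finite fun b => ?_)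
        (isOpen_iInter_of_finite fun a => ?_)
      · exact e1.preimage ((hr.cont.sub continuous_const).matrix_elem a b)
      · exact e1.preimage ((continuous_apply a).comp hc.1)
    · have e0 : ((2 : ℝ) ^ (j + 1))⁻¹ ≤ 2⁻¹ :=
        inv_anti₀ two_pos (le_self_pow₀ one_le_two (Nat.succ_ne_zero j))
      have e1 : ∀ i : ℕ, (∀ a b, ‖(ρ ((g ^ 4 ^ (j + 1)) ^ 2 ^ i) - 1 : Matrix κ κ ℚ_[2]) a b‖ ≤
          ((2 : ℝ) ^ (j + 1))⁻¹) ∧ ∀ a, ‖c ((g ^ 4 ^ (j + 1)) ^ 2 ^ i) a‖ ≤ ((2 : ℝ) ^ i)⁻¹ := by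
        intro i
        induction i with
        | zero =>
          refine ⟨fun a b => ?_, fun a => by simpa using hi _ a⟩
          rw [pow_zero, pow_one, map_pow]
          exact b1b_lim hr g j a b
        | succ i ih =>
          rw [pow_succ 2 i, pow_mul]
          generalize (g ^ 4 ^ (j + 1)) ^ 2 ^ i = x at ih
          refine ⟨fun a b => ?_, fun a => ?_⟩
          · rw [map_pow]
            exact (b1b_sq (hp _).le e0 ih.1 a b).trans (by linarith [hp (j + 1)])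
          · have e2 : c (x ^ 2) = (ρ x - 1) *ᵥ c x + (c x + c x) := by
              rw [sq, hc.2.1, sub_mulVec, one_mulVec]
              abel
            rw [e2, pow_succ, mul_inv, mul_comm]
            exact b1b_add (b1b_mulVec (by norm_num) (hp i).le
              (fun a b => (ih.1 a b).trans e0) ih.2 a) (b1b_two (ih.2 a))
      refine ⟨2 * (j + 1) + j, ?_⟩
      rw [pow_add, pow_mul 2, pow_mul g]
      exact ⟨fun a b => ((e1 j).1 a b).trans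
        (inv_anti₀ (by positivity) (pow_le_pow_right₀ one_le_two j.le_succ)), (e1 j).2⟩
    · have : ρ g = 1 := hr.unr D hD g hgD
      simp [this]
    · simp [hg D hD g hgD]
  refine ⟨sub_eq_zero.1 ?_, ?_⟩
  · ext a b
    exact b1b_zero fun j => (key j hN).1 a b
  · ext a
    exact b1b_zero fun j => (key j hN).2 a

omit [IsTopologicalGroup Γ] [G.Normal] [CompactSpace G] in
lemma b1b_conj {ρ : G →* Matrix κ κ ℚ_[2]} (hc : c ∈ Co N ρ) {g u : G} {a : κ → ℚ_[2]}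
    (h : c (u⁻¹ * g * u) = ρ (u⁻¹ * g * u) *ᵥ a - a) :
    c g = ρ g *ᵥ (ρ u *ᵥ a - c u) - (ρ u *ᵥ a - c u) := by
  have e : u * (u⁻¹ * g * u) = g * u := by group
  have h1 := hc.2.1 u (u⁻¹ * g * u)
  rw [e, hc.2.1, h, mulVec_sub, mulVec_mulVec, ← map_mul, e, map_mul, ← mulVec_mulVec] at h1
  rw [mulVec_sub, eq_sub_of_add_eq h1]
  abel

theorem Sys.ar (hr : Sys G good r β μ) (h : Surf G 𝒟 good χ y pm N) :
    Ar N (r.comp G.subtype) := 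
  ⟨fun g => hr.int g, hr.cont, fun g hg => (b1b_kill hr h (Submodule.zero_mem _) (by simp)
    (fun _ _ _ _ => rfl) g hg).1⟩

theorem Sys.par_iff (hr : Sys G good r β μ) (h : Surf G 𝒟 good χ y pm N) :
    Par G 𝒟 r c ↔ c ∈ Pa N (r.comp G.subtype) y := by
  rw [mem_Pa]
  constructor
  · rintro ⟨h1, h2, h3⟩
    refine ⟨⟨h1, h2, fun g hg => ?_⟩, fun s => ?_⟩
    · obtain ⟨t, ht, hb⟩ := co_bdd h1
      have h0 : c 1 = 0 := by simpa using h2 1 1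
      have h4 : c ∈ Co ⊥ (r.comp G.subtype) := ⟨h1, h2, fun g hg => by rw [Subgroup.mem_bot.1 hg, h0]⟩
      have h5 := (b1b_kill hr h (Submodule.smul_mem _ t h4) hb (fun D hD g hg => by
        obtain ⟨a, ha⟩ := h3 D (h.sub hD)
        rw [Pi.smul_apply, ha g hg, hr.unr D hD g hg, one_mulVec, sub_self, smul_zero]) g hg).2
      exact (smul_eq_zero.1 h5).resolve_left ht
    · obtain ⟨D, hD, hs⟩ := h.mem s
      obtain ⟨a, ha⟩ := h3 D hD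
      exact ⟨a, ha _ hs⟩
  · rintro ⟨h1, h2⟩
    refine ⟨h1.1, h1.2.1, fun D hD => ?_⟩
    rcases h.loc D hD with h3 | ⟨s, u, h3⟩
    · exact ⟨0, fun g hg => by rw [h1.2.2 g (h3 g hg), mulVec_zero, sub_zero]⟩
    · obtain ⟨a, ha⟩ := h2 s
      refine ⟨r.comp G.subtype u *ᵥ a - c u, fun g hg => ?_⟩
      obtain ⟨t, ht⟩ := h3 g hg
      exact b1b_conj h1 ((hr.ar h).cyc h1 ha ht)

theorem ac_apply (γ : Γ) (g : G) : ac G r γ c g = r γ *ᵥ c (MulAut.conjNormal γ⁻¹ g) := rfl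

theorem ac_one : ac G r 1 = LinearMap.id := by
  ext1 c
  funext g
  rw [ac_apply]
  simp

theorem ac_mul (γ δ : Γ) : ac G r (γ * δ) = ac G r γ ∘ₗ ac G r δ := by
  ext1 c
  funext g
  rw [LinearMap.comp_apply, ac_apply, ac_apply, ac_apply, mulVec_mulVec, ← map_mul,
    _root_.mul_inv_rev,
    map_mul MulAut.conjNormal, MulAut.mul_apply]

omit [TopologicalSpace Γ] [IsTopologicalGroup Γ] [CompactSpace G] in
lemma b1b_comm (γ : Γ) (g : G) (u : κ → ℚ_[2]) :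
    r γ *ᵥ (r.comp G.subtype (MulAut.conjNormal γ⁻¹ g) *ᵥ u) =
      r.comp G.subtype g *ᵥ (r γ *ᵥ u) := by
  rw [mulVec_mulVec, mulVec_mulVec, MonoidHom.comp_apply, MonoidHom.comp_apply, ← map_mul,
    ← map_mul, Subgroup.subtype_apply, Subgroup.subtype_apply, MulAut.conjNormal_apply]
  congr 2
  group

theorem ac_cob (γ : Γ) (u : κ → ℚ_[2]) :
    ac G r γ (cob (r.comp G.subtype) u) = cob (r.comp G.subtype) (r γ *ᵥ u) := by
  funext g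
  rw [ac_apply, cob_apply, cob_apply, mulVec_sub, b1b_comm]

theorem Surf.ac_co (h : Surf G 𝒟 good χ y pm N) (γ : Γ) (hc : c ∈ Co N (r.comp G.subtype)) :
    ac G r γ c ∈ Co N (r.comp G.subtype) := by
  refine ⟨?_, fun g g' => ?_, fun g hg => ?_⟩
  · have h1 : Continuous fun g : G => MulAut.conjNormal γ⁻¹ g :=
      continuous_induced_rng.2 (((continuous_subtype_val.const_mul γ⁻¹).mul_const γ⁻¹⁻¹).congr
        fun g => (MulAut.conjNormal_apply γ⁻¹ g).symm)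
    exact continuous_const.matrix_mulVec (hc.1.comp h1)
  · rw [ac_apply, ac_apply, ac_apply, map_mul, hc.2.1, mulVec_add, b1b_comm]
  · rw [ac_apply, hc.2.2 _ (h.stab _ g hg), mulVec_zero]

theorem Sys.ac_mem (hr : Sys G good r β μ) (h : Surf G 𝒟 good χ y pm N) (γ : Γ)
    (hc : c ∈ Pa N (r.comp G.subtype) y) : ac G r γ c ∈ Pa N (r.comp G.subtype) y := by
  rw [mem_Pa] at hc ⊢
  refine ⟨h.ac_co γ hc.1, fun s => ?_⟩
  obtain ⟨u, hu⟩ := h.gal γ⁻¹ s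
  obtain ⟨a, ha⟩ := hc.2 (pm γ⁻¹ s)
  refine ⟨r γ *ᵥ (r.comp G.subtype u *ᵥ a - c u), ?_⟩
  rw [ac_apply, b1b_conj hc.1 ((hr.ar h).cyc hc.1 ha hu), mulVec_sub, b1b_comm]

end Pool.Agent.Lib.MP_d61fbb_ag.DW
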