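import Pool.Agent.Lib.MP_d61fbb_ag.DW.SD

/-! Linear algebra of tuples of isometries with product one. -/

set_option autoImplicit false

noncomputable section

namespace Pool.Agent.Lib.MP_d61fbb_ag.DW

open Matrix Module

variable {F κ : Type} [Field F] [Fintype κ] [DecidableEq κ] {m : ℕ}

/-- The parabolic tuples. -/
def Tp (Y : Fin m → Matrix κ κ F) : Submodule F (Fin m → κ → F) :=
  LinearMap.ker (∑ s, (Fin.partialProd Y s.castSucc).mulVecLin ∘ₗ LinearMap.proj s) ⊓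
    ⨅ s, (LinearMap.range (Y s - 1).mulVecLin).comap (LinearMap.proj s)

/-- The principal tuples. -/
def tb (Y : Fin m → Matrix κ κ F) : (κ → F) →ₗ[F] Fin m → κ → F :=
  LinearMap.pi fun s => (Y s - 1).mulVecLin

variable {Y : Fin m → Matrix κ κ F} {β : Matrix κ κ F}

theorem mem_Tp {v : Fin m → κ → F} : v ∈ Tp Y ↔
    ∑ s, Fin.partialProd Y s.castSucc *ᵥ v s = 0 ∧ ∀ s, ∃ a, v s = Y s *ᵥ a - a := by
  simp only [Tp, Submodule.mem_inf, LinearMap.mem_ker, LinearMap.sum_apply, LinearMap.comp_apply,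
    LinearMap.proj_apply, mulVecLin_apply, Submodule.mem_iInf, Submodule.mem_comap,
    LinearMap.mem_range, sub_mulVec, one_mulVec, eq_comm]

theorem b2_iso {P : Matrix κ κ F} (hP : Pᵀ * β * P = β) (x y : κ → F) :
    (P *ᵥ x) ⬝ᵥ β *ᵥ P *ᵥ y = x ⬝ᵥ β *ᵥ y := by
  conv_rhs => rw [← hP, ← mulVec_mulVec, ← mulVec_mulVec, dotProduct_mulVec, vecMul_transpose]

theorem b2_det (hβ : β.det ≠ 0) {P : Matrix κ κ F} (hP : Pᵀ * β * P = β) : IsUnit P.det := by
  rw [isUnit_iff_ne_zero]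
  intro h
  apply hβ
  rw [← hP, det_mul, h, mul_zero]

theorem b2_pp (hY : ∀ s, (Y s)ᵀ * β * Y s = β) (s : Fin (m + 1)) :
    (Fin.partialProd Y s)ᵀ * β * Fin.partialProd Y s = β := by
  induction s using Fin.induction with
  | zero => simp
  | succ s ih =>
    rw [Fin.partialProd_succ, transpose_mul]
    calc _ = (Y s)ᵀ * ((Fin.partialProd Y s.castSucc)ᵀ * β * Fin.partialProd Y s.castSucc) *
          Y s := by simp only [Matrix.mul_assoc]
      _ = β := by rw [ih, hY]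

theorem b2_fix (hβ : β.det ≠ 0) {P : Matrix κ κ F} (hP : Pᵀ * β * P = β) {z : κ → F}
    (h : ∀ x, z ⬝ᵥ β *ᵥ (P *ᵥ x - x) = 0) : P *ᵥ z = z := by
  have hu : IsUnit (β * P).det := by
    rw [det_mul]
    exact (isUnit_iff_ne_zero.2 hβ).mul (b2_det hβ hP)
  have h1 : (P *ᵥ z - z) ᵥ* (β * P) = 0 := by
    funext i
    have h2 := h (Pi.single i 1)
    rw [mulVec_sub, dotProduct_sub, ← b2_iso hP z (Pi.single i 1), ← sub_dotProduct,
      mulVec_mulVec, dotProduct_mulVec, dotProduct_single, mul_one, ← neg_sub, neg_vecMul] at h2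
    simpa using h2
  have h3 := congrArg (· ᵥ* (β * P)⁻¹) h1
  simp only [vecMul_vecMul, mul_nonsing_inv _ hu, vecMul_one, zero_vecMul] at h3
  exact sub_eq_zero.1 h3

theorem la_perf (hβ : β.det ≠ 0) (hs : βᵀ = β) (hY : ∀ s, (Y s)ᵀ * β * Y s = β)
    {v a : Fin m → κ → F} (ha : ∀ s, v s = Y s *ᵥ a s - a s) {C : Fin (m + 1) → κ → F}
    (h0 : C 0 = 0) (hC : ∀ s, C s.succ = C s.castSucc + Fin.partialProd Y s.castSucc *ᵥ v s)
    (h : ∀ w ∈ Tp Y, ∑ s, (Fin.partialProd Y s.castSucc *ᵥ a s - C s.castSucc) ⬝ᵥ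
      β *ᵥ Fin.partialProd Y s.castSucc *ᵥ w s = 0) : ∃ u, v = tb Y u := by
  let T : (Fin m → κ → F) →ₗ[F] κ → F :=
    ∑ s, (Fin.partialProd Y s.castSucc).mulVecLin ∘ₗ (Y s - 1).mulVecLin ∘ₗ LinearMap.proj s
  have hT : ∀ x, T x = ∑ s, Fin.partialProd Y s.castSucc *ᵥ (Y s *ᵥ x s - x s) := fun x => by
    simp only [T, LinearMap.sum_apply, LinearMap.comp_apply, LinearMap.proj_apply,
      mulVecLin_apply, sub_mulVec, one_mulVec]
  let φ : Dual F (Fin m → κ → F) :=
    ∑ s, dotProductBilin F F (Fin.partialProd Y s.castSucc *ᵥ a s - C s.castSucc) ∘ₗ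
      β.mulVecLin ∘ₗ (Fin.partialProd Y s.castSucc).mulVecLin ∘ₗ (Y s - 1).mulVecLin ∘ₗ
        LinearMap.proj s
  have hφ : ∀ x, φ x = ∑ s, (Fin.partialProd Y s.castSucc *ᵥ a s - C s.castSucc) ⬝ᵥ
      β *ᵥ Fin.partialProd Y s.castSucc *ᵥ (Y s *ᵥ x s - x s) := fun x => by
    simp only [φ, LinearMap.sum_apply, LinearMap.comp_apply, LinearMap.proj_apply,
      mulVecLin_apply, sub_mulVec, one_mulVec, dotProductBilin_apply_apply]
  have hm : φ ∈ (LinearMap.ker T).dualAnnihilator := by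
    rw [Submodule.mem_dualAnnihilator]
    intro x hx
    rw [hφ]
    exact h (fun s => Y s *ᵥ x s - x s) (mem_Tp.2 ⟨(hT x).symm.trans hx, fun s => ⟨x s, rfl⟩⟩)
  rw [← LinearMap.range_dualMap_eq_dualAnnihilator_ker] at hm
  obtain ⟨ψ, hψ⟩ := hm
  obtain ⟨c, hc⟩ : ∃ c : κ → F, ∀ y, ψ y = c ⬝ᵥ y := ⟨fun i => ψ (Pi.single i 1), fun y => by
    rw [LinearMap.pi_apply_eq_sum_univ ψ y]
    refine Finset.sum_congr rfl fun i _ => ?_
    rw [smul_eq_mul, mul_comm]
    congr 2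
    funext j
    simp [Pi.single_apply, eq_comm]⟩
  obtain ⟨u, hu⟩ : ∃ u : κ → F, ∀ y, ψ y = u ⬝ᵥ β *ᵥ y := ⟨c ᵥ* β⁻¹, fun y => by
    rw [hc, dotProduct_mulVec, vecMul_vecMul, nonsing_inv_mul _ (isUnit_iff_ne_zero.2 hβ),
      vecMul_one]⟩
  have key : ∀ s x, (Fin.partialProd Y s.castSucc *ᵥ a s - C s.castSucc - u) ⬝ᵥ
      β *ᵥ Fin.partialProd Y s.castSucc *ᵥ (Y s *ᵥ x - x) = 0 := fun s x => by
    have h1 := LinearMap.congr_fun hψ (Pi.single s x)
    rw [LinearMap.dualMap_apply, hu, hT, hφ, Finset.sum_eq_single s, Finset.sum_eq_single s,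
      Pi.single_eq_same] at h1
    · rw [sub_dotProduct, ← h1, sub_self]
    · intro t _ ht
      simp [Pi.single_eq_of_ne ht]
    · simp
    · intro t _ ht
      simp [Pi.single_eq_of_ne ht]
    · simp
  have step : ∀ s : Fin m, C s.castSucc = Fin.partialProd Y s.castSucc *ᵥ u - u →
      v s = Y s *ᵥ u - u := fun s e => by
    have h1 := b2_fix hβ (hY s) (z := a s - u) fun x => by
      have h2 := key s x
      rwa [e, sub_sub, sub_add_cancel, ← mulVec_sub, b2_iso (b2_pp hY _)] at h2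
    rw [mulVec_sub] at h1
    rw [ha, sub_eq_sub_iff_sub_eq_sub, h1]
  have hall : ∀ s, C s = Fin.partialProd Y s *ᵥ u - u := fun s => by
    induction s using Fin.induction with
    | zero => simp [h0]
    | succ s ih =>
      rw [hC, step s ih, ih, Fin.partialProd_succ, mulVec_sub, mulVec_mulVec]
      abel
  refine ⟨u, funext fun s => ?_⟩
  rw [step s (hall _)]
  simp only [tb, LinearMap.pi_apply, mulVecLin_apply, sub_mulVec, one_mulVec]

theorem la_rank {n : ℕ} {Y : Fin (n + 2) → Matrix κ κ F} (hβ : β.det ≠ 0) (hs : βᵀ = β)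
    (hY : ∀ s, (Y s)ᵀ * β * Y s = β) (h1 : ∀ i : Fin n, (Y i.castSucc.castSucc - 1).rank ≤ 1) :
    finrank F (Tp Y) ≤ n + finrank F (LinearMap.range (tb Y)) := by
  have hr : ∀ (w : Tp Y) (s), w.1 s ∈ LinearMap.range (Y s - 1).mulVecLin := fun w s =>
    (Submodule.mem_iInf _).1 w.2.2 s
  let f : Tp Y →ₗ[F] ∀ i : Fin (n + 1), LinearMap.range (Y i.castSucc - 1).mulVecLin :=
    LinearMap.pi fun i => (LinearMap.proj i.castSucc ∘ₗ (Tp Y).subtype).codRestrict _
      fun w => hr w _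
  have hf : Function.Injective f := by
    rw [injective_iff_map_eq_zero]
    intro w hw
    have h2 : ∀ i : Fin (n + 1), w.1 i.castSucc = 0 := fun i =>
      congrArg Subtype.val (congrFun hw i)
    have h3 := (mem_Tp.1 w.2).1
    rw [Fin.sum_univ_castSucc] at h3
    simp only [h2, mulVec_zero, Finset.sum_const_zero, zero_add] at h3
    have h4 := congrArg ((Fin.partialProd Y (Fin.last (n + 1)).castSucc)⁻¹ *ᵥ ·) h3
    simp only [mulVec_mulVec, nonsing_inv_mul _ (b2_det hβ (b2_pp hY _)), one_mulVec,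
      mulVec_zero] at h4
    refine Subtype.ext (funext fun s => ?_)
    induction s using Fin.lastCases with
    | last => exact h4
    | cast i => exact h2 i
  have h5 := LinearMap.finrank_le_finrank_of_injective hf
  rw [Module.finrank_pi_fintype, Fin.sum_univ_castSucc] at h5
  have h6 : ∑ i : Fin n, finrank F (LinearMap.range (Y i.castSucc.castSucc - 1).mulVecLin) ≤ n :=
    (Finset.sum_le_sum fun i _ => h1 i).trans (by simp)
  have h7 : LinearMap.range (Y (Fin.last n).castSucc - 1).mulVecLin =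
      (LinearMap.range (tb Y)).map (LinearMap.proj (Fin.last n).castSucc) := by
    rw [← LinearMap.range_comp]
    rfl
  have h8 := Submodule.finrank_map_le
    (LinearMap.proj (Fin.last n).castSucc : (Fin (n + 2) → κ → F) →ₗ[F] κ → F)
    (LinearMap.range (tb Y))
  rw [← h7] at h8
  exact h5.trans (add_le_add h6 h8)

theorem la_sol {n : ℕ} (hκ : Fintype.card κ + 1 < n) (v : Fin n → κ → F) (i0 : Fin n) :
    ∃ t : Fin n → F, t ≠ 0 ∧ t i0 = 0 ∧ ∑ i, t i • v i = 0 := by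
  let f : (Fin n → F) →ₗ[F] F × (κ → F) :=
    (LinearMap.proj i0).prod (Fintype.linearCombination F v)
  have h : LinearMap.ker f ≠ ⊥ := LinearMap.ker_ne_bot_of_finrank_lt (by
    simp only [finrank_prod, finrank_self, finrank_fintype_fun_eq_card, Fintype.card_fin]
    omega)
  obtain ⟨t, ht, h0⟩ := Submodule.exists_mem_ne_zero_of_ne_bot h
  exact ⟨t, h0, congrArg Prod.fst ht, by
    simpa [f, Fintype.linearCombination_apply] using congrArg Prod.snd ht⟩

end Pool.Agent.Lib.MP_d61fbb_ag.DW
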