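import Pool.Agent.Lib.MP_d61fbb_ag.DW.B1

/-! Primitives of the cup product and their local terms. -/

set_option autoImplicit false

noncomputable section

namespace Pool.Agent.Lib.MP_d61fbb_ag.DW

open Matrix

variable {Γ κ : Type} [Group Γ] [TopologicalSpace Γ] [IsTopologicalGroup Γ] {G : Subgroup Γ}
  [G.Normal] [CompactSpace G] [Fintype κ] [DecidableEq κ] {𝒟 good : Set (Set Γ)} {χ : Γ → ℤ_[2]}
  {m : ℕ} {y : Fin (m + 1) → G} {pm : Γ → Equiv.Perm (Fin (m + 1))} {N : Subgroup G}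
  {r : G →* Matrix κ κ ℚ_[2]} {β : Matrix κ κ ℚ_[2]} {c c' : G → κ → ℚ_[2]} {h : G → ℚ_[2]}

/-- `h` is a primitive of the cup product of `c` and `c'`. -/
structure Hc (N : Subgroup G) (r : G →* Matrix κ κ ℚ_[2]) (β : Matrix κ κ ℚ_[2])
    (c c' : G → κ → ℚ_[2]) (h : G → ℚ_[2]) : Prop where
  iso : ∀ g, (r g)ᵀ * β * r g = β
  co : c ∈ Co N r
  co' : c' ∈ Co N r
  cont : Continuous h
  mul : ∀ g g', h (g * g') = h g + h g' + c g ⬝ᵥ β *ᵥ r g *ᵥ c' g'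
  kill : ∀ g ∈ N, h g = 0

omit [DecidableEq κ] in
theorem b3_sim {A : Matrix κ κ ℚ_[2]} {μ : ℚ_[2]} (h : Aᵀ * β * A = μ • β) (a b : κ → ℚ_[2]) :
    (A *ᵥ a) ⬝ᵥ β *ᵥ A *ᵥ b = μ * (a ⬝ᵥ β *ᵥ b) := by
  rw [← vecMul_transpose A a, ← dotProduct_mulVec, mulVec_mulVec, mulVec_mulVec, h, smul_mulVec,
    dotProduct_smul, smul_eq_mul]

omit [DecidableEq κ] in
theorem b3_iso {A : Matrix κ κ ℚ_[2]} (h : Aᵀ * β * A = β) (a b : κ → ℚ_[2]) :
    (A *ᵥ a) ⬝ᵥ β *ᵥ A *ᵥ b = a ⬝ᵥ β *ᵥ b := by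
  rw [b3_sim (μ := 1) (by rw [h, one_smul]), one_mul]

omit [DecidableEq κ] in
theorem b3_symm (hs : βᵀ = β) (a b : κ → ℚ_[2]) : a ⬝ᵥ β *ᵥ b = b ⬝ᵥ β *ᵥ a := by
  rw [dotProduct_mulVec, ← mulVec_transpose, hs, dotProduct_comm]

omit [IsTopologicalGroup Γ] [G.Normal] [CompactSpace G] in
theorem b3_conj (hc : c ∈ Co N r) {x : G} {a : κ → ℚ_[2]} (e : c x = r x *ᵥ a - a) (u : G) :
    c (u * x * u⁻¹) = r (u * x * u⁻¹) *ᵥ (r u *ᵥ a - c u) - (r u *ᵥ a - c u) := by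
  have h1 := hc.2.1 (u * x * u⁻¹) u
  rw [inv_mul_cancel_right, hc.2.1, e, mulVec_sub, mulVec_mulVec, ← map_mul] at h1
  rw [mulVec_sub, mulVec_mulVec, ← map_mul, inv_mul_cancel_right]
  linear_combination (exp := 1) -h1

omit [IsTopologicalGroup Γ] [G.Normal] [CompactSpace G] in
theorem Hc.add (H : Hc N r β c c' h) {x : G} {a : κ → ℚ_[2]} (e : c x = r x *ᵥ a - a) (g : G) :
    h (x * g) + a ⬝ᵥ β *ᵥ c' (x * g) = h x + a ⬝ᵥ β *ᵥ c' x + (h g + a ⬝ᵥ β *ᵥ c' g) := by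
  rw [H.mul, H.co'.2.1, e, sub_dotProduct, b3_iso (H.iso x), mulVec_add, dotProduct_add]
  ring

theorem Surf.exists_h (H : Surf G 𝒟 good χ y pm N) (hr : Ar N r)
    (hβ : ∀ g, (r g)ᵀ * β * r g = β) (hc : c ∈ Co N r) (hc' : c' ∈ Co N r) :
    ∃ h, Hc N r β c c' h := by
  have hw : Continuous fun g => c g ᵥ* (β * r g) :=
    hc.1.matrix_vecMul (continuous_const.matrix_mul hr.cont)
  obtain ⟨t, t0, ht⟩ := co_bdd hw
  have w1 : ∀ g x, (c g ᵥ* (β * r g)) ⬝ᵥ x = c g ⬝ᵥ β *ᵥ r g *ᵥ x := fun g x => by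
    rw [← dotProduct_mulVec, mulVec_mulVec]
  let M : G → Matrix (κ ⊕ Unit) (κ ⊕ Unit) ℚ_[2] := fun g =>
    fromBlocks (r g) 0 (replicateRow Unit (t • c g ᵥ* (β * r g))) 1
  have M1 : ∀ g x i, (M g *ᵥ x) (.inl i) = (r g *ᵥ (x ∘ Sum.inl)) i := fun g x i => by
    simp [M, fromBlocks_mulVec]
  have M2 : ∀ g x i, (M g *ᵥ x) (.inr i) =
      t * (c g ⬝ᵥ β *ᵥ r g *ᵥ (x ∘ Sum.inl)) + x (.inr i) := fun g x i => by
    rw [← w1, fromBlocks_mulVec, one_mulVec, ← smul_eq_mul t, ← smul_dotProduct]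
    rfl
  have M0 : ∀ g, c g = 0 → r g = 1 → M g = 1 := fun g a b => by
    simp only [M, a, b, zero_vecMul, smul_zero, replicateRow_zero, fromBlocks_one]
  let ρ : G →* Matrix (κ ⊕ Unit) (κ ⊕ Unit) ℚ_[2] :=
    { toFun := M
      map_one' := M0 1 (co_one hc) (map_one r)
      map_mul' := fun g g' => Matrix.ext_iff_mulVec.2 fun x => by
        have e : (M g' *ᵥ x) ∘ Sum.inl = r g' *ᵥ (x ∘ Sum.inl) := funext (M1 g' x)
        rw [← mulVec_mulVec]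
        ext (i | i)
        · rw [M1, M1, e, map_mul, mulVec_mulVec]
        · rw [M2, M2, M2, e, hc.2.1, map_mul, ← mulVec_mulVec, add_dotProduct, b3_iso (hβ g)]
          ring }
  have hρ : Ar N ρ := by
    refine ⟨fun g i j => ?_, ?_, fun g hg => M0 g (hc.2.2 g hg) (hr.kill g hg)⟩
    · rcases i with i | i <;> rcases j with j | j
      · exact hr.int g i j
      · exact norm_zero.trans_le zero_le_one
      · exact ht g j
      · exact norm_one.le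
    · exact hr.cont.matrix_fromBlocks continuous_const
        (hw.const_smul t).matrix_replicateRow continuous_const
  obtain ⟨C, hC, hv⟩ := H.exists_co hρ fun i => Sum.elim (c' (y i.castSucc)) 0
  have c1 : (fun g => C g ∘ Sum.inl) ∈ Co N r :=
    ⟨continuous_pi fun i => (continuous_apply _).comp hC.1, fun g g' => funext fun i => by
      show C (g * g') (.inl i) = C g (.inl i) + _
      rw [hC.2.1]; exact congrArg (C g (.inl i) + ·) (M1 g _ i), fun g hg => by simp [hC.2.2 g hg]⟩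
  have c2 : ∀ g, C g ∘ Sum.inl = c' g := fun g => sub_eq_zero.1
    (congrFun (H.ext (sub_mem c1 hc') fun i => by simp [hv]) g)
  refine ⟨fun g => t⁻¹ * C g (.inr ()), hβ, hc, hc',
    continuous_const.mul ((continuous_apply _).comp hC.1), fun g g' => ?_,
    fun g hg => by simp [hC.2.2 g hg]⟩
  rw [hC.2.1, Pi.add_apply, show ρ g = M g from rfl, M2, c2]
  field_simp
  ring

theorem Hc.cyc (H : Hc N r β c c' h) (hr : Ar N r) {x g : G} {t : ℤ_[2]} {a : κ → ℚ_[2]}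
    (e : c x = r x *ᵥ a - a) (hg : (g, t) ∈ cyc N x) :
    h g + a ⬝ᵥ β *ᵥ c' g = t * (h x + a ⬝ᵥ β *ᵥ c' x) := by
  have k : ∀ n ∈ N, ∀ j : ℕ, h (x ^ j * n) + a ⬝ᵥ β *ᵥ c' (x ^ j * n) =
      j * (h x + a ⬝ᵥ β *ᵥ c' x) := fun n hn j => by
    induction j with
    | zero => simp [H.kill n hn, H.co'.2.2 n hn]
    | succ j ih => rw [pow_succ', mul_assoc, H.add e, ih]; push_cast; ring
  have cl : IsClosed {p : G × ℤ_[2] | h p.1 + a ⬝ᵥ β *ᵥ c' p.1 =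
      p.2 * (h x + a ⬝ᵥ β *ᵥ c' x)} :=
    isClosed_eq ((H.cont.comp continuous_fst).add (continuous_const.dotProduct
      (continuous_const.matrix_mulVec (H.co'.1.comp continuous_fst))))
      ((continuous_subtype_val.comp continuous_snd).mul continuous_const)
  refine closure_minimal ?_ cl hg
  rintro _ ⟨j, n, hn, rfl⟩
  simpa using k n hn j

theorem Hc.conj (H : Hc N r β c c' h) {x : G} {a : κ → ℚ_[2]} (e : c x = r x *ᵥ a - a) (u : G) :
    h (u * x * u⁻¹) + (r u *ᵥ a - c u) ⬝ᵥ β *ᵥ c' (u * x * u⁻¹) = h x + a ⬝ᵥ β *ᵥ c' x := by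
  have h1 := H.add (b3_conj H.co e u) u
  have h2 := b3_iso (H.iso u) a (c' x)
  rw [inv_mul_cancel_right, H.mul, H.co'.2.1, mulVec_add, dotProduct_add,
    sub_dotProduct _ _ (β *ᵥ r u *ᵥ c' x)] at h1
  linear_combination h2 - h1

theorem Hc.indep (H : Hc N r β c c' h) {x : G} {a a' b : κ → ℚ_[2]} (e : c x = r x *ᵥ a - a)
    (e' : c x = r x *ᵥ a' - a') (f : c' x = r x *ᵥ b - b) :
    a ⬝ᵥ β *ᵥ c' x = a' ⬝ᵥ β *ᵥ c' x := by
  have h1 : r x *ᵥ (a - a') = a - a' := by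
    rw [mulVec_sub]
    linear_combination (exp := 1) e' - e
  have h2 := b3_iso (H.iso x) (a - a') b
  rw [h1] at h2
  rw [← sub_eq_zero, ← sub_dotProduct, f, mulVec_sub, dotProduct_sub, h2, sub_self]

theorem Hc.sum (H : Hc N r β c c' h) (hp : Fin.partialProd y (Fin.last _) ∈ N)
    (a : Fin (m + 1) → κ → ℚ_[2]) :
    ∑ s, (h (y s) + a s ⬝ᵥ β *ᵥ c' (y s)) =
      ∑ s, (r (Fin.partialProd y s.castSucc) *ᵥ a s - c (Fin.partialProd y s.castSucc)) ⬝ᵥ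
        β *ᵥ r (Fin.partialProd y s.castSucc) *ᵥ c' (y s) := by
  have h1 := (Fin.sum_univ_succ fun s => h (Fin.partialProd y s)).symm.trans
    (Fin.sum_univ_castSucc _)
  simp only [Fin.partialProd_succ, H.mul, Fin.partialProd_zero, H.kill _ hp, H.kill _ N.one_mem,
    Finset.sum_add_distrib] at h1
  simp only [sub_dotProduct, b3_iso (H.iso _), Finset.sum_add_distrib, Finset.sum_sub_distrib]
  linear_combination h1

theorem Hc.swap (H : Hc N r β c c' h) (hs : βᵀ = β) :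
    Hc N r β c' c fun g => c g ⬝ᵥ β *ᵥ c' g - h g := by
  refine ⟨H.iso, H.co', H.co, (H.co.1.dotProduct (continuous_const.matrix_mulVec H.co'.1)).sub
    H.cont, fun g g' => ?_, fun g hg => by simp [H.kill g hg, H.co.2.2 g hg]⟩
  rw [H.mul, H.co.2.1, H.co'.2.1, mulVec_add, add_dotProduct, dotProduct_add, dotProduct_add,
    b3_iso (H.iso g), b3_symm hs (c' g)]
  ring

end Pool.Agent.Lib.MP_d61fbb_ag.DW
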