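import Pool.Agent.Lib.MP_d61fbb_ag.DW.B1b
import Pool.Agent.Lib.MP_d61fbb_ag.DW.B2
import Pool.Agent.Lib.MP_d61fbb_ag.DW.B3a

/-! The cup product pairing. -/

set_option autoImplicit false

noncomputable section

namespace Pool.Agent.Lib.MP_d61fbb_ag.DW

open Matrix

variable {Γ κ : Type} [Group Γ] [TopologicalSpace Γ] [IsTopologicalGroup Γ] {G : Subgroup Γ}
  [G.Normal] [CompactSpace G] [Fintype κ] [DecidableEq κ] {𝒟 good : Set (Set Γ)} {χ : Γ → ℤ_[2]}
  {m : ℕ} {y : Fin (m + 1) → G} {pm : Γ → Equiv.Perm (Fin (m + 1))} {N : Subgroup G}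
  {r : Γ →* Matrix κ κ ℚ_[2]} {β : Matrix κ κ ℚ_[2]} {μ : Γ → ℚ_[2]}

theorem b3_sec (A : Matrix κ κ ℚ_[2]) : ∃ L : (κ → ℚ_[2]) →ₗ[ℚ_[2]] κ → ℚ_[2],
    ∀ v a, v = A *ᵥ a - a → v = A *ᵥ L v - L v := by
  obtain ⟨g, hg⟩ := (A - 1).mulVecLin.rangeRestrict.exists_rightInverse_of_surjective
    (LinearMap.range_rangeRestrict _)
  obtain ⟨L, hL⟩ := g.exists_extend
  refine ⟨L, fun v a e => ?_⟩
  have hv : v ∈ LinearMap.range (A - 1).mulVecLin := ⟨a, by simp [e]⟩
  have h1 : L v = g ⟨v, hv⟩ := LinearMap.congr_fun hL ⟨v, hv⟩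
  have h2 : (A - 1) *ᵥ g ⟨v, hv⟩ = v := congrArg Subtype.val (LinearMap.congr_fun hg ⟨v, hv⟩)
  rw [← h1, sub_mulVec, one_mulVec] at h2
  exact h2.symm

theorem b3_part {M M' : Type} [Monoid M] [Monoid M'] (f : M →* M') {n : ℕ} (x : Fin n → M)
    (s : Fin (n + 1)) : Fin.partialProd (fun i => f (x i)) s = f (Fin.partialProd x s) := by
  induction s using Fin.induction with
  | zero => simp
  | succ i ih => rw [Fin.partialProd_succ, Fin.partialProd_succ, ih, map_mul]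

theorem exists_pair (hr : Sys G good r β μ) (h : Surf G 𝒟 good χ y pm N) :
    ∃ Φ : (G → κ → ℚ_[2]) →ₗ[ℚ_[2]] (G → κ → ℚ_[2]) →ₗ[ℚ_[2]] ℚ_[2],
      ∀ c ∈ Pa N (r.comp G.subtype) y,
        (∀ c' ∈ Pa N (r.comp G.subtype) y, Φ c c' = -Φ c' c ∧
          ∀ γ, Φ (ac G r γ c) (ac G r γ c') = μ γ * (χ γ⁻¹ : ℚ_[2]) * Φ c c') ∧
        ((∀ c' ∈ Pa N (r.comp G.subtype) y, Φ c c' = 0) ↔
          c ∈ LinearMap.range (cob (r.comp G.subtype))) := by
  set R := r.comp G.subtype with hR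
  have ar : Ar N R := hr.ar h
  have iso : ∀ g : G, (R g)ᵀ * β * R g = β := fun g => by
    have := hr.sim g
    rwa [hr.one g g.2, one_smul] at this
  choose L hL using fun s => b3_sec (R (y s))
  obtain ⟨Φ, hΦ⟩ : ∃ Φ : (G → κ → ℚ_[2]) →ₗ[ℚ_[2]] (G → κ → ℚ_[2]) →ₗ[ℚ_[2]] ℚ_[2], ∀ c c',
      Φ c c' = ∑ s, (R (Fin.partialProd y s.castSucc) *ᵥ L s (c (y s)) -
        c (Fin.partialProd y s.castSucc)) ⬝ᵥ β *ᵥ R (Fin.partialProd y s.castSucc) *ᵥ c' (y s) :=
    ⟨LinearMap.mk₂ ℚ_[2] (fun c c' => ∑ s, (R (Fin.partialProd y s.castSucc) *ᵥ L s (c (y s)) -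
        c (Fin.partialProd y s.castSucc)) ⬝ᵥ β *ᵥ R (Fin.partialProd y s.castSucc) *ᵥ c' (y s))
      (fun a b c => by
      simp only [Pi.add_apply, map_add, mulVec_add, add_sub_add_comm, add_dotProduct,
        Finset.sum_add_distrib]) (fun t a c => by
      simp only [Pi.smul_apply, map_smul, mulVec_smul, ← smul_sub, smul_dotProduct,
        Finset.smul_sum]) (fun a b c => by
      simp only [Pi.add_apply, mulVec_add, dotProduct_add, Finset.sum_add_distrib])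
      (fun t a c => by simp only [Pi.smul_apply, mulVec_smul, dotProduct_smul, Finset.smul_sum]),
      fun _ _ => rfl⟩
  have key : ∀ {c c' k} {a : Fin (m + 1) → κ → ℚ_[2]}, Hc N R β c c' k → c' ∈ Pa N R y →
      (∀ s, c (y s) = R (y s) *ᵥ a s - a s) →
      Φ c c' = ∑ s, (k (y s) + a s ⬝ᵥ β *ᵥ c' (y s)) := fun {c c' k a} H h2 e => by
    rw [hΦ, ← H.sum h.prod]
    refine Finset.sum_congr rfl fun s _ => ?_
    obtain ⟨b, hb⟩ := (mem_Pa.1 h2).2 s
    rw [H.indep (hL s _ _ (e s)) (e s) hb]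
  refine ⟨Φ, fun c hc => ⟨fun c' hc' => ?_, fun h0 => ?_, ?_⟩⟩
  · obtain ⟨c1, c2⟩ := mem_Pa.1 hc
    obtain ⟨c3, c4⟩ := mem_Pa.1 hc'
    choose a ha using c2
    choose a' ha' using c4
    obtain ⟨k, H⟩ := h.exists_h ar iso c1 c3
    refine ⟨?_, fun γ => ?_⟩
    · rw [key H hc' ha, key (H.swap hr.sym) hc ha', eq_neg_iff_add_eq_zero,
        ← Finset.sum_add_distrib]
      refine Finset.sum_eq_zero fun s _ => ?_
      have e1 := b3_iso (iso (y s)) (a s) (a' s)
      have e2 := b3_symm hr.sym (a s) (a' s)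
      have e3 := b3_symm hr.sym (a' s) (R (y s) *ᵥ a s)
      rw [ha, ha']
      simp only [mulVec_sub, dotProduct_sub, sub_dotProduct]
      linear_combination e1 + e2 + e3
    · have tw : ∀ g : G, R g * r γ = r γ * R (MulAut.conjNormal γ⁻¹ g) := fun g => by
        simp only [hR, MonoidHom.comp_apply, Subgroup.coe_subtype, ← map_mul,
          MulAut.conjNormal_apply, inv_inv, mul_assoc, mul_inv_cancel_left]
      have H1 : Hc N R β (ac G r γ c) (ac G r γ c')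
          fun g => μ γ * k (MulAut.conjNormal γ⁻¹ g) := by
        refine ⟨iso, h.ac_co γ c1, h.ac_co γ c3, continuous_const.mul (H.cont.comp ?_),
          fun g g' => ?_, fun g hg => by rw [H.kill _ (h.stab _ g hg), mul_zero]⟩
        · exact continuous_induced_rng.2
            ((continuous_const.mul continuous_subtype_val).mul continuous_const)
        · rw [map_mul, H.mul, ac_apply, ac_apply, mulVec_mulVec _ (R g), tw, ← mulVec_mulVec,
            b3_sim (hr.sim γ)]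
          ring
      choose u hu using h.gal γ⁻¹
      have z : ∀ s, MulAut.conjNormal γ⁻¹ (y s) =
          u s * ((u s)⁻¹ * MulAut.conjNormal γ⁻¹ (y s) * u s) * (u s)⁻¹ := fun s => by group
      have k1 := key (a := fun s => r γ *ᵥ (R (u s) *ᵥ a (pm γ⁻¹ s) - c (u s))) H1
        (hr.ac_mem h γ hc') fun s => by
          have e := b3_conj c1 (ar.cyc c1 (ha _) (hu s)) (u s)
          rw [← z] at e
          rw [ac_apply, e, mulVec_mulVec _ (R (y s)), tw, mulVec_sub (r γ) (R _ *ᵥ (_ - _)),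
            mulVec_mulVec]
      rw [k1, key H hc' ha, Finset.mul_sum]
      refine Fintype.sum_equiv (pm γ⁻¹) _ _ fun s => ?_
      have e := H.conj (ar.cyc c1 (ha _) (hu s)) (u s)
      rw [← z, H.cyc ar (ha _) (hu s)] at e
      rw [ac_apply, b3_sim (hr.sim γ), ← mul_add, e, mul_assoc]
  · obtain ⟨c1, c2⟩ := mem_Pa.1 hc
    obtain ⟨u, hu⟩ := la_perf (Y := fun s => R (y s)) hr.det hr.sym (fun s => iso _)
      (v := fun s => c (y s)) (a := fun s => L s (c (y s)))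
      (fun s => (c2 s).elim fun a e => hL s _ a e) (C := fun s => c (Fin.partialProd y s))
      (co_one c1) (fun s => by simp only [Fin.partialProd_succ, c1.2.1, b3_part]) fun w hw => by
        obtain ⟨w1, w2⟩ := mem_Tp.1 hw
        simp only [b3_part] at w1 ⊢
        obtain ⟨c', c3, c4⟩ := h.tuple ar w w1
        have := h0 c' (mem_Pa.2 ⟨c3, fun s => c4 s ▸ w2 s⟩)
        simpa only [hΦ, c4] using this
    exact ⟨u, (sub_eq_zero.1 (h.ext (sub_mem c1 (mem_Pa.1 (ar.cob_mem y u)).1) fun i =>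
      sub_eq_zero.2 (congrFun hu _))).symm⟩
  · rintro ⟨u, rfl⟩ c' hc'
    obtain ⟨c3, -⟩ := mem_Pa.1 hc'
    rw [key (k := fun g => -(u ⬝ᵥ β *ᵥ c' g)) (a := fun _ => u) ⟨iso, (mem_Pa.1 hc).1, c3,
      (continuous_const.dotProduct (continuous_const.matrix_mulVec c3.1)).neg, fun g g' => ?_,
      fun g hg => by simp [c3.2.2 g hg]⟩ hc' fun s => cob_apply u _]
    · simp
    · rw [c3.2.1, cob_apply, sub_dotProduct, b3_iso (iso g), mulVec_add, dotProduct_add]
      ring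

end Pool.Agent.Lib.MP_d61fbb_ag.DW
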