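import Pool.Agent.Lib.MP_d61fbb_ag.DW.B4a
import Pool.Agent.Lib.MP_d61fbb_ag.DW.B2
import Pool.Agent.Lib.MP_d61fbb_ag.SQ.G1a

/-! Residues of cocycles with values in the root lattice. -/

set_option autoImplicit false

noncomputable section

namespace Pool.Agent.Lib.MP_d61fbb_ag.DW

open Matrix Pool.Agent.Lib.MP_d61fbb_ag.SQ

variable {Γ κ : Type} [Group Γ] [TopologicalSpace Γ] [IsTopologicalGroup Γ] {G : Subgroup Γ}
  [G.Normal] [CompactSpace G] [Fintype κ] [DecidableEq κ] {𝒟 good : Set (Set Γ)} {χ : Γ → ℤ_[2]}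
  {d : ℕ} {y : Fin (d + 1 + 2) → G} {pm : Γ → Equiv.Perm (Fin (d + 1 + 2))} {N : Subgroup G}
  {r : Γ →* Matrix κ κ ℚ_[2]} {β : Matrix κ κ ℚ_[2]} {μ : Γ → ℚ_[2]}
  {pa : Γ →* Equiv.Perm (Fin (d + 1))} {v : Fin (d + 1) → κ → ℚ_[2]}

variable (G r β v) in
/-- The vectors that pair evenly with all conjugates of the roots. -/
def b4_Q : AddSubgroup (κ → ℚ_[2]) where
  carrier := {w | ∀ i (g : G), ‖v i ⬝ᵥ β *ᵥ r g *ᵥ w‖ ≤ 2⁻¹}
  zero_mem' i g := by simp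
  add_mem' {a b} ha hb i g := by
    rw [mulVec_add, mulVec_add, dotProduct_add]
    exact b4a_add (ha i g) (hb i g)
  neg_mem' {a} ha i g := by
    rw [mulVec_neg, mulVec_neg, dotProduct_neg, norm_neg]
    exact ha i g

variable (y β v) in
/-- The residue of a cochain. -/
def b4_lam (i : Fin (d + 1)) : (G → κ → ℚ_[2]) →ₗ[ℚ_[2]] ℚ_[2] where
  toFun c := v i ⬝ᵥ β *ᵥ c (y i.castSucc.castSucc) / (v i ⬝ᵥ β *ᵥ v i)
  map_add' a b := by rw [Pi.add_apply, mulVec_add, dotProduct_add, add_div]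
  map_smul' t a := by
    rw [Pi.smul_apply, mulVec_smul, dotProduct_smul, smul_eq_mul, RingHom.id_apply, smul_eq_mul,
      mul_div_assoc]

variable (y N r β v) in
/-- The parabolic cocycles with values in that lattice. -/
def b4_Z : AddSubgroup (G → κ → ℚ_[2]) where
  carrier := {c | c ∈ Pa N (r.comp G.subtype) y ∧ ∀ g, c g ∈ b4_Q G r β v}
  zero_mem' := ⟨zero_mem _, fun _ => zero_mem _⟩
  add_mem' ha hb := ⟨add_mem ha.1 hb.1, fun g => add_mem (ha.2 g) (hb.2 g)⟩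
  neg_mem' ha := ⟨neg_mem ha.1, fun g => neg_mem (ha.2 g)⟩

section lattice

omit [TopologicalSpace Γ] [IsTopologicalGroup Γ] [G.Normal] [CompactSpace G]

theorem b4_smul {t : ℚ_[2]} (ht : ‖t‖ ≤ 1) {w : κ → ℚ_[2]} (hw : w ∈ b4_Q G r β v) :
    t • w ∈ b4_Q G r β v := fun i g => by
  rw [mulVec_smul, mulVec_smul, dotProduct_smul, smul_eq_mul]
  exact (b4a_mul ht (hw i g)).trans_eq (one_mul _)

theorem b4_one {w : κ → ℚ_[2]} (hw : w ∈ b4_Q G r β v) (i : Fin (d + 1)) :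
    ‖v i ⬝ᵥ β *ᵥ w‖ ≤ 2⁻¹ := by
  have := hw i 1
  rwa [OneMemClass.coe_one, map_one, one_mulVec] at this

theorem b4_closed : IsClosed (b4_Q G r β v : Set (κ → ℚ_[2])) := by
  have : (b4_Q G r β v : Set (κ → ℚ_[2])) =
      ⋂ i, ⋂ g : G, {w | ‖v i ⬝ᵥ β *ᵥ r g *ᵥ w‖ ≤ 2⁻¹} := by
    ext w
    simp only [Set.mem_iInter]
    rfl
  rw [this]
  refine isClosed_iInter fun i => isClosed_iInter fun g => isClosed_le ?_ continuous_const
  exact (continuous_const.dotProduct (continuous_const.matrix_mulVec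
    (continuous_const.matrix_mulVec continuous_id))).norm

theorem b4_mul (a b : Γ) (w : κ → ℚ_[2]) : r a *ᵥ r b *ᵥ w = r (a * b) *ᵥ w := by
  rw [mulVec_mulVec, map_mul]

end lattice

omit [IsTopologicalGroup Γ] [G.Normal] [CompactSpace G] in
theorem b4_conj (hr : Sys G good r β μ) {x : Γ} {u : κ → ℚ_[2]} (h : Rf β (r x) u) (g : Γ) :
    Rf β (r (g * x * g⁻¹)) (r g *ᵥ u) := by
  rw [map_mul, map_mul]
  exact h.conj (by rw [← map_mul, mul_inv_cancel, map_one]) (hr.sim g) (hr.unit g) (hr.int g)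

omit [IsTopologicalGroup Γ] [G.Normal] [CompactSpace G] in
theorem b4_root (hr : Sys G good r β μ) (hv : ∀ i, Rf β (r (y i.castSucc.castSucc)) (v i))
    (j : Fin (d + 1)) : v j ∈ b4_Q G r β v := fun i g =>
  Rf.pair hr.sym hr.bint (hv i) (b4_conj hr (hv j) g) (by rw [← map_mul]; exact hr.uni _)

theorem b4_key (hr : Sys G good r β μ) (h : Surf G 𝒟 good χ y pm N) (hχ : ∀ γ, ‖χ γ‖ = 1)
    (hp : ∀ γ i, pm γ i.castSucc.castSucc = (pa γ i).castSucc.castSucc)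
    (hv : ∀ i, Rf β (r (y i.castSucc.castSucc)) (v i)) (γ : Γ) (i : Fin (d + 1)) :
    ∃ u g : G, ∃ t : ℚ_[2], MulAut.conjNormal γ (y i.castSucc.castSucc) * u = u * g ∧
      (g, χ γ) ∈ cyc N (y (pa γ i).castSucc.castSucc) ∧
      r g = r (y (pa γ i).castSucc.castSucc) ∧ ‖t - 1‖ < 1 ∧
      r γ *ᵥ v i = t • r u *ᵥ v (pa γ i) := by
  obtain ⟨u, hu⟩ := h.gal γ i.castSucc.castSucc
  rw [hp] at hu
  have e : r _ = r _ := Rf.cyc (hr.ar h) (hv (pa γ i)) hu (hχ γ)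
  have h1 := b4_conj hr (hv i) ((u : Γ)⁻¹ * γ)
  have e1 : (u : Γ)⁻¹ * γ * y i.castSucc.castSucc * ((u : Γ)⁻¹ * γ)⁻¹ =
      G.subtype (u⁻¹ * MulAut.conjNormal γ (y i.castSucc.castSucc) * u) := by
    simp [mul_assoc]
  rw [e1, e] at h1
  obtain ⟨t, ht, e2⟩ := (hv (pa γ i)).uniq h1
  refine ⟨u, _, t, by group, hu, e, ht, ?_⟩
  rw [← mulVec_smul, ← e2, b4_mul, mul_inv_cancel_left]

theorem b4_act (hr : Sys G good r β μ) (h : Surf G 𝒟 good χ y pm N) (hχ : ∀ γ, ‖χ γ‖ = 1)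
    (hp : ∀ γ i, pm γ i.castSucc.castSucc = (pa γ i).castSucc.castSucc)
    (hv : ∀ i, Rf β (r (y i.castSucc.castSucc)) (v i)) (γ : Γ) {w : κ → ℚ_[2]}
    (hw : w ∈ b4_Q G r β v) : r γ *ᵥ w ∈ b4_Q G r β v := fun i g => by
  obtain ⟨u, -, t, -, -, -, ht, e⟩ := b4_key hr h hχ hp hv γ⁻¹ i
  have e1 := b4a_sim (hr.sim γ⁻¹) (v i) (r g *ᵥ r γ *ᵥ w)
  have e2 := b4a_sim (hr.sim u) (v (pa γ⁻¹ i)) (r (u⁻¹ * MulAut.conjNormal γ⁻¹ g : G) *ᵥ w)
  have e3 : (u : Γ) * (u⁻¹ * MulAut.conjNormal γ⁻¹ g : G) = γ⁻¹ * g * γ := by simp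
  rw [b4_mul, e3, hr.one _ u.2, one_mul] at e2
  rw [e, smul_dotProduct, b4_mul γ⁻¹, b4_mul (γ⁻¹ * g), e2, smul_eq_mul] at e1
  have e4 := congrArg norm e1
  rw [norm_mul, norm_mul, b4a_one_of ht, hr.unit, one_mul, one_mul] at e4
  rw [← e4]
  exact hw _ _

omit [IsTopologicalGroup Γ] [G.Normal] [CompactSpace G] in
theorem b4_int (hv : ∀ i, Rf β (r (y i.castSucc.castSucc)) (v i)) {c : G → κ → ℚ_[2]}
    (hc : c ∈ b4_Z y N r β v) (i : Fin (d + 1)) : ‖b4_lam y β v i c‖ ≤ 1 := by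
  change ‖(_ / _ : ℚ_[2])‖ ≤ _
  rw [norm_div, (hv i).nrm]
  exact (div_le_one (by norm_num)).2 (b4_one (hc.2 _) i)

theorem b4_val (hv : ∀ i, Rf β (r (y i.castSucc.castSucc)) (v i)) {c : G → κ → ℚ_[2]}
    (hc : c ∈ Pa N (r.comp G.subtype) y) (i : Fin (d + 1)) :
    c (y i.castSucc.castSucc) = b4_lam y β v i c • v i := by
  obtain ⟨a, ha⟩ := (mem_Pa.1 hc).2 i.castSucc.castSucc
  change _ = (_ / _ : ℚ_[2]) • _
  rw [ha]
  exact (hv i).range a

theorem b4_ac (hr : Sys G good r β μ) (h : Surf G 𝒟 good χ y pm N) (hχ : ∀ γ, ‖χ γ‖ = 1)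
    (hp : ∀ γ i, pm γ i.castSucc.castSucc = (pa γ i).castSucc.castSucc)
    (hv : ∀ i, Rf β (r (y i.castSucc.castSucc)) (v i)) (γ : Γ) {c : G → κ → ℚ_[2]}
    (hc : c ∈ b4_Z y N r β v) : ac G r γ c ∈ b4_Z y N r β v :=
  ⟨hr.ac_mem h γ hc.1, fun g => by
    rw [ac_apply]
    exact b4_act hr h hχ hp hv γ (hc.2 _)⟩

theorem b4_equi (hr : Sys G good r β μ) (h : Surf G 𝒟 good χ y pm N) (hχ : ∀ γ, ‖χ γ‖ = 1)
    (hp : ∀ γ i, pm γ i.castSucc.castSucc = (pa γ i).castSucc.castSucc)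
    (hv : ∀ i, Rf β (r (y i.castSucc.castSucc)) (v i)) (γ : Γ) {c : G → κ → ℚ_[2]}
    (hc : c ∈ b4_Z y N r β v) (i : Fin (d + 1)) :
    ‖b4_lam y β v (pa γ i) (ac G r γ c) - b4_lam y β v i c‖ < 1 := by
  obtain ⟨u, g, t, hg, hu, e, ht, e1⟩ := b4_key hr h hχ hp hv γ i
  have hc' := b4_ac hr h hχ hp hv γ hc
  have e2 : ac G r γ c (MulAut.conjNormal γ (y i.castSucc.castSucc)) =
      (b4_lam y β v i c * t) • r u *ᵥ v (pa γ i) := by
    rw [ac_apply, map_inv, MulAut.inv_apply_self, b4_val hv hc.1, mulVec_smul, e1, smul_smul]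
  have hi := b4_int hv hc i
  generalize ac G r γ c = c' at hc' e2
  generalize b4_lam y β v i c = a at hi e2
  generalize pa γ i = j at hu e e2
  generalize MulAut.conjNormal γ (y i.castSucc.castSucc) = w at hg e2
  obtain ⟨hco, hpa⟩ := mem_Pa.1 hc'.1
  obtain ⟨b, hb⟩ := hpa j.castSucc.castSucc
  have e3 : c' g = b4_lam y β v j c' • v j := by
    rw [← b4_val hv hc'.1, hb, (hr.ar h).cyc hco hb hu]
    exact congrArg (fun M : Matrix κ κ ℚ_[2] => M *ᵥ b - b) e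
  have hm := b4_one (b4_act hr h hχ hp hv (u : Γ)⁻¹ (hc'.2 u)) j
  have e4 : c' w + r w *ᵥ c' u = c' u + r u *ᵥ c' g :=
    (hco.2.1 w u).symm.trans (hg ▸ hco.2.1 u g)
  have e5 : (u : Γ)⁻¹ * w = g * (u : Γ)⁻¹ := by
    have : (w : Γ) * u = u * g := congrArg Subtype.val hg
    rw [inv_mul_eq_iff_eq_mul, ← mul_assoc, ← this, mul_inv_cancel_right]
  have e6 := congrArg (r (u : Γ)⁻¹ *ᵥ ·) e4
  simp only [mulVec_add, e2, e3, mulVec_smul, b4_mul, inv_mul_cancel, map_one, one_mulVec] at e6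
  rw [e5, ← b4_mul, e, (hv j).eq] at e6
  have hs := ((hv j).coef _).trans_le hm
  generalize 2 * (v j ⬝ᵥ β *ᵥ r (u : Γ)⁻¹ *ᵥ c' u) / (v j ⬝ᵥ β *ᵥ v j) = s at hs e6
  have e7 : (b4_lam y β v j c' - a - (a * (t - 1) - s)) • v j = 0 := by
    linear_combination (norm := module) -e6
  have h0 : v j ≠ 0 := fun h0 => (hv j).ne (by rw [h0, zero_dotProduct])
  rw [sub_eq_zero.1 ((smul_eq_zero.1 e7).resolve_right h0)]
  exact (b4a_sub ((b4a_mul hi (b4a_half ht)).trans_eq (one_mul _)) hs).trans_lt (by norm_num)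

theorem b4_const (hr : Sys G good r β μ) (h : Surf G 𝒟 good χ y pm N) (hχ : ∀ γ, ‖χ γ‖ = 1)
    (hp : ∀ γ i, pm γ i.castSucc.castSucc = (pa γ i).castSucc.castSucc)
    (hv : ∀ i, Rf β (r (y i.castSucc.castSucc)) (v i)) (hG : Big pa.range) {w : κ → ℚ_[2]}
    (hc : cob (r.comp G.subtype) w ∈ b4_Z y N r β v) (i j : Fin (d + 1)) :
    ‖b4_lam y β v i (cob (r.comp G.subtype) w) - b4_lam y β v j (cob (r.comp G.subtype) w)‖ <
      1 := by
  rcases eq_or_ne i j with rfl | hij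
  · simp
  obtain ⟨k, hk⟩ := g1a_new [i, j] (by have := hG.le; simp; omega)
  simp only [List.mem_cons, List.not_mem_nil, or_false, not_or] at hk
  have h3 := Equiv.Perm.isThreeCycle_swap_mul_swap_same (Ne.symm hk.1) hij hk.2
  obtain ⟨γ, hγ⟩ := hG.alt h3.mem_alternatingGroup
  have h4 : pa γ ^ 3 = 1 := by rw [hγ, ← h3.orderOf, pow_orderOf_eq_one]
  have h5 : ∀ n, pa γ ^ 4 ^ n = pa γ := fun n => by
    induction n with
    | zero => simp
    | succ n ih => rw [pow_succ, pow_mul, ih, pow_succ, h4, one_mul]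
  obtain ⟨e, he⟩ := pow_unbounded_of_one_lt (2 * ‖w‖) (one_lt_two (α := ℝ))
  have e1 := b4_equi hr h hχ hp hv (γ ^ 4 ^ (e + 1)) hc i
  have e2 : pa (γ ^ 4 ^ (e + 1)) i = j := by
    rw [map_pow, h5, hγ, Equiv.Perm.mul_apply, Equiv.swap_apply_left,
      Equiv.swap_apply_of_ne_of_ne hij.symm (Ne.symm hk.2)]
  rw [e2, ac_cob] at e1
  have e3 : ‖b4_lam y β v j (cob (r.comp G.subtype) (r (γ ^ 4 ^ (e + 1)) *ᵥ w)) -
      b4_lam y β v j (cob (r.comp G.subtype) w)‖ ≤ 2⁻¹ := by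
    rw [← map_sub, ← map_sub]
    have e4 : ∀ a, ‖(r (γ ^ 4 ^ (e + 1)) *ᵥ w - w) a‖ ≤ 2⁻¹ := fun a => by
      have := b4a_dot (by positivity) (norm_nonneg w) (hr.lim γ e a) (norm_le_pi_norm w)
      rw [map_pow, ← one_mulVec (v := w), mulVec_mulVec, mul_one, ← sub_mulVec]
      refine this.trans ?_
      rw [inv_mul_le_iff₀ (by positivity)]
      linarith
    generalize r (γ ^ 4 ^ (e + 1)) *ᵥ w - w = z at e4
    change ‖(_ / _ : ℚ_[2])‖ ≤ _
    rw [cob_apply]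
    change ‖v j ⬝ᵥ β *ᵥ (r (y j.castSucc.castSucc) *ᵥ z - z) / _‖ ≤ _
    rw [(hv j).eq, sub_sub_cancel_left, mulVec_neg, mulVec_smul, dotProduct_neg, dotProduct_smul,
      smul_eq_mul, neg_div, norm_neg, mul_div_assoc, div_self (hv j).ne, mul_one, (hv j).coef]
    exact b4a_form (by norm_num) hr.bint (hv j).int e4
  have := b4a_sub e3 (b4a_half e1)
  rw [sub_sub_sub_cancel_left] at this
  exact this.trans_lt (by norm_num)

theorem b4_non (hr : Sys G good r β μ) (h : Surf G 𝒟 good χ y pm N) (hχ : ∀ γ, ‖χ γ‖ = 1)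
    (hp : ∀ γ i, pm γ i.castSucc.castSucc = (pa γ i).castSucc.castSucc)
    (hv : ∀ i, Rf β (r (y i.castSucc.castSucc)) (v i)) (hκ : Fintype.card κ < d) :
    ∃ c ∈ b4_Z y N r β v, ∃ i j, ¬ ‖b4_lam y β v i c - b4_lam y β v j c‖ < 1 := by
  obtain ⟨t, t0, t1, ht⟩ := la_sol (n := d + 1) (Nat.succ_lt_succ hκ) (fun i =>
    r.comp G.subtype (Fin.partialProd y i.castSucc.castSucc.castSucc) *ᵥ v i) 0
  obtain ⟨k, hk⟩ := Finite.exists_max fun i => ‖t i‖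
  have tk : t k ≠ 0 := fun h0 => t0 (funext fun i =>
    norm_le_zero_iff.1 ((hk i).trans_eq (by rw [h0, norm_zero])))
  obtain ⟨c, hc, hy⟩ := h.tuple (hr.ar h) (Fin.snoc (α := fun _ => κ → ℚ_[2])
      (Fin.snoc (α := fun _ => κ → ℚ_[2]) (fun i => (t i / t k) • v i) 0) 0) (by
    rw [Fin.sum_univ_castSucc, Fin.sum_univ_castSucc]
    simp only [Fin.snoc_castSucc, Fin.snoc_last, mulVec_zero, add_zero, mulVec_smul,
      div_eq_inv_mul, mul_smul]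
    rw [← Finset.smul_sum, ht, smul_zero])
  have y1 : ∀ i : Fin (d + 1), c (y i.castSucc.castSucc) = (t i / t k) • v i := fun i => by
    rw [hy, Fin.snoc_castSucc, Fin.snoc_castSucc]
  have y2 : c (y (Fin.last (d + 1)).castSucc) = 0 := by rw [hy, Fin.snoc_castSucc, Fin.snoc_last]
  have y3 : c (y (Fin.last (d + 1 + 1))) = 0 := by rw [hy, Fin.snoc_last]
  have hl : ∀ i, b4_lam y β v i c = t i / t k := fun i => by
    change v i ⬝ᵥ β *ᵥ c _ / _ = _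
    rw [y1, mulVec_smul, dotProduct_smul, smul_eq_mul, mul_div_assoc, div_self (hv i).ne, mul_one]
  let H : Subgroup G :=
    { carrier := {g | c g ∈ b4_Q G r β v}
      one_mem' := by
        change c 1 ∈ b4_Q G r β v
        rw [co_one hc]
        exact zero_mem _
      mul_mem' := fun {a b} ha hb => by
        change c (a * b) ∈ b4_Q G r β v
        rw [hc.2.1]
        exact add_mem ha (b4_act hr h hχ hp hv a hb)
      inv_mem' := fun {a} ha => by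
        change c a⁻¹ ∈ b4_Q G r β v
        rw [co_inv hc]
        exact neg_mem (b4_act hr h hχ hp hv (a⁻¹ : G) ha) }
  have hH : H = ⊤ := h.gen H (b4_closed.preimage hc.1) (fun g hg => by
    change c g ∈ b4_Q G r β v
    rw [hc.2.2 g hg]
    exact zero_mem _) fun i => by
      change c _ ∈ b4_Q G r β v
      refine Fin.lastCases ?_ (fun i => ?_) i
      · rw [y2]
        exact zero_mem _
      · rw [y1]
        refine b4_smul ?_ (b4_root hr hv i)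
        rw [norm_div]
        exact div_le_one_of_le₀ (hk i) (norm_nonneg _)
  refine ⟨c, ⟨mem_Pa.2 ⟨hc, fun s => ?_⟩, fun g => (hH ▸ Subgroup.mem_top g : g ∈ H)⟩, k, 0, ?_⟩
  · refine Fin.lastCases ⟨0, ?_⟩ (fun s => Fin.lastCases ⟨0, ?_⟩ (fun i => ?_) s) s
    · rw [y3, mulVec_zero, sub_zero]
    · rw [y2, mulVec_zero, sub_zero]
    · refine ⟨-(t i / t k / 2) • v i, ?_⟩
      rw [y1, mulVec_smul]
      change _ = _ • r (y i.castSucc.castSucc) *ᵥ v i - _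
      rw [(hv i).self]
      match_scalars
      ring
  · rw [hl, hl, t1, div_self tk]
    simp

theorem exists_res (hr : Sys G good r β μ) (h : Surf G 𝒟 good χ y pm N) (hχ : ∀ γ, ‖χ γ‖ = 1)
    (hp : ∀ γ i, pm γ i.castSucc.castSucc = (pa γ i).castSucc.castSucc)
    (hv : ∀ i, Rf β (r (y i.castSucc.castSucc)) (v i)) (hG : Big pa.range)
    (hκ : Fintype.card κ < d) :
    ∃ Z lam, Rs (ac G r) pa (Pa N (r.comp G.subtype) y)
      (LinearMap.range (cob (r.comp G.subtype))) Z lam :=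
  ⟨b4_Z y N r β v, b4_lam y β v, fun _ hc => hc.1,
    fun t ht _ hc => ⟨Submodule.smul_mem _ t hc.1, fun g => b4_smul ht (hc.2 g)⟩,
    fun γ _ hc => b4_ac hr h hχ hp hv γ hc, fun _ hc => b4_int hv hc,
    fun γ _ hc => b4_equi hr h hχ hp hv γ hc, fun _ hc ⟨_, hw⟩ => by
      subst hw
      exact b4_const hr h hχ hp hv hG hc, b4_non hr h hχ hp hv hκ⟩

end Pool.Agent.Lib.MP_d61fbb_ag.DW
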