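import Pool.Agent.Lib.MP_d61fbb_ag.DW.B1b

/-! Reflections. -/

set_option autoImplicit false

noncomputable section

namespace Pool.Agent.Lib.MP_d61fbb_ag.DW

open Matrix

variable {κ : Type} [Fintype κ] [DecidableEq κ] {β Y Y' : Matrix κ κ ℚ_[2]} {u u' : κ → ℚ_[2]}

theorem b4a_two : ‖(2 : ℚ_[2])‖ = 2⁻¹ := by
  simpa using Padic.norm_p (p := 2)

theorem b4a_half {x : ℚ_[2]} (h : ‖x‖ < 1) : ‖x‖ ≤ 2⁻¹ := by
  have := (Padic.norm_lt_pow_iff_norm_le_pow_sub_one x 0).1 (by simpa using h)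
  simpa using this

theorem b4a_add {x y : ℚ_[2]} {A : ℝ} (hx : ‖x‖ ≤ A) (hy : ‖y‖ ≤ A) : ‖x + y‖ ≤ A :=
  (IsUltrametricDist.norm_add_le_max x y).trans (max_le hx hy)

theorem b4a_sub {x y : ℚ_[2]} {A : ℝ} (hx : ‖x‖ ≤ A) (hy : ‖y‖ ≤ A) : ‖x - y‖ ≤ A := by
  rw [sub_eq_add_neg]
  exact b4a_add hx (by rwa [norm_neg])

theorem b4a_mul {x y : ℚ_[2]} {A B : ℝ} (hx : ‖x‖ ≤ A) (hy : ‖y‖ ≤ B) : ‖x * y‖ ≤ A * B := by
  rw [norm_mul]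
  exact mul_le_mul hx hy (norm_nonneg _) ((norm_nonneg _).trans hx)

theorem b4a_one_of {t : ℚ_[2]} (h : ‖t - 1‖ < 1) : ‖t‖ = 1 := by
  have := IsUltrametricDist.norm_add_eq_max_of_norm_ne_norm (x := t - 1) (y := 1)
    (by rw [norm_one]; exact h.ne)
  rw [sub_add_cancel, norm_one] at this
  rw [this, max_eq_right h.le]

theorem b4a_unit {t : ℚ_[2]} (h : ‖t‖ = 1) : ‖t - 1‖ < 1 := by
  let z : ℤ_[2] := ⟨t, h.le⟩
  have key : ∀ w : ℤ_[2], PadicInt.toZMod w = 0 ↔ ‖w‖ < 1 := fun w => by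
    rw [← RingHom.mem_ker, PadicInt.ker_toZMod, IsLocalRing.mem_maximalIdeal,
      PadicInt.mem_nonunits]
  have h0 : PadicInt.toZMod z ≠ 0 := fun h0 => absurd ((key z).1 h0) (by
    change ¬ ‖t‖ < 1
    rw [h]
    exact lt_irrefl 1)
  have h1 : ∀ a : ZMod 2, a ≠ 0 → a - 1 = 0 := by decide
  exact (key (z - 1)).1 (by rw [map_sub, map_one]; exact h1 _ h0)

omit [DecidableEq κ] in
theorem b4a_dot {a b : κ → ℚ_[2]} {A B : ℝ} (hA : 0 ≤ A) (hB : 0 ≤ B) (ha : ∀ i, ‖a i‖ ≤ A)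
    (hb : ∀ i, ‖b i‖ ≤ B) : ‖a ⬝ᵥ b‖ ≤ A * B :=
  IsUltrametricDist.norm_sum_le_of_forall_le_of_nonneg (mul_nonneg hA hB)
    fun i _ => b4a_mul (ha i) (hb i)

omit [DecidableEq κ] in
theorem b4a_form {a b : κ → ℚ_[2]} {B : ℝ} (hB : 0 ≤ B) (hβ : ∀ i j, ‖β i j‖ ≤ 1)
    (ha : ∀ i, ‖a i‖ ≤ 1) (hb : ∀ i, ‖b i‖ ≤ B) : ‖a ⬝ᵥ β *ᵥ b‖ ≤ B := by
  have := b4a_dot zero_le_one (mul_nonneg zero_le_one hB) ha (b := β *ᵥ b)
    fun i => b4a_dot zero_le_one hB (hβ i) hb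
  simpa using this

omit [DecidableEq κ] in
theorem b4a_sim {g : Matrix κ κ ℚ_[2]} {μ : ℚ_[2]} (h : gᵀ * β * g = μ • β) (a b : κ → ℚ_[2]) :
    (g *ᵥ a) ⬝ᵥ β *ᵥ g *ᵥ b = μ * (a ⬝ᵥ β *ᵥ b) := by
  have : a ⬝ᵥ (gᵀ * β * g) *ᵥ b = (g *ᵥ a) ⬝ᵥ β *ᵥ g *ᵥ b := by
    rw [← mulVec_mulVec, ← mulVec_mulVec, dotProduct_mulVec a, vecMul_transpose]
  rw [← this, h, smul_mulVec, dotProduct_smul, smul_eq_mul]

omit [DecidableEq κ] in
theorem b4a_symm (hs : βᵀ = β) (a b : κ → ℚ_[2]) : a ⬝ᵥ β *ᵥ b = b ⬝ᵥ β *ᵥ a := by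
  rw [dotProduct_mulVec, ← mulVec_transpose, hs, dotProduct_comm]

omit [DecidableEq κ] in
theorem Rf.ne (h : Rf β Y u) : u ⬝ᵥ β *ᵥ u ≠ 0 := fun h0 => by
  have := h.nrm
  rw [h0, norm_zero] at this
  norm_num at this

omit [DecidableEq κ] in
theorem Rf.self (h : Rf β Y u) : Y *ᵥ u = -u := by
  rw [h.eq, mul_div_assoc, div_self h.ne, mul_one, two_smul]
  abel

omit [DecidableEq κ] in
theorem Rf.coef (h : Rf β Y u) (s : ℚ_[2]) : ‖2 * s / (u ⬝ᵥ β *ᵥ u)‖ = ‖s‖ := by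
  rw [norm_div, norm_mul, h.nrm, b4a_two]
  field_simp

theorem Rf.rank (h : Rf β Y u) : (Y - 1).rank ≤ 1 := by
  have : Y - 1 = vecMulVec (-(2 / (u ⬝ᵥ β *ᵥ u)) • u) (u ᵥ* β) := by
    refine ext_iff_mulVec.2 fun x => ?_
    rw [sub_mulVec, one_mulVec, h.eq, vecMulVec_mulVec, op_smul_eq_smul, ← dotProduct_mulVec,
      smul_smul, sub_sub_cancel_left, ← neg_smul]
    congr 1
    ring
  rw [this]
  exact rank_vecMulVec_le _ _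

theorem Rf.mul_self (h : Rf β Y u) : Y * Y = 1 := by
  refine ext_iff_mulVec.2 fun x => ?_
  rw [← mulVec_mulVec, one_mulVec, h.eq x, mulVec_sub, mulVec_smul, h.self, h.eq x, smul_neg]
  abel

theorem Rf.range (h : Rf β Y u) (a : κ → ℚ_[2]) :
    Y *ᵥ a - a = (u ⬝ᵥ β *ᵥ (Y *ᵥ a - a) / (u ⬝ᵥ β *ᵥ u)) • u := by
  rw [h.eq a, sub_sub_cancel_left, ← neg_smul, mulVec_smul, dotProduct_smul, smul_eq_mul,
    mul_div_assoc _ (u ⬝ᵥ β *ᵥ u), div_self h.ne, mul_one]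

theorem Rf.conj (h : Rf β Y u) {g g' : Matrix κ κ ℚ_[2]} {μ : ℚ_[2]} (h1 : g * g' = 1)
    (h2 : gᵀ * β * g = μ • β) (h3 : ‖μ‖ = 1) (h4 : ∀ i j, ‖g i j‖ ≤ 1) :
    Rf β (g * Y * g') (g *ᵥ u) := by
  have hμ : μ ≠ 0 := fun h0 => by simp [h0] at h3
  refine ⟨fun i => ?_, by rw [b4a_sim h2, norm_mul, h3, one_mul, h.nrm], fun x => ?_⟩
  · exact (b4a_dot zero_le_one zero_le_one (h4 i) h.int).trans_eq (one_mul _)
  · have hx : g *ᵥ g' *ᵥ x = x := by rw [mulVec_mulVec, h1, one_mulVec]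
    have e := b4a_sim h2 u (g' *ᵥ x)
    rw [hx] at e
    rw [← mulVec_mulVec, ← mulVec_mulVec, h.eq, mulVec_sub, mulVec_smul, hx, e, b4a_sim h2]
    congr 2
    have := h.ne
    field_simp

theorem Rf.uniq (h : Rf β Y u) (h' : Rf β Y u') : ∃ t : ℚ_[2], ‖t - 1‖ < 1 ∧ u' = t • u := by
  have e : u' = (u ⬝ᵥ β *ᵥ u' / (u ⬝ᵥ β *ᵥ u)) • u := by
    have e1 := h.eq u'
    rw [h'.self, mul_div_assoc, mul_smul] at e1
    apply smul_right_injective _ (two_ne_zero (α := ℚ_[2]))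
    rw [eq_sub_iff_add_eq, neg_add_eq_iff_eq_add] at e1
    simp only
    rw [e1, two_smul]
  generalize u ⬝ᵥ β *ᵥ u' / (u ⬝ᵥ β *ᵥ u) = t at e
  refine ⟨t, b4a_unit ?_, e⟩
  have e2 := h'.nrm
  rw [e, mulVec_smul, dotProduct_smul, smul_dotProduct, smul_eq_mul, smul_eq_mul, norm_mul,
    norm_mul, h.nrm] at e2
  have := norm_nonneg t
  nlinarith

theorem Rf.pair (hs : βᵀ = β) (hb : ∀ i j, ‖β i j‖ ≤ 1) (h : Rf β Y u) (h' : Rf β Y' u')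
    (h4 : ∀ i j, ‖((Y * Y') ^ 4 - 1 : Matrix κ κ ℚ_[2]) i j‖ < 1) : ‖u ⬝ᵥ β *ᵥ u'‖ ≤ 2⁻¹ := by
  refine b4a_half (lt_of_le_of_ne (b4a_form zero_le_one hb h.int h'.int) fun h1 => ?_)
  have ha := (h.coef (u ⬝ᵥ β *ᵥ u')).trans h1
  have ha' := (h'.coef (u ⬝ᵥ β *ᵥ u')).trans h1
  have e1 := h.eq u'
  have e2 := h'.eq u
  rw [b4a_symm hs u' u] at e2
  generalize 2 * (u ⬝ᵥ β *ᵥ u') / (u ⬝ᵥ β *ᵥ u) = a at ha e1
  generalize 2 * (u ⬝ᵥ β *ᵥ u') / (u' ⬝ᵥ β *ᵥ u') = a' at ha' e2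
  have z1 : (Y * Y') *ᵥ u = (a * a' - 1) • u - a' • u' := by
    rw [← mulVec_mulVec, e2, mulVec_sub, mulVec_smul, h.self, e1]
    module
  have z2 : (Y * Y') *ᵥ u' = a • u - u' := by
    rw [← mulVec_mulVec, h'.self, mulVec_neg, e1]
    module
  have hw : ∀ i, ‖(((Y * Y') ^ 4 - 1 : Matrix κ κ ℚ_[2]) *ᵥ u) i‖ ≤ 2⁻¹ := fun i =>
    (b4a_dot (by norm_num) zero_le_one (fun j => b4a_half (h4 i j)) h.int).trans_eq (mul_one _)
  generalize Y * Y' = Z at z1 z2 hw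
  have z4 : (Z ^ 4 - 1) *ᵥ u =
      (((a * a' - 2) ^ 3 - 2 * (a * a' - 2)) * (a * a' - 1) - (a * a' - 2) ^ 2) • u -
        ((a * a' - 2) * ((a * a' - 2) ^ 2 - 2) * a') • u' := by
    rw [sub_mulVec, one_mulVec, show Z ^ 4 = Z * (Z * (Z * Z)) by noncomm_ring]
    simp only [← mulVec_mulVec, z1, z2, mulVec_sub, mulVec_smul]
    module
  have hf := b4a_form (by norm_num) hb h.int hw
  rw [z4, mulVec_sub, mulVec_smul, mulVec_smul, dotProduct_sub, dotProduct_smul, dotProduct_smul,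
    smul_eq_mul, smul_eq_mul] at hf
  have two : ‖(2 : ℚ_[2])‖ < 1 := by rw [b4a_two]; norm_num
  have un : ∀ x : ℚ_[2], ‖x‖ = 1 → ‖x - 2‖ = 1 := fun x hx => by
    have := IsUltrametricDist.norm_add_eq_max_of_norm_ne_norm (x := x) (y := -2)
      (by rw [norm_neg, hx]; exact two.ne')
    rw [← sub_eq_add_neg, norm_neg, hx] at this
    rw [this, max_eq_left two.le]
  have hc : ‖a * a'‖ = 1 := by rw [norm_mul, ha, ha', one_mul]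
  have hτ := un _ hc
  generalize a * a' - 2 = τ at hτ hf
  have hτ2 := un (τ ^ 2) (by rw [norm_pow, hτ, one_pow])
  have hA : ‖((τ ^ 3 - 2 * τ) * (a * a' - 1) - τ ^ 2) * (u ⬝ᵥ β *ᵥ u)‖ ≤ 1 * 2⁻¹ := by
    refine b4a_mul (b4a_sub ?_ (by rw [norm_pow, hτ, one_pow])) h.nrm.le
    rw [← one_mul (1 : ℝ)]
    refine b4a_mul (b4a_sub (by rw [norm_pow, hτ, one_pow]) ?_) (b4a_sub hc.le norm_one.le)
    rw [norm_mul, hτ, mul_one]
    exact two.le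
  have := b4a_sub (hA.trans_eq (one_mul _)) hf
  rw [sub_sub_cancel, norm_mul, norm_mul, norm_mul, hτ, hτ2, ha', h1] at this
  norm_num at this

theorem Rf.cyc {G : Type} [Group G] [TopologicalSpace G] [IsTopologicalGroup G] {N : Subgroup G}
    {r : G →* Matrix κ κ ℚ_[2]} (hr : Ar N r) {x g : G} {t : ℤ_[2]} (h : Rf β (r x) u)
    (hg : (g, t) ∈ cyc N x) (ht : ‖t‖ = 1) : r g = r x := by
  have hc : IsClosed ({p : G × ℤ_[2] | r p.1 = r x} ∪ {p | ‖p.2‖ ≤ 2⁻¹}) :=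
    (isClosed_eq (hr.cont.comp continuous_fst) continuous_const).union
      (isClosed_le (continuous_norm.comp continuous_snd) continuous_const)
  refine (closure_minimal (fun p hp => ?_) hc hg).elim id fun h1 => ?_
  · obtain ⟨a, n, hn, rfl⟩ := hp
    rcases a.even_or_odd' with ⟨k, rfl | rfl⟩
    · refine Or.inr ?_
      change ‖((2 * k : ℕ) : ℤ_[2])‖ ≤ 2⁻¹
      have e : ‖(2 : ℤ_[2])‖ = 2⁻¹ := by simpa using PadicInt.norm_p (p := 2)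
      rw [Nat.cast_mul, norm_mul, Nat.cast_ofNat, e]
      exact mul_le_of_le_one_right (by norm_num) (PadicInt.norm_le_one _)
    · refine Or.inl ?_
      change r (x ^ (2 * k + 1) * n) = r x
      rw [map_mul, hr.kill n hn, mul_one, map_pow, pow_succ, pow_mul, sq, h.mul_self, one_pow,
        one_mul]
  · have h2 : ‖t‖ ≤ 2⁻¹ := h1
    rw [ht] at h2
    norm_num at h2

end Pool.Agent.Lib.MP_d61fbb_ag.DW
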