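import Pool.Agent.Lib.MP_d61fbb_ag.DW.SD
import Pool.Agent.Lib.MP_d61fbb_ag.SQ.G1a

/-! Coordinates from residues. -/

set_option autoImplicit false

noncomputable section

namespace Pool.Agent.Lib.MP_d61fbb_ag.DW

open Matrix Module Pool.Agent.Lib.MP_d61fbb_ag.SQ

theorem b5_add {a b : ℚ_[2]} (ha : ‖a‖ < 1) (hb : ‖b‖ < 1) : ‖a + b‖ < 1 :=
  (Padic.nonarchimedean a b).trans_lt (max_lt ha hb)

theorem b5_sub {a b : ℚ_[2]} (ha : ‖a‖ < 1) (hb : ‖b‖ < 1) : ‖a - b‖ < 1 := by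
  rw [sub_eq_add_neg]; exact b5_add ha (by rwa [norm_neg])

theorem b5_mul {a b : ℚ_[2]} (ha : ‖a‖ ≤ 1) (hb : ‖b‖ < 1) : ‖a * b‖ < 1 := by
  rw [norm_mul]; exact mul_lt_one_of_nonneg_of_lt_one_right ha (norm_nonneg _) hb

theorem b5_sum {ι : Type} (s : Finset ι) {f : ι → ℚ_[2]} (h : ∀ i, ‖f i‖ < 1) :
    ‖∑ i ∈ s, f i‖ < 1 :=
  Finset.sum_induction f (fun x => ‖x‖ < 1) (fun _ _ => b5_add) (by simp) fun i _ => h i

theorem b5_two (k : ℤ) : ‖((2 * k : ℤ) : ℚ_[2])‖ < 1 :=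
  Padic.norm_intCast_lt_one_iff.mpr ⟨k, rfl⟩

theorem b5_res {t : ℚ_[2]} (h : ‖t‖ ≤ 1) : ∃ k : ℤ, (k = 0 ∨ k = 1) ∧ ‖t - k‖ < 1 := by
  obtain ⟨n, hn, h2⟩ := PadicInt.exists_mem_range (⟨t, h⟩ : ℤ_[2])
  refine ⟨n, by omega, ?_⟩
  have := PadicInt.mem_nonunits.mp h2
  simpa [PadicInt.norm_def] using this

section lin

variable {E : Type} [AddCommGroup E] [Module ℚ_[2] E] {A D : Submodule ℚ_[2] E}

theorem b5_span {k : ℕ} {b : Fin k → E} [Module.Finite ℚ_[2] A] (hD : D ≤ A) (hb : ∀ i, b i ∈ A)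
    (hi : ∀ s : Fin k → ℚ_[2], ∑ i, s i • b i ∈ D → s = 0)
    (hr : finrank ℚ_[2] A ≤ k + finrank ℚ_[2] D) :
    ∀ a ∈ A, ∃ s : Fin k → ℚ_[2], a - ∑ i, s i • b i ∈ D := by
  have li : LinearIndependent ℚ_[2] b :=
    Fintype.linearIndependent_iff.mpr fun s hs i => congrFun (hi s (hs ▸ D.zero_mem)) i
  have hU : Submodule.span ℚ_[2] (Set.range b) ≤ A :=
    Submodule.span_le.mpr (Set.range_subset_iff.mpr hb)
  have := Submodule.finiteDimensional_of_le hU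
  have := Submodule.finiteDimensional_of_le hD
  have h1 := Submodule.finrank_sup_add_finrank_inf_eq (Submodule.span ℚ_[2] (Set.range b)) D
  have h2 : Submodule.span ℚ_[2] (Set.range b) ⊓ D = ⊥ := by
    refine eq_bot_iff.mpr fun x hx => ?_
    obtain ⟨s, rfl⟩ := (Submodule.mem_span_range_iff_exists_fun ℚ_[2]).mp hx.1
    simp [hi s hx.2]
  rw [h2, finrank_bot, finrank_span_eq_card li, Fintype.card_fin] at h1
  have h3 := Submodule.eq_of_le_of_finrank_le (sup_le hU hD) (by omega)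
  intro a ha
  obtain ⟨x, hx, z, hz, rfl⟩ := Submodule.mem_sup.mp (h3 ▸ ha)
  obtain ⟨s, rfl⟩ := (Submodule.mem_span_range_iff_exists_fun ℚ_[2]).mp hx
  exact ⟨s, by simpa using hz⟩

theorem b5_gram {k : ℕ} {b : Fin k → E} (hD : D ≤ A) (hb : ∀ i, b i ∈ A)
    (hi : ∀ s : Fin k → ℚ_[2], ∑ i, s i • b i ∈ D → s = 0)
    (hs : ∀ a ∈ A, ∃ s : Fin k → ℚ_[2], a - ∑ i, s i • b i ∈ D)
    {Φ : E →ₗ[ℚ_[2]] E →ₗ[ℚ_[2]] ℚ_[2]} (h1 : ∀ c ∈ A, ∀ c' ∈ A, Φ c c' = -Φ c' c)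
    (h2 : ∀ c ∈ A, (∀ c' ∈ A, Φ c c' = 0) ↔ c ∈ D) :
    (Matrix.of fun i j => Φ (b i) (b j)).det ≠ 0 := by
  intro h0
  obtain ⟨s, s0, e⟩ := Matrix.exists_vecMul_eq_zero_iff.mpr h0
  have hA : ∑ i, s i • b i ∈ A := A.sum_mem fun i _ => A.smul_mem _ (hb i)
  refine s0 (hi s ((h2 _ hA).mp fun a ha => ?_))
  obtain ⟨t, ht⟩ := hs a ha
  have e1 : ∀ j, Φ (∑ i, s i • b i) (b j) = 0 := fun j => by
    simpa [vecMul, dotProduct] using congrFun e j
  have e2 : Φ (∑ i, s i • b i) (a - ∑ i, t i • b i) = 0 := by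
    rw [h1 _ hA _ (hD ht), (h2 _ (hD ht)).mpr ht _ hA, neg_zero]
  rw [map_sub, map_sum (Φ _)] at e2
  simpa only [map_smul, e1, smul_zero, Finset.sum_const_zero, sub_zero] using e2

variable {Γ : Type} [Group Γ] {d : ℕ} {σ : Γ → E →ₗ[ℚ_[2]] E}
  {pm : Γ →* Equiv.Perm (Fin (d + 1))} {Z : AddSubgroup E} {lam : Fin (d + 1) → E →ₗ[ℚ_[2]] ℚ_[2]}

/-- The integral vectors that are residues. -/
def b5S (Z : AddSubgroup E) (lam : Fin (d + 1) → E →ₗ[ℚ_[2]] ℚ_[2]) :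
    AddSubgroup (Fin (d + 1) → ℤ) where
  carrier := {x | ∃ c ∈ Z, ∀ i, ‖lam i c - x i‖ < 1}
  zero_mem' := ⟨0, Z.zero_mem, by simp⟩
  add_mem' := by
    rintro x y ⟨c, hc, h⟩ ⟨c', hc', h'⟩
    refine ⟨c + c', Z.add_mem hc hc', fun i => ?_⟩
    convert b5_add (h i) (h' i) using 2
    simp only [map_add, Pi.add_apply, Int.cast_add]
    ring
  neg_mem' := by
    rintro x ⟨c, hc, h⟩
    refine ⟨-c, Z.neg_mem hc, fun i => ?_⟩
    rw [← norm_neg]
    have e : -(lam i (-c) - ((-x) i : ℤ)) = lam i c - x i := by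
      simp only [map_neg, Pi.neg_apply, Int.cast_neg]
      ring
    rw [e]
    exact h i

theorem b5_cong {x y : Fin (d + 1) → ℤ} (hx : x ∈ b5S Z lam) (h : ∀ i, (2 : ℤ) ∣ x i - y i) :
    y ∈ b5S Z lam := by
  obtain ⟨c, hc, h1⟩ := hx
  refine ⟨c, hc, fun i => ?_⟩
  obtain ⟨k, hk⟩ := h i
  convert b5_add (h1 i) (b5_two k) using 2
  rw [← hk]
  push_cast
  ring

theorem b5_perm (h : Rs σ pm A D Z lam) {π : Equiv.Perm (Fin (d + 1))} (hπ : π⁻¹ ∈ pm.range)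
    {x : Fin (d + 1) → ℤ} (hx : x ∈ b5S Z lam) : (fun i => x (π i)) ∈ b5S Z lam := by
  obtain ⟨γ, hγ⟩ := hπ
  obtain ⟨c, hc, h1⟩ := hx
  refine ⟨σ γ c, h.act γ c hc, fun i => ?_⟩
  have := b5_add (h.equi γ c hc (π i)) (h1 (π i))
  simpa [hγ] using this

theorem b5_lift (h : Rs σ pm A D Z lam) (hG : Big pm.range) (hd : Even d) (j : Fin (d + 1)) :
    ∃ c ∈ Z, ∀ i, ‖lam i c - (1 + if j = i then 1 else 0)‖ < 1 := by
  have h4 := hG.le
  obtain ⟨c, hc, a, b, hab⟩ := h.non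
  choose x hx hx' using fun i => b5_res (h.int c hc i)
  have xS : x ∈ b5S Z lam := ⟨c, hc, hx'⟩
  have xab : x a ≠ x b := fun e => hab (by
    convert b5_sub (hx' a) (hx' b) using 2
    rw [e]; ring)
  have ab : a ≠ b := fun e => xab (e ▸ rfl)
  let e : Fin (d + 1) → Fin (d + 1) → ℤ := fun p i => if p = i then 1 else 0
  have one : ∃ p q, p ≠ q ∧ e p - e q ∈ b5S Z lam := by
    obtain ⟨u, hu⟩ := g1a_new [a, b] (by simp; omega)
    simp only [List.mem_cons, List.not_mem_nil, or_false, not_or] at hu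
    have hw := (b5S Z lam).sub_mem xS (b5_perm h (π := Equiv.swap a u * Equiv.swap a b)
      (pm.range.inv_mem (hG.alt (Equiv.Perm.mem_alternatingGroup.2 (by simp [ab, Ne.symm hu.1]))))
      xS)
    have v1 : (Equiv.swap a u * Equiv.swap a b) a = b := by
      simp [Equiv.swap_apply_of_ne_of_ne ab.symm (Ne.symm hu.2)]
    have v2 : (Equiv.swap a u * Equiv.swap a b) b = u := by simp
    have v3 : (Equiv.swap a u * Equiv.swap a b) u = a := by
      simp [Equiv.swap_apply_of_ne_of_ne hu.1 hu.2]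
    have v4 : ∀ i, i ≠ a → i ≠ b → i ≠ u → (Equiv.swap a u * Equiv.swap a b) i = i :=
      fun i x1 x2 x3 => by
        simp [Equiv.swap_apply_of_ne_of_ne x1 x2, Equiv.swap_apply_of_ne_of_ne x1 x3]
    have xa := hx a
    have xb := hx b
    have xu := hx u
    by_cases hxu : x u = x a
    · refine ⟨a, b, ab, b5_cong hw fun i => ?_⟩
      simp only [Pi.sub_apply, e]
      by_cases i1 : i = a
      · subst i1; rw [v1, if_pos rfl, if_neg ab.symm]; omega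
      by_cases i2 : i = b
      · subst i2; rw [v2, if_pos rfl, if_neg ab]; omega
      by_cases i3 : i = u
      · subst i3; rw [v3, if_neg (Ne.symm i1), if_neg (Ne.symm i2)]; omega
      rw [v4 i i1 i2 i3, if_neg (Ne.symm i1), if_neg (Ne.symm i2)]; omega
    · refine ⟨a, u, Ne.symm hu.1, b5_cong hw fun i => ?_⟩
      simp only [Pi.sub_apply, e]
      by_cases i1 : i = a
      · subst i1; rw [v1, if_pos rfl, if_neg hu.1]; omega
      by_cases i2 : i = b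
      · subst i2; rw [v2, if_neg ab, if_neg hu.2]; omega
      by_cases i3 : i = u
      · subst i3; rw [v3, if_neg (Ne.symm i1), if_pos rfl]; omega
      rw [v4 i i1 i2 i3, if_neg (Ne.symm i1), if_neg (Ne.symm i3)]; omega
  obtain ⟨p, q, pq, hpq⟩ := one
  have all : ∀ u, e p - e u ∈ b5S Z lam := by
    intro u
    by_cases u1 : u = p
    · rw [u1, sub_self]; exact zero_mem _
    by_cases u2 : u = q
    · rwa [u2]
    obtain ⟨w, hw⟩ := g1a_new [p, q, u] (by simp; omega)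
    simp only [List.mem_cons, List.not_mem_nil, or_false, not_or] at hw
    obtain ⟨t, t1, t2, t3⟩ := g1a_three hG u2 hw.2.2 hw.2.1
    have tp := t3 p (Ne.symm u1) pq (Ne.symm hw.1)
    convert b5_perm h t1 hpq using 1
    funext i
    simp only [Pi.sub_apply, e]
    conv_rhs => rw [← tp, ← t2]
    simp only [t.apply_eq_iff_eq]
  have hs : ∑ u, (e u - e j) ∈ b5S Z lam := (b5S Z lam).sum_mem fun u _ => by
    convert (b5S Z lam).sub_mem (all j) (all u) using 1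
    abel
  obtain ⟨c', hc', h'⟩ := b5_cong (y := fun i => 1 + e j i) hs fun i => by
    obtain ⟨k, hk⟩ := hd
    simp only [Finset.sum_apply, Pi.sub_apply, e, Finset.sum_sub_distrib, Finset.sum_ite_eq',
      Finset.mem_univ, if_true, Finset.sum_const, Finset.card_univ, Fintype.card_fin, nsmul_eq_mul]
    split_ifs
    · push_cast; omega
    · simp
  exact ⟨c', hc', fun i => by simpa [e] using h' i⟩

end lin

theorem basis_of_res {Γ E : Type} [Group Γ] [AddCommGroup E] [Module ℚ_[2] E] {d : ℕ}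
    {σ : Γ → E →ₗ[ℚ_[2]] E} {pm : Γ →* Equiv.Perm (Fin (d + 1))} {A D : Submodule ℚ_[2] E}
    {Z : AddSubgroup E} {lam : Fin (d + 1) → E →ₗ[ℚ_[2]] ℚ_[2]} (h : Rs σ pm A D Z lam)
    (hG : Big pm.range) (hd : Even d) [Module.Finite ℚ_[2] A] (hD : D ≤ A)
    (hr : finrank ℚ_[2] A ≤ d + 1 + finrank ℚ_[2] D) (h1 : σ 1 = LinearMap.id)
    (hm : ∀ γ δ, σ (γ * δ) = σ γ ∘ₗ σ δ) (hA : ∀ γ, ∀ c ∈ A, σ γ c ∈ A)
    (hD' : ∀ γ, ∀ c ∈ D, σ γ c ∈ D) (Φ : E →ₗ[ℚ_[2]] E →ₗ[ℚ_[2]] ℚ_[2]) (ν : Γ → ℚ_[2])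
    (hΦ : ∀ c ∈ A, (∀ c' ∈ A, Φ c c' = -Φ c' c ∧ ∀ γ, Φ (σ γ c) (σ γ c') = ν γ * Φ c c') ∧
      ((∀ c' ∈ A, Φ c c' = 0) ↔ c ∈ D)) :
    ∃ (π : E →ₗ[ℚ_[2]] Fin d → ℚ_[2]) (ρ : Γ →* Mat d ℚ_[2]) (B : Mat d ℚ_[2]),
      (∀ v, ∃ c ∈ A, π c = v) ∧ (∀ c ∈ A, (π c = 0 ↔ c ∈ D) ∧ ∀ γ, π (σ γ c) = ρ γ *ᵥ π c) ∧
      Hd ρ pm B ν := by
  choose c' hc' hl using b5_lift h hG hd
  set c : Fin d → E := fun j => c' j.castSucc with hcdef
  have cZ : ∀ j, c j ∈ Z := fun j => hc' _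
  have cA : ∀ j, c j ∈ A := fun j => h.le _ (cZ j)
  have U : ∀ (t : ℚ_[2]) (s : Fin d → ℚ_[2]), ‖t‖ ≤ 1 → (∀ j, ‖s j‖ ≤ 1) → ∀ a ∈ Z,
      t • a - ∑ j, s j • c j ∈ D →
        ∀ i : Fin d, ‖t * (lam i.castSucc a - lam (Fin.last d) a) - s i‖ < 1 := by
    intro t s ht hs a ha hD i
    have e1 := h.const _ (Z.sub_mem (h.smul t ht a ha)
      (Z.sum_mem fun j _ => h.smul _ (hs j) _ (cZ j))) hD i.castSucc (Fin.last d)
    have e2 := b5_sum Finset.univ fun j => b5_mul (hs j)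
      (b5_sub (hl j.castSucc i.castSucc) (hl j.castSucc (Fin.last d)))
    convert b5_add e1 e2 using 2
    simp only [map_sub, map_smul, map_sum, smul_eq_mul, hcdef, Fin.castSucc_inj,
      (Fin.castSucc_lt_last _).ne, if_false, mul_sub, mul_add, mul_one, mul_ite, mul_zero,
      Finset.sum_sub_distrib, Finset.sum_add_distrib, Finset.sum_ite_eq', Finset.mem_univ, if_true,
      add_zero]
    ring
  have V : ∀ (s : Fin d → ℚ_[2]), ∀ a ∈ Z, a - ∑ j, s j • c j ∈ D → ∀ j, ‖s j‖ ≤ 1 := by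
    intro s a ha hD j
    obtain ⟨i, -, hi⟩ := Finset.exists_max_image Finset.univ (fun j => ‖s j‖) ⟨j, Finset.mem_univ j⟩
    by_contra hj
    have h1 : 1 < ‖s i‖ := (not_le.mp hj).trans_le (hi j (Finset.mem_univ j))
    have h0 : s i ≠ 0 := norm_pos_iff.mp (by linarith)
    have h2 : ‖(s i)⁻¹‖ < 1 := by rw [norm_inv]; exact inv_lt_one_of_one_lt₀ h1
    have h3 := U (s i)⁻¹ (fun j => (s i)⁻¹ * s j) h2.le (fun j => by
      rw [norm_mul, norm_inv, inv_mul_le_iff₀ (by linarith), mul_one]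
      exact hi j (Finset.mem_univ j)) a ha (by
        convert D.smul_mem (s i)⁻¹ hD using 1
        simp only [smul_sub, Finset.smul_sum, smul_smul]) i
    have h4 : ‖lam i.castSucc a - lam (Fin.last d) a‖ ≤ 1 := by
      rw [sub_eq_add_neg]
      exact (Padic.nonarchimedean _ _).trans (max_le (h.int a ha _) (by
        rw [norm_neg]; exact h.int a ha _))
    have h5 := b5_sub (b5_mul h4 h2) h3
    rw [inv_mul_cancel₀ h0, mul_comm] at h5
    simp at h5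
  have ind : ∀ s : Fin d → ℚ_[2], ∑ j, s j • c j ∈ D → s = 0 := by
    intro s hs
    funext j
    by_contra hj
    have := V (fun i => (2 * s j)⁻¹ * s i) 0 Z.zero_mem (by
      convert D.smul_mem (-(2 * s j)⁻¹) hs using 1
      simp only [zero_sub, Finset.smul_sum, smul_smul, neg_mul, neg_smul,
        Finset.sum_neg_distrib]) j
    have e : (2 * s j)⁻¹ * s j = ((2 * 1 : ℤ) : ℚ_[2])⁻¹ := by
      have : s j ≠ 0 := hj
      push_cast
      field_simp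
    rw [e, norm_inv] at this
    have h2 := b5_two 1
    have h3 : 0 < ‖((2 * 1 : ℤ) : ℚ_[2])‖ := norm_pos_iff.mpr (by norm_num)
    exact absurd (one_lt_inv₀ h3 |>.mpr h2) (not_lt.mpr this)
  have sk : ∀ a ∈ A, ∀ a' ∈ A, Φ a a' = -Φ a' a := fun a ha a' ha' => ((hΦ a ha).1 a' ha').1
  have pf : ∀ a ∈ A, (∀ a' ∈ A, Φ a a' = 0) ↔ a ∈ D := fun a ha => (hΦ a ha).2
  have sp : ∀ a ∈ A, ∃ s : Fin d → ℚ_[2], a - ∑ j, s j • c j ∈ D := by
    intro a ha
    by_contra hn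
    push Not at hn
    have bA : ∀ i, (Fin.cons a c : Fin (d + 1) → E) i ∈ A := fun i => Fin.cases ha cA i
    have bi : ∀ s : Fin (d + 1) → ℚ_[2], ∑ i, s i • (Fin.cons a c : Fin (d + 1) → E) i ∈ D →
        s = 0 := by
      intro s hs
      rw [Fin.sum_univ_succ] at hs
      simp only [Fin.cons_zero, Fin.cons_succ] at hs
      have s0 : s 0 = 0 := by
        by_contra s0
        refine hn (fun j => -((s 0)⁻¹ * s j.succ)) ?_
        convert D.smul_mem (s 0)⁻¹ hs using 1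
        simp only [smul_add, smul_smul, inv_mul_cancel₀ s0, one_smul, Finset.smul_sum, neg_smul,
          Finset.sum_neg_distrib, sub_neg_eq_add]
      rw [s0, zero_smul, zero_add] at hs
      funext i
      exact Fin.cases s0 (congrFun (ind _ hs)) i
    have g := b5_gram hD bA bi (b5_span hD bA bi hr) sk pf
    set M := Matrix.of fun i j => Φ ((Fin.cons a c : Fin (d + 1) → E) i)
      ((Fin.cons a c : Fin (d + 1) → E) j)
    have e1 : Mᵀ = -M := by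
      ext i j
      exact sk _ (bA j) _ (bA i)
    have e2 := congrArg Matrix.det e1
    rw [det_transpose, det_neg, Fintype.card_fin, hd.add_one.neg_one_pow] at e2
    exact g (by linear_combination e2 / 2)
  let L : (Fin d → ℚ_[2]) →ₗ[ℚ_[2]] E := Fintype.linearCombination ℚ_[2] c
  have hL : ∀ s, L s = ∑ j, s j • c j := fun s => Fintype.linearCombination_apply _ _ _
  obtain ⟨g, hg⟩ := (D.mkQ ∘ₗ L).exists_leftInverse_of_injective
    (LinearMap.ker_eq_bot'.mpr fun s hs => ind s ((Submodule.Quotient.mk_eq_zero D).mp hs))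
  set π : E →ₗ[ℚ_[2]] Fin d → ℚ_[2] := g ∘ₗ D.mkQ with hπ
  have p1 : ∀ s, π (∑ j, s j • c j) = s := fun s => LinearMap.congr_fun hg s
  have p2 : ∀ a ∈ D, π a = 0 := fun a ha => by
    simp only [hπ, LinearMap.comp_apply, Submodule.mkQ_apply,
      (Submodule.Quotient.mk_eq_zero D).mpr ha, map_zero]
  have p3 : ∀ a ∈ A, a - ∑ j, π a j • c j ∈ D := fun a ha => by
    obtain ⟨s, hs⟩ := sp a ha
    have := p2 _ hs
    rw [map_sub, p1, sub_eq_zero] at this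
    rwa [this]
  have p4 : ∀ γ, ∀ a ∈ A, π (σ γ a) = (Matrix.of fun i j => π (σ γ (c j)) i) *ᵥ π a := by
    intro γ a ha
    have := p2 _ (hD' γ _ (p3 a ha))
    rw [map_sub, map_sub, sub_eq_zero] at this
    rw [this]
    funext i
    simp [mulVec, dotProduct, mul_comm]
  have p5 : ∀ j, π (c j) = Pi.single j 1 := fun j => by
    rw [← p1 (Pi.single j 1)]
    simp [Pi.single_apply]
  have p6 : ∀ a ∈ A, ∀ a' ∈ A,
      Φ a a' = π a ⬝ᵥ (Matrix.of fun i j => Φ (c i) (c j)) *ᵥ π a' := by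
    intro a ha a' ha'
    have hA' : ∑ j, π a j • c j ∈ A := A.sum_mem fun j _ => A.smul_mem _ (cA j)
    have e1 := (pf _ (hD (p3 a ha))).mpr (p3 a ha) a' ha'
    have e2 := (pf _ (hD (p3 a' ha'))).mpr (p3 a' ha') _ hA'
    rw [sk _ (hD (p3 a' ha')) _ hA', neg_eq_zero, map_sub, sub_eq_zero] at e2
    rw [map_sub, LinearMap.sub_apply, sub_eq_zero] at e1
    rw [e1, e2]
    simp only [map_sum, map_smul, LinearMap.sum_apply, LinearMap.smul_apply, smul_eq_mul,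
      dotProduct, mulVec, of_apply, Finset.mul_sum]
    rw [Finset.sum_comm]
    exact Finset.sum_congr rfl fun i _ => Finset.sum_congr rfl fun j _ => by ring
  refine ⟨π, ⟨⟨fun γ => Matrix.of fun i j => π (σ γ (c j)) i, ?_⟩, fun γ δ => ?_⟩,
    Matrix.of fun i j => Φ (c i) (c j),
    fun v => ⟨_, A.sum_mem fun j _ => A.smul_mem _ (cA j), p1 v⟩,
    fun a ha => ⟨⟨fun h0 => by simpa [h0] using p3 a ha, p2 a⟩, fun γ => p4 γ a ha⟩,
    fun γ i j => V _ _ (h.act γ _ (cZ j)) (p3 _ (hA γ _ (cA j))) i, fun γ i j => ?_, ?_,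
    b5_gram hD cA ind sp sk pf, fun γ => ?_⟩
  · ext i j
    simp [h1, p5, Pi.single_apply, one_apply]
  · ext i j
    simp only [hm, LinearMap.comp_apply, of_apply, p4 γ _ (hA δ _ (cA j))]
    rfl
  · have z := h.act γ _ (cZ j)
    have a1 := U 1 _ (by simp) (V _ _ z (p3 _ (hA γ _ (cA j)))) _ z
      (by rw [one_smul]; exact p3 _ (hA γ _ (cA j))) i
    have a2 : ∀ x, ‖lam x (σ γ (c j)) - (1 + if pm γ j.castSucc = x then 1 else 0)‖ < 1 :=
      fun x => by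
        obtain ⟨x, rfl⟩ := (pm γ).surjective x
        have := b5_add (h.equi γ _ (cZ j) x) (hl j.castSucc x)
        simpa [hcdef] using this
    convert b5_sub (b5_sub (a2 i.castSucc) (a2 (Fin.last d))) a1 using 2
    show π (σ γ (c j)) i - qv ℚ_[2] (pm γ j.castSucc) i = _
    unfold qv
    ring
  · ext i j
    exact sk _ (cA j) _ (cA i)
  · ext i j
    have := p6 _ (hA γ _ (cA i)) _ (hA γ _ (cA j))
    rw [(((hΦ _ (cA i)).1 _ (cA j)).2 γ)] at this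
    rw [Matrix.mul_assoc]
    exact this.symm

end Pool.Agent.Lib.MP_d61fbb_ag.DW
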