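import Pool.Agent.Lib.MP_d61fbb_ag.DW.B3
import Pool.Agent.Lib.MP_d61fbb_ag.DW.B4
import Pool.Agent.Lib.MP_d61fbb_ag.DW.B5

/-! The representation on parabolic cohomology. -/

set_option autoImplicit false

noncomputable section

namespace Pool.Agent.Lib.MP_d61fbb_ag.DW

open Matrix Pool.Agent.Lib.MP_d61fbb_ag.SQ

variable {Γ κ : Type} [Group Γ] [TopologicalSpace Γ] [IsTopologicalGroup Γ] {G : Subgroup Γ}
  [G.Normal] [CompactSpace G] [Fintype κ] [DecidableEq κ] {𝒟 good : Set (Set Γ)} {χ : Γ → ℤ_[2]}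
  {d : ℕ} {y : Fin (d + 1 + 2) → G} {pm : Γ → Equiv.Perm (Fin (d + 1 + 2))} {N : Subgroup G}
  {r : Γ →* Matrix κ κ ℚ_[2]} {β : Matrix κ κ ℚ_[2]} {μ : Γ → ℚ_[2]}
  {pa : Γ →* Equiv.Perm (Fin (d + 1))} {v : Fin (d + 1) → κ → ℚ_[2]}

theorem coh_main (hr : Sys G good r β μ) (h : Surf G 𝒟 good χ y pm N) (hχ : ∀ γ, ‖χ γ‖ = 1)
    (hp : ∀ γ i, pm γ i.castSucc.castSucc = (pa γ i).castSucc.castSucc)
    (hv : ∀ i, Rf β (r (y i.castSucc.castSucc)) (v i)) (hG : Big pa.range) (hd : Even d)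
    (hκ : Fintype.card κ < d) :
    ∃ (ρ : Γ →* Mat d ℚ_[2]) (B : Mat d ℚ_[2]), HOne G 𝒟 r ρ ∧
      Hd ρ pa B fun γ => μ γ * (χ γ⁻¹ : ℚ_[2]) := by
  obtain ⟨Z, lam, hZ⟩ := exists_res hr h hχ hp hv hG hκ
  obtain ⟨Φ, hΦ⟩ := exists_pair hr h
  have har := hr.ar h
  set r' := r.comp G.subtype with hr'
  let Y : Fin (d + 1 + 2) → Matrix κ κ ℚ_[2] := fun s => r' (y s)
  let ev : (G → κ → ℚ_[2]) →ₗ[ℚ_[2]] Fin (d + 1 + 2) → κ → ℚ_[2] :=
    LinearMap.pi fun s => LinearMap.proj (y s)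
  have hP : ∀ s, r' (Fin.partialProd y s) = Fin.partialProd Y s := fun s => by
    induction s using Fin.induction with
    | zero => simp
    | succ s ih => rw [Fin.partialProd_succ, Fin.partialProd_succ, map_mul, ih]
  have hT : ∀ c ∈ Pa N r' y, ev c ∈ Tp Y := fun c hc => mem_Tp.mpr
    ⟨by
      have := h.sum (mem_Pa.mp hc).1
      simp only [hP] at this
      exact this, (mem_Pa.mp hc).2⟩
  have hi : Function.Injective (ev.restrict hT) := by
    refine LinearMap.ker_eq_bot.mp (LinearMap.ker_eq_bot'.mpr fun c hc => Subtype.ext ?_)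
    exact h.ext (mem_Pa.mp c.2).1 fun i => congrFun (congrArg Subtype.val hc) i.castSucc
  have := Module.Finite.of_injective _ hi
  have h1 := LinearMap.finrank_le_finrank_of_injective hi
  have h2 := la_rank (Y := Y) hr.det hr.sym (fun s => by
    have := hr.sim (y s)
    rw [hr.one _ (y s).2, one_smul] at this
    exact this) fun i => (hv i).rank
  have h3 : Module.finrank ℚ_[2] (LinearMap.range (tb Y)) ≤
      Module.finrank ℚ_[2] (LinearMap.range (cob r')) := by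
    rw [show tb Y = ev ∘ₗ cob r' from rfl, LinearMap.range_comp]
    exact Submodule.finrank_map_le _ _
  obtain ⟨π, ρ, B, a1, a2, a3⟩ := basis_of_res hZ hG hd
    (by rintro _ ⟨u, rfl⟩; exact har.cob_mem y u) (by omega) ac_one ac_mul
    (fun γ c hc => hr.ac_mem h γ hc) (by rintro γ _ ⟨u, rfl⟩; exact ⟨_, (ac_cob γ u).symm⟩)
    Φ _ hΦ
  refine ⟨ρ, B, ⟨π, fun w => ?_, fun c hc => ?_⟩, a3⟩
  · obtain ⟨c, hc, e⟩ := a1 w
    exact ⟨c, (hr.par_iff h).mpr hc, e⟩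
  · obtain ⟨b1, b2⟩ := a2 c ((hr.par_iff h).mp hc)
    refine ⟨b1.trans ⟨?_, ?_⟩, fun γ => ?_⟩
    · rintro ⟨u, rfl⟩
      exact ⟨u, cob_apply u⟩
    · rintro ⟨u, hu⟩
      exact ⟨u, funext fun g => (cob_apply u g).trans (hu g).symm⟩
    · rw [← b2 γ]
      exact congrArg π (funext fun g => (ac_apply γ g).symm)

end Pool.Agent.Lib.MP_d61fbb_ag.DW
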