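import Pool.Agent.Lib.MP_d61fbb_ag.SQ.Defs

/-! Parabolic Galois cohomology of the tensor induction of a Tate module: the definitions. -/

set_option autoImplicit false

noncomputable section

namespace Pool.Agent.Lib.MP_d61fbb_ag.DS

open Polynomial Matrix Pool.Agent.Lib.MP_d61fbb_ag.SQ

section coh

variable {Γ κ : Type} [Group Γ] [TopologicalSpace Γ] [Fintype κ]

/-- A continuous cocycle of `G` that is a coboundary on every member of `𝒟`. -/
def Par (G : Subgroup Γ) (𝒟 : Set (Set Γ)) (r : Γ → Matrix κ κ ℚ_[2]) (c : G → κ → ℚ_[2]) :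
    Prop :=
  Continuous c ∧ (∀ g h : G, c (g * h) = c g + r g *ᵥ c h) ∧
    ∀ D ∈ 𝒟, ∃ m, ∀ g : G, (g : Γ) ∈ D → c g = r g *ᵥ m - m

/-- `ρ` is the matrix of the action of `Γ` on these cocycles modulo coboundaries. -/
def HOne (G : Subgroup Γ) [G.Normal] (𝒟 : Set (Set Γ)) (r : Γ → Matrix κ κ ℚ_[2]) {d : ℕ}
    (ρ : Γ → Matrix (Fin d) (Fin d) ℚ_[2]) : Prop :=
  ∃ π : (G → κ → ℚ_[2]) → Fin d → ℚ_[2], IsLinearMap ℚ_[2] π ∧
    (∀ v, ∃ c, Par G 𝒟 r c ∧ π c = v) ∧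
    ∀ c, Par G 𝒟 r c → (π c = 0 ↔ ∃ m, ∀ g : G, c g = r g *ᵥ m - m) ∧
      ∀ γ, π (fun g => r γ *ᵥ c (MulAut.conjNormal γ⁻¹ g)) = ρ γ *ᵥ π c

end coh

/-- The map of Picard groups induced by a ring homomorphism. -/
def pm {A B : Type} [CommRing A] [CommRing B] (θ : A →+* B) (x : Additive (CommRing.Pic A)) :
    Additive (CommRing.Pic B) :=
  Additive.ofMul (CommRing.Pic.mapRingHom θ x.toMul)

/-- The map of coordinate rings acting by `σ` on constants and fixing `x` and `y`. -/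
def cm {k : Type} [Field k] {g g' : k[X]} (σ : k →+* k) (h : g.map σ = g') :
    Crv k 2 g →+* Crv k 2 g' :=
  AdjoinRoot.map (mapRingHom σ) (X ^ 2 - C g) (X ^ 2 - C g') (by simp [h])

/-- The matrices `τ` describe the relation `a` in coordinates on the `2`-power torsion. -/
def TateFam {Γ W : Type} [SMul Γ W] {A : W → Type} [∀ w, AddCommGroup (A w)]
    (a : ∀ (γ : Γ) (w : W), A w → A (γ • w) → Prop)
    (τ : Γ → W → Matrix (Fin 2) (Fin 2) ℚ_[2]) : Prop :=
  ∃ e : ∀ w, (Fin 2 → ℚ_[2]) →+ A w, (∀ w, TateOn (e w) 1) ∧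
    ∀ γ w v, a γ w (e w v) (e (γ • w) (τ γ w *ᵥ v))

/-- The tensor induction of a family of matrices. -/
def tind {Γ W : Type} [SMul Γ W] [Fintype W] (τ : Γ → W → Matrix (Fin 2) (Fin 2) ℚ_[2]) (γ : Γ) :
    Matrix (W → Fin 2) (W → Fin 2) ℚ_[2] :=
  Matrix.of fun j i => ∏ w, τ γ w (j (γ • w)) (i w)

/-- The cubic `x (x ^ 2 + 2 s x + (s ^ 2 + b w) / 2)`. -/
def cub {L : Type} [Field L] (s b w : L) : L[X] :=
  X * (X ^ 2 + C (2 * s) * X + C ((s ^ 2 + b * w) / 2))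

variable (K : Type) {F : Type} (L : Type) [Field K] [Field F] [Field L] [Algebra K F]
  [Algebra K L] [Algebra F L] [IsScalarTower K F L]

/-- The automorphisms fixing all elements algebraic over `K`. -/
def geo : Subgroup (L ≃ₐ[F] L) where
  carrier := {g | ∀ x, IsAlgebraic K x → g x = x}
  one_mem' _ _ := rfl
  mul_mem' {a b} ha hb x hx := by rw [AlgEquiv.mul_apply, hb x hx, ha x hx]
  inv_mem' {a} ha x hx := a.injective (by rw [ha x hx, ← AlgEquiv.mul_apply]; simp)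

instance : (geo K L (F := F)).Normal where
  conj_mem g hg γ x hx := by
    have h : g (γ⁻¹ x) = γ⁻¹ x :=
      hg _ (hx.algHom ((γ⁻¹ : L ≃ₐ[F] L).toAlgHom.restrictScalars K))
    rw [AlgEquiv.mul_apply, AlgEquiv.mul_apply, h, ← AlgEquiv.mul_apply]
    simp

/-- The decomposition groups of the places that are trivial on `K`. -/
def dec : Set (Set (L ≃ₐ[F] L)) :=
  {D | ∃ R : ValuationSubring L, R ≠ ⊤ ∧ (∀ a : K, algebraMap K L a ∈ R) ∧
    D = {g | ∀ x, g x ∈ R ↔ x ∈ R}}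

/-- The square roots of `f`. -/
abbrev Wt (f : F) : Type := (X ^ 2 - C f).rootSet L

variable {L}

/-- `y` is the image under `γ` of the class `x`. -/
def Act (γ : L ≃ₐ[F] L) {g g' : L[X]} (x : Jac L 2 g) (y : Jac L 2 g') : Prop :=
  ∃ h, y = pm (cm γ.toRingEquiv.toRingHom h) x

open Classical in
/-- `ρ` is the representation on the parabolic cohomology of the tensor induction of the Tate
modules of the curves `y ^ 2 = cub s b w`, where `w ^ 2 = f`. -/
def Coh (f s b : F) {d : ℕ} (ρ : (L ≃ₐ[F] L) → Matrix (Fin d) (Fin d) ℚ_[2]) : Prop :=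
  ∃ τ, TateFam (A := fun w : Wt L f => Jac L 2 (cub (algebraMap F L s) (algebraMap F L b) w))
    (fun (γ : L ≃ₐ[F] L) _ => Act γ) τ ∧ HOne (geo K L) (dec K L) (tind τ) ρ

end Pool.Agent.Lib.MP_d61fbb_ag.DS
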