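import Pool.Agent.Lib.MP_d61fbb_ag.DW.Top
import Pool.Agent.Lib.MP_d61fbb_ag.DW.Stm

/-! The two forms of the definitions agree. -/

set_option autoImplicit false

noncomputable section

namespace Pool.Agent.Lib.MP_d61fbb_ag.DW

open Polynomial Matrix Pool.Agent.Lib.MP_d61fbb_ag.SQ

theorem coh_bridge {K : Type} [Field K] {f S B : K[X]} {d : ℕ}
    {ρ : Gam K → Matrix (Fin d) (Fin d) ℚ_[2]} (h : Coh f S B ρ) :
    DS.Coh K (algebraMap K[X] (RatFunc K) f) (algebraMap K[X] (RatFunc K) S)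
      (algebraMap K[X] (RatFunc K) B) ρ := by
  obtain ⟨e, τ, h1, h2, π, h3, h4⟩ := h
  refine ⟨τ, ⟨e, h1, fun γ w v => ?_⟩, π, π.isLinear, h3, h4⟩
  obtain ⟨k, hk⟩ := h2 γ w
  exact ⟨k, hk v⟩

end Pool.Agent.Lib.MP_d61fbb_ag.DW
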