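import Pool.Agent.Lib.MP_d61fbb_ag.DW.SD
import Pool.Agent.Lib.MP_d61fbb_ag.SQ.T4
import Pool.Agent.Lib.MP_d61fbb_ag.SQ.M1

/-! Maps between class groups in Tate coordinates. -/

set_option autoImplicit false

noncomputable section

namespace Pool.Agent.Lib.MP_d61fbb_ag.DW

open Polynomial Matrix Pool.Agent.Lib.MP_d61fbb_ag.SQ

section

variable {A A' ι : Type} [AddCommGroup A] [AddCommGroup A'] [Fintype ι] [DecidableEq ι]
  {e : (ι → ℚ_[2]) →+ A} {e' : (ι → ℚ_[2]) →+ A'} {θ : A →+ A'} {M M' : Matrix ι ι ℚ_[2]}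

theorem tateOn_one : TateOn e 1 ↔ IsTate e :=
  and_congr_right fun _ => forall_congr' fun x =>
    iff_congr Iff.rfl (and_iff_right ⟨x, rfl⟩)

theorem c0_gen (he : IsTate e) (he' : IsTate e') (hM : ∀ i j, ‖M i j‖ ≤ 1)
    (h : ∀ (i : ι) (k : ℕ), e' (M *ᵥ Pi.single i (((2 : ℕ) : ℚ_[2]) ^ k)⁻¹) =
      θ (e (Pi.single i (((2 : ℕ) : ℚ_[2]) ^ k)⁻¹))) (v : ι → ℚ_[2]) : e' (M *ᵥ v) = θ (e v) := by
  rw [← Finset.univ_sum_single v, mulVec_sum, map_sum, map_sum, map_sum]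
  refine Finset.sum_congr rfl fun j _ => ?_
  obtain ⟨k, m, hk⟩ := t2_appr (v j)
  have h1 : (Pi.single j (v j) : ι → ℚ_[2]) =
      Pi.single j (v j - m • (((2 : ℕ) : ℚ_[2]) ^ k)⁻¹) +
      m • (Pi.single j (((2 : ℕ) : ℚ_[2]) ^ k)⁻¹ : ι → ℚ_[2]) := by
    rw [← Pi.single_smul, ← Pi.single_add, sub_add_cancel]
  have h2 : e' (M *ᵥ Pi.single j (v j - m • (((2 : ℕ) : ℚ_[2]) ^ k)⁻¹)) = 0 :=
    (he'.1 _).2 fun i => by
      rw [t2_col, norm_mul]
      exact mul_le_one₀ (hM i j) (norm_nonneg _) hk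
  rw [h1, mulVec_add, mulVec_smul, map_add, map_add, h2, t2_single he j hk, map_add, map_zero,
    map_nsmul, map_nsmul, map_nsmul, h]

theorem rep_two (he : IsTate e) (he' : IsTate e') (θ : A →+ A') :
    ∃ M : Matrix ι ι ℚ_[2], ∀ v, e' (M *ᵥ v) = θ (e v) := by
  have h0 : ∀ j : ι, θ (e (Pi.single j (((2 : ℕ) : ℚ_[2]) ^ 0)⁻¹)) = 0 := fun j => by
    rw [pow_zero, inv_one, t2_single he j norm_one.le, map_zero]
  choose w hw using fun j : ι => t2_column he'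
    (fun k => θ (e (Pi.single j (((2 : ℕ) : ℚ_[2]) ^ k)⁻¹))) (h0 j) fun k => by
      rw [← map_nsmul, ← map_nsmul, ← Pi.single_smul, nsmul_eq_mul, pow_succ, mul_inv,
        mul_left_comm, mul_inv_cancel₀ t2_ne, mul_one]
  refine ⟨Matrix.of fun i j => w j i, c0_gen he he' (fun i j => ?_) fun j k => ?_⟩
  · have h1 := (hw j 0).trans (h0 j)
    rw [pow_zero, inv_one, one_smul] at h1
    exact (he'.1 _).1 h1 i
  · rw [← hw j k]
    congr 1
    funext i
    rw [t2_col, mul_comm]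
    rfl

theorem rep_two_int (he : IsTate e) (he' : IsTate e') (h : ∀ v, e' (M *ᵥ v) = θ (e v)) (i j : ι) :
    ‖M i j‖ ≤ 1 := by
  have h1 := h (Pi.single j 1)
  rw [t2_single he j norm_one.le, map_zero] at h1
  simpa only [t2_col, mul_one] using (he'.1 _).1 h1 i

theorem rep_two_uniq (he' : IsTate e') (h : ∀ v, e' (M *ᵥ v) = e' (M' *ᵥ v)) : M = M' := by
  have h0 : Rep e' 0 (M - M') := fun v => by
    rw [sub_mulVec, map_sub, h, sub_self]
    rfl
  exact sub_eq_zero.1 (h0.eq_zero he' fun _ _ _ => rfl)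

end

variable {k : Type} [Field k] {g g' g'' : k[X]}

theorem c0_jm {σ : k →+* k} (h : g.map σ = g') (θ : Crv k 2 g →+* Crv k 2 g')
    (h1 : ∀ p, θ (AdjoinRoot.of _ p) = AdjoinRoot.of _ (p.map σ))
    (h2 : θ (AdjoinRoot.root _) = AdjoinRoot.root _) :
    jm σ h = MonoidHom.toAdditive (CommRing.Pic.mapRingHom θ) := by
  rw [jm]
  congr 2
  refine AdjoinRoot.ringHom_ext (RingHom.ext fun p => ?_) ?_
  · rw [RingHom.comp_apply, RingHom.comp_apply, AdjoinRoot.map_of, h1, coe_mapRingHom]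
  · rw [AdjoinRoot.map_root, h2]

theorem jm_id (h : g.map (RingHom.id k) = g) (x : Jac k 2 g) : jm (RingHom.id k) h x = x := by
  rw [c0_jm h (RingHom.id _) (fun p => by rw [Polynomial.map_id, RingHom.id_apply]) rfl]
  exact CommRing.Pic.mapRingHom_id_apply

theorem jm_comp {σ σ' : k →+* k} (h : g.map σ = g') (h' : g'.map σ' = g'')
    (h'' : g.map (σ'.comp σ) = g'') (x : Jac k 2 g) :
    jm (σ'.comp σ) h'' x = jm σ' h' (jm σ h x) := by
  refine Eq.trans ?_ CommRing.Pic.mapRingHom_mapRingHom.symm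
  refine DFunLike.congr_fun (c0_jm h'' _ (fun p => ?_) ?_) x
  · rw [RingHom.comp_apply, AdjoinRoot.map_of, AdjoinRoot.map_of, coe_mapRingHom, coe_mapRingHom,
      Polynomial.map_map]
  · rw [RingHom.comp_apply, AdjoinRoot.map_root, AdjoinRoot.map_root]

theorem jm_sg (σ : k ≃+* k) (h : g.map σ.toRingHom = g) (x : Jac k 2 g) :
    jm σ.toRingHom h x = sg 2 σ h x :=
  DFunLike.congr_fun (c0_jm h (tw σ.toRingHom 1 h (one_pow 2)) (m1_tw_of _ _ _ _)
    (by rw [m1_tw_root, C_1, map_one, one_mul])) x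

theorem sq_roots {r : Fin 3 → k} (H : Hyp 2 2 g r) {σ : k ≃+* k} (h : g.map σ.toRingHom = g)
    (h0 : σ (r 0) = r 0) (i : Fin 3) : σ (σ (r i)) = r i := by
  have hz : ∀ a, g.eval a = 0 ↔ ∃ j, a = r j := fun a => by
    rw [H.fac, eval_prod, Finset.prod_eq_zero_iff]
    simp [sub_eq_zero]
  have h1 : ∀ i, ∃ j, σ (r i) = r j := fun i => (hz _).1 (by
    have e := eval_map_apply (p := g) σ.toRingHom (r i)
    rw [h, (hz _).2 ⟨i, rfl⟩, map_zero] at e
    exact e)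
  choose π hπ using h1
  have h2 : Function.Injective π := fun i j e => H.inj (σ.injective (by rw [hπ, hπ, e]))
  have h3 : π 0 = 0 := H.inj ((hπ 0).symm.trans h0)
  have h4 : ∀ π : Fin 3 → Fin 3, Function.Injective π → π 0 = 0 → ∀ i, π (π i) = i := by decide
  rw [hπ, hπ, h4 π h2 h3]

end Pool.Agent.Lib.MP_d61fbb_ag.DW
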