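import Pool.Agent.Lib.MP_d61fbb_ag.DW.C0
import Pool.Agent.Lib.MP_d61fbb_ag.SQ.CTop
import Pool.Agent.Lib.MP_d61fbb_ag.WP.O1
import Pool.Agent.Lib.MP_d61fbb_ag.WP.V2
import Pool.Agent.Lib.MP_d61fbb_ag.WP.V3
import Pool.Agent.Lib.MP_d61fbb_ag.WP.B3

/-! The Tate module of an elliptic curve. -/

set_option autoImplicit false

noncomputable section

namespace Pool.Agent.Lib.MP_d61fbb_ag.DW

open Polynomial Matrix Pool.Agent.Lib.MP_d61fbb_ag.SQ

section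

variable {A : Type} [AddCommGroup A] {d : ℕ} {T : AddMonoid.End A} {P : Fin (d + 1) → A}

theorem c1_neg (h : JData 2 d T P) (x : A) : T x = -x := by
  have h1 := DFunLike.congr_fun h.norm x
  rw [Finset.sum_range_succ, Finset.sum_range_one, pow_zero, pow_one] at h1
  exact eq_neg_of_add_eq_zero_right h1

theorem c1_new (h : JData 2 d T P) : JNew 2 2 d T P := by
  refine ⟨⟨0, rfl⟩, ?_, h.surj, h.ker, h.rel⟩
  have h1 := h.norm
  rw [Finset.sum_range_succ, Finset.sum_range_one, pow_zero, pow_one] at h1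
  rw [cyclotomic_two, map_add, aeval_X, map_one, add_comm, h1]

theorem c1_skew {F : Type} [Field F] [CharZero F] {B M : Matrix (Fin 2) (Fin 2) F} {c : F}
    (h1 : Bᵀ = -B) (h2 : B.det ≠ 0) (h3 : Mᵀ * B * M = c • B) : M.det = c := by
  have a0 : B 0 0 = 0 := by
    have := congrFun (congrFun h1 0) 0
    rw [transpose_apply, Matrix.neg_apply] at this
    linear_combination this / 2
  have a1 : B 1 1 = 0 := by
    have := congrFun (congrFun h1 1) 1
    rw [transpose_apply, Matrix.neg_apply] at this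
    linear_combination this / 2
  have a2 : B 1 0 = -B 0 1 := congrFun (congrFun h1 0) 1
  have a3 : B 0 1 ≠ 0 := fun e => h2 (by rw [det_fin_two, a0, e, zero_mul, zero_mul, sub_zero])
  have a4 := congrFun (congrFun h3 0) 1
  simp only [mul_apply, Fin.sum_univ_two, transpose_apply, Matrix.smul_apply, smul_eq_mul, a0, a1,
    a2] at a4
  apply mul_right_cancel₀ a3
  rw [det_fin_two]
  linear_combination a4

end

theorem c1_prim {k : Type} [Field k] (h : ((2 : ℕ) : k) ≠ 0) : IsPrimitiveRoot (-1 : k) 2 := by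
  refine IsPrimitiveRoot.mk_of_lt _ two_pos (by simp) fun j j0 j2 e => h ?_
  obtain rfl : j = 1 := by omega
  rw [pow_one] at e
  push_cast
  linear_combination -e

open IsLocalRing in
theorem c1_red {k : Type} [Field k] [IsAlgClosed k] {l d : ℕ} {f : k[X]} {r : Fin (d + 1) → k}
    (H : Hyp l d f r) {z : k} (hz : IsPrimitiveRoot z l) {σ : k ≃+* k}
    {hσ : f.map σ.toRingHom = f} {R : ValuationSubring k} (h2 : R.valuation l = 1)
    (hr : ∀ i, r i ∈ R) (hd : ∀ i j, i ≠ j → R.valuation (r i - r j) = 1)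
    (hR : ∀ x, σ x ∈ R ↔ x ∈ R) (hres : ∀ x ∈ R, R.valuation (σ x - x) < 1) {x : Jac k l f}
    {n : ℕ} (hn : ((1 - zt f hz) ^ n) (sg l σ hσ x - x) = 0) : sg l σ hσ x - x = 0 := by
  have := H.sm
  have := residue_algClosed R
  have hl0 : (l : ResidueField R) ≠ 0 := fun h => by
    rw [← map_natCast (residue R), residue_eq_zero_iff,
      ValuationSubring.valuation_lt_one_iff] at h
    exact h.ne (by simpa using h2)
  have hzR : z ∈ R := mem_of_pow_mem H.one_lt.ne_bot (by rw [hz.pow_eq_one]; exact R.one_mem)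
  obtain ⟨rb, hrr⟩ : ∃ rb : Fin (d + 1) → ResidueField R,
      ∀ i, rb i = residue R ⟨r i, hr i⟩ := ⟨_, fun _ => rfl⟩
  have hi : Function.Injective rb := fun i j h => by
    by_contra hn
    rw [hrr, hrr, ← m1_rs, ← m1_rs] at h
    exact rs_inj (hr i) (hr j) (hd i j hn) h
  obtain ⟨fb, hfb⟩ : ∃ fb : (ResidueField R)[X], fb = ∏ i, (X - C (rb i)) := ⟨_, rfl⟩
  have hb : Hyp l d fb rb := ⟨H.one_lt, hl0, H.cop, hi, hfb⟩
  have := hb.sm
  have z2 := top_prim (Sm.ne0 f) hl0 (z := ⟨z, hzR⟩) hz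
  have m1 : (∏ i, (X - C ⟨r i, hr i⟩) : R[X]).map R.subtype = f := by
    simp [H.fac, Polynomial.map_prod]
  have m2 : (∏ i, (X - C ⟨r i, hr i⟩) : R[X]).map (residue R) = fb := by
    simp [hfb, hrr, Polynomial.map_prod]
  have h1 : fb.map (1 : ResidueField R ≃+* ResidueField R).toRingHom = fb := Polynomial.map_id
  have hc : Cpt (ga l σ hσ) (ga l 1 h1) := by
    refine ⟨hR, fun x y h => ?_, 1, rfl, (map_one _).symm⟩
    have h3 := hres x x.2
    rw [show σ x = y from h, ← m1_rs_eq y.2 x.2, m1_rs y.2, m1_rs x.2] at h3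
    exact h3.symm
  obtain ⟨red, r1, r2⟩ := Mdl.exists_red ⟨_, m1, m2, ⟨z, hzR⟩, hz, z2⟩
  have r3 : ∀ x, red (zt f hz x) = zt fb z2 (red x) := by
    rw [zt_eq, zt_eq]
    exact r2 _ _ (Mdl.cpt_rt ⟨_, m1, m2, ⟨z, hzR⟩, hz, z2⟩)
  have r4 : red (sg l σ hσ x) = red x := by
    rw [sg_eq, r2 _ _ hc, ← sg_eq, sg_one, AddMonoid.End.one_apply]
  refine inj_torsion (zt f hz) (zt fb z2) red r3 (fun x hx h0 => ?_) hn ?_
  · obtain ⟨a, rfl⟩ := (j_ker H hz x).1 hx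
    refine (j_rel H hz a).2 ((j_rel hb z2 a).1 ?_)
    rw [← h0, map_sum]
    refine Finset.sum_congr rfl fun i _ => ?_
    rw [map_zsmul, r1, redD_over (P := H.pt i) (Q := hb.pt i)
      ⟨⟨r i, hr i⟩, 0, rfl, rfl, hrr i, (map_zero _).symm⟩]
  · rw [map_sub, r4, sub_self]

variable {k : Type} [Field k] [IsAlgClosed k] [CharZero k] {g : k[X]} {r : Fin 3 → k}
  {e : (Fin 2 → ℚ_[2]) →+ Jac k 2 g} {σ : k ≃+* k} {hσ : g.map σ.toRingHom = g}
  {M : Matrix (Fin 2) (Fin 2) ℚ_[2]}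

theorem tate_two (H : Hyp 2 2 g r) : ∃ e : (Fin 2 → ℚ_[2]) →+ Jac k 2 g, IsTate e := by
  obtain ⟨P, hP, -⟩ := curveStmt k 2 2 g r H (-1) (c1_prim H.ne)
  obtain ⟨e, he, -⟩ := (c1_new hP).tate
  have : Unique (Fin (Nat.totient 2)) := by
    rw [Nat.totient_two]
    infer_instance
  let s : ((Fin 2 → ℚ_[2]) →+ (Ix 2 2 → ℚ_[2])) :=
    AddMonoidHom.mk' (fun v x => v x.1) fun _ _ => rfl
  refine ⟨e.comp s, fun v => ?_, fun x => ?_⟩
  · rw [AddMonoidHom.comp_apply, he.1]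
    exact ⟨fun h i => h (i, default), fun h x => h x.1⟩
  · rw [← he.2]
    refine ⟨fun ⟨v, hv⟩ => ⟨_, hv⟩, fun ⟨v, hv⟩ => ⟨fun i => v (i, default), ?_⟩⟩
    rw [← hv, AddMonoidHom.comp_apply]
    congr 1
    ext x
    exact congrArg v (Prod.ext rfl (Subsingleton.elim _ _))

theorem det_cyc (H : Hyp 2 2 g r) (he : IsTate e) (hM : Rep e (sg 2 σ hσ) M) :
    M.det = ((cyclotomicCharacter k 2 σ).val : ℤ_[2]) := by
  have := H.sm
  have hz := c1_prim H.ne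
  have hj := j_data H hz
  obtain ⟨ord, lc, o⟩ := WP.exists_ord (l := 2) g
  obtain ⟨ω, w1, w2, w3⟩ := WP.exists_mu k 2
  have p := WP.pair_wv o
  obtain ⟨B, b⟩ := WP.exists_gram p he.1 w1 w2
  have hδ : ∀ N x y ζ, WP.WV lc N x y ζ → WP.WV lc N (zt g hz x) (zt g hz y) ζ :=
    fun N x y ζ h => WP.wv_au o (rt g hz) h
  have h1 : TateOn e (1 - zt g hz ^ (2 / 2)) := by
    refine ⟨he.1, fun x => ?_⟩
    rw [he.2, Nat.div_self two_pos, pow_one]
    exact ⟨fun h => ⟨hj.surj x, h⟩, fun h => h.2⟩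
  have h2 : Rep e (zt g hz) (-1) := fun v => by
    rw [neg_mulVec, one_mulVec, map_neg, c1_neg hj]
  have h3 : B.det ≠ 0 := b.det_ne (a := 0) p rfl h1 h2 hj.norm hj.surj hδ fun x hx h =>
    WP.wv_nondeg o H hz hx h
  exact c1_skew (b.skew p he.1) h3
    (b.conj p he.1 hM σ (w3 σ) fun N x y ζ h => WP.wv_au o (ga 2 σ hσ) h)

theorem fix_roots (H : Hyp 2 2 g r) (he : IsTate e) (hM : Rep e (sg 2 σ hσ) M)
    (h : ∀ i, σ (r i) = r i) (i j : Fin 2) : ‖(M - 1) i j‖ < 1 := by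
  obtain ⟨P, hP, hs⟩ := curveStmt k 2 2 g r H (-1) (c1_prim H.ne)
  have h0 : ((2 : ℕ) : ℚ_[2]) ≠ 0 := t2_ne
  obtain ⟨x, hx⟩ : ∃ x, e (Pi.single j (((2 : ℕ) : ℚ_[2]) ^ 1)⁻¹) = x := ⟨_, rfl⟩
  have h1 : x + x = 0 := by
    rw [← hx, ← map_add, ← Pi.single_add]
    refine t2_single he j (le_of_eq ?_)
    rw [← two_mul, pow_one, Nat.cast_two, mul_inv_cancel₀ two_ne_zero, norm_one]
  obtain ⟨a, ha⟩ := (hP.ker x).1 ((c1_neg hP x).trans (neg_eq_of_add_eq_zero_left h1))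
  have h2 : sg 2 σ hσ x = x := by
    rw [ha, map_sum]
    exact Finset.sum_congr rfl fun i _ => by rw [map_zsmul, hs σ hσ 1 h i, Equiv.Perm.one_apply]
  have h3 := (hM.sub rep_one) (Pi.single j (((2 : ℕ) : ℚ_[2]) ^ 1)⁻¹)
  rw [hx] at h3
  have h4 := (he.1 _).1 (h3.trans (sub_eq_zero.2 h2)) i
  rw [t2_col, norm_mul, t2_norm, pow_one, Nat.cast_two] at h4
  linarith

theorem small_two (H : Hyp 2 2 g r) (he : IsTate e) (j : ℕ) :
    ∃ F : Finset k, ∀ (σ : k ≃+* k) (hσ : g.map σ.toRingHom = g)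
      (M : Matrix (Fin 2) (Fin 2) ℚ_[2]), Rep e (sg 2 σ hσ) M → (∀ a ∈ F, σ a = a) →
      ∀ a b, ‖(M - 1) a b‖ ≤ ((2 : ℝ) ^ j)⁻¹ := by
  classical
  obtain ⟨F, hF⟩ := rep_small he j
  choose G hG using contStmt k 2 2 g r H
  refine ⟨F.biUnion G, fun σ hσ M hM h a b => ?_⟩
  have h1 := hF _ M hM (fun x hx => hG x σ hσ fun c hc =>
    h c (Finset.mem_biUnion.2 ⟨x, hx, hc⟩)) a b
  rwa [Nat.cast_two] at h1

theorem unram (H : Hyp 2 2 g r) (he : IsTate e) (hM : Rep e (sg 2 σ hσ) M)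
    {R : ValuationSubring k} (h2 : R.valuation 2 = 1) (hr : ∀ i, r i ∈ R)
    (hd : ∀ i j, i ≠ j → R.valuation (r i - r j) = 1) (hR : ∀ x, σ x ∈ R ↔ x ∈ R)
    (hres : ∀ x ∈ R, R.valuation (σ x - x) < 1) : M = 1 := by
  have := H.sm
  have hz := c1_prim H.ne
  refine sub_eq_zero.1 ((hM.sub rep_one).eq_zero he fun x N hx => ?_)
  obtain ⟨n, hn⟩ := (c1_new (j_data H hz)).tors_pow N ((sg 2 σ hσ - 1) x)
    (by rw [← map_nsmul, hx, map_zero])
  exact c1_red H hz (by rw [Nat.cast_two, h2]) hr hd hR hres hn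

end Pool.Agent.Lib.MP_d61fbb_ag.DW
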