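import Pool.Agent.Lib.MP_d61fbb_ag.DW.SD

/-! Tensor induction from a subgroup of index two. -/

set_option autoImplicit false

noncomputable section

namespace Pool.Agent.Lib.MP_d61fbb_ag.DW

open Matrix Topology

variable {Γ W : Type} [Group Γ] [TopologicalSpace Γ] [MulAction Γ W]

/-- A family of integral matrices of size two with the cocycle property. -/
structure Tau (χ : Γ → ℚ_[2]) (τ : Γ → W → Matrix (Fin 2) (Fin 2) ℚ_[2]) : Prop where
  one : ∀ w, τ 1 w = 1
  mul : ∀ γ δ w, τ (γ * δ) w = τ γ (δ • w) * τ δ w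
  int : ∀ γ w i j, ‖τ γ w i j‖ ≤ 1
  small : ∀ j : ℕ, ∀ᶠ γ in 𝓝 (1 : Γ), ∀ w, γ • w = w ∧
    ∀ a b, ‖(τ γ w - 1) a b‖ ≤ ((2 : ℝ) ^ j)⁻¹
  four : ∀ γ w a b, ‖(τ (γ ^ 4) w - 1) a b‖ < 1
  det : ∀ γ w, γ • w = w → (τ γ w).det = χ γ
  sq : ∀ γ, χ (γ * γ) = χ γ ^ 2
  unit : ∀ γ, ‖χ γ‖ = 1

/-- The tensor product of the standard alternating forms. -/
def bt (W : Type) [Fintype W] : Matrix (W → Fin 2) (W → Fin 2) ℚ_[2] :=
  Matrix.of fun j i => ∏ w, !![0, 1; -1, 0] (j w) (i w)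

section tw

variable [Fintype W] [DecidableEq W]

/-- A tensor product of matrices twisted by a permutation of the factors. -/
def c2T (e : Equiv.Perm W) (A : W → Matrix (Fin 2) (Fin 2) ℚ_[2]) :
    Matrix (W → Fin 2) (W → Fin 2) ℚ_[2] :=
  Matrix.of fun j i => ∏ w, A w (j (e w)) (i w)

theorem c2_mul (e e' : Equiv.Perm W) (A A' : W → Matrix (Fin 2) (Fin 2) ℚ_[2]) :
    c2T e A * c2T e' A' = c2T (e * e') fun w => A (e' w) * A' w := by
  ext j i
  simp only [c2T, mul_apply, of_apply, Equiv.Perm.mul_apply]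
  rw [← Equiv.prod_comp e'.symm, Fintype.prod_sum]
  refine Finset.sum_congr rfl fun l _ => ?_
  rw [← Equiv.prod_comp e'.symm fun w => A' w (l (e' w)) (i w), ← Finset.prod_mul_distrib]
  simp only [Equiv.apply_symm_apply]

omit [DecidableEq W] in
theorem c2_tr (e : Equiv.Perm W) (A : W → Matrix (Fin 2) (Fin 2) ℚ_[2]) :
    (c2T e A)ᵀ = c2T e⁻¹ fun w => (A (e⁻¹ w))ᵀ := by
  ext j i
  simp only [c2T, transpose_apply, of_apply]
  rw [← Equiv.prod_comp e⁻¹]
  simp

omit [DecidableEq W] in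
theorem c2_smul (e : Equiv.Perm W) (c : W → ℚ_[2]) (A : W → Matrix (Fin 2) (Fin 2) ℚ_[2]) :
    (c2T e fun w => c w • A w) = (∏ w, c w) • c2T e A := by
  ext j i
  simp only [c2T, of_apply, Matrix.smul_apply, smul_eq_mul, Finset.prod_mul_distrib]

omit [DecidableEq W] in
theorem c2_one_apply (j i : W → Fin 2) :
    (1 : Matrix (W → Fin 2) (W → Fin 2) ℚ_[2]) j i =
      ∏ w, (1 : Matrix (Fin 2) (Fin 2) ℚ_[2]) (j w) (i w) := by
  by_cases h : j = i
  · subst h
    simp
  · obtain ⟨w, hw⟩ := Function.ne_iff.1 h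
    rw [one_apply_ne h]
    refine (Finset.prod_eq_zero (Finset.mem_univ w) ?_).symm
    exact one_apply_ne hw

theorem c2_one : c2T (1 : Equiv.Perm W) (fun _ => 1) = 1 := by
  ext j i
  rw [c2_one_apply]
  rfl

omit [DecidableEq W] in
theorem c2_int (e : Equiv.Perm W) {A : W → Matrix (Fin 2) (Fin 2) ℚ_[2]}
    (h : ∀ w i j, ‖A w i j‖ ≤ 1) (j i : W → Fin 2) : ‖c2T e A j i‖ ≤ 1 := by
  simp only [c2T, of_apply, norm_prod]
  exact Finset.prod_le_one (fun _ _ => norm_nonneg _) fun w _ => h w _ _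

omit [Fintype W] in
theorem c2_prod_sub (s : Finset W) {a b : W → ℚ_[2]} (ha : ∀ w, ‖a w‖ ≤ 1) (hb : ∀ w, ‖b w‖ ≤ 1)
    (h : ∀ w, ‖a w - b w‖ < 1) : ‖∏ w ∈ s, a w - ∏ w ∈ s, b w‖ < 1 := by
  induction s using Finset.induction_on with
  | empty => simp
  | insert w s hw ih =>
    rw [Finset.prod_insert hw, Finset.prod_insert hw]
    have e : a w * ∏ w ∈ s, a w - b w * ∏ w ∈ s, b w =
        (a w - b w) * ∏ w ∈ s, a w + b w * (∏ w ∈ s, a w - ∏ w ∈ s, b w) := by ring
    have hp : ‖∏ w ∈ s, a w‖ ≤ 1 := by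
      rw [norm_prod]
      exact Finset.prod_le_one (fun _ _ => norm_nonneg _) fun w _ => ha w
    rw [e]
    refine (IsUltrametricDist.norm_add_le_max _ _).trans_lt (max_lt ?_ ?_)
    · rw [norm_mul]
      exact (mul_le_of_le_one_right (norm_nonneg _) hp).trans_lt (h w)
    · rw [norm_mul]
      exact (mul_le_of_le_one_left (norm_nonneg _) (hb w)).trans_lt ih

theorem c2_J (A : Matrix (Fin 2) (Fin 2) ℚ_[2]) :
    Aᵀ * !![0, 1; -1, 0] * A = A.det • !![0, 1; -1, 0] := by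
  ext i j
  fin_cases i <;> fin_cases j <;>
    simp [mul_apply, Fin.sum_univ_two, det_fin_two] <;> ring

theorem c2_oint (a b : Fin 2) : ‖(1 : Matrix (Fin 2) (Fin 2) ℚ_[2]) a b‖ ≤ 1 := by
  rw [one_apply]
  split_ifs <;> simp

theorem c2_two (hW : Fintype.card W = 2) {a b : W} (hab : a ≠ b) (w : W) : w = a ∨ w = b := by
  have : ({a, b} : Finset W) = Finset.univ :=
    Finset.eq_univ_of_card _ (by rw [Finset.card_pair hab, hW])
  have hw : w ∈ ({a, b} : Finset W) := this ▸ Finset.mem_univ w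
  simpa using hw

theorem c2_prod (hW : Fintype.card W = 2) {a b : W} (hab : a ≠ b) (f : W → ℚ_[2]) :
    ∏ w, f w = f a * f b :=
  Fintype.prod_eq_mul a b hab fun w hw =>
    ((c2_two hW hab w).elim hw.1 hw.2).elim

theorem c2_sum (hW : Fintype.card W = 2) {a b : W} (hab : a ≠ b) (f : (W → Fin 2) → ℚ_[2]) :
    ∑ l, f l = ∑ s : Fin 2, ∑ t : Fin 2, f fun w => if w = a then s else t := by
  rw [← Fintype.sum_prod_type']
  refine Fintype.sum_equiv ⟨fun l => (l a, l b), fun p w => if w = a then p.1 else p.2,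
    fun l => ?_, fun p => by simp [hab.symm]⟩ _ _ fun l => ?_
  · funext w
    rcases c2_two hW hab w with rfl | rfl <;> simp [hab.symm]
  · congr 1
    funext w
    rcases c2_two hW hab w with rfl | rfl <;> simp [hab.symm]

omit [TopologicalSpace Γ] in
theorem c2_sq (hW : Fintype.card W = 2) (γ : Γ) (w : W) : (γ * γ) • w = w := by
  have h : MulAction.toPerm (β := W) γ ^ Fintype.card (Equiv.Perm W) = 1 := pow_card_eq_one
  rw [Fintype.card_perm, hW] at h
  have := congrArg (fun e : Equiv.Perm W => e w) h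
  simpa [Nat.factorial, sq, mul_smul] using this

end tw

variable [Fintype W] [DecidableEq W] {χ : Γ → ℚ_[2]} {τ : Γ → W → Matrix (Fin 2) (Fin 2) ℚ_[2]}
  {r : Γ →* Matrix (W → Fin 2) (W → Fin 2) ℚ_[2]}

omit [TopologicalSpace Γ] [DecidableEq W] in
theorem c2_tind (τ : Γ → W → Matrix (Fin 2) (Fin 2) ℚ_[2]) (γ : Γ) :
    tind τ γ = c2T (MulAction.toPerm γ) (τ γ) := rfl

omit [DecidableEq W] in
theorem c2_bt : bt W = c2T 1 fun _ => !![0, 1; -1, 0] := rfl

omit [TopologicalSpace Γ] in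
theorem c2_triv {γ : Γ} (h : ∀ w, γ • w = w ∧ τ γ w = 1) : tind τ γ = 1 := by
  ext j i
  rw [c2_one_apply]
  exact Finset.prod_congr rfl fun w _ => by rw [(h w).1, (h w).2]

theorem Tau.hom (h : Tau χ τ) :
    ∃ r : Γ →* Matrix (W → Fin 2) (W → Fin 2) ℚ_[2], ∀ γ, r γ = tind τ γ := by
  refine ⟨⟨⟨tind τ, c2_triv fun w => ⟨one_smul _ _, h.one w⟩⟩, fun γ δ => ?_⟩, fun _ => rfl⟩
  show tind τ (γ * δ) = tind τ γ * tind τ δ
  rw [c2_tind, c2_tind, c2_tind, c2_mul]
  congr 1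
  · exact map_mul (MulAction.toPermHom Γ W) γ δ
  · funext w
    exact h.mul γ δ w

theorem Tau.c2_det (h : Tau χ τ) (hW : Fintype.card W = 2) (γ : Γ) :
    ∏ w, (τ γ w).det = χ γ ^ 2 := by
  by_cases h1 : ∀ w : W, γ • w = w
  · rw [Finset.prod_congr rfl fun w _ => h.det γ w (h1 w), Finset.prod_const, Finset.card_univ, hW]
  · obtain ⟨w, hw⟩ := not_forall.1 h1
    rw [c2_prod hW hw, ← det_mul, ← h.mul, h.det _ _ (c2_sq hW γ w), h.sq]

theorem Tau.c2_cont [IsTopologicalGroup Γ] (h : Tau χ τ) (hr : ∀ γ, r γ = tind τ γ) :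
    Continuous r := by
  refine continuous_of_continuousAt_one r ?_
  rw [ContinuousAt, map_one]
  refine tendsto_pi_nhds.2 fun j => tendsto_pi_nhds.2 fun i => ?_
  rw [c2_one_apply]
  have h1 : ∀ w a b, Filter.Tendsto (fun γ => τ γ w a b) (𝓝 1)
      (𝓝 ((1 : Matrix (Fin 2) (Fin 2) ℚ_[2]) a b)) := fun w a b => by
    refine Metric.tendsto_nhds.2 fun ε hε => ?_
    obtain ⟨n, hn⟩ := exists_pow_lt_of_lt_one hε (show (2 : ℝ)⁻¹ < 1 by norm_num)
    filter_upwards [h.small n] with γ hγ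
    rw [dist_eq_norm]
    exact ((hγ w).2 a b).trans_lt (by rwa [← inv_pow])
  refine (tendsto_finsetProd Finset.univ fun w _ => h1 w (j w) (i w)).congr' ?_
  filter_upwards [h.small 0] with γ hγ
  rw [hr]
  exact Finset.prod_congr rfl fun w _ => by rw [(hγ w).1]

theorem Tau.sys [IsTopologicalGroup Γ] (h : Tau χ τ) (hW : Fintype.card W = 2)
    (hr : ∀ γ, r γ = tind τ γ) {G : Subgroup Γ} (hG : ∀ g ∈ G, χ g = 1) {good : Set (Set Γ)}
    (hg : ∀ D ∈ good, ∀ g : G, (g : Γ) ∈ D → ∀ w, (g : Γ) • w = w ∧ τ g w = 1) :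
    Sys G good r (bt W) fun γ => χ γ ^ 2 := by
  have hn : ∏ _w : W, (-1 : ℚ_[2]) = 1 := by
    rw [Finset.prod_const, Finset.card_univ, hW]
    norm_num
  refine ⟨fun γ i j => ?_, (h.c2_cont hr).comp continuous_subtype_val, fun D hD g hgD => ?_,
    fun γ i j => ?_, ?_, ?_, fun i j => ?_, fun γ => ?_, fun g hg => ?_, fun γ => ?_⟩
  · rw [hr, c2_tind]
    exact c2_int _ (h.int γ) _ _
  · rw [hr]
    exact c2_triv (hg D hD g hgD)
  · have h4 : ∀ w : W, γ ^ 4 • w = w := fun w => by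
      rw [show γ ^ 4 = γ * γ * (γ * γ) by simp only [pow_succ, pow_zero, one_mul, mul_assoc],
        mul_smul, c2_sq hW, c2_sq hW]
    rw [← map_pow, hr, Matrix.sub_apply, c2_one_apply]
    simp only [tind, of_apply, h4]
    exact c2_prod_sub _ (fun w => h.int _ _ _ _) (fun w => c2_oint _ _) fun w => h.four γ w _ _
  · have e : (!![0, 1; -1, 0] : Matrix (Fin 2) (Fin 2) ℚ_[2])ᵀ =
        (-1 : ℚ_[2]) • !![0, 1; -1, 0] := by
      ext i j
      fin_cases i <;> fin_cases j <;> simp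
    rw [c2_bt, c2_tr, inv_one]
    simp only [e]
    rw [c2_smul 1 fun _ => -1, hn, one_smul]
  · have e : (!![0, 1; -1, 0] * !![0, 1; -1, 0] : Matrix (Fin 2) (Fin 2) ℚ_[2]) =
        (-1 : ℚ_[2]) • 1 := by
      ext i j
      fin_cases i <;> fin_cases j <;> simp
    have e2 : bt W * bt W = 1 := by
      rw [c2_bt, c2_mul, mul_one]
      simp only [e]
      rw [c2_smul 1 fun _ => -1, hn, one_smul, c2_one]
    have := congrArg Matrix.det e2
    rw [det_mul, det_one] at this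
    exact left_ne_zero_of_mul_eq_one this
  · rw [c2_bt]
    refine c2_int _ (fun w a b => ?_) _ _
    fin_cases a <;> fin_cases b <;> simp
  · rw [hr, c2_tind, c2_bt, c2_tr, c2_mul, c2_mul, mul_one, inv_mul_cancel, ← h.c2_det hW,
      ← c2_smul]
    congr 1
    funext w
    simp only [Equiv.Perm.one_apply, Equiv.Perm.coe_inv, Equiv.symm_apply_apply, c2_J]
  · simp only [hG g hg, one_pow]
  · simp only [norm_pow, h.unit, one_pow]

theorem Tau.rf (h : Tau χ τ) (hW : Fintype.card W = 2) (hr : ∀ γ, r γ = tind τ γ) {y : Γ}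
    (h1 : ∀ w : W, y • w ≠ w) (h2 : ∀ w, τ (y * y) w = 1) : ∃ v, Rf (bt W) (r y) v := by
  obtain ⟨a⟩ : Nonempty W := Fintype.card_pos_iff.1 (by omega)
  obtain ⟨b, hb⟩ : ∃ b, b = y • a := ⟨_, rfl⟩
  have hab : a ≠ b := hb ▸ (h1 a).symm
  have hya : y • a = b := hb.symm
  have hyb : y • b = a := by rw [hb, ← mul_smul, c2_sq hW]
  have hA : τ y b * τ y a = 1 := by rw [← h2 a, h.mul, hya]
  have iA := h.int y a
  have iB := h.int y b
  have hy : ∀ j i, r y j i = τ y a (j b) (i a) * τ y b (j a) (i b) := fun j i => by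
    rw [hr]
    simp only [tind, of_apply]
    rw [c2_prod hW hab, hya, hyb]
  have hβ : ∀ j i, bt W j i = (!![0, 1; -1, 0] : Matrix (Fin 2) (Fin 2) ℚ_[2]) (j a) (i a) *
      (!![0, 1; -1, 0] : Matrix (Fin 2) (Fin 2) ℚ_[2]) (j b) (i b) := fun j i => by
    simp only [bt, of_apply]
    rw [c2_prod hW hab]
  generalize τ y a = A at *
  generalize τ y b = B at *
  have hd : B.det * A.det = 1 := by rw [← det_mul, hA, det_one]
  have di : ∀ M : Matrix (Fin 2) (Fin 2) ℚ_[2], (∀ i j, ‖M i j‖ ≤ 1) → ‖M.det‖ ≤ 1 :=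
    fun M hM => by
      rw [det_fin_two, sub_eq_add_neg]
      refine (IsUltrametricDist.norm_add_le_max _ _).trans (max_le ?_ ?_)
      · rw [norm_mul]
        exact mul_le_one₀ (hM _ _) (norm_nonneg _) (hM _ _)
      · rw [norm_neg, norm_mul]
        exact mul_le_one₀ (hM _ _) (norm_nonneg _) (hM _ _)
  have hd1 : ‖A.det‖ = 1 := by
    have := congrArg norm hd
    rw [norm_mul, norm_one] at this
    refine le_antisymm (di A iA) ?_
    rw [← this]
    exact mul_le_of_le_one_left (norm_nonneg _) (di B iB)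
  have hd0 : A.det ≠ 0 := right_ne_zero_of_mul_eq_one hd
  obtain ⟨v, hv⟩ : ∃ v : (W → Fin 2) → ℚ_[2],
      ∀ j, v j = if j a = 0 then A (j b) 1 else -A (j b) 0 := ⟨_, fun _ => rfl⟩
  have hp : ∀ x : (W → Fin 2) → ℚ_[2], v ⬝ᵥ bt W *ᵥ x =
      A 0 1 * x (fun w => if w = a then 1 else 1) - A 1 1 * x (fun w => if w = a then 1 else 0) +
      A 0 0 * x (fun w => if w = a then 0 else 1) -
      A 1 0 * x (fun w => if w = a then 0 else 0) := fun x => by
    simp only [dotProduct, mulVec, c2_sum hW hab, hv, hβ, Fin.sum_univ_two, if_true,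
      if_neg hab.symm]
    simp
    ring
  have hvv : v ⬝ᵥ bt W *ᵥ v = 2 * A.det := by
    rw [hp, det_fin_two]
    simp only [hv, if_true, if_neg hab.symm]
    simp
    ring
  refine ⟨v, fun j => ?_, ?_, fun x => ?_⟩
  · rw [hv]
    split_ifs
    · exact iA _ _
    · rw [norm_neg]
      exact iA _ _
  · rw [hvv, norm_mul, hd1, mul_one]
    exact_mod_cast Padic.norm_p (p := 2)
  · have e := fun i j => congrFun (congrFun hA i) j
    have e00 := e 0 0
    have e01 := e 0 1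
    have e10 := e 1 0
    have e11 := e 1 1
    simp only [mul_apply, Fin.sum_univ_two, one_apply_eq, ne_eq, zero_ne_one, one_ne_zero,
      not_false_eq_true, one_apply_ne] at e00 e01 e10 e11
    funext j
    have hj : j = fun w => if w = a then j a else j b := by
      funext w
      rcases c2_two hW hab w with rfl | rfl <;> simp [hab.symm]
    rw [hvv, Pi.sub_apply, Pi.smul_apply, hp, smul_eq_mul, mul_div_mul_left _ _ two_ne_zero,
      div_mul_eq_mul_div, eq_sub_iff_add_eq, ← eq_sub_iff_add_eq', div_eq_iff hd0, det_fin_two]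
    simp only [dotProduct, mulVec, c2_sum hW hab, hy, hv, Fin.sum_univ_two, if_true,
      if_neg hab.symm]
    rw [congrArg x hj]
    generalize j a = s
    generalize j b = t
    have f00 : B 0 0 * (A 0 0 * A 1 1 - A 0 1 * A 1 0) = A 1 1 := by
      linear_combination A 1 1 * e00 - A 1 0 * e01
    have f01 : B 0 1 * (A 0 0 * A 1 1 - A 0 1 * A 1 0) = -A 0 1 := by
      linear_combination A 0 0 * e01 - A 0 1 * e00
    have f10 : B 1 0 * (A 0 0 * A 1 1 - A 0 1 * A 1 0) = -A 1 0 := by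
      linear_combination A 1 1 * e10 - A 1 0 * e11
    have f11 : B 1 1 * (A 0 0 * A 1 1 - A 0 1 * A 1 0) = A 0 0 := by
      linear_combination A 0 0 * e11 - A 0 1 * e10
    fin_cases s <;> fin_cases t <;>
      simp only [Fin.zero_eta, Fin.mk_one, Fin.isValue, if_true, one_ne_zero, if_false]
    all_goals
      generalize x (fun w => if w = a then 0 else 0) = x00
      generalize x (fun w => if w = a then 0 else 1) = x01
      generalize x (fun w => if w = a then 1 else 0) = x10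
      generalize x (fun w => if w = a then 1 else 1) = x11
    · linear_combination (A 0 0 * x00 + A 0 1 * x10) * f00 + (A 0 0 * x01 + A 0 1 * x11) * f01
    · linear_combination (A 1 0 * x00 + A 1 1 * x10) * f00 + (A 1 0 * x01 + A 1 1 * x11) * f01
    · linear_combination (A 0 0 * x00 + A 0 1 * x10) * f10 + (A 0 0 * x01 + A 0 1 * x11) * f11
    · linear_combination (A 1 0 * x00 + A 1 1 * x10) * f10 + (A 1 0 * x01 + A 1 1 * x11) * f11

end Pool.Agent.Lib.MP_d61fbb_ag.DW
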