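import Pool.Agent.Lib.MP_d61fbb_ag.DW.SD
import Pool.Agent.Lib.MP_d61fbb_ag.SQ.M1

/-! The geometric Galois group. -/

set_option autoImplicit false

noncomputable section

namespace Pool.Agent.Lib.MP_d61fbb_ag.DW

open Polynomial

variable (K : Type) [Field K] [CharZero K]

/-- The field of constants. -/
abbrev kb : Type := algebraicClosure K (Om K)

/-- The coordinate. -/
abbrev zz : Om K := algebraMap K[X] (Om K) X

theorem kb_closed : IsAlgClosed (kb K) := (algebraicClosure.isAlgClosure K (Om K)).isAlgClosed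

theorem g1_galois : IsGalois (RatFunc K) (Om K) := by
  have : CharZero (RatFunc K) := algebraRat.charZero _
  infer_instance

omit [CharZero K] in
theorem g1_opn (x : Om K) : IsOpen {g : Gam K | g x = x} :=
  stabilizer_isOpen_of_isIntegral (K := RatFunc K) x

omit [CharZero K] in
theorem g1_closed : IsClosed (geo K : Set (Gam K)) := by
  have h : (geo K : Set (Gam K)) = ⋂ x : {x : Om K // IsAlgebraic K x},
      (MulAction.stabilizer (Gam K) x.1 : Set (Gam K)) := by
    ext g
    rw [Set.mem_iInter]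
    exact ⟨fun h x => h x.1 x.2, fun h x hx => h ⟨x, hx⟩⟩
  rw [h]
  exact isClosed_iInter fun x => Subgroup.isClosed_of_isOpen _ (g1_opn K x.1)

theorem geo_compact : CompactSpace (geo K) := by
  have := g1_galois K
  exact isCompact_iff_compactSpace.1 (g1_closed K).isCompact

omit [CharZero K] in
theorem g1_inj : Function.Injective (algebraMap K[X] (Om K)) := by
  rw [IsScalarTower.algebraMap_eq K[X] (RatFunc K) (Om K)]
  exact (algebraMap (RatFunc K) (Om K)).injective.comp (IsFractionRing.injective K[X] (RatFunc K))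

omit [CharZero K] in
theorem g1_aeval (p : K[X]) : aeval (zz K) p = algebraMap K[X] (Om K) p := by
  have h := aeval_algHom_apply (IsScalarTower.toAlgHom K K[X] (Om K)) X p
  rw [aeval_X_left_apply] at h
  exact h

omit [CharZero K] in
theorem g1_tr : Transcendental (kb K) (zz K) := by
  have h : Transcendental K (zz K) := by
    rw [transcendental_iff_injective]
    intro p q h
    rw [g1_aeval, g1_aeval] at h
    exact g1_inj K h
  exact h.extendScalars (kb K)

omit [CharZero K] in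
theorem g1_alg (x : Om K) : IsAlgebraic (Algebra.adjoin (kb K) {zz K}) x := by
  have h : IsAlgebraic K[X] x :=
    (IsFractionRing.isAlgebraic_iff K[X] (RatFunc K) (Om K)).2 (Algebra.IsAlgebraic.isAlgebraic x)
  have hm (p : K[X]) : algebraMap K[X] (Om K) p ∈ Algebra.adjoin (kb K) {zz K} := by
    rw [← g1_aeval, ← aeval_map_algebraMap (kb K)]
    exact aeval_mem_adjoin_singleton _ _
  let φ : K[X] →+* Algebra.adjoin (kb K) {zz K} := (algebraMap K[X] (Om K)).codRestrict _ hm
  exact h.ringHom_of_comp_eq φ (RingHom.id _)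
    (fun p q hpq => g1_inj K (congrArg Subtype.val hpq)) (RingHom.ext fun _ => rfl)

omit [CharZero K] in
theorem g1_onto (σ : Om K ≃ₐ[kb K] Om K) (h : σ (zz K) = zz K) (a : RatFunc K) :
    σ (algebraMap (RatFunc K) (Om K) a) = algebraMap (RatFunc K) (Om K) a := by
  have h1 : (σ : Om K →+* Om K).comp (algebraMap (RatFunc K) (Om K)) =
      algebraMap (RatFunc K) (Om K) := by
    refine IsLocalization.ringHom_ext (nonZeroDivisors K[X]) (RingHom.ext fun p => ?_)
    change σ (algebraMap (RatFunc K) (Om K) (algebraMap K[X] (RatFunc K) p)) =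
      algebraMap (RatFunc K) (Om K) (algebraMap K[X] (RatFunc K) p)
    rw [← IsScalarTower.algebraMap_apply, ← g1_aeval, ← aeval_map_algebraMap (kb K),
      ← aeval_algHom_apply, h]
  exact DFunLike.congr_fun h1 a

omit [CharZero K] in
theorem g1_nhd (V : Set (Gam K)) (hV : V ∈ nhds (1 : Gam K)) :
    ∃ E : Finset (Om K), ∀ g : Gam K, (∀ x ∈ E, g x = x) → g ∈ V := by
  classical
  obtain ⟨E, hE, hs⟩ := (krullTopology_mem_nhds_one_iff _ _ V).1 hV
  obtain ⟨S, hS⟩ := Module.Finite.fg_top (R := RatFunc K) (M := E)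
  refine ⟨S.image Subtype.val, fun g hg => hs ?_⟩
  refine (IntermediateField.mem_fixingSubgroup_iff _ _).2 fun x hx => ?_
  have h : LinearMap.eqLocus (g.toLinearMap ∘ₗ E.val.toLinearMap) E.val.toLinearMap = ⊤ := by
    rw [eq_top_iff, ← hS, Submodule.span_le]
    exact fun y hy => hg _ (Finset.mem_image_of_mem _ hy)
  have h2 : (⟨x, hx⟩ : E) ∈
      LinearMap.eqLocus (g.toLinearMap ∘ₗ E.val.toLinearMap) E.val.toLinearMap := by
    rw [h]
    trivial
  exact h2

theorem g1_gal (U : Subgroup (Gam K)) (hU : IsClosed (U : Set (Gam K))) (t : Gam K)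
    (ht : t ∉ U) : ∃ x : Om K, (∀ u ∈ U, u x = x) ∧ t x ≠ x := by
  have := g1_galois K
  have h := InfiniteGalois.fixingSubgroup_fixedField (⟨U, hU⟩ : ClosedSubgroup (Gam K))
  by_contra hc
  refine ht (h.le ((IntermediateField.mem_fixingSubgroup_iff _ _).2 fun x hx => ?_))
  by_contra hx2
  exact hc ⟨x, (IntermediateField.mem_fixedField_iff _ _).1 hx, hx2⟩

theorem g1_base (x : Om K) (hx : ∀ g ∈ geo K, g x = x) :
    ∃ p q : (kb K)[X], q ≠ 0 ∧ x * aeval (zz K) q = aeval (zz K) p := by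
  have := g1_galois K
  let M : IntermediateField (kb K) (Om K) := IntermediateField.adjoin (kb K) {zz K}
  have hp (p : K[X]) : algebraMap K[X] (Om K) p ∈ M := by
    rw [← g1_aeval, ← aeval_map_algebraMap (kb K)]
    exact IntermediateField.algebra_adjoin_le_adjoin _ _ (aeval_mem_adjoin_singleton _ _)
  have hM (a : RatFunc K) : algebraMap (RatFunc K) (Om K) a ∈ M.toSubfield := by
    rw [← RatFunc.num_div_denom a, map_div₀, ← IsScalarTower.algebraMap_apply,
      ← IsScalarTower.algebraMap_apply]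
    exact div_mem (hp _) (hp _)
  let L : IntermediateField (RatFunc K) (Om K) := M.toSubfield.toIntermediateField hM
  have hL : x ∈ L := by
    rw [← InfiniteGalois.fixedField_fixingSubgroup L, IntermediateField.mem_fixedField_iff]
    refine fun g hg => hx g fun y hy => ?_
    exact (IntermediateField.mem_fixingSubgroup_iff _ _).1 hg y
      (M.algebraMap_mem (⟨y, mem_algebraicClosure_iff.2 hy⟩ : kb K))
  obtain ⟨r, s, h⟩ := (IntermediateField.mem_adjoin_simple_iff (kb K) x).1 hL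
  by_cases hs : aeval (zz K) s = 0
  · exact ⟨0, 1, one_ne_zero, by rw [h, hs, div_zero, zero_mul, map_zero]⟩
  · exact ⟨r, s, fun h0 => hs (by rw [h0, map_zero]), by rw [h, div_mul_cancel₀ _ hs]⟩

theorem gd_geo : GD (kb K) (geo K) (zz K) where
  cd := ⟨g1_tr K, g1_alg K⟩
  fixk g a := g.2 _ (mem_algebraicClosure_iff.1 a.2)
  fixz g := by
    change g.1 (zz K) = zz K
    rw [zz, IsScalarTower.algebraMap_apply K[X] (RatFunc K) (Om K), AlgEquiv.commutes]
  onto σ h := ⟨⟨AlgEquiv.ofRingEquiv (f := σ.toRingEquiv) (g1_onto K σ h), fun x hx =>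
    σ.commutes (⟨x, mem_algebraicClosure_iff.2 hx⟩ : kb K)⟩, fun _ => rfl⟩
  opn x := (g1_opn K x).preimage continuous_subtype_val
  nhd U hU := by
    obtain ⟨V, hV, hs⟩ := (mem_nhds_subtype _ _ _).1 hU
    obtain ⟨E, hE⟩ := g1_nhd K V hV
    exact ⟨E, fun g hg => hs (hE g.1 hg)⟩
  gal U hU t ht := by
    obtain ⟨x, h1, h2⟩ := g1_gal K (U.map (geo K).subtype)
      ((g1_closed K).isClosedEmbedding_subtypeVal.isClosedMap _ hU) t.1
      (fun ⟨u, hu, he⟩ => ht (Subtype.ext he ▸ hu))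
    exact ⟨x, fun u hu => h1 u.1 ⟨u, hu, rfl⟩, h2⟩
  base x hx := g1_base K x fun g hg => hx ⟨g, hg⟩

theorem gam_kb (γ : Gam K) (a : kb K) :
    ∃ b, γ • algebraMap (kb K) (Om K) a = algebraMap (kb K) (Om K) b :=
  ⟨⟨γ a.1, mem_algebraicClosure_iff.2
    ((mem_algebraicClosure_iff.1 a.2).algHom (γ.toAlgHom.restrictScalars K))⟩, rfl⟩

omit [CharZero K] in
theorem g1_int (R : ValuationSubring (Om K)) (h : ∀ a : K, algebraMap K (Om K) a ∈ R)
    (b : kb K) : algebraMap (kb K) (Om K) b ∈ R := by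
  obtain ⟨p, hp, h0⟩ : IsIntegral K b.1 := (mem_algebraicClosure_iff.1 b.2).isIntegral
  let φ : K →+* R := (algebraMap K (Om K)).codRestrict R h
  have h1 : IsIntegral R b.1 := ⟨p.map φ, hp.map φ, by rw [eval₂_map]; exact h0⟩
  obtain ⟨y, hy⟩ := IsIntegrallyClosed.isIntegral_iff.1 h1
  change b.1 ∈ R
  rw [← hy]
  exact y.2

theorem dec_eq : dec K = {D | ∃ R : ValuationSubring (Om K), R ≠ ⊤ ∧
    (∀ b : kb K, algebraMap (kb K) (Om K) b ∈ R) ∧ D = {γ : Gam K | Dc R γ}} := by
  ext D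
  constructor
  · rintro ⟨R, h1, h2, h3⟩
    exact ⟨R, h1, g1_int K R h2, h3⟩
  · rintro ⟨R, h1, h2, h3⟩
    exact ⟨R, h1, fun a => h2 (algebraMap K (kb K) a), h3⟩

theorem cyc_rt {ζ : ℕ → kb K} (hζ : Rt ζ) (γ : Gam K) (j a : ℕ)
    (h : γ • algebraMap (kb K) (Om K) (ζ j) = algebraMap (kb K) (Om K) (ζ j) ^ a) :
    ‖(cyclotomicCharacter (Om K) 2 γ.toRingEquiv : ℤ_[2]) - a‖ ≤ ((2 : ℝ) ^ j)⁻¹ := by
  have : CharZero (Om K) := algebraRat.charZero _
  have hx := (hζ.prim j).map_of_injective (algebraMap (kb K) (Om K)).injective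
  have h2 : ((2 : ℝ) ^ j)⁻¹ = ((2 : ℕ) : ℝ) ^ (-(j : ℤ)) := by
    rw [_root_.zpow_neg, zpow_natCast, Nat.cast_ofNat]
  rw [h2, PadicInt.norm_le_pow_iff_mem_span_pow, ← PadicInt.ker_toZModPow, RingHom.mem_ker,
    map_sub, map_natCast, SQ.m1_cyc (σ := γ.toRingEquiv) hx h, sub_self]

end Pool.Agent.Lib.MP_d61fbb_ag.DW
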