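import Pool.Agent.Lib.MP_d61fbb_ag.DW.C1
import Pool.Agent.Lib.MP_d61fbb_ag.DW.C2
import Pool.Agent.Lib.MP_d61fbb_ag.DW.G1

/-! The two curves and their Tate modules. -/

set_option autoImplicit false

noncomputable section

namespace Pool.Agent.Lib.MP_d61fbb_ag.DW

open Polynomial Matrix Pool.Agent.Lib.MP_d61fbb_ag.SQ

variable {K : Type} [Field K] [CharZero K] {f S B : K[X]} {c : K} {N : ℕ}

/-- The cyclotomic character. -/
abbrev cz (γ : Gam K) : ℤ_[2] := (cyclotomicCharacter (Om K) 2 γ.toRingEquiv).val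

theorem cz_mul (γ δ : Gam K) : cz (γ * δ) = cz γ * cz δ :=
  congrArg Units.val (map_mul (cyclotomicCharacter (Om K) 2) γ.toRingEquiv δ.toRingEquiv)

theorem cz_one : cz (1 : Gam K) = 1 :=
  congrArg Units.val (map_one (cyclotomicCharacter (Om K) 2))

theorem cz_norm (γ : Gam K) : ‖cz γ‖ = 1 := PadicInt.isUnit_iff.1 (Units.isUnit _)

theorem cz_geo {g : Gam K} (hg : g ∈ geo K) : cz g = 1 := by
  have : CharZero (Om K) := algebraRat.charZero _
  refine PadicInt.ext_of_toZModPow.1 fun n => ?_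
  have h2 : NeZero (2 ^ n) := ⟨by positivity⟩
  obtain ⟨x, hx⟩ := HasEnoughRootsOfUnity.exists_primitiveRoot (Om K) (2 ^ n)
  have ha : IsAlgebraic K x :=
    IsAlgebraic.of_pow (by positivity) (hx.pow_eq_one ▸ isAlgebraic_one)
  rw [m1_cyc (σ := g.toRingEquiv) (m := 1) hx ((hg x ha).trans (pow_one x).symm), map_one,
    Nat.cast_one]

theorem wt_sq (w : Wt f) : (w : Om K) ^ 2 = algebraMap K[X] (Om K) f := by
  have h := aeval_eq_zero_of_mem_rootSet w.2
  rwa [map_sub, map_pow, aeval_X, aeval_C, ← IsScalarTower.algebraMap_apply, sub_eq_zero] at h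

theorem wt_smul (γ : Gam K) (w : Wt f) : ((γ • w : Wt f) : Om K) = γ w := rfl

theorem card_wt (hf : f ≠ 0) : Fintype.card (Wt f) = 2 := by
  have : CharZero (RatFunc K) := algebraRat.charZero _
  rw [card_rootSet_eq_natDegree (separable_X_pow_sub_C _ (by norm_num)
    ((map_ne_zero_iff _ (IsFractionRing.injective K[X] (RatFunc K))).2 hf))
    (IsAlgClosed.splits _), natDegree_X_pow_sub_C]

omit [CharZero K] in
theorem c3_fix (γ : Gam K) (p : K[X]) :
    γ (algebraMap K[X] (Om K) p) = algebraMap K[X] (Om K) p := by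
  rw [IsScalarTower.algebraMap_apply K[X] (RatFunc K) (Om K), AlgEquiv.commutes]

theorem c3_sq (γ : Gam K) (w : Wt f) : (γ * γ) • w = w := by
  have h : γ w ^ 2 = (w : Om K) ^ 2 := by rw [← map_pow, wt_sq, c3_fix]
  refine Subtype.ext ?_
  rw [wt_smul, AlgEquiv.mul_apply]
  rcases sq_eq_sq_iff_eq_or_eq_neg.1 h with h | h
  · rw [h, h]
  · rw [h, map_neg, h, neg_neg]

theorem cub_map (γ : Gam K) (w : Wt f) :
    (cub S B w).map γ.toRingEquiv.toRingHom = cub S B (γ • w : Wt f) := by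
  have h (x : Om K) : γ.toRingEquiv.toRingHom x = γ x := rfl
  simp only [cub, Polynomial.map_mul, Polynomial.map_add, Polynomial.map_pow, map_X, map_C, h,
    map_mul γ, map_add γ, map_div₀ γ, map_pow γ, map_ofNat γ, c3_fix, wt_smul]

theorem c3_units {k : Type} [Field k] {R : ValuationSubring k} {x y : k} (hx : x ∈ R)
    (hy : y ∈ R) (h : R.valuation (x * y) = 1) : R.valuation x = 1 ∧ R.valuation y = 1 := by
  rw [map_mul] at h
  have h1 := (R.valuation_le_one_iff x).2 hx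
  have h2 := (R.valuation_le_one_iff y).2 hy
  exact ⟨le_antisymm h1 (h ▸ mul_le_of_le_one_right' h2),
    le_antisymm h2 (h ▸ mul_le_of_le_one_left' h1)⟩

theorem c3_sqrt {k : Type} [Field k] {R : ValuationSubring k} {x : k} (hx : x ^ 2 ∈ R) :
    x ∈ R := by
  rw [← R.valuation_le_one_iff, map_pow] at hx
  exact (R.valuation_le_one_iff x).1 ((pow_le_one_iff two_ne_zero).1 hx)

omit [CharZero K] in
theorem c3_const {R : ValuationSubring (Om K)} (hR : ∀ a : K, algebraMap K (Om K) a ∈ R) {a : K}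
    (ha : a ≠ 0) : R.valuation (algebraMap K (Om K) a) = 1 :=
  (c3_units (hR a) (hR a⁻¹) (by rw [← map_mul, mul_inv_cancel₀ ha, map_one, map_one])).1

omit [CharZero K] in
theorem c3_poly {R : ValuationSubring (Om K)} (hR : ∀ a : K, algebraMap K (Om K) a ∈ R)
    (hz : zz K ∈ R) (p : K[X]) : algebraMap K[X] (Om K) p ∈ R := by
  rw [← g1_aeval, aeval_eq_sum_range]
  exact sum_mem fun i _ => by
    rw [Algebra.smul_def]
    exact mul_mem (hR _) (pow_mem hz _)

theorem cub_hyp (hc : c ≠ 0) (h : B ^ 2 * f = S ^ 4 - C c * X ^ N) (w : Wt f) :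
    ∃ r : Fin 3 → Om K, Hyp 2 2 (cub S B w) r ∧ r 0 = 0 ∧
      ∀ R : ValuationSubring (Om K), (∀ a : K, algebraMap K (Om K) a ∈ R) →
        R.valuation (zz K) = 1 → (∀ i, r i ∈ R) ∧ ∀ i j, i ≠ j → R.valuation (r i - r j) = 1 :=
  by
  have : CharZero (Om K) := algebraRat.charZero _
  obtain ⟨T, hT⟩ : ∃ T, T = algebraMap K[X] (Om K) S := ⟨_, rfl⟩
  obtain ⟨b, hb⟩ : ∃ b, b = algebraMap K[X] (Om K) B := ⟨_, rfl⟩
  obtain ⟨s, hs⟩ := IsAlgClosed.exists_pow_nat_eq ((T ^ 2 - b * w) / 2) two_pos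
  have h1 : (-T + s) * (-T - s) = (T ^ 2 + b * w) / 2 := by linear_combination -hs
  have h2 : (-T + s) * (-T - s) * (2 * s) ^ 2 = algebraMap K (Om K) c * zz K ^ N := by
    have h3 := congrArg (algebraMap K[X] (Om K)) h
    rw [map_mul, map_sub, map_mul, map_pow, map_pow, map_pow, ← wt_sq w, ← hT, ← hb,
      show algebraMap K[X] (Om K) (C c) = algebraMap K (Om K) c from
        (IsScalarTower.algebraMap_apply K K[X] (Om K) c).symm] at h3
    rw [h1, mul_pow, hs]
    linear_combination -h3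
  have hz : zz K ≠ 0 := (map_ne_zero_iff _ (g1_inj K)).2 X_ne_zero
  have h3 : (-T + s) * (-T - s) * (2 * s) ^ 2 ≠ 0 := by
    rw [h2]
    exact mul_ne_zero ((_root_.map_ne_zero _).2 hc) (pow_ne_zero _ hz)
  have hd : ∀ P : Om K → Prop, (∀ x, P x → P (-x)) → P (-T + s) → P (-T - s) → P (2 * s) →
      ∀ i j : Fin 3, i ≠ j → P (![0, -T + s, -T - s] i - ![0, -T + s, -T - s] j) := by
    intro P n p1 p2 p3 i j hij
    have e : -T + s - (-T - s) = 2 * s := by ring
    have e' : -T - s - (-T + s) = -(2 * s) := by ring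
    fin_cases i <;> fin_cases j <;> first
      | exact absurd rfl hij
      | (simp only [Fin.zero_eta, Fin.mk_one, Fin.reduceFinMk, cons_val_zero, cons_val_one,
          cons_val, zero_sub, sub_zero, e, e']
         first | assumption | exact n _ ‹_›)
  refine ⟨![0, -T + s, -T - s], ⟨one_lt_two, by norm_num, by norm_num, fun i j hij => ?_, ?_⟩, rfl,
    fun R hR hv => ?_⟩
  · by_contra hne
    exact hd (· ≠ 0) (fun x => neg_ne_zero.2) (left_ne_zero_of_mul (left_ne_zero_of_mul h3))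
      (right_ne_zero_of_mul (left_ne_zero_of_mul h3))
      (fun e => right_ne_zero_of_mul h3 (by rw [e, zero_pow two_ne_zero])) i j hne
      (sub_eq_zero.2 hij)
  · rw [cub, ← hT, ← hb, ← h1, Fin.prod_univ_three]
    simp only [cons_val_zero, cons_val_one, cons_val, map_zero, map_mul, map_add, map_sub, map_neg,
      map_ofNat]
    ring
  · have hzR : zz K ∈ R := (R.valuation_le_one_iff _).1 hv.le
    have hTR : T ∈ R := hT ▸ c3_poly hR hzR S
    have hw : (w : Om K) ∈ R := c3_sqrt (wt_sq w ▸ c3_poly hR hzR f)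
    have h4 : (2 : Om K)⁻¹ ∈ R := by simpa only [map_inv₀, map_ofNat] using hR 2⁻¹
    have hsR : s ∈ R := c3_sqrt (by
      rw [hs, div_eq_mul_inv]
      exact mul_mem (sub_mem (pow_mem hTR 2) (mul_mem (hb ▸ c3_poly hR hzR B) hw)) h4)
    have m1 : -T + s ∈ R := add_mem (neg_mem hTR) hsR
    have m2 : -T - s ∈ R := sub_mem (neg_mem hTR) hsR
    have m3 : 2 * s ∈ R := two_mul s ▸ add_mem hsR hsR
    obtain ⟨u1, u2⟩ := c3_units (mul_mem m1 m2) (pow_mem m3 2) (by
      rw [h2, map_mul, map_pow, hv, c3_const hR hc, one_pow, mul_one])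
    obtain ⟨u3, u4⟩ := c3_units m1 m2 u1
    refine ⟨fun i => ?_, hd (R.valuation · = 1) (fun x hx => by rw [Valuation.map_neg, hx]) u3 u4
      (c3_units m3 m3 (sq (2 * s) ▸ u2)).1⟩
    fin_cases i
    exacts [zero_mem R, m1, m2]

section

variable {e : ∀ w : Wt f, (Fin 2 → ℚ_[2]) →+ Jac (Om K) 2 (cub S B w)}

/-- The matrix `M` describes the map induced by `γ`. -/
def C3R (e : ∀ w : Wt f, (Fin 2 → ℚ_[2]) →+ Jac (Om K) 2 (cub S B w)) (γ : Gam K) (w w' : Wt f)
    (M : Matrix (Fin 2) (Fin 2) ℚ_[2]) : Prop :=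
  ∃ h, ∀ v, e w' (M *ᵥ v) = jm γ.toRingEquiv.toRingHom h (e w v)

omit [CharZero K] in
theorem C3R.uniq (he : ∀ w, IsTate (e w)) {γ : Gam K} {w w' : Wt f}
    {M M' : Matrix (Fin 2) (Fin 2) ℚ_[2]} (h : C3R e γ w w' M) (h' : C3R e γ w w' M') : M = M' := by
  obtain ⟨_, h⟩ := h
  obtain ⟨_, h'⟩ := h'
  exact rep_two_uniq (he w') fun v => (h v).trans (h' v).symm

omit [CharZero K] in
theorem C3R.one (w : Wt f) : C3R e 1 w w 1 :=
  ⟨Polynomial.map_id, fun v => by
    rw [one_mulVec]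
    exact (jm_id Polynomial.map_id _).symm⟩

omit [CharZero K] in
theorem C3R.mul {γ δ : Gam K} {w w' w'' : Wt f} {M M' : Matrix (Fin 2) (Fin 2) ℚ_[2]}
    (h : C3R e δ w w' M) (h' : C3R e γ w' w'' M') : C3R e (γ * δ) w w'' (M' * M) := by
  obtain ⟨a, h⟩ := h
  obtain ⟨a', h'⟩ := h'
  have a'' : (cub S B w).map (γ.toRingEquiv.toRingHom.comp δ.toRingEquiv.toRingHom) =
      cub S B w'' := by rw [← Polynomial.map_map, a, a']
  exact ⟨a'', fun v => by
    rw [← mulVec_mulVec, h', h]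
    exact (jm_comp a a' a'' _).symm⟩

omit [CharZero K] in
theorem C3R.rep {γ : Gam K} {w w' : Wt f} {M : Matrix (Fin 2) (Fin 2) ℚ_[2]}
    (h : C3R e γ w w' M) (hw : w' = w) : ∃ a, Rep (e w) (sg 2 γ.toRingEquiv a) M := by
  subst hw
  obtain ⟨a, h⟩ := h
  exact ⟨a, fun v => (h v).trans (jm_sg _ a _)⟩

end

theorem exists_tau (hc : c ≠ 0) (h : B ^ 2 * f = S ^ 4 - C c * X ^ N) :
    ∃ (e : ∀ w : Wt f, (Fin 2 → ℚ_[2]) →+ Jac (Om K) 2 (cub S B w))
      (τ : Gam K → Wt f → Matrix (Fin 2) (Fin 2) ℚ_[2]), (∀ w, TateOn (e w) 1) ∧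
      (∀ γ (w : Wt f), ∃ h, ∀ v,
        e (γ • w) (τ γ w *ᵥ v) = jm (γ : Gam K).toRingEquiv.toRingHom h (e w v)) ∧
      Tau (fun γ => (cz γ : ℚ_[2])) τ ∧
      ∀ R : ValuationSubring (Om K), (∀ a : K, algebraMap K (Om K) a ∈ R) →
        R.valuation (zz K) = 1 → ∀ (γ : Gam K) (w : Wt f), γ • w = w → Dc R γ →
        (∀ x ∈ R, R.valuation (γ • x - x) < 1) → τ γ w = 1 := by
  have : CharZero (Om K) := algebraRat.charZero _
  choose r H h0 hr using cub_hyp hc h
  choose e he using fun w => tate_two (H w)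
  choose τ hτ using fun (γ : Gam K) (w : Wt f) => rep_two (he w) (he (γ • w))
    (jm γ.toRingEquiv.toRingHom (cub_map γ w))
  have hC : ∀ γ w, C3R e γ w (γ • w) (τ γ w) := fun γ w => ⟨_, hτ γ w⟩
  refine ⟨e, τ, fun w => tateOn_one.2 (he w), hC, ⟨fun w => ?_, fun γ δ w => ?_,
    fun γ w => rep_two_int (he w) (he _) (hτ γ w), fun j => ?_, fun γ w => ?_, fun γ w hw => ?_,
    fun γ => ?_, fun γ => ?_⟩, fun R hR hv γ w hw hD hres => ?_⟩
  · have h1 := hC 1 w
    rw [one_smul] at h1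
    exact h1.uniq he (C3R.one w)
  · have h1 := hC (γ * δ) w
    rw [mul_smul] at h1
    exact h1.uniq he ((hC δ w).mul (hC γ _))
  · refine Filter.eventually_all.2 fun w => ?_
    obtain ⟨F, hF⟩ := small_two (H w) (he w) j
    have hx (x : Om K) : ∀ᶠ γ : Gam K in nhds 1, γ x = x := (g1_opn K x).mem_nhds rfl
    filter_upwards [hx w, (Filter.eventually_all_finset F).2 fun x _ => hx x] with γ h1 h2
    obtain ⟨a, ha⟩ := (hC γ w).rep (Subtype.ext h1)
    exact ⟨Subtype.ext h1, hF _ a _ ha h2⟩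
  · have h4 : γ ^ 4 = γ * γ * (γ * γ) := by
      simp only [pow_succ, pow_zero, one_mul, mul_assoc]
    obtain ⟨a, -⟩ := (hC (γ * γ) w).rep (c3_sq γ w)
    obtain ⟨a', ha⟩ := (hC (γ ^ 4) w).rep (by rw [h4, c3_sq])
    refine fix_roots (H w) (he w) ha fun i => ?_
    rw [h4]
    exact sq_roots (H w) a (by rw [h0, map_zero]) i
  · obtain ⟨a, ha⟩ := (hC γ w).rep hw
    exact det_cyc (H w) (he w) ha
  · rw [cz_mul, PadicInt.coe_mul, sq]
  · exact cz_norm γ
  · obtain ⟨a, ha⟩ := (hC γ w).rep hw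
    exact unram (H w) (he w) ha (by simpa only [map_ofNat] using c3_const hR (two_ne_zero' K))
      (hr w R hR hv).1 (hr w R hR hv).2 hD hres

end Pool.Agent.Lib.MP_d61fbb_ag.DW
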