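import Pool.Agent.Lib.MP_d61fbb_ag.DW.C3
import Pool.Agent.Lib.MP_d61fbb_ag.DW.A7
import Pool.Agent.Lib.MP_d61fbb_ag.DW.B6
import Pool.Agent.Lib.MP_d61fbb_ag.FG.T

/-! The local system and its cohomology. -/

set_option autoImplicit false

noncomputable section

namespace Pool.Agent.Lib.MP_d61fbb_ag.DW

open Polynomial Matrix Pool.Agent.Lib.MP_d61fbb_ag.SQ

variable {K : Type} [Field K] [CharZero K] {f S B : K[X]} {c l : K} {N d : ℕ}

omit [CharZero K] in
theorem c4_fix (γ : Gam K) (p : K[X]) :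
    γ (algebraMap K[X] (Om K) p) = algebraMap K[X] (Om K) p := by
  rw [IsScalarTower.algebraMap_apply K[X] (RatFunc K) (Om K), AlgEquiv.commutes]

omit [CharZero K] in
theorem c4_eval {r : Fin (d + 1) → Om K}
    (hf : f.map (algebraMap K (Om K)) = C (algebraMap K (Om K) l) * ∏ i, (X - C (r i)))
    (x : Om K) : aeval x f = algebraMap K (Om K) l * ∏ i, (x - r i) := by
  rw [← eval_map_algebraMap, hf]
  simp [eval_prod]

omit [CharZero K] in
theorem c4_ne (hl : l ≠ 0) {r : Fin (d + 1) → Om K}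
    (hf : f.map (algebraMap K (Om K)) = C (algebraMap K (Om K) l) * ∏ i, (X - C (r i))) :
    f ≠ 0 := by
  rintro rfl
  exact mul_ne_zero (C_ne_zero.2 ((_root_.map_ne_zero _).2 hl))
    (monic_prod_X_sub_C r _).ne_zero (hf.symm.trans (Polynomial.map_zero _))

omit [CharZero K] in
theorem c4_root (hl : l ≠ 0) {r : Fin (d + 1) → Om K}
    (hf : f.map (algebraMap K (Om K)) = C (algebraMap K (Om K) l) * ∏ i, (X - C (r i)))
    {x : Om K} : aeval x f = 0 ↔ ∃ j, x = r j := by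
  simp [c4_eval hf, hl, Finset.prod_eq_zero_iff, sub_eq_zero]

open Classical in
theorem sys_geo (hc : c ≠ 0) (h : B ^ 2 * f = S ^ 4 - C c * X ^ N) {a : Fin (d + 1) → kb K}
    (ha : Function.Injective a) (h0 : ∀ i, a i ≠ 0) (hl : l ≠ 0)
    (hf : f.map (algebraMap K (Om K)) =
      C (algebraMap K (Om K) l) * ∏ i, (X - C (algebraMap (kb K) (Om K) (a i))))
    {ζ : ℕ → kb K} (hζ : Rt ζ) :
    ∃ (e : ∀ w : Wt f, (Fin 2 → ℚ_[2]) →+ Jac (Om K) 2 (cub S B w))
      (τ : Gam K → Wt f → Matrix (Fin 2) (Fin 2) ℚ_[2])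
      (r : Gam K →* Matrix (Wt f → Fin 2) (Wt f → Fin 2) ℚ_[2]), (∀ w, TateOn (e w) 1) ∧
      (∀ γ (w : Wt f), ∃ h, ∀ v,
        e (γ • w) (τ γ w *ᵥ v) = jm (γ : Gam K).toRingEquiv.toRingHom h (e w v)) ∧
      (∀ γ, r γ = tind τ γ) ∧
      Sys (geo K) {D | ∃ (R : ValuationSubring (Om K)) (b : kb K),
          b ∉ Set.range (Fin.snoc a 0 : Fin (d + 1 + 1) → kb K) ∧
          Ov (kb K) R (un (zz K) (some b)) ∧ D = {γ : Gam K | Dc R γ}} r (bt (Wt f))
        (fun γ => (cz γ : ℚ_[2]) ^ 2) ∧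
      ∀ i (y : geo K), Gn ζ (un (zz K) (some (a i))) y → ∃ v, Rf (bt (Wt f)) (r y) v := by
  have := kb_closed K
  have := geo_compact K
  have : CharZero (Om K) := algebraRat.charZero _
  have hg := gd_geo K
  obtain ⟨e, τ, he, hτ, hT, hu⟩ := exists_tau hc h
  obtain ⟨r, hr⟩ := hT.hom
  have hW := card_wt (c4_ne hl hf)
  have sq : ∀ w : Wt f, (w : Om K) ^ 2 = algebraMap (kb K) (Om K) (algebraMap K _ l) *
      ∏ i, un (zz K) (some (a i)) := fun w => by
    rw [wt_sq, ← g1_aeval, c4_eval hf]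
    rfl
  have fx : ∀ (g : geo K) (w : Wt f), g • (w : Om K) ^ 2 = w ^ 2 := fun g w => by
    rw [wt_sq]
    exact c4_fix g.1 f
  have key : ∀ (R : ValuationSubring (Om K)) (b : kb K), b ≠ 0 →
      Ov (kb K) R (un (zz K) (some b)) → ∀ g : geo K, Dc R g → ∀ w : Wt f,
      g • (w : Om K) = w → g.1 • w = w ∧ τ g w = 1 := fun R b hb o g hd w k => by
    have k1 : g.1 • w = w := Subtype.ext ((wt_smul _ _).trans k)
    exact ⟨k1, hu R (fun x => o.1 (algebraMap K _ x)) (by simpa [un] using o.unit hb.symm) g w k1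
      hd fun x hx => hg.res o hd hx⟩
  have l0 : algebraMap K (kb K) l ≠ 0 := (_root_.map_ne_zero _).2 hl
  refine ⟨e, τ, r, he, hτ, hr, hT.sys hW hr (fun g k => by simp [cz_geo k]) ?_, ?_⟩
  · rintro _ ⟨R, b, hb, o, rfl⟩ g hd w
    refine key R b (fun k => hb ⟨Fin.last _, by simp [k]⟩) o g hd w
      (hg.unit_root o hd two_ne_zero ?_ (fx g w))
    rw [← pow_eq_one_iff_of_nonneg zero_le two_ne_zero, ← map_pow, sq, map_mul, map_prod,
      o.const l0, one_mul]
    exact Finset.prod_eq_one fun i _ => o.unit fun k => hb ⟨i.castSucc, by simp [k]⟩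
  rintro i y ⟨R, o, hy, ht⟩
  obtain ⟨p, hp⟩ := IsAlgClosed.exists_pow_nat_eq (un (zz K) (some (a i))) (n := 2) two_pos
  have p0 := ((hg.cd.un _).root two_ne_zero hp).ne
  have p1 : y • p = -p := by
    rw [ht 1 p hp, (hζ.prim 1).eq_neg_one_of_two_right]
    simp
  have w1 : ∀ w : Wt f, y • (w : Om K) = -w ∧ (w : Om K) ≠ 0 := fun w => by
    have u1 : R.valuation (w / p) = 1 := by
      rw [← pow_eq_one_iff_of_nonneg zero_le two_ne_zero, ← map_pow, div_pow, sq, hp,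
        ← Finset.mul_prod_erase _ _ (Finset.mem_univ i), mul_left_comm,
        mul_div_cancel_left₀ _ (hg.cd.un _).ne, map_mul, map_prod, o.const l0, one_mul]
      exact Finset.prod_eq_one fun j hj => o.unit fun k => (Finset.mem_erase.1 hj).1 (ha k)
    have u2 := hg.unit_root o hy two_ne_zero u1
      (by rw [div_pow, smul_div₀', fx, hp, hg.fix_un])
    rw [smul_div₀', p1, div_neg, ← neg_div, div_left_inj' p0] at u2
    exact ⟨neg_eq_iff_eq_neg.1 u2, fun k => by simp [k] at u1⟩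
  refine hT.rf hW hr (fun w k => (w1 w).2 ?_) fun w =>
    (key R _ (h0 i) o (y * y) (i1_dmul hy hy) w ?_).2
  · exact self_eq_neg.1 (((congrArg Subtype.val k).symm.trans (wt_smul _ _)).trans (w1 w).1)
  · rw [mul_smul, (w1 w).1, smul_neg, (w1 w).1, neg_neg]

theorem coh_geo (hc : c ≠ 0) (h : B ^ 2 * f = S ^ 4 - C c * X ^ N) {r : Fin (d + 1) → Om K}
    (hr : Function.Injective r) (h0 : ∀ i, r i ≠ 0) (hl : l ≠ 0)
    (hf : f.map (algebraMap K (Om K)) = C (algebraMap K (Om K) l) * ∏ i, (X - C (r i)))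
    {pa : Gam K →* Equiv.Perm (Fin (d + 1))} (hp : ∀ γ i, γ (r i) = r (pa γ i))
    (hG : Big pa.range) (hd : Even d) (h6 : 6 ≤ d) :
    ∃ (ρ : Gam K →* Mat d ℚ_[2]) (J : Mat d ℚ_[2]), Coh f S B ρ ∧
      Hd ρ pa J fun γ => (cz γ : ℚ_[2]) := by
  classical
  have := kb_closed K
  have := geo_compact K
  have f0 := c4_ne hl hf
  let a : Fin (d + 1) → kb K := fun i =>
    ⟨r i, mem_algebraicClosure_iff.2 ⟨f, f0, (c4_root hl hf).2 ⟨i, rfl⟩⟩⟩
  have ha : Function.Injective a := fun i j e => hr (congrArg Subtype.val e)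
  have a0 : ∀ i, a i ≠ 0 := fun i e => h0 i (congrArg Subtype.val e)
  obtain ⟨ζ, hζ⟩ := exists_rt (kb K)
  obtain ⟨e, τ, ρ, he, hτ, hρ, hS, hR⟩ := sys_geo hc h ha a0 hl hf hζ
  obtain ⟨y, pm, U, h1, h2, h3⟩ := surf_of (geo K) (gd_geo K) (fun γ => c4_fix γ X) (gam_kb K) hζ cz
    (cyc_rt K hζ) (a := Fin.snoc a 0)
    (Fin.snoc_injective_iff.2 ⟨ha, fun ⟨i, k⟩ => a0 i k⟩)
    (fun γ => (pa γ).viaEmbedding Fin.castSuccEmb) fun γ i => by
      refine Fin.lastCases ?_ (fun i => ?_) i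
      · rw [Equiv.Perm.viaEmbedding_apply_of_notMem _ _ _ (by simp)]
        simp
      · rw [show (pa γ).viaEmbedding Fin.castSuccEmb i.castSucc = (pa γ i).castSucc from
          Equiv.Perm.viaEmbedding_apply _ _ _, Fin.snoc_castSucc, Fin.snoc_castSucc]
        exact hp γ i
  choose v hv using fun i => hR i (y i.castSucc.castSucc) (by simpa using h3 i.castSucc)
  obtain ⟨σ, J, h4, h5⟩ := coh_main hS h1 cz_norm (fun γ i => (h2 γ _).trans
    (congrArg _ (Equiv.Perm.viaEmbedding_apply _ _ _))) hv hG hd (by simp [card_wt f0]; omega)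
  rw [← dec_eq, show (ρ : Gam K → _) = tind τ from funext hρ] at h4
  refine ⟨σ, J, ⟨e, τ, he, hτ, h4⟩, ?_⟩
  convert h5 using 2 with γ
  rw [sq, mul_assoc, ← PadicInt.coe_mul, ← cz_mul, mul_inv_cancel, cz_one, PadicInt.coe_one,
    mul_one]

omit [CharZero K] in
theorem exists_pa (hl : l ≠ 0) {r : Fin (d + 1) → Om K} (hr : Function.Injective r)
    (hf : f.map (algebraMap K (Om K)) = C (algebraMap K (Om K) l) * ∏ i, (X - C (r i))) :
    ∃ pa : Gam K →* Equiv.Perm (Fin (d + 1)), ∀ γ i, γ (r i) = r (pa γ i) := by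
  choose π hπ using fun (γ : Gam K) i => (c4_root hl hf (x := γ (r i))).1
    ((aeval_algHom_apply (γ.restrictScalars K) (r i) f).trans
      (by rw [(c4_root hl hf).2 ⟨i, rfl⟩, map_zero]))
  exact ⟨MonoidHom.toHomPerm ⟨⟨π, funext fun i => hr (hπ 1 i).symm⟩, fun γ δ => funext fun i =>
    hr ((hπ _ _).symm.trans ((congrArg γ (hπ δ i)).trans (hπ γ _)))⟩, hπ⟩

theorem cz_inf (hK : ∃ s : Finset K, Subfield.closure (s : Set K) = ⊤) :
    ∃ φ : Gam K, ∀ n, 0 < n → (cz φ : ℚ_[2]) ^ n ≠ 1 := by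
  classical
  have : CharZero (RatFunc K) := algebraRat.charZero _
  have : CharZero (Om K) := algebraRat.charZero _
  obtain ⟨s, hs⟩ := hK
  let t := insert RatFunc.X (s.image (algebraMap K (RatFunc K)))
  have h1 : ∀ a : K, algebraMap K _ a ∈ Subfield.closure (t : Set (RatFunc K)) := fun a =>
    (Subfield.closure_le (t := (Subfield.closure (t : Set (RatFunc K))).comap
      (algebraMap K _))).2 (fun x hx => Subfield.subset_closure
        (Finset.mem_insert_of_mem (Finset.mem_image_of_mem _ hx))) (hs ▸ Subfield.mem_top a)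
  have h2 : ∀ p : K[X], algebraMap K[X] _ p ∈ Subfield.closure (t : Set (RatFunc K)) := fun p => by
    induction p using Polynomial.induction_on' with
    | add p q hp hq => exact map_add (algebraMap K[X] (RatFunc K)) p q ▸ add_mem hp hq
    | monomial n a =>
      rw [← C_mul_X_pow_eq_monomial, map_mul, map_pow]
      exact mul_mem (h1 a) (pow_mem (Subfield.subset_closure (Finset.mem_insert_self _ _)) _)
  obtain ⟨R, p, φ, -, -, hp, p2, p0, hφ, -⟩ := FG.fd_fg ⟨t, eq_top_iff.2 fun x _ =>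
    RatFunc.num_div_denom x ▸ div_mem (h2 _) (h2 _)⟩ (Om K) ∅ 1 2
  have := (CharP.charP_iff_prime_eq_zero hp).2 p0
  refine ⟨φ, fun n hn => ?_⟩
  rw [show cz φ = p from hφ.cyc fun k =>
    (Nat.le_of_dvd two_pos ((CharP.cast_eq_zero_iff _ p 2).1 k)).not_gt p2]
  rw [PadicInt.coe_natCast, ← Nat.cast_pow, Ne, Nat.cast_eq_one]
  exact (Nat.one_lt_pow hn.ne' hp.one_lt).ne'

end Pool.Agent.Lib.MP_d61fbb_ag.DW
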