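import Pool.Agent.Lib.MP_d61fbb_ag.DW.D2
import Pool.Agent.Lib.MP_d61fbb_ag.SQ.G8
import Pool.Agent.Lib.MP_d61fbb_ag.SQ.L1a

/-! The two cases in residue characteristic two. -/

set_option autoImplicit false

noncomputable section

namespace Pool.Agent.Lib.MP_d61fbb_ag.DW

open Matrix Equiv IsLocalRing Pool.Agent.Lib.MP_d61fbb_ag.SQ

section

variable {κ : Type} [Field κ] {d : ℕ} {G : Subgroup (Perm (Fin (d + 1)))}
  {W : Submodule κ (Mat d κ)}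

theorem cases_res (h2 : (2 : κ) = 0) (hn : (d : κ) + 1 ≠ 0) (hG : Big G)
    (hW : ∀ π ∈ G, ∀ X ∈ W, Hm κ π * X * Hm κ π⁻¹ ∈ W) (hbr : Br W) (h1 : (1 : Mat d κ) ∈ W) :
    W = κ ∙ (1 : Mat d κ) ∨ ∀ x y : Fin d → κ, x ⬝ᵥ Gm κ d *ᵥ y = 0 → wedge x y ∈ W := by
  rcases classify_two h2 hn hG hW hbr h1 with h | h | h
  · exact Or.inl h
  · refine Or.inr fun x y e => h ?_
    rw [mem_sl, wedge, trace_add, trace_vecMulVec, trace_vecMulVec, e, dotProduct_mulVec,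
      ← mulVec_transpose, Gm_symm, dotProduct_comm, e, add_zero]
  · exact Or.inr h.1

theorem d1_fp (a b c e : Fin (d + 1)) : fv κ a b ⬝ᵥ pv κ c e =
    ((if a = c then 1 else 0) - (if b = c then 1 else 0)) -
      ((if a = e then 1 else 0) - (if b = e then 1 else 0)) := by
  rw [pv, dotProduct_sub, fv_dot_qv, fv_dot_qv]

theorem d1_wv (a b c e : Fin (d + 1)) (v : Fin d → κ) : wedge (pv κ a b) (pv κ c e) *ᵥ v =
    (((d : κ) + 1) * (fv κ c e ⬝ᵥ v)) • pv κ a b + (((d : κ) + 1) * (fv κ a b ⬝ᵥ v)) • pv κ c e := by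
  rw [wedge, add_mulVec, g0_vmv, g0_vmv, Gm_pv, Gm_pv, smul_dotProduct, smul_dotProduct,
    smul_eq_mul, smul_eq_mul]

theorem d1_span {S : Set (Mat d κ)} {V : Submodule κ (Mat d κ)}
    (h : ∀ X ∈ S, ∀ Y ∈ S, X * Y - Y * X ∈ V) {X Y : Mat d κ} (hX : X ∈ Submodule.span κ S)
    (hY : Y ∈ Submodule.span κ S) : X * Y - Y * X ∈ V :=
  (Submodule.span_le (p := V.comap (LinearMap.mulRight κ Y - LinearMap.mulLeft κ Y))).2
    (fun X hX => (Submodule.span_le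
      (p := V.comap (LinearMap.mulLeft κ X - LinearMap.mulRight κ X))).2 (h X hX) hY) hX

theorem wedge_br (h2 : (2 : κ) = 0) (hn : (d : κ) + 1 ≠ 0) (hd : 6 ≤ d)
    (h : ∀ x y : Fin d → κ, x ⬝ᵥ Gm κ d *ᵥ y = 0 → wedge x y ∈ W) :
    ∃ X ∈ W, ∃ Y ∈ W, ∀ c : κ, X * Y - Y * X ≠ c • 1 := by
  refine ⟨_, h (pv κ ⟨0, by omega⟩ ⟨1, by omega⟩) (pv κ ⟨2, by omega⟩ ⟨3, by omega⟩) ?_, _,
    h (pv κ ⟨3, by omega⟩ ⟨4, by omega⟩) (pv κ ⟨5, by omega⟩ ⟨6, by omega⟩) ?_, fun c e => ?_⟩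
  · rw [Gm_pv, dotProduct_smul, dotProduct_comm, d1_fp]
    simp
  · rw [Gm_pv, dotProduct_smul, dotProduct_comm, d1_fp]
    simp
  have := congrArg (fun M => fv κ ⟨0, by omega⟩ ⟨2, by omega⟩ ⬝ᵥ M *ᵥ qv κ ⟨5, by omega⟩) e
  simp only [sub_mulVec, ← mulVec_mulVec, d1_wv, dotProduct_sub, dotProduct_add, dotProduct_smul,
    smul_mulVec, one_mulVec, d1_fp, fv_dot_qv, smul_eq_mul, Fin.mk.injEq] at this
  simp [hn] at this
  exact hn (by linear_combination -this)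

end

variable {Ω : Type} [Field Ω] [CharZero Ω] [IsAlgClosed Ω] {O : ValuationSubring Ω} {d : ℕ}
  {Γ : Type} [Group Γ] {R : Γ →* Mat d Ω} {pm : Γ →* Perm (Fin (d + 1))} {B : Mat d Ω}
  {W : Submodule Ω (Mat d Ω)}

theorem cases_two (h2 : (2 : ResidueField O) = 0) (hR : Rq O R pm) (hbr : Br W) (had : Ad R W)
    (h1 : (1 : Mat d Ω) ∈ W) : W = Ω ∙ (1 : Mat d Ω) ∨
      ∀ x y : Fin d → ResidueField O, x ⬝ᵥ Gm _ d *ᵥ y = 0 → wedge x y ∈ red O W := by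
  refine (cases_res (W := red O W) h2 hR.dim hR.big ?_ ?_ ⟨1, h1, Lift.one⟩).imp_left (scalar_case h1)
  · rintro _ ⟨γ, rfl⟩ X ⟨M, hM, k⟩
    exact ⟨_, had γ M hM, map_inv pm γ ▸ ((hR.lift γ).mul k).mul (hR.lift γ⁻¹)⟩
  · exact fun X ⟨M, hM, k⟩ Y ⟨M', hM', k'⟩ => ⟨_, hbr M hM M' hM', (k.mul k').sub (k'.mul k)⟩

omit [CharZero Ω] [IsAlgClosed Ω] in
theorem d1_scal (i : Fin d) {t : Ω} {M : Mat d (ResidueField O)} (h : Lift O (t • 1) M) :
    ∃ c : ResidueField O, c • (1 : Mat d (ResidueField O)) = M := by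
  obtain ⟨Z, e, -⟩ := id h
  have e1 : (Z i i : Ω) = t := by simpa using congrFun (congrFun e i) i
  exact ⟨_, (Lift.one.smul (Z i i)).unique (e1 ▸ h)⟩

theorem d1_comm (h2 : (2 : ResidueField O) = 0) (hR : Rq O R pm) (i : Fin d)
    (hs : ∀ X, Tangent (Set.range R) X → ∃ c : Ω, X = c • 1) {γ δ : Γ} (hγ : pm γ = 1)
    (hδ : pm δ = 1) {X Y : Mat d Ω} {M N : Mat d (ResidueField O)} (hX : Lift O X M)
    (hY : Lift O Y N) (e1 : R γ = 1 + (2 : Ω) • X) (e2 : R δ = 1 + (2 : Ω) • Y) :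
    ∃ c : ResidueField O, c • (1 : Mat d (ResidueField O)) = M * N - N * M := by
  have h3 : Lift O ((X * Y - Y * X) * R (δ * γ)⁻¹) (M * N - N * M) := by
    have := ((hX.mul hY).sub (hY.mul hX)).mul (hR.lift (δ * γ)⁻¹)
    rwa [map_inv pm, map_mul pm, hγ, hδ, mul_one, inv_one, map_one, mul_one] at this
  have h4 : Lift O ((2 : Ω) • ((X * Y - Y * X) * R (δ * γ)⁻¹)) 0 := by
    have := h3.smul 2
    rwa [map_ofNat, h2, zero_smul] at this
  have h5 : R (γ * δ * (δ * γ)⁻¹) =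
      (1 : Ω) • 1 + (2 : Ω) • (2 : Ω) • ((X * Y - Y * X) * R (δ * γ)⁻¹) := by
    have h6 : R (γ * δ) = R (δ * γ) + (2 : Ω) • (2 : Ω) • (X * Y - Y * X) := by
      simp only [map_mul, e1, e2, add_mul, mul_add, Matrix.mul_smul, Matrix.smul_mul, mul_one,
        one_mul]
      module
    rw [map_mul, h6, add_mul, ← map_mul, mul_inv_cancel, map_one, one_smul, Matrix.smul_mul,
      Matrix.smul_mul]
  obtain ⟨c, e⟩ := scalar_of h2 hs (map_one _) h4 h5 fun n => ⟨_, map_pow R _ n⟩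
  refine d1_scal i (t := (c - 1) / 4) (cast (congrArg (Lift O · _) ?_) h3)
  have h7 : (4 : Ω) ≠ 0 := by norm_num
  apply smul_right_injective _ h7
  simp only [smul_smul, mul_div_cancel₀ _ h7, sub_smul, ← e, h5]
  module

theorem ker_scalar (h2 : (2 : ResidueField O) = 0) (hR : Rq O R pm) (hd : 6 ≤ d)
    (ht : ∀ γ, pm γ = 1 → ∃ X N, Lift O X N ∧ R γ = 1 + (2 : Ω) • X)
    (hs : ∀ X, Tangent (Set.range R) X → ∃ c : Ω, X = c • 1) {γ : Γ} (hγ : pm γ = 1) :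
    ∃ c : Ω, R γ = c • 1 := by
  let S : Set (Mat d (ResidueField O)) :=
    insert 1 {N | ∃ γ X, pm γ = 1 ∧ Lift O X N ∧ R γ = 1 + (2 : Ω) • X}
  have h1 : (1 : Mat d (ResidueField O)) ∈ Submodule.span (ResidueField O) S :=
    Submodule.subset_span (Set.mem_insert _ _)
  have hb : ∀ M ∈ Submodule.span (ResidueField O) S, ∀ N ∈ Submodule.span (ResidueField O) S,
      M * N - N * M ∈ ResidueField O ∙ (1 : Mat d (ResidueField O)) := fun M hM N hN => by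
    refine d1_span ?_ hM hN
    rintro M (rfl | ⟨γ, X, a1, a2, a3⟩) N (rfl | ⟨δ, Y, b1, b2, b3⟩)
    · simp
    · simp
    · simp
    · exact Submodule.mem_span_singleton.2 (d1_comm h2 hR ⟨0, by omega⟩ hs a1 b1 a2 b2 a3 b3)
  have hc : ∀ π ∈ pm.range, ∀ M ∈ Submodule.span (ResidueField O) S,
      Hm _ π * M * Hm _ π⁻¹ ∈ Submodule.span (ResidueField O) S := by
    rintro _ ⟨δ, rfl⟩ M hM
    refine (Submodule.span_le (p := (Submodule.span (ResidueField O) S).comap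
      (LinearMap.mulRight _ (Hm _ (pm δ)⁻¹) ∘ₗ LinearMap.mulLeft _ (Hm _ (pm δ))))).2 ?_ hM
    rintro M (rfl | ⟨γ, X, a1, a2, a3⟩)
    · change Hm _ (pm δ) * 1 * Hm _ (pm δ)⁻¹ ∈ Submodule.span (ResidueField O) S
      rwa [mul_one, ← map_mul, mul_inv_cancel, map_one]
    · refine Submodule.subset_span (Or.inr ⟨δ * γ * δ⁻¹, R δ * X * R δ⁻¹, by simp [a1],
        map_inv pm δ ▸ ((hR.lift δ).mul a2).mul (hR.lift δ⁻¹), ?_⟩)
      rw [map_mul, map_mul, a3, mul_add, add_mul, mul_one, ← map_mul, mul_inv_cancel, map_one,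
        Matrix.mul_smul, Matrix.smul_mul]
  obtain ⟨X, N, a2, a3⟩ := ht γ hγ
  rcases cases_res h2 hR.dim hR.big hc (fun M hM N hN =>
    (Submodule.span_singleton_le_iff_mem _ _).2 h1 (hb M hM N hN)) h1 with h | h
  · obtain ⟨t, e⟩ := Submodule.mem_span_singleton.1
      (h ▸ Submodule.subset_span (Or.inr ⟨γ, X, hγ, a2, a3⟩) :
        N ∈ ResidueField O ∙ (1 : Mat d (ResidueField O)))
    obtain ⟨t, rfl⟩ := residue_surjective t
    refine scalar_of h2 hs (u := ((1 + 2 * t : O) : Ω)) (Y := X - (t : Ω) • 1) ?_ ?_ ?_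
      fun n => ⟨_, map_pow R _ n⟩
    · rw [← O.valuation_eq_one_iff, ← residue_ne_zero_iff_isUnit, map_add, map_mul, map_ofNat, h2,
        zero_mul, add_zero, map_one]
      exact one_ne_zero
    · exact sub_self N ▸ a2.sub (e ▸ Lift.one.smul t)
    · rw [a3]
      push_cast
      rw [show ((2 : O) : Ω) = 2 from rfl]
      module
  · obtain ⟨M, hM, N, hN, e⟩ := wedge_br h2 hR.dim hd h
    obtain ⟨c, k⟩ := Submodule.mem_span_singleton.1 (hb M hM N hN)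
    exact absurd k.symm (e c)

end Pool.Agent.Lib.MP_d61fbb_ag.DW
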