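import Pool.Agent.Lib.MP_d61fbb_ag.SQ.Z4
import Pool.Agent.Lib.MP_d61fbb_ag.SQ.L0

/-! Elements close to a scalar when the Lie algebra is scalar. -/

set_option autoImplicit false

noncomputable section

namespace Pool.Agent.Lib.MP_d61fbb_ag.DW

open Matrix IsLocalRing Pool.Agent.Lib.MP_d61fbb_ag.SQ

variable {Ω n : Type} [Field Ω] [CharZero Ω] [Fintype n] [DecidableEq n]
  {O : ValuationSubring Ω} {S : Set (Matrix n n Ω)}

omit [CharZero Ω] in
theorem d2_lt {x : O} (h : residue O x = 0) : O.valuation (x : Ω) < 1 :=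
  (O.valuation_lt_one_iff x).1 ((residue_eq_zero_iff _).1 h)

omit [CharZero Ω] in
theorem d2_two (h2 : (2 : ResidueField O) = 0) : O.valuation 2 < 1 :=
  d2_lt (x := 2) ((map_ofNat (residue O) 2).trans h2)

omit [CharZero Ω] in
theorem d2_pow {x : Ω} (h : O.valuation (x - 1) < 1) (i : ℕ) :
    O.valuation (x ^ i - 1) ≤ O.valuation (x - 1) := by
  have h1 : O.valuation x = 1 := by
    rw [← add_sub_cancel 1 x]
    exact Valuation.map_one_add_of_lt _ h
  induction i with
  | zero => simp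
  | succ i ih =>
    rw [show x ^ (i + 1) - 1 = x * (x ^ i - 1) + (x - 1) by ring]
    refine Valuation.map_add_le _ ?_ le_rfl
    rwa [map_mul, h1, one_mul]

theorem d2_root (h2 : (2 : ResidueField O) = 0) {x : Ω} {N : ℕ} (hN : 0 < N) (hx : x ^ N = 1)
    (h : O.valuation (x - 1) < O.valuation 2) : x = 1 := by
  have h3 := d2_two h2
  have h4 := h.trans h3
  induction N using Nat.strong_induction_on with
  | _ N ih =>
    obtain ⟨M, rfl | rfl⟩ := Nat.even_or_odd' N
    · refine ih M (by omega) (by omega) ?_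
      rw [mul_comm, pow_mul, sq_eq_one_iff] at hx
      refine hx.resolve_right fun k => ?_
      have h5 := (d2_pow h4 M).trans_lt h
      rw [k, show (-1 - 1 : Ω) = -2 by norm_num, Valuation.map_neg] at h5
      exact lt_irrefl _ h5
    · by_contra h5
      have h6 : ∑ i ∈ Finset.range (2 * M + 1), x ^ i = 0 := by
        have h7 := geom_sum_mul x (2 * M + 1)
        rw [hx, sub_self] at h7
        exact (mul_eq_zero.1 h7).resolve_right (sub_ne_zero.2 h5)
      have h7 : O.valuation (∑ i ∈ Finset.range (2 * M + 1), (x ^ i - 1)) < 1 :=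
        Valuation.map_sum_lt _ one_ne_zero fun i _ => (d2_pow h4 i).trans_lt h4
      rw [Finset.sum_sub_distrib, h6, zero_sub, Valuation.map_neg, Finset.sum_const,
        Finset.card_range, nsmul_eq_mul, mul_one, Nat.cast_add, Nat.cast_one, add_comm,
        Valuation.map_one_add_of_lt] at h7
      · exact lt_irrefl _ h7
      · rw [Nat.cast_mul, map_mul, Nat.cast_ofNat]
        exact mul_lt_one_of_lt_of_le h3 ((O.valuation_le_one_iff _).2 (natCast_mem O M))

theorem d2_tan (Q : Matrix n n (Polynomial Ω)) (α : Ωˣ)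
    (h : ∀ N : ℕ, (α : Ω) ^ N • Q.map (Polynomial.eval (N : Ω)) ∈ S)
    (h1 : Q.map (Polynomial.eval 0) = 1) :
    Tangent S (Q.map fun q => q.derivative.eval 0) := by
  have e : 1 + (DualNumber.eps : DualNumber Ω) •
      (Q.map fun q => q.derivative.eval 0).map (algebraMap Ω _) =
      (Q.map (MonoidAlgebra.single α)).map
        (z4hom (DualNumber.eps : DualNumber Ω) (1 : Ωˣ →* DualNumber Ω)) := by
    ext i j : 1
    have e1 := Polynomial.aeval_add_of_sq_eq_zero (Q i j) (0 : DualNumber Ω) DualNumber.eps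
      (by rw [sq, DualNumber.eps_mul_eps])
    have e2 : (1 : Matrix n n (DualNumber Ω)) i j = algebraMap Ω _ ((Q i j).eval 0) := by
      rw [show (Q i j).eval 0 = (1 : Matrix n n Ω) i j from congrFun (congrFun h1 i) j]
      simp [Matrix.one_apply]
    rw [zero_add, ← Polynomial.coeff_zero_eq_aeval_zero', ← Polynomial.coeff_zero_eq_aeval_zero',
      Polynomial.coeff_zero_eq_eval_zero, Polynomial.coeff_zero_eq_eval_zero] at e1
    simp only [Matrix.add_apply, Matrix.smul_apply, Matrix.map_apply, z4hom_single, e1, e2,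
      MonoidHom.one_apply, one_mul, smul_eq_mul, mul_comm]
  refine Pt.tangent (by simpa [h1] using h 0) _ DualNumber.eps_mul_eps eps_inj fun p hp => ?_
  rw [e, ← aeval_comp_map, z4ev_inj (q := MvPolynomial.aeval _ p) fun N => ?_, map_zero]
  have e3 : (Q.map (MonoidAlgebra.single α)).map (z4ev N) =
      (α : Ω) ^ N • Q.map (Polynomial.eval (N : Ω)) := by
    ext i j
    simp only [Matrix.map_apply, z4ev_single, Matrix.smul_apply, smul_eq_mul, mul_comm]
  rw [aeval_comp_map, e3, ← hp _ (h N), ← MvPolynomial.coe_aeval_eq_eval]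
  rfl

theorem d2_log {u : Matrix n n Ω} {α : Ω} (hα : α ≠ 0) (hu : IsNilpotent u)
    (hg : ∀ N : ℕ, (α • (1 + u)) ^ N ∈ S) : ∃ w, Tangent S (u + u ^ 2 * w) := by
  obtain ⟨k, hk⟩ := hu
  let Q : Matrix n n (Polynomial Ω) := Matrix.of fun i l => ∑ j ∈ Finset.range (k + 2),
    descPochhammer Ω j * Polynomial.C ((u ^ j) i l / j.factorial)
  have hQ : ∀ N : ℕ, Q.map (Polynomial.eval (N : Ω)) = (1 + u) ^ N := fun N => by
    have e := z4_binom u (1 : Matrix n n Ω) (k := k + 2)
      (by rw [pow_add, hk, zero_mul, zero_smul]) N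
    simp only [smul_eq_mul, mul_one] at e
    rw [add_comm, e]
    ext i l
    rw [Matrix.map_apply, Matrix.sum_apply]
    simp only [Q, Matrix.of_apply, Polynomial.eval_finsetSum]
    refine Finset.sum_congr rfl fun j _ => ?_
    rw [Polynomial.eval_mul, Polynomial.eval_C, Matrix.smul_apply, nsmul_eq_mul,
      Nat.cast_choose_eq_descPochhammer_div]
    ring
  have h := d2_tan (S := S) Q (Units.mk0 α hα) (fun N => by
    rw [hQ, Units.val_mk0, ← smul_pow]
    exact hg N) (by simpa using hQ 0)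
  refine ⟨∑ j ∈ Finset.range k,
    ((descPochhammer Ω (j + 2)).derivative.eval 0 / (j + 2).factorial) • u ^ j, ?_⟩
  convert h using 1
  ext i l
  simp only [Q, Matrix.map_apply, Matrix.of_apply, Finset.sum_range_succ', Finset.mul_sum,
    Matrix.add_apply, Matrix.sum_apply, mul_smul_comm, Matrix.smul_apply, ← pow_add, map_add,
    map_sum, Polynomial.derivative_mul, Polynomial.derivative_C, mul_zero, add_zero,
    Polynomial.eval_add, Polynomial.eval_finsetSum, Polynomial.eval_mul, Polynomial.eval_C]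
  simp only [zero_add, descPochhammer_one, descPochhammer_zero, Polynomial.derivative_X,
    Polynomial.derivative_one, Polynomial.eval_one, Polynomial.eval_zero, zero_mul, add_zero,
    pow_one, Nat.factorial_one, Nat.cast_one, div_one, one_mul]
  rw [add_comm]
  refine congrArg (· + u i l) (Finset.sum_congr rfl fun j _ => ?_)
  rw [smul_eq_mul, add_comm 2 j]
  ring

theorem d2_unip (hs : ∀ X, Tangent S X → ∃ c : Ω, X = c • 1) {u : Matrix n n Ω} {α : Ω}
    (hα : α ≠ 0) (hu : IsNilpotent u) (hg : ∀ N : ℕ, (α • (1 + u)) ^ N ∈ S) : u = 0 := by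
  obtain ⟨w, hw⟩ := d2_log hα hu hg
  obtain ⟨c, hc⟩ := hs _ hw
  obtain ⟨k, hk⟩ := hu
  have key : ∀ m : ℕ, u ^ (m + 1) = 0 → u = 0 := fun m => by
    induction m with
    | zero => simp
    | succ m ih =>
      refine fun hm => ih ?_
      have h1 := congrArg (u ^ m * ·) hc
      simp only [mul_add, ← mul_assoc, ← pow_add, ← pow_succ, mul_smul_comm, mul_one] at h1
      rw [hm, zero_mul, add_zero] at h1
      have h2 := congrArg (· * u) h1
      simp only [smul_mul_assoc, ← pow_succ] at h2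
      rw [hm, eq_comm, smul_eq_zero] at h2
      rcases h2 with h2 | h2
      · rw [h1, h2, zero_smul]
      · exact h2
  exact key k (by rw [pow_succ, hk, zero_mul])

omit [CharZero Ω] in
theorem d2_eig {M : Matrix n n Ω} {α : Ω} (h : M.charpoly.IsRoot α) :
    ∃ w, w ≠ 0 ∧ M *ᵥ w = α • w := by
  rw [Polynomial.IsRoot, eval_charpoly, ← exists_mulVec_eq_zero_iff] at h
  obtain ⟨w, h0, h1⟩ := h
  rw [sub_mulVec, sub_eq_zero, scalar_apply, ← smul_one_eq_diagonal, smul_mulVec,
    one_mulVec] at h1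
  exact ⟨w, h0, h1.symm⟩

theorem d2_near {Y : Matrix n n Ω} {u α : Ω} (hY : Lift O Y 0) {w : n → Ω} (h0 : w ≠ 0)
    (h : (u • (1 : Matrix n n Ω) + (2 : Ω) • Y) *ᵥ w = α • w) :
    O.valuation (α - u) < O.valuation 2 := by
  obtain ⟨a, -, c, h1, e, h2⟩ := l0_vec (O := O) h0
  obtain ⟨X, rfl, hX⟩ := hY
  have h3 : α - u = 2 * ((∑ j, X e j * c j : O) : Ω) := by
    have h4 := congrFun h e
    have h5 := h1 e
    rw [h2, OneMemClass.coe_one] at h5
    rw [add_mulVec, smul_mulVec, smul_mulVec, one_mulVec] at h4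
    simp only [Pi.add_apply, Pi.smul_apply, smul_eq_mul, mulVec, dotProduct, Matrix.map_apply,
      ValuationSubring.subtype_apply] at h4
    have h6 : ((∑ j, X e j * c j : O) : Ω) = a * ∑ j, (X e j : Ω) * w j := by
      rw [Finset.mul_sum, AddSubmonoidClass.coe_finsetSum]
      refine Finset.sum_congr rfl fun j _ => ?_
      rw [MulMemClass.coe_mul, ← h1]
      ring
    rw [h6]
    linear_combination (u - α) * h5 - a * h4
  rw [h3, map_mul]
  refine mul_lt_of_lt_one_right (zero_lt_iff.2 ((map_ne_zero _).2 two_ne_zero)) (d2_lt ?_)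
  rw [map_sum]
  refine Finset.sum_eq_zero fun j _ => ?_
  rw [map_mul, show residue O (X e j) = 0 from congrFun (congrFun hX e) j, zero_mul]

theorem scalar_of [IsAlgClosed Ω] (h2 : (2 : ResidueField O) = 0)
    (hs : ∀ X, Tangent S X → ∃ c : Ω, X = c • 1) {g Y : Matrix n n Ω} {u : Ω}
    (hu : O.valuation u = 1) (hY : Lift O Y 0) (e : g = u • 1 + (2 : Ω) • Y)
    (hg : ∀ N : ℕ, g ^ N ∈ S) : ∃ c : Ω, g = c • 1 := by
  have hn : ∀ α w, w ≠ 0 → g *ᵥ w = α • w → O.valuation (α - u) < O.valuation 2 :=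
    fun α w h0 h => d2_near hY h0 (e ▸ h)
  have hv : ∀ α w, w ≠ 0 → g *ᵥ w = α • w → O.valuation α = 1 := fun α w h0 h => by
    rw [← hu]
    exact Valuation.map_eq_of_sub_lt _ (hu ▸ (hn α w h0 h).trans (d2_two h2))
  have hz : ∀ (α : Ω) w, w ≠ 0 → g *ᵥ w = α • w → α ≠ 0 := fun α w h0 h k => by
    have h3 := hv α w h0 h
    rw [k, map_zero] at h3
    exact zero_ne_one h3
  have hdet : g.det ≠ 0 := fun k => by
    obtain ⟨w, h0, h⟩ := exists_mulVec_eq_zero_iff.2 k
    exact hz 0 w h0 (by rw [h, zero_smul]) rfl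
  have hL : ∀ α β, g.charpoly.IsRoot α → g.charpoly.IsRoot β → α = β := fun α β hα hβ => by
    obtain ⟨v, v0, v1⟩ := d2_eig hα
    obtain ⟨w, w0, w1⟩ := d2_eig hβ
    have a0 := hz α v v0 v1
    have b0 := hz β w w0 w1
    obtain ⟨N, hN, k⟩ : ∃ N : ℕ, 0 < N ∧ α ^ N = β ^ N := by
      by_contra! hc
      obtain ⟨L, hL⟩ := exists_log (y := Units.mk0 α a0) (z := Units.mk0 β b0)
        fun N hN k => hc N hN (by simpa using congrArg Units.val k)
      obtain ⟨X, hX, h⟩ := tangent_jordan hdet hg L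
      obtain ⟨c, rfl⟩ := hs X hX
      have h3 := h (Units.mk0 α a0) v v1
      have h4 := h (Units.mk0 β b0) w w1
      rw [smul_mulVec, one_mulVec] at h3 h4
      exact hL ((smul_left_injective Ω v0 h3).symm.trans (smul_left_injective Ω w0 h4))
    refine (div_eq_one_iff_eq b0).1 (d2_root h2 hN
      (by rw [div_pow, k, div_self (pow_ne_zero _ b0)]) ?_)
    rw [div_sub_one b0, map_div₀, hv β w w0 w1, div_one, ← sub_sub_sub_cancel_right α β u]
    exact Valuation.map_sub_lt _ (hn α v v0 v1) (hn β w w0 w1)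
  rcases isEmpty_or_nonempty n with hn | hn
  · exact ⟨0, Subsingleton.elim _ _⟩
  obtain ⟨α, hα⟩ := IsAlgClosed.exists_root g.charpoly (by
    rw [charpoly_degree_eq_dim]
    exact Nat.cast_ne_zero.2 Fintype.card_ne_zero)
  obtain ⟨v, v0, v1⟩ := d2_eig hα
  have a0 := hz α v v0 v1
  have h3 := (IsAlgClosed.splits g.charpoly).eq_prod_roots_of_monic (charpoly_monic g)
  rw [Multiset.eq_replicate_card.2 fun β (hβ : β ∈ g.charpoly.roots) =>
    hL β α (Polynomial.isRoot_of_mem_roots hβ) hα, Multiset.map_replicate,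
    Multiset.prod_replicate] at h3
  have h4 := aeval_self_charpoly g
  rw [h3, map_pow, map_sub, Polynomial.aeval_X, Polynomial.aeval_C,
    Algebra.algebraMap_eq_smul_one] at h4
  have h5 : α • (1 + α⁻¹ • (g - α • 1)) = g := by
    rw [smul_add, smul_inv_smul₀ a0, add_sub_cancel]
  have h6 := d2_unip hs a0 (IsNilpotent.smul ⟨_, h4⟩ α⁻¹) (h5.symm ▸ hg)
  exact ⟨α, by rw [← h5, h6, add_zero]⟩

end Pool.Agent.Lib.MP_d61fbb_ag.DW
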