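import Pool.Agent.Lib.MP_d61fbb_ag.SQ.G1a
import Pool.Agent.Lib.MP_d61fbb_ag.SQ.L0

/-! No projective lift in the symplectic group. -/

set_option autoImplicit false
set_option linter.unusedSectionVars false
set_option linter.unusedVariables false
set_option linter.unusedSimpArgs false

noncomputable section

namespace Pool.Agent.Lib.MP_d61fbb_ag.DW

open Matrix Equiv IsLocalRing Pool.Agent.Lib.MP_d61fbb_ag.SQ

variable {Ω : Type} [Field Ω] [CharZero Ω] [IsAlgClosed Ω] {O : ValuationSubring Ω} {d : ℕ}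
  {Γ : Type} [Group Γ] {R : Γ →* Mat d Ω} {pm : Γ →* Perm (Fin (d + 1))} {B : Mat d Ω}
  {W : Submodule Ω (Mat d Ω)}

theorem d3_add {κ : Type} [Field κ] (P Q : Mat d κ) : (P + Q).rank ≤ P.rank + Q.rank := by
  refine (Submodule.finrank_mono ?_).trans (Submodule.finrank_add_le_finrank_add_finrank _ _)
  rintro _ ⟨v, rfl⟩
  rw [mulVecLin_apply, add_mulVec]
  exact Submodule.add_mem_sup ⟨v, rfl⟩ ⟨v, rfl⟩

theorem d3_alt {A : Mat d Ω} (h : Aᵀ = -A) (h0 : A ≠ 0) : 2 ≤ A.rank := by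
  obtain ⟨i, j, hij⟩ : ∃ i j, A i j ≠ 0 := by
    by_contra! k
    exact h0 (Matrix.ext k)
  have h1 : ∀ i j, A j i = -A i j := fun i j => congrFun (congrFun h i) j
  have h2 : ∀ i, A i i = 0 := fun i => self_eq_neg.1 (h1 i i)
  let f : Fin d → LinearMap.range A.mulVecLin := fun i => ⟨_, Pi.single i 1, rfl⟩
  have h3 : LinearIndependent Ω ![f i, f j] := LinearIndependent.pair_iff.2 fun s t e => by
    have e1 : ∀ l, s * A l i + t * A l j = 0 := fun l => by
      simpa [f] using congrFun (congrArg Subtype.val e) l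
    have e2 := e1 i
    have e3 := e1 j
    rw [h2, mul_zero, zero_add] at e2
    rw [h2, mul_zero, add_zero, h1, mul_neg, neg_eq_zero] at e3
    exact ⟨(mul_eq_zero.1 e3).resolve_right hij, (mul_eq_zero.1 e2).resolve_right hij⟩
  exact h3.fintype_card_le_finrank

theorem d3_two {F : Mat d Ω} (hB : Bᵀ = -B) (hB0 : B.det ≠ 0) (h : Fᵀ * B = B * F) (h0 : F ≠ 0) :
    2 ≤ F.rank := by
  refine (d3_alt (A := B * F) ?_ fun e => h0 ?_).trans (rank_mul_le_right _ _)
  · rw [transpose_mul, hB, Matrix.mul_neg, h]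
  · rw [← nonsing_inv_mul_cancel_left B F hB0.isUnit, e, Matrix.mul_zero]

theorem d3_orth {P Q : Mat d Ω} (hP : P * P = (4 : Ω) • P) (hQ : Q * Q = (4 : Ω) • Q)
    (h1 : P * Q = 0) (h2 : Q * P = 0) : P.rank + Q.rank ≤ (P + Q).rank := by
  have h3 : LinearMap.range P.mulVecLin ⊓ LinearMap.range Q.mulVecLin = ⊥ := by
    refine eq_bot_iff.2 ?_
    rintro _ ⟨⟨u, rfl⟩, v, hv⟩
    have e := congrArg (P *ᵥ ·) hv
    simp only [mulVecLin_apply, mulVec_mulVec, h1, hP, zero_mulVec, smul_mulVec] at e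
    exact (smul_eq_zero.1 e.symm).resolve_left (by norm_num)
  have h4 := Submodule.finrank_sup_add_finrank_inf_eq (LinearMap.range P.mulVecLin)
    (LinearMap.range Q.mulVecLin)
  rw [h3, finrank_bot, add_zero] at h4
  refine h4.symm.le.trans (Submodule.finrank_mono (sup_le ?_ ?_))
  · rintro _ ⟨u, rfl⟩
    refine ⟨(4 : Ω)⁻¹ • P *ᵥ u, ?_⟩
    simp only [mulVecLin_apply, mulVec_smul, mulVec_mulVec, Matrix.add_mul, hP, h2, add_zero,
      smul_mulVec, smul_smul]
    norm_num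
  · rintro _ ⟨u, rfl⟩
    refine ⟨(4 : Ω)⁻¹ • Q *ᵥ u, ?_⟩
    simp only [mulVecLin_apply, mulVec_smul, mulVec_mulVec, Matrix.add_mul, hQ, h1, zero_add,
      smul_mulVec, smul_smul]
    norm_num

theorem d3_sim {x y : Mat d Ω} {μ ν : Ω} (sx : xᵀ * B * x = μ • B) (sy : yᵀ * B * y = ν • B) :
    (x * y)ᵀ * B * (x * y) = (μ * ν) • B := by
  have e : (x * y)ᵀ * B * (x * y) = yᵀ * (xᵀ * B * x) * y := by
    simp only [transpose_mul, Matrix.mul_assoc]
  rw [e, sx, Matrix.mul_smul, Matrix.smul_mul, sy, smul_smul]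

theorem d3_kl {x a c : Mat d Ω} (hB : Bᵀ = -B) (hB0 : B.det ≠ 0) (hx : x * (x * x) = 1)
    (ha : a * a = 1) (hc : c * c = 1) (hca : c * a = a * c) (h1 : a ≠ 1)
    (x1 : x * a = a * c * x) (x2 : x * (a * c) = c * x) (x3 : x * c = a * x)
    (sa : aᵀ * B = B * a) (sc : cᵀ * B = B * c) :
    6 ≤ ((1 - a) + (1 - c) + (1 - a * c)).rank := by
  have ha' : ∀ z, a * (a * z) = z := fun z => by rw [← mul_assoc, ha, one_mul]
  have hc' : ∀ z, c * (c * z) = z := fun z => by rw [← mul_assoc, hc, one_mul]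
  have hca' : ∀ z, c * (a * z) = a * (c * z) := fun z => by rw [← mul_assoc, hca, mul_assoc]
  have sb : (a * c)ᵀ * B = B * (a * c) := by
    rw [transpose_mul, mul_assoc, sa, ← mul_assoc, sc, mul_assoc, hca]
  have can : ∀ F F' : Mat d Ω, x * F = F' * x → F = 0 → F' = 0 := fun F F' e k => by
    rw [← mul_one F', ← hx, ← mul_assoc, ← e, k, mul_zero, zero_mul]
  have c1 := can (1 + a - c - a * c) (1 - a - c + a * c) (by
    simp only [mul_add, mul_sub, add_mul, sub_mul, x1, x2, x3, mul_one, one_mul]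
    abel)
  have c2 := can (1 - a - c + a * c) (1 - a + c - a * c) (by
    simp only [mul_add, mul_sub, add_mul, sub_mul, x1, x2, x3, mul_one, one_mul]
    abel)
  have c3 := can (1 - a + c - a * c) (1 + a - c - a * c) (by
    simp only [mul_add, mul_sub, add_mul, sub_mul, x1, x2, x3, mul_one, one_mul]
    abel)
  have n2 : 1 - a - c + a * c ≠ 0 := fun k => h1 (by
    have e : (2 : Ω) • (1 - a) = (1 - a - c + a * c) + (1 - a + c - a * c) := by module
    rw [c2 k, k, add_zero] at e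
    exact (sub_eq_zero.1 ((smul_eq_zero.1 e).resolve_left two_ne_zero)).symm)
  have r1 := d3_two hB hB0 (F := 1 + a - c - a * c) (by
    simp only [transpose_add, transpose_sub, transpose_one, mul_add, mul_sub, add_mul, sub_mul,
      sa, sb, sc, mul_one, one_mul]) fun k => n2 (c1 k)
  have r2 := d3_two hB hB0 (F := 1 - a - c + a * c) (by
    simp only [transpose_add, transpose_sub, transpose_one, mul_add, mul_sub, add_mul, sub_mul,
      sa, sb, sc, mul_one, one_mul]) n2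
  have r3 := d3_two hB hB0 (F := 1 - a + c - a * c) (by
    simp only [transpose_add, transpose_sub, transpose_one, mul_add, mul_sub, add_mul, sub_mul,
      sa, sb, sc, mul_one, one_mul]) fun k => n2 (c1 (c3 k))
  have o1 := d3_orth (P := 1 + a - c - a * c) (Q := 1 - a - c + a * c) ?_ ?_ ?_ ?_
  have o2 := d3_orth (P := 1 + a - c - a * c + (1 - a - c + a * c)) (Q := 1 - a + c - a * c)
    ?_ ?_ ?_ ?_
  · have e : (1 - a) + (1 - c) + (1 - a * c) =
        1 + a - c - a * c + (1 - a - c + a * c) + (1 - a + c - a * c) := by abel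
    rw [e]
    omega
  all_goals
    simp only [mul_add, mul_sub, add_mul, sub_mul, mul_one, one_mul, mul_assoc, ha, hc, hca, ha',
      hc', hca']
    module

theorem d3_lin {x y : Mat d Ω} {μ ν : Ω} (hB : Bᵀ = -B) (hB0 : B.det ≠ 0) (hx : x ^ 3 = 1)
    (hy : y ^ 3 = 1) (hxy : (x * y) ^ 2 = 1) (h1 : x * y ≠ 1) (rx : (x - 1).rank ≤ 2)
    (ry : (y - 1).rank ≤ 2) (sx : xᵀ * B * x = μ • B) (sy : yᵀ * B * y = ν • B) : False := by
  rw [pow_three] at hx hy
  rw [sq] at hxy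
  have x3 : ∀ z, x * (x * (x * z)) = z := fun z => by
    rw [← mul_assoc x x, ← mul_assoc, mul_assoc x x x, hx, one_mul]
  have y3 : ∀ z, y * (y * (y * z)) = z := fun z => by
    rw [← mul_assoc y y, ← mul_assoc, mul_assoc y y y, hy, one_mul]
  have r1 : ∀ z, x * (y * (x * (y * z))) = z := fun z => by
    rw [← mul_assoc, ← mul_assoc x y z, ← mul_assoc, hxy, one_mul]
  have r2 : ∀ z, y * (x * (y * (x * z))) = z := fun z => by
    rw [← x3 (y * _), r1, x3]
  have hc : y * x * (y * x) = 1 := by simpa only [mul_assoc, mul_one] using r2 1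
  have r3 : ∀ z, y * (y * z) = x * (y * (x * z)) := fun z => by
    rw [← r1 (y * (y * z)), y3]
  have hb : x * y * (y * x) * (x * y * (y * x)) = 1 := by
    simp only [mul_assoc, r3, x3, r1, hx]
  have hca : y * x * (x * y) = x * y * (y * x) := by
    generalize x * y = a at hxy hb
    generalize y * x = c at hc hb
    calc c * a = a * a * (c * a) * (c * c) := by rw [hxy, hc, one_mul, mul_one]
      _ = a * (a * c * (a * c)) * c := by simp only [mul_assoc]
      _ = a * c := by rw [hb, mul_one]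
  have hB1 : B ≠ 0 := by
    rintro rfl
    cases d with
    | zero => exact h1 (Subsingleton.elim _ _)
    | succ d => exact hB0 det_zero
  have one : ∀ {z : Mat d Ω} {t : Ω}, zᵀ * B * z = t • B → z = 1 → t = 1 := fun e k => by
    rw [k, transpose_one, one_mul, mul_one] at e
    exact smul_left_injective Ω hB1 (e.symm.trans (one_smul Ω B).symm)
  have m1 := one (d3_sim sx (d3_sim sx sx)) hx
  have m2 := one (d3_sim sy (d3_sim sy sy)) hy
  have m3 := one (d3_sim (d3_sim sx sy) (d3_sim sx sy)) hxy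
  have m4 : μ * ν = 1 := by
    linear_combination (ν * ν * ν) * m1 + m2 - μ * ν * m3
  have adj : ∀ {z : Mat d Ω}, zᵀ * B * z = (1 : Ω) • B → z * z = 1 → zᵀ * B = B * z :=
    fun {z} e k => by rw [← mul_one (zᵀ * B), ← k, ← mul_assoc, e, one_smul]
  have h6 := d3_kl hB hB0 hx hxy hc hca h1 (by simp only [mul_assoc, r3, hx, mul_one])
    (by simp only [mul_assoc, r3, x3]) (mul_assoc _ _ _).symm (adj (m4 ▸ d3_sim sx sy) hxy)
    (adj ((mul_comm ν μ).trans m4 ▸ d3_sim sy sx) hc)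
  have e : (1 - x * y) + (1 - y * x) + (1 - x * y * (y * x)) =
      (x - 1) * -(y + 2 + y * (y * x)) + (y - 1) * -(1 + 2 * x + y * x) := by
    noncomm_ring
  have h7 := d3_add ((x - 1) * -(y + 2 + y * (y * x))) ((y - 1) * -(1 + 2 * x + y * x))
  have h8 := rank_mul_le_left (x - 1) (-(y + 2 + y * (y * x)))
  have h9 := rank_mul_le_left (y - 1) (-(1 + 2 * x + y * x))
  rw [e] at h6
  omega

theorem d3_fix {x y : Mat d Ω} (hd : 5 ≤ d) (rx : (x - 1).rank ≤ 2) (ry : (y - 1).rank ≤ 2) :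
    ∃ v, v ≠ 0 ∧ x *ᵥ v = v ∧ y *ᵥ v = v := by
  have h1 := LinearMap.finrank_range_add_finrank_ker (x - 1).mulVecLin
  have h2 := LinearMap.finrank_range_add_finrank_ker (y - 1).mulVecLin
  have h3 := Submodule.finrank_sup_add_finrank_inf_eq (LinearMap.ker (x - 1).mulVecLin)
    (LinearMap.ker (y - 1).mulVecLin)
  have h4 := Submodule.finrank_le (LinearMap.ker (x - 1).mulVecLin ⊔
    LinearMap.ker (y - 1).mulVecLin)
  rw [Module.finrank_fin_fun] at h1 h2 h4
  rw [Matrix.rank] at rx ry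
  obtain ⟨v, ⟨k1, k2⟩, hv⟩ := Submodule.exists_mem_ne_zero_of_ne_bot
    (p := LinearMap.ker (x - 1).mulVecLin ⊓ LinearMap.ker (y - 1).mulVecLin) fun e => by
      rw [e, finrank_bot] at h3
      omega
  refine ⟨v, hv, ?_, ?_⟩
  · simpa [sub_mulVec, sub_eq_zero] using k1
  · simpa [sub_mulVec, sub_eq_zero] using k2

theorem d3_cube (h2 : (2 : ResidueField O) = 0) (hd : 0 < d) {M : Mat d Ω}
    {N : Mat d (ResidueField O)} (h : Lift O M N) (hN : N ^ 3 = 1) {c : Ω} (hM : M ^ 3 = c • 1) :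
    ∃ s : Ω, Lift O (s • M) N ∧ (s • M) ^ 3 = 1 := by
  have h3 := Lift.one.sub (h.mul (h.mul h))
  rw [← pow_three, ← pow_three, hM, hN, sub_self] at h3
  obtain ⟨X, h4, h5⟩ := h3
  have h6 : O.valuation (1 - c) < 1 := by
    have e1 : (X ⟨0, hd⟩ ⟨0, hd⟩ : Ω) = 1 - c := by
      simpa using congrFun (congrFun h4 ⟨0, hd⟩) ⟨0, hd⟩
    rw [← e1, ← O.valuation_lt_one_iff, ← residue_eq_zero_iff]
    exact congrFun (congrFun h5 ⟨0, hd⟩) ⟨0, hd⟩
  obtain ⟨t, ht, hv⟩ : ∃ t : Ω, t ^ 3 = c ∧ O.valuation (1 - t) < 1 := by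
    obtain ⟨t, ht⟩ := IsAlgClosed.exists_pow_nat_eq c (n := 3) (by decide)
    obtain ⟨r, hr⟩ := IsAlgClosed.exists_pow_nat_eq (-3 : Ω) (n := 2) (by decide)
    by_contra! k
    have e : 1 - c = (1 - t) * ((1 - (r - 1) / 2 * t) * (1 - (-r - 1) / 2 * t)) := by
      linear_combination ht + (t ^ 2 - t ^ 3) / 4 * hr
    rw [e, map_mul, map_mul] at h6
    refine h6.not_ge (one_le_mul (k t ht) (one_le_mul (k _ ?_) (k _ ?_)))
    · linear_combination ht + t ^ 3 * (r - 3) / 8 * hr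
    · linear_combination ht + t ^ 3 * (-r - 3) / 8 * hr
  have h7 : O.valuation t = 1 := by simpa using O.valuation.map_one_sub_of_lt hv
  have h8 : t ≠ 0 := fun e => by simp [e] at h7
  have h9 : t⁻¹ ∈ O := (O.valuation_le_one_iff _).1 (by simp [h7])
  have h10 : residue O ⟨t⁻¹, h9⟩ = 1 := by
    rw [← sub_eq_zero, ← map_one (residue O), ← map_sub, residue_eq_zero_iff,
      O.valuation_lt_one_iff]
    have e : ((⟨t⁻¹, h9⟩ - 1 : O) : Ω) = t⁻¹ * (1 - t) := by
      push_cast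
      field_simp
    rwa [e, map_mul, map_inv₀, h7, inv_one, one_mul]
  refine ⟨t⁻¹, by simpa [h10] using h.smul ⟨t⁻¹, h9⟩, ?_⟩
  rw [smul_pow, hM, smul_smul, ← ht, ← mul_pow, inv_mul_cancel₀ h8, one_pow, one_smul]

theorem d3_rl {M : Mat d Ω} {N : Mat d (ResidueField O)} (h : Lift O M N) : N.rank ≤ M.rank := by
  let β := Module.finBasis (ResidueField O) (LinearMap.range N.mulVecLin)
  choose u hu using fun e => (β e).2
  choose U hU using fun e => exists_lift (O := O) (replicateCol Unit (u e))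
  let φ : Matrix (Fin d) Unit (ResidueField O) →ₗ[ResidueField O] Fin d → ResidueField O :=
    ⟨⟨fun X i => X i (), fun _ _ => rfl⟩, fun _ _ => rfl⟩
  have h1 : LinearIndependent (ResidueField O) fun e => N * replicateCol Unit (u e) := by
    refine LinearIndependent.of_comp φ ?_
    have k := β.linearIndependent.map' _ (Submodule.ker_subtype _)
    have k2 : φ ∘ (fun e => N * replicateCol Unit (u e)) = Submodule.subtype _ ∘ β :=
      funext fun e => hu e
    rwa [k2]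
  have h2 := lift_li (fun e => h.mul (hU e)) h1
  let ψ : (Fin d → Ω) →ₗ[Ω] Matrix (Fin d) Unit Ω :=
    ⟨⟨fun v i _ => v i, fun _ _ => rfl⟩, fun _ _ => rfl⟩
  have h3 : LinearIndependent Ω fun e =>
      (⟨_, fun i => U e i (), rfl⟩ : LinearMap.range M.mulVecLin) :=
    LinearIndependent.of_comp (ψ ∘ₗ Submodule.subtype _) h2
  exact (Fintype.card_fin _).ge.trans h3.fintype_card_le_finrank

theorem d3_rank (h2 : (2 : ResidueField O) = 0) {M : Mat d Ω} {N : Mat d (ResidueField O)}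
    (h : Lift O M N) (hM : M ^ 3 = 1) : (M - 1).rank ≤ (N - 1).rank := by
  have h1 := d3_rl ((Lift.one.add h).add (h.mul h))
  have h3 := rank_add_rank_le_card_of_mul_eq_zero (A := M - 1) (B := 1 + M + M * M) (by
    rw [← sub_eq_zero.2 hM]
    noncomm_ring)
  have h4 := d3_add (1 + N + N * N) ((N - 1) * -N)
  have h5 : (1 + N + N * N) + (N - 1) * -N = 1 + (2 : ResidueField O) • N := by
    rw [two_smul]
    noncomm_ring
  rw [h5, h2, zero_smul, add_zero, rank_one] at h4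
  have h6 := rank_mul_le_left (N - 1) (-N)
  omega

theorem d3_hm {κ : Type} [Field κ] (a b c e : Fin (d + 1)) :
    (Hm κ (swap a b * swap c e) - 1).rank ≤ 2 := by
  have h : Hm κ (swap a b * swap c e) - 1 =
      Eo κ a b a b * (Eo κ c e c e - 1) + Eo κ c e c e * -1 := by
    rw [map_mul, Hm_swap, Hm_swap]
    noncomm_ring
  rw [h]
  exact (d3_add _ _).trans (add_le_add ((rank_mul_le_left _ _).trans (rank_vecMulVec_le _ _))
    ((rank_mul_le_left _ _).trans (rank_vecMulVec_le _ _)))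

theorem d3_gen (h2 : (2 : ResidueField O) = 0) (hR : Rq O R pm) (hd : 6 ≤ d)
    (hs : ∀ γ, ∃ ν : Ω, (R γ)ᵀ * B * R γ = ν • B) (hk : ∀ γ, pm γ = 1 → ∃ c : Ω, R γ = c • 1)
    {a b c : Fin (d + 1)} (h1 : a ≠ b) (h3 : a ≠ c) (h4 : b ≠ c) :
    ∃ (γ : Γ) (s μ : Ω), pm γ = swap a b * swap a c ∧ Lift O (s • R γ) (Hm _ (pm γ)) ∧
      (s • R γ) ^ 3 = 1 ∧ (s • R γ - 1).rank ≤ 2 ∧ (s • R γ)ᵀ * B * (s • R γ) = μ • B := by
  have h5 := Perm.isThreeCycle_swap_mul_swap_same h1 h3 h4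
  obtain ⟨γ, hγ⟩ := hR.big.alt h5.mem_alternatingGroup
  have h6 : pm γ ^ 3 = 1 := by rw [hγ, ← h5.orderOf, pow_orderOf_eq_one]
  obtain ⟨t, ht⟩ := hk (γ ^ 3) (by rw [map_pow, h6])
  obtain ⟨s, k1, k2⟩ := d3_cube h2 (by omega) (hR.lift γ) (by rw [← map_pow, h6, map_one])
    (c := t) (by rw [← map_pow, ht])
  obtain ⟨ν, hν⟩ := hs γ
  refine ⟨γ, s, s * s * ν, hγ, k1, k2, (d3_rank h2 k1 k2).trans (hγ ▸ d3_hm _ _ _ _), ?_⟩
  rw [transpose_smul, Matrix.smul_mul, Matrix.smul_mul, Matrix.mul_smul, hν, smul_smul, smul_smul]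

theorem klein (h2 : (2 : ResidueField O) = 0) (hR : Rq O R pm) (hd : 6 ≤ d) (hB : Bᵀ = -B)
    (hB0 : B.det ≠ 0) (hs : ∀ γ, ∃ ν : Ω, (R γ)ᵀ * B * R γ = ν • B)
    (hk : ∀ γ, pm γ = 1 → ∃ c : Ω, R γ = c • 1) : False := by
  obtain ⟨i, j, c, e, ij, ic, ie, jc, je, ce⟩ : ∃ (i j : Fin d) (c e : Fin (d + 1)),
      Dis i.castSucc j.castSucc c e :=
    ⟨⟨0, by omega⟩, ⟨1, by omega⟩, ⟨2, by omega⟩, ⟨3, by omega⟩, by simp [Dis, Fin.ext_iff]⟩
  obtain ⟨γ, s, μ, g1, g2, g3, g4, g5⟩ := d3_gen h2 hR hd hs hk ij ic jc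
  obtain ⟨δ, t, ν, d1, d2, d3, d4, d5⟩ := d3_gen h2 hR hd hs hk ic.symm ce ie
  have h1 : pm γ * pm δ = swap i.castSucc j.castSucc * swap c e := by
    rw [g1, d1, swap_comm c, mul_assoc, swap_mul_self_mul]
  have h3 : (pm γ * pm δ) ^ 2 = 1 := by
    rw [h1, sq, mul_assoc, ← mul_assoc (swap c e), mul_swap_eq_swap_mul (swap c e),
      swap_apply_of_ne_of_ne ic ie, swap_apply_of_ne_of_ne jc je, mul_assoc,
      Equiv.swap_mul_self, mul_one, Equiv.swap_mul_self]
  obtain ⟨r, hr⟩ := hk ((γ * δ) ^ 2) (by rw [map_pow, map_mul, h3])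
  have h4 : (s • R γ * t • R δ) ^ 2 = ((s * t) ^ 2 * r) • 1 := by
    rw [Matrix.smul_mul, Matrix.mul_smul, smul_smul, smul_pow, ← map_mul, ← map_pow, hr, smul_smul]
  obtain ⟨v, hv, v1, v2⟩ := d3_fix (by omega) g4 d4
  have h5 : (s * t) ^ 2 * r = 1 := by
    have e1 := congrArg (· *ᵥ v) h4
    simp only [sq, ← mulVec_mulVec, v1, v2] at e1
    rw [smul_mulVec, one_mulVec, ← sq] at e1
    exact smul_left_injective Ω hv (e1.symm.trans (one_smul Ω v).symm)
  refine d3_lin hB hB0 g3 d3 (by rw [h4, h5, one_smul]) (fun k => ij ?_) g4 d4 g5 d5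
  have h6 := g2.mul d2
  rw [k, ← map_mul, h1] at h6
  have h7 := Hm_qv (ResidueField O) (swap i.castSucc j.castSucc * swap c e) i.castSucc
  rw [h6.unique Lift.one, one_mulVec, Perm.mul_apply, swap_apply_of_ne_of_ne ic ie,
    swap_apply_left, qv_castSucc, qv_castSucc] at h7
  by_contra hne
  have h8 := congrFun h7 i
  rw [Pi.single_eq_same, Pi.single_eq_of_ne fun q => hne (congrArg _ q)] at h8
  exact one_ne_zero h8

end Pool.Agent.Lib.MP_d61fbb_ag.DW
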