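import Pool.Agent.Lib.MP_d61fbb_ag.DW.D4a
import Pool.Agent.Lib.MP_d61fbb_ag.SQ.L3
import Pool.Agent.Lib.MP_d61fbb_ag.SQ.G9

/-! The symplectic Lie algebra from a long cycle. -/

set_option autoImplicit false

noncomputable section

namespace Pool.Agent.Lib.MP_d61fbb_ag.DW

open Matrix Equiv IsLocalRing Pool.Agent.Lib.MP_d61fbb_ag.SQ

variable {Ω : Type} [Field Ω] [CharZero Ω] [IsAlgClosed Ω] {O : ValuationSubring Ω} {d : ℕ}
  {Γ : Type} [Group Γ] {R : Γ →* Mat d Ω} {pm : Γ →* Perm (Fin (d + 1))} {B : Mat d Ω}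
  {W : Submodule Ω (Mat d Ω)}

theorem d4_row {κ : Type} [Field κ] {J : Mat d κ} (hJ : J.det ≠ 0) (i : Fin d) :
    ∃ j, J i j ≠ 0 := by
  by_contra k
  push Not at k
  exact hJ (det_eq_zero_of_row_eq_zero i k)

theorem d4_det {κ : Type} [Field κ] {S T G : Mat d κ} (h : S * T = 1) (hG : G.det ≠ 0) :
    (Sᵀ * G * S).det ≠ 0 := by
  have e : S.det ≠ 0 := det_ne_zero_of_right_inverse h
  rw [det_mul, det_mul, det_transpose]
  exact mul_ne_zero (mul_ne_zero e hG) e

theorem d4_sim {κ : Type} [Field κ] {M S G : Mat d κ} {w : Fin d → κ} {ν : κ}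
    (h : M * S = S * diagonal w) (hG : Mᵀ * G * M = ν • G) {i j : Fin d}
    (k : (Sᵀ * G * S) i j ≠ 0) : w i * w j = ν := by
  have e : Sᵀ * (Mᵀ * G * M) * S = (M * S)ᵀ * G * (M * S) := by
    simp only [transpose_mul, mul_assoc]
  rw [hG, h, transpose_mul, diagonal_transpose, Matrix.mul_smul, smul_mul_assoc, mul_assoc _ Sᵀ,
    mul_assoc (diagonal w), ← mul_assoc _ S, ← mul_assoc (diagonal w)] at e
  have e1 := congrFun (congrFun e i) j
  rw [mul_diagonal, diagonal_mul, Matrix.smul_apply, smul_eq_mul] at e1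
  exact mul_right_cancel₀ k (by linear_combination -e1)

theorem d4_rev {κ : Type} [Field κ] {z : κ} (hz : IsPrimitiveRoot z (d + 1)) (j : Fin d) :
    z ^ ((j : ℕ) + 1) * z ^ ((j.rev : ℕ) + 1) = 1 := by
  rw [← pow_add, Fin.val_rev, ← hz.pow_eq_one]
  congr 1
  omega

theorem d4_eq {κ : Type} [Field κ] {z : κ} (hz : IsPrimitiveRoot z (d + 1)) {i j : Fin d}
    (h : z ^ ((i : ℕ) + 1) * z ^ ((j : ℕ) + 1) = 1) : j = i.rev :=
  Fin.ext (Nat.succ_injective (hz.pow_inj (by omega) (by omega)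
    (mul_left_cancel₀ (left_ne_zero_of_mul_eq_one h) (h.trans (d4_rev hz i).symm))))

theorem d4_one {κ : Type} [Field κ] {z n : κ} (hz : IsPrimitiveRoot z (d + 1)) (i : Fin d)
    (h : ∀ i : Fin d, ∃ j : Fin d, z ^ ((i : ℕ) + 1) * z ^ ((j : ℕ) + 1) = n) : n = 1 := by
  obtain ⟨j, e⟩ := h i
  obtain ⟨k, k1, k2⟩ := hz.eq_pow_of_pow_eq_one (ξ := n) (by
    rw [← e, ← pow_add, ← pow_mul, mul_comm, pow_mul, hz.pow_eq_one, one_pow])
  rcases k with _ | k
  · rw [← k2, pow_zero]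
  obtain ⟨j, e⟩ := h ⟨k, by omega⟩
  exact absurd ((mul_eq_left₀ (pow_ne_zero _ (hz.ne_zero d.succ_ne_zero))).1 (e.trans k2.symm))
    (hz.pow_ne_one_of_pos_of_lt (by omega) (by omega))

theorem d4_sym {κ : Type} [Field κ] {J E : Mat d κ} (hJ : Jᵀ = -J) (h0 : J.det ≠ 0)
    (h : Eᵀ * J + J * E = 0) : (E * J⁻¹)ᵀ = E * J⁻¹ := by
  have e1 := mul_nonsing_inv J h0.isUnit
  have e2 : J⁻¹ᵀ * J = -1 := by
    rw [← neg_eq_iff_eq_neg, ← mul_neg, ← hJ, ← transpose_mul, e1, transpose_one]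
  rw [transpose_mul, ← mul_one Eᵀ, ← e1, ← mul_assoc Eᵀ, eq_neg_of_add_eq_zero_left h,
    ← mul_assoc, mul_neg, ← mul_assoc, e2]
  simp

theorem sp_le (hR : Rq O R pm) (he : Even d) (hd : 6 ≤ d) (hB : Bᵀ = -B) (hB0 : B.det ≠ 0)
    (hs : ∀ γ, ∃ ν : Ω, (R γ)ᵀ * B * R γ = ν • B) (hbr : Br W) (had : Ad R W)
    (hg : ∀ X ∈ W, ∃ t : Ω, Xᵀ * B + B * X = t • B)
    (hw : ∀ x y : Fin d → ResidueField O, x ⬝ᵥ Gm _ d *ᵥ y = 0 → wedge x y ∈ red O W)
    {X : Mat d Ω} (hX : Xᵀ * B + B * X = 0) : X ∈ W := by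
  classical
  obtain ⟨_, ⟨γ, rfl⟩, -, hπ⟩ := hR.big.exists_cyc
  obtain ⟨z, hz⟩ := l3_prim hR.dim
  obtain ⟨M, hM, hH⟩ := hR.lift γ
  obtain ⟨ν, hν⟩ := hs γ
  have hMN : R γ * R γ⁻¹ = 1 := by rw [← map_mul, mul_inv_cancel, map_one]
  obtain ⟨α, S, T, hα, hST, hTS, hMS⟩ := l3_diag M (w := fun j => z ^ (j.1 + 1))
    (fun i j e => Fin.ext (Nat.succ_injective (hz.pow_inj (by omega) (by omega) e)))
    fun j => hH ▸ l3_eig (hπ he.add_one)
      (by rw [← pow_mul, mul_comm, pow_mul, hz.pow_eq_one, one_pow])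
      (hz.pow_ne_one_of_pos_of_lt (by omega) (by omega))
  have hα0 : ∀ j, O.subtype (α j) ≠ 0 := fun j e => by
    have e1 := d4_rev hz j
    rw [← hα j, show α j = 0 from Subtype.ext e, map_zero, zero_mul] at e1
    exact zero_ne_one e1
  have mp : ∀ {F : Type} [CommRing F] (φ : O →+* F), S.map φ * T.map φ = 1 ∧
      T.map φ * S.map φ = 1 ∧ M.map φ * S.map φ = S.map φ * diagonal fun j => φ (α j) := by
    intro F _ φ
    refine ⟨?_, ?_, ?_⟩
    · rw [← Matrix.map_mul, hST, Matrix.map_one _ (map_zero φ) (map_one φ)]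
    · rw [← Matrix.map_mul, hTS, Matrix.map_one _ (map_zero φ) (map_one φ)]
    · rw [← Matrix.map_mul, hMS, Matrix.map_mul, diagonal_map (map_zero φ)]
  obtain ⟨a1, a2, a3⟩ := mp O.subtype
  obtain ⟨b1, b2, b3⟩ := mp (residue O)
  simp only [hα, hH] at b3
  rw [hM] at a3
  have hN : T.map O.subtype * R γ⁻¹ = diagonal (fun j => O.subtype (α j))⁻¹ * T.map O.subtype := by
    have hD : diagonal (fun j => O.subtype (α j))⁻¹ * diagonal (fun j => O.subtype (α j)) = 1 := by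
      rw [diagonal_mul_diagonal, ← diagonal_one]
      exact congrArg _ (funext fun j => inv_mul_cancel₀ (hα0 j))
    have e := congrArg (fun Y => diagonal (fun j => O.subtype (α j))⁻¹ * T.map O.subtype * Y) hMN
    rw [← mul_one (R γ), ← a1, ← mul_assoc (R γ), a3] at e
    simp only [← mul_assoc] at e
    rwa [mul_assoc _ _ (S.map O.subtype), a2, mul_one, hD, one_mul] at e
  have back : ∀ Y : Mat d Ω, S.map O.subtype * (T.map O.subtype * Y * S.map O.subtype) *
      T.map O.subtype = Y := fun Y => by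
    rw [← mul_assoc, ← mul_assoc, a1, one_mul, mul_assoc, a1, mul_one]
  have back' : ∀ Y : Mat d Ω, T.map O.subtype * (S.map O.subtype * Y * T.map O.subtype) *
      S.map O.subtype = Y := fun Y => by
    rw [← mul_assoc, ← mul_assoc, a2, one_mul, mul_assoc, a2, mul_one]
  have G0 : ∀ i j : Fin d, j ≠ i.rev →
      ((S.map (residue O))ᵀ * Gm (ResidueField O) d * S.map (residue O)) i j = 0 :=
    fun i j hij => by_contra fun k =>
      hij (d4_eq hz (d4_sim b3 ((Hm_Gm _).trans (one_smul _ _).symm) k))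
  have G1 : ∀ i : Fin d, ((S.map (residue O))ᵀ * Gm (ResidueField O) d * S.map (residue O))
      i i.rev ≠ 0 := fun i k => by
    obtain ⟨j, hj⟩ := d4_row (d4_det b1 (Gm_det hR.dim)) i
    exact hj (by_contra fun c => c (G0 i j fun e => c (e ▸ k)))
  have hJ0 := d4_det a1 hB0
  have hJ : ((S.map O.subtype)ᵀ * B * S.map O.subtype)ᵀ =
      -((S.map O.subtype)ᵀ * B * S.map O.subtype) := by
    rw [transpose_mul, transpose_mul, transpose_transpose, hB, neg_mul, mul_neg, mul_assoc]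
  have sim : ∀ i j, ((S.map O.subtype)ᵀ * B * S.map O.subtype) i j ≠ 0 →
      O.subtype (α i * α j) = ν := fun i j k => (map_mul _ _ _).trans (d4_sim a3 hν k)
  have J0 : ∀ i j : Fin d, j ≠ i.rev → ((S.map O.subtype)ᵀ * B * S.map O.subtype) i j = 0 :=
    fun i j hij => by_contra fun k => hij (d4_eq hz (d4_one hz i fun i' => by
      obtain ⟨j', k'⟩ := d4_row hJ0 i'
      refine ⟨j', ?_⟩
      rw [← hα, ← hα, ← hα, ← hα, ← map_mul, ← map_mul,
        O.subtype_injective ((sim _ _ k').trans (sim _ _ k).symm)]))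
  have J1 : ∀ i : Fin d, ((S.map O.subtype)ᵀ * B * S.map O.subtype) i i.rev ≠ 0 := fun i k => by
    obtain ⟨j, hj⟩ := d4_row hJ0 i
    exact hj (by_contra fun c => c (J0 i j fun e => c (e ▸ k)))
  have key := d4_comb (W := W.comap (LinearMap.mulLeftRight Ω (S.map O.subtype, T.map O.subtype)))
    he hd hJ J0 J1 (fun Y hY Z hZ => ?_) (fun a b hab hab' => d4_pair (O := O) he hJ J0 J1 hz hα
      (fun i => sim _ _ (J1 i)) (fun Y hY c => ?_) (fun Y hY => ?_) (fun a b _ hab' => ?_) hab hab')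
    (d4_sym hJ hJ0 (E := T.map O.subtype * X * S.map O.subtype)
      ((l3_conj (t := 0) a2 (by rw [back, hX, zero_smul])).trans (zero_smul _ _)))
  · rwa [nonsing_inv_mul_cancel_right _ _ hJ0.isUnit, Submodule.mem_comap,
      LinearMap.mulLeftRight_apply, back] at key
  · have e : ∀ Y Z : Mat d Ω, S.map O.subtype * Y * T.map O.subtype *
        (S.map O.subtype * Z * T.map O.subtype) = S.map O.subtype * (Y * Z) * T.map O.subtype :=
      fun Y Z => by
        rw [mul_assoc _ (T.map O.subtype), ← mul_assoc (T.map O.subtype),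
          ← mul_assoc (T.map O.subtype), a2, one_mul]
        simp only [mul_assoc]
    have k := hbr _ hY _ hZ
    simp only [LinearMap.mulLeftRight_apply] at k
    rwa [e, e, ← sub_mul, ← mul_sub] at k
  · have k := l3_mask a1 a3 hN (had γ) hY c
    rw [LinearMap.mulLeftRight_apply, back'] at k
    exact k
  · obtain ⟨t, ht⟩ := hg _ hY
    exact ⟨t, l3_conj a2 ht⟩
  · have e0 : (S.map (residue O)).col a ⬝ᵥ Gm _ d *ᵥ (S.map (residue O)).col b = 0 := by
      rw [← G0 a b hab', mul_assoc, ← mulVec_single_one _ b, mulVec_mulVec, mulVec_single_one]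
      rfl
    obtain ⟨_, hY, Y, rfl, hY'⟩ := hw _ _ e0
    have e1 := l3_wedge b2 G0 a b
    rw [← hY', ← Matrix.map_mul, ← Matrix.map_mul] at e1
    have e2 := G1 b.rev
    rw [Fin.rev_rev] at e2
    refine ⟨_, _, e2, _, ?_, T * Y * S, rfl, e1⟩
    rwa [Submodule.mem_comap, LinearMap.mulLeftRight_apply, Matrix.map_mul, Matrix.map_mul, back]

end Pool.Agent.Lib.MP_d61fbb_ag.DW
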