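import Pool.Agent.Lib.MP_d61fbb_ag.SQ.L0

/-! Weight vectors of the symplectic Lie algebra. -/

set_option autoImplicit false

noncomputable section

namespace Pool.Agent.Lib.MP_d61fbb_ag.DW

open Matrix Equiv IsLocalRing Pool.Agent.Lib.MP_d61fbb_ag.SQ

variable {Ω : Type} [Field Ω] [CharZero Ω] {O : ValuationSubring Ω} {d : ℕ} {J : Mat d Ω}
  {W : Submodule Ω (Mat d Ω)}

/-- The nonzero residue attached to an index. -/
def lab (i : Fin d) : ZMod (d + 1) := (i : ℕ) + 1

theorem lab_inj : Function.Injective (lab (d := d)) := fun i j h => by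
  have h1 := (ZMod.natCast_eq_natCast_iff' i j (d + 1)).1 (add_right_cancel h)
  rw [Nat.mod_eq_of_lt (by omega), Nat.mod_eq_of_lt (by omega)] at h1
  exact Fin.ext h1

theorem lab_ne (i : Fin d) : lab i ≠ 0 := fun h => by
  have h1 : (((i : ℕ) + 1 : ℕ) : ZMod (d + 1)) = 0 := by rw [Nat.cast_succ]; exact h
  have := Nat.le_of_dvd (Nat.succ_pos _) ((ZMod.natCast_eq_zero_iff _ _).1 h1)
  omega

theorem lab_rev (i : Fin d) : lab i + lab i.rev = 0 := by
  have h1 : (i : ℕ) + 1 + ((i.rev : ℕ) + 1) = d + 1 := by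
    have := i.2
    rw [Fin.val_rev]
    omega
  have h2 := congrArg (Nat.cast : ℕ → ZMod (d + 1)) h1
  rw [ZMod.natCast_self] at h2
  rw [← h2, lab, lab]
  push_cast
  rfl

theorem lab_add_ne {i j : Fin d} : lab i + lab j ≠ 0 ↔ j ≠ i.rev :=
  ⟨fun h e => h (e ▸ lab_rev i), fun h e => h (lab_inj (add_left_cancel (e.trans (lab_rev i).symm)))⟩

theorem lab_surj {x : ZMod (d + 1)} (h : x ≠ 0) : ∃ i, lab i = x := by
  have h1 : x.val < d + 1 := ZMod.val_lt x
  have h2 : x.val ≠ 0 := mt (ZMod.val_eq_zero x).1 h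
  refine ⟨⟨x.val - 1, by omega⟩, ?_⟩
  rw [lab, ← Nat.cast_succ, show (x.val - 1).succ = x.val by omega, ZMod.natCast_zmod_val]

theorem lab_half (he : Even d) : ∃ u : ZMod (d + 1), 2 * u = 1 := by
  obtain ⟨m, hm⟩ := he
  refine ⟨((m + 1 : ℕ) : ZMod (d + 1)), ?_⟩
  have h1 : ((d + 1 : ℕ) : ZMod (d + 1)) = 0 := ZMod.natCast_self _
  have h2 : ((d + 1 : ℕ) : ZMod (d + 1)) = ((m + m + 1 : ℕ) : ZMod (d + 1)) := by rw [← hm]
  rw [h1] at h2
  push_cast at h2 ⊢
  linear_combination -h2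

omit [CharZero Ω] in
theorem d4_mulJ (h0 : ∀ i j, j ≠ i.rev → J i j = 0) (Y : Mat d Ω) (i j : Fin d) :
    (Y * J) i j.rev = Y i j * J j j.rev := by
  rw [mul_apply, Finset.sum_eq_single j (fun k _ hk => by
    rw [h0 k _ (mt Fin.rev_inj.1 hk.symm), mul_zero]) (by simp)]

theorem d4_diag (he : Even d) (hd : 6 ≤ d) (hJ : Jᵀ = -J) (h0 : ∀ i j, j ≠ i.rev → J i j = 0)
    (h1 : ∀ i, J i i.rev ≠ 0) (hbr : Br W)
    (h : ∀ a b : Fin d, a ≠ b → b ≠ a.rev → ∃ (c : Fin d) (t : Ω),
      lab c + lab c = lab a + lab b ∧ (single a b 1 + single b a 1 + single c c t) * J ∈ W)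
    (a : Fin d) : single a a 1 * J ∈ W := by
  classical
  obtain ⟨u, hu⟩ := lab_half he
  obtain ⟨_, k1, k2⟩ := Finset.exists_mem_notMem_of_card_lt_card
    (s := {lab a, -lab a, 3 * lab a, -(3 * lab a)}) (t := Finset.univ.image lab) (by
      rw [Finset.card_image_of_injective _ lab_inj, Finset.card_fin]
      exact Finset.card_le_four.trans_lt (by omega))
  obtain ⟨b, -, rfl⟩ := Finset.mem_image.1 k1
  simp only [Finset.mem_insert, Finset.mem_singleton, not_or] at k2
  obtain ⟨n1, n2, n3, n4⟩ := k2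
  have e := lab_rev b
  have n0 := lab_ne a
  obtain ⟨c, t, hc, y1⟩ := h a b (fun k => n1 (k ▸ rfl))
    (lab_add_ne.1 fun k => n2 (by linear_combination k))
  obtain ⟨c', t', hc', y2⟩ := h a b.rev (fun k => n2 (by rw [k]; linear_combination e))
    (lab_add_ne.1 fun k => n1 (by linear_combination e - k))
  have z : ∀ {x y : Fin d}, lab x + lab y ≠ 0 → J x y = 0 ∧ J y x = 0 := fun {x y} k => by
    refine ⟨h0 _ _ fun q => k (q ▸ lab_rev x), h0 _ _ fun q => k ?_⟩
    rw [q]
    exact (add_comm _ _).trans (lab_rev y)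
  have z1 := z (x := b) (y := a) fun k => n2 (by linear_combination k)
  have z2 := z (x := b) (y := c') fun k => n2 (by
    linear_combination 2 * k - hc' - e)
  have z3 := z (x := a) (y := a) fun k => n0 (by linear_combination u * k - lab a * hu)
  have z4 := z (x := a) (y := b.rev) fun k => n1 (by linear_combination e - k)
  have z5 := z (x := a) (y := c') fun k => n3 (by linear_combination e + hc' - 2 * k)
  have z6 := z (x := c) (y := a) fun k => n4 (by linear_combination 2 * k - hc)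
  have z7 := z (x := c) (y := b.rev) fun k => n1 (by linear_combination 2 * e + hc - 2 * k)
  have z8 := z (x := c) (y := c') fun k => n0 (by
    linear_combination u * (2 * k - hc - hc' - e) - lab a * hu)
  have sk : J b.rev b = -J b b.rev := congrFun (congrFun hJ b) b.rev
  have y3 := hbr _ y1 _ y2
  rw [← mul_assoc, ← mul_assoc, ← sub_mul] at y3
  simp only [add_mul, mul_add, single_mul_mul_single, z1.1, z1.2, z2.1, z2.2, z3.1, z4.1, z4.2,
    z5.1, z5.2, z6.1, z6.2, z7.1, z7.2, z8.1, z8.2, sk, mul_zero, zero_mul, single_zero, add_zero,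
    zero_add, mul_one, one_mul] at y3
  have y4 := W.smul_mem (2 * J b b.rev)⁻¹ y3
  rw [← Matrix.smul_mul] at y4
  refine (congrArg (· * J ∈ W) ?_).mp y4
  have := h1 b
  ext i j
  simp only [single_apply, Matrix.smul_apply, Matrix.sub_apply, smul_eq_mul]
  split_ifs
  · field_simp
    ring
  · simp

theorem d4_comb (he : Even d) (hd : 6 ≤ d) (hJ : Jᵀ = -J) (h0 : ∀ i j, j ≠ i.rev → J i j = 0)
    (h1 : ∀ i, J i i.rev ≠ 0) (hbr : Br W)
    (h : ∀ a b : Fin d, a ≠ b → b ≠ a.rev → ∃ (c : Fin d) (t : Ω),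
      lab c + lab c = lab a + lab b ∧ (single a b 1 + single b a 1 + single c c t) * J ∈ W)
    {Y : Mat d Ω} (hY : Yᵀ = Y) : Y * J ∈ W := by
  have k1 := d4_diag he hd hJ h0 h1 hbr h
  have k2 : ∀ a b : Fin d, (single a b 1 + single b a 1) * J ∈ W := fun a b => by
    by_cases e : a = b
    · rw [e, add_mul]
      exact add_mem (k1 b) (k1 b)
    by_cases e' : b = a.rev
    · have y3 := hbr _ (k1 a) _ (k1 b)
      have sk : J b a = -J a b := congrFun (congrFun hJ a) b
      rw [← mul_assoc, ← mul_assoc, ← sub_mul, single_mul_mul_single, single_mul_mul_single,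
        sk] at y3
      have y4 := W.smul_mem (J a b)⁻¹ y3
      rw [← Matrix.smul_mul] at y4
      have : J a b ≠ 0 := e' ▸ h1 a
      refine (congrArg (· * J ∈ W) ?_).mp y4
      ext i j
      simp only [single_apply, Matrix.smul_apply, Matrix.sub_apply, Matrix.add_apply, smul_eq_mul]
      split_ifs <;> field_simp <;> ring
    · obtain ⟨c, t, -, y⟩ := h a b e e'
      have y2 := sub_mem y (W.smul_mem t (k1 c))
      rwa [← Matrix.smul_mul, ← sub_mul, smul_single, smul_eq_mul, mul_one,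
        add_sub_cancel_right] at y2
  have e : Y = (2 : Ω)⁻¹ • ∑ a, ∑ b, Y a b • (single a b 1 + single b a 1 : Mat d Ω) := by
    have e1 : ∑ a, ∑ b, Y a b • (single a b 1 : Mat d Ω) = Y := by
      simpa only [smul_single, smul_eq_mul, mul_one] using (matrix_eq_sum_single Y).symm
    have e2 : ∑ a, ∑ b, Y a b • (single b a 1 : Mat d Ω) = Y := by
      rw [Finset.sum_comm]
      refine Eq.trans (Finset.sum_congr rfl fun a _ => Finset.sum_congr rfl fun b _ => ?_) e1
      rw [show Y b a = Y a b from congrFun (congrFun hY a) b]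
    simp only [smul_add, Finset.sum_add_distrib, e1, e2]
    rw [← add_smul]
    norm_num
  rw [e, Matrix.smul_mul, Finset.sum_mul]
  refine W.smul_mem _ (W.sum_mem fun a _ => ?_)
  rw [Finset.sum_mul]
  refine W.sum_mem fun b _ => ?_
  rw [Matrix.smul_mul]
  exact W.smul_mem _ (k2 a b)

omit [CharZero Ω] in
theorem d4_onto (hw : ∀ a b : Fin d, a ≠ b → b ≠ a.rev → ∃ β β' : ResidueField O, β ≠ 0 ∧
      single a b.rev β + single b a.rev β' ∈ red O W) (f : Fin d → Fin d → Ω) :
    ∃ X ∈ W, ∀ i j, i < j → j ≠ i.rev → X i j.rev = f i j := by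
  classical
  let P := {p : Fin d × Fin d // p.1 < p.2 ∧ p.2 ≠ p.1.rev}
  have k : ∀ p : P, ∃ (β β' : ResidueField O) (X : Mat d O), β ≠ 0 ∧ X.map O.subtype ∈ W ∧
      X.map (residue O) = single p.1.1 p.1.2.rev β + single p.1.2 p.1.1.rev β' := fun p => by
    obtain ⟨β, β', h1, _, h2, X, rfl, h3⟩ := hw p.1.1 p.1.2 p.2.1.ne p.2.2
    exact ⟨β, β', X, h1, h2, h3⟩
  choose β β' X h1 h2 h3 using k
  let A : Matrix P P O := of fun p q => X p q.1.1 q.1.2.rev
  have hA : A.map (residue O) = diagonal β := by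
    ext p q
    have e : residue O (X p q.1.1 q.1.2.rev) = (single p.1.1 p.1.2.rev (β p) +
        single p.1.2 p.1.1.rev (β' p) : Mat d _) q.1.1 q.1.2.rev :=
      congrFun (congrFun (h3 p) q.1.1) q.1.2.rev
    have e1 : ¬ (p.1.2 = q.1.1 ∧ p.1.1 = q.1.2) := fun k =>
      lt_asymm p.2.1 (by rw [k.1, k.2]; exact q.2.1)
    have e2 : p.1.1 = q.1.1 ∧ p.1.2 = q.1.2 ↔ p = q := by rw [Subtype.ext_iff, Prod.ext_iff]
    simp only [Matrix.add_apply, single_apply, Fin.rev_inj, e1, e2, if_false, add_zero] at e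
    rw [diagonal_apply]
    exact e
  have hd : (A.map O.subtype).det ≠ 0 := by
    have e : residue O A.det ≠ 0 := by
      rw [RingHom.map_det, RingHom.mapMatrix_apply, hA, det_diagonal]
      exact Finset.prod_ne_zero_iff.2 fun p _ => h1 p
    rw [← RingHom.mapMatrix_apply, ← RingHom.map_det]
    exact fun k => e (by rw [show A.det = 0 from Subtype.ext k, map_zero])
  obtain ⟨c, hc⟩ := vecMul_surjective_iff_isUnit.2
    ((isUnit_iff_isUnit_det _).2 (Ne.isUnit hd)) fun q : P => f q.1.1 q.1.2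
  refine ⟨∑ p, c p • (X p).map O.subtype, W.sum_mem fun p _ => W.smul_mem _ (h2 p),
    fun i j a b => ?_⟩
  rw [Matrix.sum_apply]
  exact congrFun hc ⟨(i, j), a, b⟩

omit [CharZero Ω] in
theorem d4_x (hJ : Jᵀ = -J) (h0 : ∀ i j, j ≠ i.rev → J i j = 0) (h1 : ∀ i, J i i.rev ≠ 0)
    (hg : ∀ X ∈ W, ∃ t : Ω, Xᵀ * J + J * X = t • J)
    (hw : ∀ a b : Fin d, a ≠ b → b ≠ a.rev → ∃ β β' : ResidueField O, β ≠ 0 ∧
      single a b.rev β + single b a.rev β' ∈ red O W) {Y : Mat d Ω} (hY : Yᵀ = Y) :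
    ∃ X ∈ W, ∀ i j, i ≠ j → j ≠ i.rev → X i j.rev = Y i j * J j j.rev := by
  obtain ⟨X, hX, k⟩ := d4_onto hw fun i j => Y i j * J j j.rev
  refine ⟨X, hX, fun i j a b => ?_⟩
  rcases lt_or_gt_of_ne a with c | c
  · exact k i j c b
  obtain ⟨t, ht⟩ := hg X hX
  have b' : i ≠ j.rev := fun e => b (by rw [e, Fin.rev_rev])
  have e := congrFun (congrFun ht j.rev) i.rev
  have sk : J j.rev j = -J j j.rev := congrFun (congrFun hJ j) j.rev
  rw [Matrix.add_apply, d4_mulJ h0, transpose_apply, Matrix.smul_apply, h0 j.rev i.rev (mt Fin.rev_inj.1 b'),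
    mul_apply, Finset.sum_eq_single j (fun l _ hl => by
      rw [h0 j.rev l (by rwa [Fin.rev_rev]), zero_mul]) (by simp), sk, k j i c b',
    show Y j i = Y i j from congrFun (congrFun hY i) j, smul_zero] at e
  exact mul_right_cancel₀ (h1 i) (by linear_combination e)

open Classical in
theorem d4_pair (he : Even d) (hJ : Jᵀ = -J) (h0 : ∀ i j, j ≠ i.rev → J i j = 0)
    (h1 : ∀ i, J i i.rev ≠ 0) {α : Fin d → O} {z : ResidueField O}
    (hz : IsPrimitiveRoot z (d + 1)) (hα : ∀ j, residue O (α j) = z ^ ((j : ℕ) + 1)) {ν : Ω}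
    (hν : ∀ i, (α i : Ω) * α i.rev = ν)
    (hm : ∀ X ∈ W, ∀ c : Ω, (of fun i j => if (α i : Ω) / α j = c then X i j else 0) ∈ W)
    (hg : ∀ X ∈ W, ∃ t : Ω, Xᵀ * J + J * X = t • J)
    (hw : ∀ a b : Fin d, a ≠ b → b ≠ a.rev → ∃ β β' : ResidueField O, β ≠ 0 ∧
      single a b.rev β + single b a.rev β' ∈ red O W)
    {a b : Fin d} (hab : a ≠ b) (hab' : b ≠ a.rev) : ∃ (c : Fin d) (t : Ω),
      lab c + lab c = lab a + lab b ∧ (single a b 1 + single b a 1 + single c c t) * J ∈ W := by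
  obtain ⟨X, hX, k⟩ := d4_x hJ h0 h1 hg hw (Y := single a b 1 + single b a 1) (by
    rw [transpose_add, transpose_single, transpose_single, add_comm])
  obtain ⟨u, hu⟩ := lab_half he
  have n0 := lab_add_ne.2 hab'
  obtain ⟨c, hc⟩ := lab_surj (x := u * (lab a + lab b)) fun e =>
    n0 (by linear_combination 2 * e - (lab a + lab b) * hu)
  have hc' : lab c + lab c = lab a + lab b := by
    rw [hc]; linear_combination (lab a + lab b) * hu
  have z0 : z ≠ 0 := hz.ne_zero (Nat.succ_ne_zero d)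
  have a0 : ∀ j, (α j : Ω) ≠ 0 := fun j e => pow_ne_zero _ z0 (by
    rw [← hα j, show α j = 0 from Subtype.ext e, map_zero])
  have q : ∀ i j, (α i : Ω) / α j.rev = α a / α b.rev ↔ (α i : Ω) * α j = α a * α b := fun i j => by
    have e : ∀ i j, (α i : Ω) / α j.rev = α i * α j / ν := fun i j => by
      have := a0 j
      have := a0 j.rev
      rw [← hν j]
      field_simp
    rw [e, e, div_left_inj' (hν a ▸ mul_ne_zero (a0 _) (a0 _))]
  have q' : ∀ i j, (α i : Ω) / α j.rev = α a / α b.rev → lab i + lab j = lab a + lab b :=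
    fun i j e => by
    have e1 : α i * α j = α a * α b := Subtype.ext ((q i j).1 e)
    have e2 := congrArg (residue O) e1
    rw [map_mul, map_mul, hα, hα, hα, hα, ← pow_add, ← pow_add,
      (hz.isOfFinOrder (Nat.succ_ne_zero d)).pow_eq_pow_iff_modEq, ← hz.eq_orderOf,
      ← ZMod.natCast_eq_natCast_iff] at e2
    push_cast at e2
    exact e2
  have y := hm X hX (α a / α b.rev)
  refine ⟨c, (if (α c : Ω) / α c.rev = α a / α b.rev then X c c.rev else 0) / J c c.rev, hc', ?_⟩
  convert y using 1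
  ext i l
  obtain ⟨j, rfl⟩ := Fin.rev_surjective l
  rw [d4_mulJ h0, of_apply, Matrix.add_apply]
  by_cases e : i = j
  · subst e
    have e1 : (single a b 1 + single b a 1 : Mat d Ω) i i = 0 := by
      rw [Matrix.add_apply, single_apply_of_ne _ _ _ _ _ fun h => hab (h.1.trans h.2.symm),
        single_apply_of_ne _ _ _ _ _ fun h => hab (h.2.trans h.1.symm), add_zero]
    rw [e1, zero_add]
    by_cases e2 : c = i
    · rw [← e2, single_apply_same, div_mul_cancel₀ _ (h1 c)]
    · rw [single_apply_of_ne _ _ _ _ _ fun h => e2 h.1, zero_mul, if_neg fun h => e2 (lab_inj (by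
        linear_combination u * (hc' - q' i i h) - (lab c - lab i) * hu))]
  rw [single_apply_of_ne c c _ _ _ fun h => e (h.1.symm.trans h.2), add_zero]
  by_cases e' : j = i.rev
  · rw [if_neg fun h => n0 (by rw [← q' i j h, e']; exact lab_rev i), Matrix.add_apply,
      single_apply_of_ne _ _ _ _ _ fun h => hab' (by rw [h.1, h.2, e']),
      single_apply_of_ne _ _ _ _ _ fun h => hab' (by rw [h.1, h.2, e', Fin.rev_rev]), add_zero,
      zero_mul]
  rw [k i j e e']
  split_ifs with h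
  · rfl
  · rw [Matrix.add_apply, single_apply_of_ne _ _ _ _ _ fun h' => h (by rw [h'.1, h'.2]),
      single_apply_of_ne _ _ _ _ _ fun h' => h ((q i j).2 (by rw [h'.1, h'.2, mul_comm])), add_zero,
      zero_mul]

end Pool.Agent.Lib.MP_d61fbb_ag.DW
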