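import Pool.Agent.Lib.MP_d61fbb_ag.DW.SD
import Pool.Agent.Lib.MP_d61fbb_ag.DW.D1
import Pool.Agent.Lib.MP_d61fbb_ag.DW.D3
import Pool.Agent.Lib.MP_d61fbb_ag.DW.D4
import Pool.Agent.Lib.MP_d61fbb_ag.DW.D5
import Pool.Agent.Lib.MP_d61fbb_ag.SQ.Z7
import Pool.Agent.Lib.MP_d61fbb_ag.SQ.M3

/-! The monodromy group. -/

set_option autoImplicit false

noncomputable section

namespace Pool.Agent.Lib.MP_d61fbb_ag.DW

open Matrix Equiv IsLocalRing Pool.Agent.Lib.MP_d61fbb_ag.SQ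

section

variable {Ω : Type} [Field Ω] [CharZero Ω] [IsAlgClosed Ω] {O : ValuationSubring Ω} {d : ℕ}
  {Γ : Type} [Group Γ] {R : Γ →* Mat d Ω} {pm : Γ →* Perm (Fin (d + 1))} {B : Mat d Ω}
  {W : Submodule Ω (Mat d Ω)}

theorem lie_main (h2 : (2 : ResidueField O) = 0) (hR : Rq O R pm) (he : Even d) (hd : 6 ≤ d)
    (hB : Bᵀ = -B) (hB0 : B.det ≠ 0) (hs : ∀ γ, ∃ ν : Ω, (R γ)ᵀ * B * R γ = ν • B)
    (ht : ∀ γ, pm γ = 1 → ∃ X N, Lift O X N ∧ R γ = 1 + (2 : Ω) • X) (x : Fin d → Ω) :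
    Tangent (Set.range R) (tv B x) := by
  have hS : ∀ a ∈ Set.range R, ∀ b ∈ Set.range R, a * b ∈ Set.range R := by
    rintro _ ⟨a, rfl⟩ _ ⟨b, rfl⟩
    exact ⟨a * b, map_mul R a b⟩
  have h1 : (1 : Mat d Ω) ∈ Set.range R := ⟨1, map_one R⟩
  have hB' : B ≠ 0 := by
    rintro rfl
    have : Nonempty (Fin d) := ⟨⟨0, by omega⟩⟩
    exact hB0 det_zero
  have mem : ∀ {X : Mat d Ω}, X ∈ tang (Set.range R) ⊔ Ω ∙ (1 : Mat d Ω) ↔
      ∃ Y, Tangent (Set.range R) Y ∧ ∃ c : Ω, X = Y + c • 1 := by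
    intro X
    rw [Submodule.mem_sup]
    constructor
    · rintro ⟨y, hy, z, hz, rfl⟩
      obtain ⟨c, rfl⟩ := Submodule.mem_span_singleton.1 hz
      exact ⟨y, hy, c, rfl⟩
    · rintro ⟨y, hy, c, rfl⟩
      exact ⟨y, hy, _, Submodule.mem_span_singleton.2 ⟨c, rfl⟩, rfl⟩
  have hbr : Br (tang (Set.range R) ⊔ Ω ∙ (1 : Mat d Ω)) := fun X hX Y hY => by
    obtain ⟨U, hU, a, rfl⟩ := mem.1 hX
    obtain ⟨V, hV, b, rfl⟩ := mem.1 hY
    refine mem.2 ⟨_, hU.bracket hS h1 hV, 0, ?_⟩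
    simp only [add_mul, mul_add, smul_mul_assoc, mul_smul_comm, one_mul, mul_one, smul_add,
      smul_smul, zero_smul, mul_comm a b]
    abel
  have had : Ad R (tang (Set.range R) ⊔ Ω ∙ (1 : Mat d Ω)) := fun γ X hX => by
    obtain ⟨U, hU, a, rfl⟩ := mem.1 hX
    have e : R γ * R γ⁻¹ = 1 := by rw [← map_mul, mul_inv_cancel, map_one]
    refine mem.2 ⟨_, hU.conj hS h1 ⟨γ, rfl⟩ ⟨γ⁻¹, rfl⟩ e, a, ?_⟩
    rw [mul_add, add_mul, mul_smul_comm, mul_one, smul_mul_assoc, e]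
  rcases cases_two h2 hR hbr had
    (Submodule.mem_sup_right (Submodule.mem_span_singleton_self _)) with hW | hw
  · refine (klein h2 hR hd hB hB0 hs fun γ hγ =>
      ker_scalar h2 hR hd ht (fun X hX => ?_) hγ).elim
    have k : X ∈ tang (Set.range R) ⊔ Ω ∙ (1 : Mat d Ω) := Submodule.mem_sup_left hX
    rw [hW] at k
    obtain ⟨c, rfl⟩ := Submodule.mem_span_singleton.1 k
    exact ⟨c, rfl⟩
  · refine tangent_tv hS h1 hB hB0
      (fun X hX => sp_le hR he hd hB hB0 hs hbr had (fun X hX => ?_) hw hX) x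
    obtain ⟨U, hU, a, rfl⟩ := mem.1 hX
    obtain ⟨t, e⟩ := tangent_gsp h1 hB' (by rintro _ ⟨γ, rfl⟩; exact hs γ) hU
    refine ⟨t + a + a, ?_⟩
    rw [transpose_add, transpose_smul, transpose_one, add_mul, mul_add, smul_mul_assoc,
      mul_smul_comm, one_mul, mul_one, add_smul, add_smul, ← e]
    abel

end

theorem mono_main {Γ : Type} [Group Γ] {d : ℕ} {ρ : Γ →* Mat d ℚ_[2]}
    {pm : Γ →* Perm (Fin (d + 1))} {B : Mat d ℚ_[2]} {ν : Γ → ℚ_[2]} (h : Hd ρ pm B ν)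
    (hG : Big pm.range) (he : Even d) (hd : 6 ≤ d) (hφ : ∃ φ, ∀ N, 0 < N → ν φ ^ N ≠ 1)
    (g : Mat d (PadicAlgCl 2)) (hg : g.det ≠ 0) : Zar (Set.range ρ) g ↔
      ∃ t : PadicAlgCl 2, gᵀ * B.map (algebraMap _ _) * g = t • B.map (algebraMap _ _) := by
  have hn : ∀ x : ℚ_[2], ‖algebraMap ℚ_[2] (PadicAlgCl 2) x‖ = ‖x‖ := PadicAlgCl.norm_extends 2
  have : Nonempty (Fin d) := ⟨⟨0, by omega⟩⟩
  have hB0 : B ≠ 0 := by
    rintro rfl
    exact h.det det_zero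
  refine ⟨fun hz => hz.sim hB0 (by rintro _ ⟨γ, rfl⟩; exact ⟨_, h.sim γ⟩), fun ⟨t, ht⟩ => ?_⟩
  let R : Γ →* Mat d (PadicAlgCl 2) :=
    (algebraMap ℚ_[2] (PadicAlgCl 2)).mapMatrix.toMonoidHom.comp ρ
  have hRa : ∀ γ, R γ = (ρ γ).map (algebraMap _ _) := fun _ => rfl
  have lift : ∀ M : Mat d ℚ_[2], (∀ i j, ‖M i j‖ ≤ 1) → ∃ X : Mat d (OO 2),
      X.map (OO 2).subtype = M.map (algebraMap _ _) := fun M hM =>
    ⟨of fun i j => ⟨algebraMap _ _ (M i j), mem_OO.2 ((hn _).trans_le (hM i j))⟩, rfl⟩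
  have h2 : (2 : ResidueField (OO 2)) = 0 := by
    have e : (((2 : ℕ) : OO 2) : PadicAlgCl 2) = algebraMap ℚ_[2] _ ((2 : ℕ) : ℚ_[2]) := by
      rw [map_natCast]
      exact map_natCast (OO 2).subtype 2
    have k : ((2 : ℕ) : ResidueField (OO 2)) = 0 := by
      rw [← map_natCast (residue (OO 2)), residue_OO, e, hn]
      exact Padic.norm_p_lt_one
    exact_mod_cast k
  have hR : Rq (OO 2) R pm := by
    refine ⟨by exact_mod_cast m3_nat (l := 2) (n := d + 1) (by obtain ⟨k, rfl⟩ := he; omega),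
      hG, fun γ => ?_⟩
    obtain ⟨X, hX⟩ := lift _ (h.int γ)
    refine ⟨X, hX, ?_⟩
    ext i j
    rw [← Hm_map (OO 2) (residue (OO 2)) (pm γ), map_apply, map_apply, ← sub_eq_zero, ← map_sub,
      residue_OO]
    have e1 := congrFun (congrFun (Hm_map (OO 2) (OO 2).subtype (pm γ)) i) j
    have e2 := congrFun (congrFun (Hm_map ℚ_[2] (algebraMap ℚ_[2] (PadicAlgCl 2)) (pm γ)) i) j
    have e3 : ((X i j - Hm (OO 2) (pm γ) i j : OO 2) : PadicAlgCl 2) =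
        algebraMap ℚ_[2] _ ((ρ γ - Hm ℚ_[2] (pm γ)) i j) := by
      rw [Matrix.sub_apply, map_sub]
      exact congrArg₂ (· - ·) (congrFun (congrFun hX i) j) (e1.trans e2.symm)
    rw [e3, hn]
    exact h.red γ i j
  have mp : ∀ γ, (R γ)ᵀ * B.map (algebraMap _ _) * R γ =
      algebraMap ℚ_[2] (PadicAlgCl 2) (ν γ) • B.map (algebraMap _ _) := fun γ => by
    rw [hRa, ← transpose_map, ← Matrix.map_mul, ← Matrix.map_mul, h.sim]
    ext i j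
    simp
  have hB : (B.map (algebraMap ℚ_[2] (PadicAlgCl 2)))ᵀ = -B.map (algebraMap _ _) := by
    rw [← transpose_map, h.alt]
    ext i j
    simp
  have hBd : (B.map (algebraMap ℚ_[2] (PadicAlgCl 2))).det ≠ 0 := by
    rw [← RingHom.mapMatrix_apply, ← RingHom.map_det]
    exact (_root_.map_ne_zero _).2 h.det
  have hk : ∀ γ, pm γ = 1 → ∃ X N, Lift (OO 2) X N ∧ R γ = 1 + (2 : PadicAlgCl 2) • X := by
    intro γ hγ
    obtain ⟨X, hX⟩ := lift ((2 : ℚ_[2])⁻¹ • (ρ γ - 1)) fun i j => by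
      have k := h.red γ i j
      rw [hγ, map_one] at k
      have k2 : ‖(ρ γ - 1) i j‖ ≤ ((2 : ℕ) : ℝ) ^ (-1 : ℤ) :=
        (Padic.norm_le_pow_iff_norm_lt_pow_add_one _ _).2 (by simpa using k)
      have k3 : ‖(2 : ℚ_[2])‖ = ((2 : ℕ) : ℝ)⁻¹ := by exact_mod_cast Padic.norm_p (p := 2)
      rw [Matrix.smul_apply, smul_eq_mul, norm_mul, norm_inv, k3, inv_inv]
      rw [_root_.zpow_neg, zpow_one] at k2
      calc _ ≤ ((2 : ℕ) : ℝ) * ((2 : ℕ) : ℝ)⁻¹ := by gcongr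
        _ = 1 := by norm_num
    refine ⟨_, _, ⟨X, rfl, rfl⟩, ?_⟩
    rw [hX, hRa]
    ext i j
    simp [one_apply, apply_ite (algebraMap ℚ_[2] (PadicAlgCl 2)), map_ofNat]
  obtain ⟨φ, hφ⟩ := hφ
  have h0 : ν φ ≠ 0 := fun e => by
    have k := congrArg det (h.sim φ)
    have k1 : (ρ φ).det * (ρ φ⁻¹).det = 1 := by
      rw [← det_mul, ← map_mul, mul_inv_cancel, map_one, det_one]
    rw [e, zero_smul, det_zero, det_mul, det_mul, det_transpose] at k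
    exact mul_ne_zero (mul_ne_zero (left_ne_zero_of_mul_eq_one k1) h.det)
      (left_ne_zero_of_mul_eq_one k1) k
  have k := pt_gsp (S := Set.range R) (by
      rintro _ ⟨a, rfl⟩ _ ⟨b, rfl⟩
      exact ⟨a * b, map_mul R a b⟩) ⟨1, map_one R⟩ hB hBd
    (lie_main h2 hR he hd hB hBd (fun γ => ⟨_, mp γ⟩) hk) ⟨φ, rfl⟩
    ((_root_.map_ne_zero _).2 h0) (mp φ) (fun N hN e => hφ N hN
      ((algebraMap ℚ_[2] (PadicAlgCl 2)).injective (by rw [map_pow, e, map_one]))) hg ht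
  have k2 := zar_of_pt ρ R 1 1 (mul_one 1)
    (fun γ => (one_mul (R γ)).trans (mul_one (R γ)).symm) k
  rwa [one_mul, mul_one] at k2

end Pool.Agent.Lib.MP_d61fbb_ag.DW
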