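import Pool.Agent.Lib.MP_d61fbb_ag.SQ.Defs

/-! Parabolic Galois cohomology of the tensor induction of a Tate module. -/

set_option autoImplicit false

noncomputable section

namespace Pool.Agent.Lib.MP_d61fbb_ag.DW

open Polynomial Matrix Pool.Agent.Lib.MP_d61fbb_ag.SQ

section coh

variable {Γ κ : Type} [Group Γ] [TopologicalSpace Γ] [Fintype κ]

/-- A continuous cocycle of `G` that is a coboundary on every member of `𝒟`. -/
def Par (G : Subgroup Γ) (𝒟 : Set (Set Γ)) (r : Γ → Matrix κ κ ℚ_[2]) (c : G → κ → ℚ_[2]) :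
    Prop :=
  Continuous c ∧ (∀ g h : G, c (g * h) = c g + r g *ᵥ c h) ∧
    ∀ D ∈ 𝒟, ∃ m, ∀ g : G, (g : Γ) ∈ D → c g = r g *ᵥ m - m

/-- `ρ` is the matrix of the action of `Γ` on these cocycles modulo coboundaries. -/
def HOne (G : Subgroup Γ) [G.Normal] (𝒟 : Set (Set Γ)) (r : Γ → Matrix κ κ ℚ_[2]) {d : ℕ}
    (ρ : Γ → Matrix (Fin d) (Fin d) ℚ_[2]) : Prop :=
  ∃ π : (G → κ → ℚ_[2]) →ₗ[ℚ_[2]] Fin d → ℚ_[2], (∀ v, ∃ c, Par G 𝒟 r c ∧ π c = v) ∧
    ∀ c, Par G 𝒟 r c → (π c = 0 ↔ ∃ m, ∀ g : G, c g = r g *ᵥ m - m) ∧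
      ∀ γ, π (fun g => r γ *ᵥ c (MulAut.conjNormal γ⁻¹ g)) = ρ γ *ᵥ π c

end coh

/-- The map of class groups induced by a map of the fields of constants. -/
def jm {k : Type} [Field k] {g g' : k[X]} (σ : k →+* k) (h : g.map σ = g') :
    Jac k 2 g →+ Jac k 2 g' :=
  MonoidHom.toAdditive (CommRing.Pic.mapRingHom
    (AdjoinRoot.map (mapRingHom σ) (X ^ 2 - C g) (X ^ 2 - C g') (by simp [h])))

/-- The tensor induction of a family of matrices. -/
def tind {Γ W : Type} [SMul Γ W] [Fintype W] (τ : Γ → W → Matrix (Fin 2) (Fin 2) ℚ_[2]) (γ : Γ) :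
    Matrix (W → Fin 2) (W → Fin 2) ℚ_[2] :=
  Matrix.of fun j i => ∏ w, τ γ w (j (γ • w)) (i w)

variable (K : Type) [Field K]

/-- The algebraic closure of the rational function field. -/
abbrev Om : Type := AlgebraicClosure (RatFunc K)

/-- The Galois group of the rational function field. -/
abbrev Gam : Type := Om K ≃ₐ[RatFunc K] Om K

/-- The automorphisms fixing all elements algebraic over `K`. -/
def geo : Subgroup (Gam K) where
  carrier := {g | ∀ x, IsAlgebraic K x → g x = x}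
  one_mem' _ _ := rfl
  mul_mem' {a b} ha hb x hx := by rw [AlgEquiv.mul_apply, hb x hx, ha x hx]
  inv_mem' {a} ha x hx := a.injective (by rw [ha x hx, ← AlgEquiv.mul_apply]; simp)

instance : (geo K).Normal where
  conj_mem g hg γ x hx := by
    have h : g (γ⁻¹ x) = γ⁻¹ x := hg _ (hx.algHom ((γ⁻¹ : Gam K).toAlgHom.restrictScalars K))
    rw [AlgEquiv.mul_apply, AlgEquiv.mul_apply, h, ← AlgEquiv.mul_apply]
    simp

/-- The decomposition groups of the places that are trivial on `K`. -/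
def dec : Set (Set (Gam K)) :=
  {D | ∃ R : ValuationSubring (Om K), R ≠ ⊤ ∧ (∀ a : K, algebraMap K _ a ∈ R) ∧
    D = {g | ∀ x, g x ∈ R ↔ x ∈ R}}

variable {K}

/-- The square roots of `f`. -/
abbrev Wt (f : K[X]) : Type :=
  (X ^ 2 - C (algebraMap K[X] (RatFunc K) f)).rootSet (Om K)

/-- The cubic `x (x ^ 2 + 2 S x + (S ^ 2 + B w) / 2)`. -/
def cub (S B : K[X]) (w : Om K) : (Om K)[X] :=
  X * (X ^ 2 + C (2 * algebraMap K[X] _ S) * X +
    C ((algebraMap K[X] _ S ^ 2 + algebraMap K[X] _ B * w) / 2))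

open Classical in
/-- `ρ` is the representation on the parabolic cohomology of the tensor induction of the Tate
modules of the curves `y ^ 2 = cub S B w`. -/
def Coh (f S B : K[X]) {d : ℕ} (ρ : Gam K → Matrix (Fin d) (Fin d) ℚ_[2]) : Prop :=
  ∃ (e : ∀ w : Wt f, (Fin 2 → ℚ_[2]) →+ Jac (Om K) 2 (cub S B w))
    (τ : Gam K → Wt f → Matrix (Fin 2) (Fin 2) ℚ_[2]), (∀ w, TateOn (e w) 1) ∧
    (∀ γ (w : Wt f), ∃ h, ∀ v,
      e (γ • w) (τ γ w *ᵥ v) = jm (γ : Gam K).toRingEquiv.toRingHom h (e w v)) ∧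
    HOne (geo K) (dec K) (tind τ) ρ

end Pool.Agent.Lib.MP_d61fbb_ag.DW
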