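import Pool.Agent.Lib.MP_d61fbb_ag.DW.N1

/-! Central embedding problems. -/

set_option autoImplicit false

noncomputable section

namespace Pool.Agent.Lib.MP_d61fbb_ag.DW

open Polynomial Topology

variable {k Ω G : Type} [Field k] [IsAlgClosed k] [CharZero k] [Field Ω] [IsAlgClosed Ω]
  [Algebra k Ω] [Group G] [TopologicalSpace G] [IsTopologicalGroup G] [MulSemiringAction G Ω]
  {z : Ω}

/-- Functions that are multiplicative on `H` and trivial near the identity. -/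
def E1h {Q : Type} [Group Q] (H : Subgroup G) (f : G → Q) : Prop :=
  (∀ a ∈ H, ∀ b ∈ H, f (a * b) = f a * f b) ∧ ∀ᶠ g in 𝓝 (1 : G), f g = 1

open Classical in
/-- The character attached to a square root. -/
def e1_sg {Q : Type} [Group Q] (ε : Q) (m : Ω) (g : G) : Q := if g • m = m then 1 else ε

section grp

variable {Q : Type} [Group Q] {H U : Subgroup G} {f : G → Q} {t : G}

omit [IsTopologicalGroup G] in
theorem E1h.one (h : E1h H f) : f 1 = 1 := h.2.self_of_nhds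

omit [IsTopologicalGroup G] in
theorem E1h.inv (h : E1h H f) {a : G} (ha : a ∈ H) : f a⁻¹ = (f a)⁻¹ := by
  rw [eq_inv_iff_mul_eq_one, ← h.1 _ (inv_mem ha) _ ha, inv_mul_cancel, h.one]

/-- The elements of `H` that are mapped into `K`. -/
def E1h.pre (h : E1h H f) (K : Subgroup Q) : Subgroup G where
  carrier := {g | g ∈ H ∧ f g ∈ K}
  one_mem' := ⟨one_mem _, h.one ▸ one_mem _⟩
  mul_mem' := fun a b => ⟨mul_mem a.1 b.1, h.1 _ a.1 _ b.1 ▸ mul_mem a.2 b.2⟩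
  inv_mem' := fun a => ⟨inv_mem a.1, h.inv a.1 ▸ inv_mem a.2⟩

theorem E1h.pre_open (h : E1h H f) (hH : IsOpen (H : Set G)) (K : Subgroup Q) :
    IsOpen (h.pre K : Set G) := by
  refine Subgroup.isOpen_of_mem_nhds _ (g := 1) ?_
  filter_upwards [h.2, hH.mem_nhds (one_mem H)] with g a b
  exact ⟨b, a ▸ one_mem _⟩

omit [TopologicalSpace G] [IsTopologicalGroup G] in
theorem e1_conj (hUH : U ≤ H) (h2 : ∀ a ∈ H, ∀ b ∈ H, a ∉ U → b ∉ U → a * b ∈ U) (ht : t ∈ H)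
    (ht' : t ∉ U) {u : G} (hu : u ∈ U) : t * u * t⁻¹ ∈ U :=
  h2 _ (mul_mem ht (hUH hu)) _ (inv_mem ht) (fun e => ht' ((U.mul_mem_cancel_right hu).1 e))
    fun e => ht' (inv_mem_iff.1 e)

omit [IsTopologicalGroup G] in
theorem e1_glue (hU : IsOpen (U : Set G)) (hUH : U ≤ H)
    (h2 : ∀ a ∈ H, ∀ b ∈ H, a ∉ U → b ∉ U → a * b ∈ U) (ht : t ∈ H) (ht' : t ∉ U) (hf : E1h U f)
    {x : Q} (hA : ∀ u ∈ U, f (t * u * t⁻¹) = x * f u * x⁻¹) (hB : f (t * t) = x * x) :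
    ∃ ψ : G → Q, E1h H ψ ∧ (∀ g ∈ U, ψ g = f g) ∧ ψ t = x := by
  classical
  have hi : t⁻¹ ∉ U := fun e => ht' (inv_mem_iff.1 e)
  have hd : ∀ a ∈ H, a ∉ U → a * t⁻¹ ∈ U := fun a ha k => h2 _ ha _ (inv_mem ht) k hi
  refine ⟨fun g => if g ∈ U then f g else f (g * t⁻¹) * x, ⟨fun a ha b hb => ?_, ?_⟩,
    fun g hg => if_pos hg, by simp [ht', hf.one]⟩
  · by_cases k : a ∈ U <;> by_cases l : b ∈ U
    · simp only [k, l, mul_mem k l, if_true, hf.1 a k b l]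
    · have e : a * b ∉ U := fun e => l ((U.mul_mem_cancel_left k).1 e)
      simp only [k, l, e, if_true, if_false, mul_assoc]
      rw [hf.1 a k _ (hd b hb l), mul_assoc]
    · have e : a * b ∉ U := fun e => k ((U.mul_mem_cancel_right l).1 e)
      simp only [k, l, e, if_true, if_false]
      rw [show a * b * t⁻¹ = a * t⁻¹ * (t * b * t⁻¹) by group,
        hf.1 _ (hd a ha k) _ (e1_conj hUH h2 ht ht' l), hA b l]
      group
    · simp only [k, l, h2 a ha b hb k l, if_true, if_false]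
      have m := e1_conj hUH h2 ht ht' (hd b hb l)
      rw [show a * b = a * t⁻¹ * (t * (b * t⁻¹) * t⁻¹) * (t * t) by group,
        hf.1 _ (mul_mem (hd a ha k) m) _ (h2 _ ht _ ht ht' ht'), hf.1 _ (hd a ha k) _ m,
        hA _ (hd b hb l), hB]
      group
  · filter_upwards [hf.2, hU.mem_nhds (one_mem U)] with g a b
    exact (if_pos b).trans a

end grp

section fld

variable {Q : Type} [Group Q] {H U : Subgroup G} {t : G} {ε : Q}

omit [IsAlgClosed Ω] [TopologicalSpace G] [IsTopologicalGroup G] in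
theorem e1_pm {m : Ω} {g : G} (h : g • (m * m) = m * m) : g • m = m ∨ g • m = -m := by
  rw [smul_mul'] at h
  exact mul_self_eq_mul_self_iff.1 h

omit [IsAlgClosed Ω] [TopologicalSpace G] [IsTopologicalGroup G] in
theorem e1_sg_pos {m : Ω} {g : G} (h : g • m = m) : e1_sg ε m g = 1 := if_pos h

omit [IsAlgClosed Ω] [TopologicalSpace G] [IsTopologicalGroup G] in
theorem e1_sg_neg [CharZero Ω] {m : Ω} (h0 : m ≠ 0) {g : G} (h : g • m = -m) :
    e1_sg ε m g = ε := if_neg (h ▸ fun e => h0 (by linear_combination -e / 2))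

omit [IsAlgClosed Ω] [TopologicalSpace G] [IsTopologicalGroup G] in
theorem e1_sg_mem (m : Ω) (g : G) : e1_sg ε m g = 1 ∨ e1_sg ε m g = ε := by
  unfold e1_sg
  split_ifs <;> simp

omit [IsAlgClosed k] [CharZero k] [IsAlgClosed Ω] [IsTopologicalGroup G] in
theorem e1_sg_hom [CharZero Ω] (h : GD k G z) (h2 : ε * ε = 1) {m : Ω} (h0 : m ≠ 0)
    (hm : ∀ u ∈ U, u • (m * m) = m * m) : E1h U (e1_sg ε m) := by
  refine ⟨fun a ha b hb => ?_, ?_⟩
  · rcases e1_pm (hm a ha) with k | k <;> rcases e1_pm (hm b hb) with l | l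
    · rw [e1_sg_pos k, e1_sg_pos l, e1_sg_pos (by rw [mul_smul, l, k]), mul_one]
    · rw [e1_sg_pos k, e1_sg_neg h0 l, e1_sg_neg h0 (by rw [mul_smul, l, smul_neg, k]), one_mul]
    · rw [e1_sg_neg h0 k, e1_sg_pos l, e1_sg_neg h0 (by rw [mul_smul, l, k]), mul_one]
    · rw [e1_sg_neg h0 k, e1_sg_neg h0 l,
        e1_sg_pos (by rw [mul_smul, l, smul_neg, k, neg_neg]), h2]
  · filter_upwards [(h.opn m).mem_nhds (one_smul G m)] with g a using e1_sg_pos a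

omit [IsTopologicalGroup G] in
theorem E1h.mul {f f' : G → Q} (hε : ∀ x, x * ε = ε * x) (a : E1h U f) (b : E1h U f')
    (c : ∀ g, f' g = 1 ∨ f' g = ε) : E1h U fun g => f g * f' g := by
  refine ⟨fun x hx y hy => ?_, ?_⟩
  · simp only [a.1 x hx y hy, b.1 x hx y hy]
    rcases c x with e | e
    · simp [e, mul_assoc]
    · rw [e, mul_assoc, mul_assoc, ← mul_assoc (f y), hε, mul_assoc]
  · filter_upwards [a.2, b.2] with g x y
    rw [x, y, mul_one]

omit [IsAlgClosed Ω] in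
/-- A quadratic character is a Kummer character. -/
theorem e1_char (h : GD k G z) (hU : IsOpen (U : Set G)) (h2 : ε * ε = 1) {l : G → Q}
    (hl : E1h U l) (c : ∀ u ∈ U, l u = 1 ∨ l u = ε) :
    ∃ β : Ω, β ≠ 0 ∧ ∀ u ∈ U, (l u = 1 → u • β = β) ∧ (l u ≠ 1 → u • β = -β) := by
  by_cases k : ∀ u ∈ U, l u = 1
  · exact ⟨1, one_ne_zero, fun u hu => ⟨fun _ => smul_one u, fun e => absurd (k u hu) e⟩⟩
  push Not at k
  obtain ⟨t, ht, ht'⟩ := k
  have m : ∀ u ∈ U, u ∈ hl.pre ⊥ ↔ l u = 1 := fun u hu =>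
    ⟨fun e => Subgroup.mem_bot.1 e.2, fun e => ⟨hu, Subgroup.mem_bot.2 e⟩⟩
  obtain ⟨δ, h0, hδ⟩ := h.quad (H := U) (hl.pre_open hU ⊥) (fun _ e => e.1)
    (fun a ha b hb x y => (m _ (mul_mem ha hb)).2 (by
      rw [hl.1 a ha b hb, (c a ha).resolve_left fun e => x ((m a ha).2 e),
        (c b hb).resolve_left fun e => y ((m b hb).2 e), h2])) ht fun e => ht' ((m t ht).1 e)
  exact ⟨δ, h0, fun u hu => ⟨fun e => (hδ u hu).1 ((m u hu).2 e),
    fun e => (hδ u hu).2 fun e' => e ((m u hu).1 e')⟩⟩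

omit [TopologicalSpace G] [IsTopologicalGroup G] in
/-- An invariant Kummer character that kills `t ^ 2` is a norm. -/
theorem e1_norm [CharZero Ω] (hH : Nm Ω H) (hUH : U ≤ H)
    (h2 : ∀ a ∈ H, ∀ b ∈ H, a ∉ U → b ∉ U → a * b ∈ U) (ht : t ∈ H) (ht' : t ∉ U) {δ β : Ω}
    (h0 : δ ≠ 0) (hδ : ∀ g ∈ H, (g ∈ U → g • δ = δ) ∧ (g ∉ U → g • δ = -δ)) (hβ : β ≠ 0)
    (h1 : ∀ u ∈ U, u • β = β ∧ u • t • β = t • β ∨ u • β = -β ∧ u • t • β = -(t • β))
    (h3 : t • t • β = β) : ∃ μ : Ω, μ ≠ 0 ∧ (∀ u ∈ U, u • (μ * μ) = μ * μ) ∧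
      (∀ u ∈ U, u • (t • μ * t • μ) = t • μ * t • μ) ∧
      ∃ m : Ω, m ≠ 0 ∧ (∀ u ∈ U, u • m = m) ∧ β = m * (μ * t • μ) := by
  have ne : ∀ {x : Ω}, x ≠ 0 → t • x ≠ 0 := fun hx e => hx (by simpa using congrArg (t⁻¹ • ·) e)
  have fx : ∀ x : Ω, (∀ u ∈ U, u • x = x) → t • x = x → ∀ g ∈ H, g • x = x := fun x a b g hg => by
    by_cases k : g ∈ U
    · exact a g k
    · have := a _ (h2 g hg _ (inv_mem ht) k fun e => ht' (inv_mem_iff.1 e))
      rwa [mul_smul, inv_smul_eq_iff.2 b.symm] at this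
  have tδ := (hδ t ht).2 ht'
  have b' := ne hβ
  obtain ⟨m, m0, m1, m2⟩ : ∃ m : Ω, m ≠ 0 ∧ (∀ u ∈ U, u • m = m) ∧ t • (β / m) = β / m := by
    by_cases k : t • β = -β
    · exact ⟨δ, h0, fun u hu => (hδ u (hUH hu)).1 hu, by rw [smul_div₀', k, tδ, neg_div_neg_eq]⟩
    · have k' : t • β + β ≠ 0 := fun e => k (eq_neg_of_add_eq_zero_left e)
      refine ⟨1 + β / t • β, ?_, fun u hu => ?_, ?_⟩
      · rw [one_add_div b']
        exact div_ne_zero k' b'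
      · rw [smul_add, smul_one, smul_div₀']
        rcases h1 u hu with ⟨a, b⟩ | ⟨a, b⟩ <;> rw [a, b]
        rw [neg_div_neg_eq]
      · rw [smul_div₀', smul_add, smul_one, smul_div₀', h3, one_add_div b', one_add_div hβ,
          add_comm β]
        field_simp
  have c0 := div_ne_zero hβ m0
  obtain ⟨p, r, hp, hr, e⟩ := hH (β / m * (β / m)) (δ * δ) (mul_ne_zero c0 c0) (mul_ne_zero h0 h0)
    (fx _ (fun u hu => by
      rw [smul_mul', smul_div₀', m1 u hu]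
      rcases h1 u hu with ⟨a, _⟩ | ⟨a, _⟩ <;> rw [a]
      ring) (by rw [smul_mul', m2]))
    (fx _ (fun u hu => by rw [smul_mul', (hδ u (hUH hu)).1 hu]) (by rw [smul_mul', tδ]; ring))
  obtain ⟨μ, hμ⟩ := IsAlgClosed.exists_eq_mul_self (p + r * δ)
  have hμ' : t • μ * t • μ = p - r * δ := by
    rw [← smul_mul', ← hμ, smul_add, smul_mul', hp t ht, hr t ht, tδ]
    ring
  have e2 : μ * t • μ * (μ * t • μ) = β / m * (β / m) := by
    linear_combination (μ * μ) * hμ' - (p - r * δ) * hμ - e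
  have μ0 : μ ≠ 0 := fun k => mul_ne_zero c0 c0 (by rw [← e2, k]; simp)
  have a1 : ∀ u ∈ U, u • (μ * μ) = μ * μ := fun u hu => by
    rw [← hμ, smul_add, smul_mul', hp u (hUH hu), hr u (hUH hu), (hδ u (hUH hu)).1 hu]
  have a2 : ∀ u ∈ U, u • (t • μ * t • μ) = t • μ * t • μ := fun u hu => by
    rw [hμ', smul_sub, smul_mul', hp u (hUH hu), hr u (hUH hu), (hδ u (hUH hu)).1 hu]
  rcases mul_self_eq_mul_self_iff.1 e2 with k | k
  · exact ⟨μ, μ0, a1, a2, m, m0, m1, by rw [k]; field_simp⟩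
  · exact ⟨μ, μ0, a1, a2, -m, neg_ne_zero.2 m0, fun u hu => by rw [smul_neg, m1 u hu],
      by rw [k]; field_simp⟩

omit [CharZero k] [IsTopologicalGroup G] in
/-- The square root of `δ`. -/
theorem e1_root (h : GD k G z) {δ : Ω} (h0 : δ ≠ 0) (tδ : t • δ = -δ) :
    ∃ σ : Ω, σ ≠ 0 ∧ σ * σ = δ ∧ (t * t) • σ = -σ ∧
      ∀ u : G, u • (σ * σ) = σ * σ → (t * u * t⁻¹) • σ = u • σ := by
  obtain ⟨σ, hσ⟩ := IsAlgClosed.exists_eq_mul_self δ
  obtain ⟨i, hi⟩ := IsAlgClosed.exists_eq_mul_self (-1 : k)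
  have hi' : algebraMap k Ω i * algebraMap k Ω i = -1 := by rw [← map_mul, ← hi]; simp
  obtain ⟨j, j1, j2, j3⟩ : ∃ j : Ω, j * j = -1 ∧ (∀ g : G, g • j = j) ∧ t • σ = j * σ := by
    have e : t • σ * t • σ = algebraMap k Ω i * σ * (algebraMap k Ω i * σ) := by
      rw [← smul_mul', ← hσ, tδ]
      linear_combination -hσ - σ * σ * hi'
    rcases mul_self_eq_mul_self_iff.1 e with a | a
    · exact ⟨_, hi', fun g => h.fixk g i, a⟩
    · exact ⟨-algebraMap k Ω i, by rw [neg_mul_neg, hi'], fun g => by rw [smul_neg, h.fixk],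
        by rw [a, neg_mul]⟩
  have e2 : t • t • σ = -σ := by
    rw [j3, smul_mul', j2, j3]
    linear_combination σ * j1
  refine ⟨σ, fun e => h0 (by rw [hσ, e, mul_zero]), hσ.symm, by rw [mul_smul, e2], fun u hu => ?_⟩
  have e3 : t⁻¹ • σ = -(t • σ) := by rw [inv_smul_eq_iff, smul_neg, e2, neg_neg]
  rw [mul_smul, mul_smul, e3, j3, smul_neg, smul_mul', j2]
  rcases e1_pm hu with a | a <;> rw [a]
  · rw [← j3, smul_neg, e2, neg_neg]
  · rw [mul_neg, neg_neg, ← j3, e2]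

end fld

theorem e1_step (h : GD k G z) {P P' : Type} [Group P] [Group P'] (q : P' →* P)
    (hq : Function.Surjective q) {ε : P'} (hε : ∀ x, x * ε = ε * x) (h2 : ε * ε = 1)
    (h1 : q ε = 1) (hk : ∀ x, q x = 1 → x = 1 ∨ x = ε) {H U : Subgroup G} (hH : Nm Ω H)
    (hU : IsOpen (U : Set G)) (hUH : U ≤ H)
    (hi : ∀ a ∈ H, ∀ b ∈ H, a ∉ U → b ∉ U → a * b ∈ U) {t : G} (ht : t ∈ H) (ht' : t ∉ U) {δ : Ω}
    (h0 : δ ≠ 0) (hδ : ∀ g ∈ H, (g ∈ U → g • δ = δ) ∧ (g ∉ U → g • δ = -δ)) {φ : G → P}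
    (hφ : E1h H φ) {s : G → P'} (hs : E1h U s) (hqs : ∀ u ∈ U, q (s u) = φ u) :
    ∃ ψ : G → P', E1h H ψ ∧ ∀ g ∈ H, q (ψ g) = φ g := by
  have : CharZero Ω := charZero_of_injective_algebraMap (algebraMap k Ω).injective
  obtain ⟨x, hx⟩ := hq (φ t)
  have cj := fun u (hu : u ∈ U) => e1_conj hUH hi ht ht' hu
  have tt := hi _ ht _ ht ht' ht'
  have qs : ∀ (m : Ω) (g : G), q (e1_sg ε m g) = 1 := fun m g => by
    rcases e1_sg_mem (ε := ε) m g with e | e <;> rw [e]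
    exacts [map_one q, h1]
  have sq : ∀ s : G → P', (∀ u ∈ U, q (s u) = φ u) →
      s (t * t) = x * x ∨ s (t * t) = x * x * ε := fun s a => by
    rcases hk ((x * x)⁻¹ * s (t * t)) (by
      rw [map_mul, map_inv, map_mul, hx, a _ tt, hφ.1 t ht t ht, inv_mul_cancel]) with e | e
    · exact .inl (inv_mul_eq_one.1 e).symm
    · exact .inr (inv_mul_eq_iff_eq_mul.1 e)
  obtain ⟨l, hl⟩ : ∃ l : G → P', ∀ u, s (t * u * t⁻¹) = x * s u * x⁻¹ * l u :=
    ⟨fun u => (x * s u * x⁻¹)⁻¹ * s (t * u * t⁻¹), fun u => by group⟩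
  have l1 : ∀ u ∈ U, l u = 1 ∨ l u = ε := fun u hu => hk _ (by
    have e := congrArg q (hl u)
    rw [hqs _ (cj u hu), hφ.1 _ (mul_mem ht (hUH hu)) _ (inv_mem ht), hφ.1 _ ht _ (hUH hu),
      hφ.inv ht] at e
    simpa only [map_mul, map_inv, hx, hqs u hu, left_eq_mul] using e)
  have lc : ∀ u ∈ U, ∀ y, l u * y = y * l u := fun u hu y => by
    rcases l1 u hu with e | e <;> rw [e]
    exacts [by simp, (hε y).symm]
  have l2 : E1h U l := by
    refine ⟨fun a ha b hb => ?_, ?_⟩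
    · have e := hl (a * b)
      rw [show t * (a * b) * t⁻¹ = t * a * t⁻¹ * (t * b * t⁻¹) by group,
        hs.1 _ (cj a ha) _ (cj b hb), hl, hl, hs.1 a ha b hb, mul_assoc _ (l a),
        ← mul_assoc (l a), lc a ha] at e
      refine (mul_left_cancel (a := x * (s a * s b) * x⁻¹) (e.symm.trans ?_))
      group
    · have c : Filter.Tendsto (fun u => t * u * t⁻¹) (𝓝 (1 : G)) (𝓝 1) :=
        Continuous.tendsto' (by fun_prop) _ _ (by simp)
      filter_upwards [hs.2, c.eventually hs.2] with g a b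
      simpa [a, b] using (hl g).symm
  have xs : ∀ y, s (t * t) * y * (s (t * t))⁻¹ = x * x * y * (x * x)⁻¹ := fun y => by
    rcases sq s hqs with e | e <;> rw [e]
    rw [mul_assoc (x * x), ← hε]
    group
  have l3 : l (t * t) = 1 := by
    have e := hl (t * t)
    rw [show t * (t * t) * t⁻¹ = t * t by group] at e
    have e' : x * s (t * t) * x⁻¹ = s (t * t) := by
      rcases sq s hqs with e | e <;> rw [e]
      · group
      · rw [mul_assoc x, mul_assoc _ ε, ← hε]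
        group
    rw [e'] at e
    exact left_eq_mul.1 e
  have l4 : ∀ u ∈ U, l (t * u * t⁻¹) = l u := fun u hu => by
    have e := hl (t * u * t⁻¹)
    rw [show t * (t * u * t⁻¹) * t⁻¹ = t * t * u * (t * t)⁻¹ by group,
      hs.1 _ (mul_mem tt hu) _ (inv_mem tt), hs.1 _ tt _ hu, hs.inv tt, xs, hl u,
      ← mul_assoc x, mul_assoc _ (l u), lc u hu] at e
    have e' : l u * l (t * u * t⁻¹) = 1 :=
      mul_left_cancel (a := x * x * s u * (x * x)⁻¹) (by rw [mul_one]; refine .symm (e.trans ?_); group)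
    have e'' : l u * l u = 1 := by
      rcases l1 u hu with k | k <;> rw [k]
      exacts [mul_one _, h2]
    exact mul_left_cancel (e'.trans e''.symm)
  obtain ⟨β, β0, hβ⟩ := e1_char h hU h2 l2 l1
  obtain ⟨μ, μ0, μ1, μ2, m, m0, m1, m2⟩ := e1_norm hH hUH hi ht ht' h0 hδ β0 (fun u hu => by
    have hv : t⁻¹ * u * t⁻¹⁻¹ ∈ U :=
      e1_conj hUH hi (inv_mem ht) (fun e => ht' (inv_mem_iff.1 e)) hu
    have e := l4 _ hv
    rw [show t * (t⁻¹ * u * t⁻¹⁻¹) * t⁻¹ = u by group] at e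
    have e' : u • t • β = t • (t⁻¹ * u * t⁻¹⁻¹) • β := by
      rw [← mul_smul, ← mul_smul]
      congr 1
      group
    by_cases k : l u = 1
    · exact .inl ⟨(hβ u hu).1 k, by rw [e', (hβ _ hv).1 (e ▸ k)]⟩
    · exact .inr ⟨(hβ u hu).2 k, by rw [e', (hβ _ hv).2 (e ▸ k), smul_neg]⟩)
    (by rw [← mul_smul, (hβ _ tt).1 l3])
  have ν0 : t • μ ≠ 0 := fun e => μ0 (by simpa using congrArg (t⁻¹ • ·) e)
  have s1 := hs.mul hε (e1_sg_hom h h2 ν0 μ2) (e1_sg_mem _)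
  have A1 : ∀ u ∈ U, s (t * u * t⁻¹) * e1_sg ε (t • μ) (t * u * t⁻¹) =
      x * (s u * e1_sg ε (t • μ) u) * x⁻¹ := fun u hu => by
    have e : (t * u * t⁻¹) • t • μ = t • u • μ := by simp only [mul_smul, inv_smul_smul]
    have eb : u • β = m * (u • μ * u • t • μ) := by rw [m2, smul_mul', smul_mul', m1 u hu]
    have p : u • β = β → l u = 1 := fun k => by_contra fun k' =>
      β0 (by linear_combination (k.symm.trans ((hβ u hu).2 k')) / 2)
    have n : u • β = -β → l u = ε := fun k => (l1 u hu).resolve_left fun k' =>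
      β0 (by linear_combination (((hβ u hu).1 k').symm.trans k) / 2)
    rw [hl]
    rcases e1_pm (μ1 u hu) with a | a <;> rcases e1_pm (μ2 u hu) with b | b <;> rw [a, b] at eb <;>
      rw [a] at e
    · rw [p (eb.trans m2.symm), e1_sg_pos e, e1_sg_pos b]
      group
    · rw [n (by rw [eb, m2]; ring), e1_sg_pos e, e1_sg_neg ν0 b, mul_one, ← mul_assoc x,
        mul_assoc _ ε, ← hε]
      group
    · rw [n (by rw [eb, m2]; ring), e1_sg_neg ν0 (e.trans (smul_neg _ _)), e1_sg_pos b,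
        mul_assoc, h2]
      group
    · rw [p (by rw [eb, m2]; ring), e1_sg_neg ν0 (e.trans (smul_neg _ _)), e1_sg_neg ν0 b, mul_one,
        ← mul_assoc x, mul_assoc _ ε, ← hε]
      group
  have q1 : ∀ u ∈ U, q (s u * e1_sg ε (t • μ) u) = φ u := fun u hu => by
    rw [map_mul, qs, mul_one, hqs u hu]
  obtain ⟨s', s1, A1, q1⟩ : ∃ s' : G → P', E1h U s' ∧
    (∀ u ∈ U, s' (t * u * t⁻¹) = x * s' u * x⁻¹) ∧ ∀ u ∈ U, q (s' u) = φ u := ⟨_, s1, A1, q1⟩
  obtain ⟨s', s1, A1, q1, B1⟩ : ∃ s' : G → P', E1h U s' ∧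
      (∀ u ∈ U, s' (t * u * t⁻¹) = x * s' u * x⁻¹) ∧ (∀ u ∈ U, q (s' u) = φ u) ∧
      s' (t * t) = x * x := by
    rcases sq s' q1 with e | e
    · exact ⟨s', s1, A1, q1, e⟩
    obtain ⟨σ, σ0, σ1, σ2, σ3⟩ := e1_root h h0 ((hδ t ht).2 ht')
    have f : ∀ u ∈ U, u • (σ * σ) = σ * σ := fun u hu => by rw [σ1, (hδ u (hUH hu)).1 hu]
    refine ⟨_, s1.mul hε (e1_sg_hom h h2 σ0 f) (e1_sg_mem _), fun u hu => ?_, fun u hu => ?_, ?_⟩
    · have : e1_sg ε σ (t * u * t⁻¹) = e1_sg ε σ u := by rw [e1_sg, e1_sg, σ3 u (f u hu)]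
      simp only [this, A1 u hu]
      rcases e1_sg_mem (ε := ε) σ u with k | k <;> rw [k]
      · group
      · rw [← mul_assoc x, mul_assoc _ ε, ← hε]
        group
    · simp only [map_mul, qs, mul_one, q1 u hu]
    · simp only [e, e1_sg_neg σ0 σ2, mul_assoc, h2, mul_one]
  obtain ⟨ψ, p1, p2, p3⟩ := e1_glue hU hUH hi ht ht' s1 A1 B1
  refine ⟨ψ, p1, fun g hg => ?_⟩
  by_cases k : g ∈ U
  · rw [p2 g k, q1 g k]
  · have e := hi g hg _ (inv_mem ht) k fun e => ht' (inv_mem_iff.1 e)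
    rw [show g = g * t⁻¹ * t by group, p1.1 _ (hUH e) _ ht, hφ.1 _ (hUH e) _ ht, map_mul, p2 _ e,
      q1 _ e, p3, hx]

theorem e1_sub {P : Type} [Group P] [Finite P] (hP : IsPGroup 2 P) {K : Subgroup P} (h : K ≠ ⊥) :
    ∃ K' : Subgroup P, K' < K ∧ ∀ a ∈ K, ∀ b ∈ K, a ∉ K' → b ∉ K' → a * b ∈ K' := by
  obtain ⟨n, hn⟩ := (hP.to_subgroup K).exists_card_eq
  obtain _ | n := n
  · exact absurd (Subgroup.card_eq_one.1 hn) h
  obtain ⟨L, hL⟩ := Sylow.exists_subgroup_card_pow_prime 2 (G := K) (n := n)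
    (hn ▸ pow_dvd_pow 2 n.le_succ)
  have i : L.index = 2 := by
    have := L.card_mul_index
    rw [hL, hn, pow_succ] at this
    exact mul_left_cancel₀ (by positivity) this
  have m : ∀ a (ha : a ∈ K), a ∈ L.map K.subtype ↔ ⟨a, ha⟩ ∈ L := fun a ha =>
    Subgroup.mem_map_iff_mem (x := ⟨a, ha⟩) K.subtype_injective
  refine ⟨L.map K.subtype, (Subgroup.map_subtype_le L).lt_of_ne fun e => ?_,
    fun a ha b hb x y => (m _ (mul_mem ha hb)).2
      ((Subgroup.mul_mem_iff_of_index_two i (a := ⟨a, ha⟩) (b := ⟨b, hb⟩)).2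
        (iff_of_false (mt (m a ha).2 x) (mt (m b hb).2 y)))⟩
  have : L = ⊤ := top_unique fun a _ => (m a a.2).1 (e.symm ▸ a.2)
  simp [this] at i

theorem GD.lift_two (h : GD k G z) {P P' : Type} [Group P] [Group P'] [Finite P]
    (hP : IsPGroup 2 P) (q : P' →* P) (hq : Function.Surjective q) {ε : P'}
    (hε : ∀ x, x * ε = ε * x) (h2 : ε * ε = 1) (h1 : q ε = 1)
    (hk : ∀ x, q x = 1 → x = 1 ∨ x = ε) (φ : G →* P) (ho : IsOpen (φ.ker : Set G)) :
    ∃ ψ : G →* P', IsOpen (ψ.ker : Set G) ∧ ∀ g, q (ψ g) = φ g := by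
  have key : ∀ (K : Subgroup P) (H : Subgroup G), IsOpen (H : Set G) → Nm Ω H →
      (∀ g ∈ H, φ g ∈ K) → ∃ ψ : G → P', E1h H ψ ∧ ∀ g ∈ H, q (ψ g) = φ g := by
    intro K
    induction K using WellFoundedLT.induction with | ind K ih => ?_
    intro H hH hN hK
    have hφ : E1h H φ := ⟨fun a _ b _ => map_mul φ a b, ho.mem_nhds (one_mem φ.ker)⟩
    by_cases k : K = ⊥
    · exact ⟨1, ⟨by simp, by simp⟩, fun g hg => by
        rw [Subgroup.mem_bot.1 (show φ g ∈ ⊥ from k ▸ hK g hg), Pi.one_apply, map_one]⟩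
    obtain ⟨K', k1, k2⟩ := e1_sub hP k
    by_cases l : ∀ g ∈ H, φ g ∈ K'
    · exact ih K' k1 H hH hN l
    push Not at l
    obtain ⟨t, ht, ht'⟩ := l
    have hU := hφ.pre_open hH K'
    have le : hφ.pre K' ≤ H := fun _ e => e.1
    have hi : ∀ a ∈ H, ∀ b ∈ H, a ∉ hφ.pre K' → b ∉ hφ.pre K' → a * b ∈ hφ.pre K' :=
      fun a ha b hb x y => ⟨mul_mem ha hb, map_mul φ a b ▸
        k2 _ (hK a ha) _ (hK b hb) (fun e => x ⟨ha, e⟩) fun e => y ⟨hb, e⟩⟩
    have t' : t ∉ hφ.pre K' := fun e => ht' e.2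
    obtain ⟨δ, h0, hδ⟩ := h.quad hU le hi ht t'
    obtain ⟨s, s1, s2⟩ := ih K' k1 _ hU (h.nm_step hN le h0 hδ) fun _ e => e.2
    exact e1_step h q hq hε h2 h1 hk hN hU le hi ht t' h0 hδ hφ s1 s2
  obtain ⟨ψ, p1, p2⟩ := key ⊤ ⊤ isOpen_univ h.nm_top fun _ _ => trivial
  exact ⟨MonoidHom.mk' ψ fun a b => p1.1 a trivial b trivial,
    Subgroup.isOpen_of_mem_nhds _ (g := 1) p1.2, fun g => p2 g trivial⟩

end Pool.Agent.Lib.MP_d61fbb_ag.DW
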