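import Pool.Agent.Lib.MP_d61fbb_ag.DW.SD

/-! Norms from quadratic extensions. -/

set_option autoImplicit false

noncomputable section

namespace Pool.Agent.Lib.MP_d61fbb_ag.DW

open Polynomial

section norm

variable {Ω : Type} [Field Ω] {E F : Subfield Ω} {a a' b b' : Ω}

/-- `a` is a value of the norm form of `b` on `E`. -/
def n1_N (E : Subfield Ω) (a b : Ω) : Prop := ∃ u ∈ E, ∃ v ∈ E, a = u ^ 2 - b * v ^ 2

theorem n1_mono (h : n1_N E a b) (l : E ≤ F) : n1_N F a b :=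
  let ⟨u, hu, v, hv, e⟩ := h
  ⟨u, l hu, v, l hv, e⟩

theorem n1_mul (h : n1_N E a b) (h' : n1_N E a' b) (hb : b ∈ E) : n1_N E (a * a') b := by
  obtain ⟨u, hu, v, hv, rfl⟩ := h
  obtain ⟨u', hu', v', hv', rfl⟩ := h'
  exact ⟨u * u' + b * (v * v'), add_mem (mul_mem hu hu') (mul_mem hb (mul_mem hv hv')),
    u * v' + v * u', add_mem (mul_mem hu hv') (mul_mem hv hu'), by ring⟩

theorem n1_sq (ha : a ∈ E) (b : Ω) : n1_N E (a ^ 2) b := ⟨a, ha, 0, zero_mem _, by ring⟩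

theorem n1_div (h : n1_N E a b) (h' : n1_N E a' b) (ha : a' ∈ E) (hb : b ∈ E) :
    n1_N E (a / a') b := by
  have := n1_mul (n1_mul h h' hb) (n1_sq (inv_mem ha) b) hb
  rcases eq_or_ne a' 0 with rfl | h0
  · simpa using this
  · rwa [show a * a' * a'⁻¹ ^ 2 = a / a' by field_simp] at this

variable [CharZero Ω]

theorem n1_of_sq (ha : a ∈ E) (hb : b ∈ E) (h0 : b ≠ 0) : n1_N E a (b ^ 2) :=
  have h2 : (2 : Ω) ∈ E := ofNat_mem E 2
  ⟨(a + 1) / 2, div_mem (add_mem ha (one_mem _)) h2, (a - 1) / (2 * b),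
    div_mem (sub_mem ha (one_mem _)) (mul_mem h2 hb), by field_simp; ring⟩

theorem n1_symm (h : n1_N E a b) (h0 : a ≠ 0) (hb : b ∈ E) : n1_N E b a := by
  obtain ⟨u, hu, v, hv, e⟩ := h
  rcases eq_or_ne v 0 with rfl | v0
  · obtain rfl : a = u ^ 2 := by simpa using e
    exact n1_of_sq hb hu fun k => h0 (by simp [k])
  · exact ⟨u / v, div_mem hu hv, v⁻¹, inv_mem hv, by rw [e]; field_simp; ring⟩

/-- the second argument lies in the small field -/
theorem n1_low (l : E ≤ F) (hE : ∀ a ∈ E, ∀ b ∈ E, a ≠ 0 → b ≠ 0 → n1_N E a b) {δ : Ω}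
    (hF : δ ∈ F) (hn : δ ∉ E) (h2 : δ ^ 2 ∈ E) (dec : ∀ x ∈ F, ∃ s ∈ E, ∃ r ∈ E, x = s + r * δ)
    (ha : a ∈ F) (hb : b ∈ E) (a0 : a ≠ 0) (b0 : b ≠ 0) : n1_N F a b := by
  obtain ⟨s, hs, r, hr, e⟩ := dec a ha
  have c0 : s - r * δ ≠ 0 := fun k => by
    rcases eq_or_ne r 0 with rfl | r0
    · exact a0 (by linear_combination e + k)
    · exact hn (by
        rw [show δ = s / r by field_simp; linear_combination -k]
        exact div_mem hs hr)
  obtain ⟨u, hu, v, hv, e1⟩ := hE (s ^ 2 - r ^ 2 * δ ^ 2)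
    (sub_mem (pow_mem hs 2) (mul_mem (pow_mem hr 2) h2)) b hb
    (by rw [show s ^ 2 - r ^ 2 * δ ^ 2 = a * (s - r * δ) by rw [e]; ring]; exact mul_ne_zero a0 c0)
    b0
  have key : ∀ w ∈ E, w ^ 2 = u ^ 2 → s + w ≠ 0 → n1_N F a b := fun w hw ew w0 => by
    have m : 2 * (s + w) ∈ E := mul_mem (ofNat_mem E 2) (add_mem hs hw)
    have := n1_div (a := 2 * (s + w) * a) ⟨a + w, add_mem ha (l hw), v, l hv, by
      rw [e]; linear_combination e1 - ew⟩
      (n1_mono (hE _ m b hb (mul_ne_zero two_ne_zero w0) b0) l) (l m) (l hb)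
    rwa [mul_div_cancel_left₀ _ (mul_ne_zero two_ne_zero w0)] at this
  by_cases k : s + u = 0
  · by_cases k' : s + -u = 0
    · have s0 : s = 0 := by linear_combination (k + k') / 2
      have u0 : u = 0 := by linear_combination (k - k') / 2
      have r0 : r * δ ≠ 0 := fun j => c0 (by rw [s0, j, sub_zero])
      have e2 : b * v ^ 2 = (r * δ) ^ 2 := by rw [s0, u0] at e1; linear_combination e1
      have v0 : v ≠ 0 := fun j => pow_ne_zero 2 r0 (by rw [← e2, j]; ring)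
      rw [show b = (r * δ / v) ^ 2 by rw [div_pow, ← e2]; field_simp]
      exact n1_of_sq ha (div_mem (mul_mem (l hr) hF) (l hv)) (div_ne_zero r0 v0)
    · exact key (-u) (neg_mem hu) (by ring) k'
  · exact key u hu rfl k

/-- the property passes to a quadratic extension -/
theorem n1_up (l : E ≤ F) (hE : ∀ a ∈ E, ∀ b ∈ E, a ≠ 0 → b ≠ 0 → n1_N E a b) {δ i : Ω}
    (hi : i ∈ E) (hi2 : i ^ 2 = -1) (hF : δ ∈ F) (hn : δ ∉ E) (h2 : δ ^ 2 ∈ E)
    (dec : ∀ x ∈ F, ∃ s ∈ E, ∃ r ∈ E, x = s + r * δ)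
    (ha : a ∈ F) (hb : b ∈ F) (a0 : a ≠ 0) (b0 : b ≠ 0) : n1_N F a b := by
  have low : ∀ x ∈ F, ∀ c ∈ E, x ≠ 0 → c ≠ 0 → n1_N F x c := fun x hx c hc =>
    n1_low l hE hF hn h2 dec hx hc
  have low' : ∀ c ∈ E, c ≠ 0 → n1_N F c b := fun c hc c0 => n1_symm (low b hb c hc b0 c0) b0 (l hc)
  obtain ⟨s, hs, r, hr, e⟩ := dec a ha
  obtain ⟨s', hs', r', hr', e'⟩ := dec b hb
  rcases eq_or_ne r 0 with rfl | r0
  · exact low' a (by simpa [e] using hs) a0
  rcases eq_or_ne r' 0 with rfl | r0'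
  · exact low a ha b (by simpa [e'] using hs') a0 b0
  have hd : r' * a - r * b ∈ E := by
    rw [show r' * a - r * b = r' * s - r * s' by rw [e, e']; ring]
    exact sub_mem (mul_mem hr' hs) (mul_mem hr hs')
  rcases eq_or_ne (r' * a - r * b) 0 with d0 | d0
  · rw [show a = r / r' * b by field_simp; linear_combination d0]
    exact n1_mul (low' _ (div_mem hr hr') (div_ne_zero r0 r0'))
      ⟨0, zero_mem _, i, l hi, by rw [hi2]; ring⟩ hb
  generalize hD : r' * a - r * b = d at hd d0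
  have c1 : r' / d ∈ E := div_mem hr' hd
  have c2 : -r / d ∈ E := div_mem (neg_mem hr) hd
  have z1 := div_ne_zero r0' d0
  have z2 := div_ne_zero (neg_ne_zero.2 r0) d0
  have z3 := mul_ne_zero z1 a0
  have m3 := mul_mem (l c1) ha
  have p1 : n1_N F (r' / d * a) (-r / d * b) :=
    ⟨1, one_mem _, 1, one_mem _, by field_simp; linear_combination hD⟩
  have p2 := n1_div (n1_symm p1 z3 (mul_mem (l c2) hb))
    (n1_symm (low _ m3 _ c2 z3 z2) z3 (l c2)) (l c2) m3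
  rw [mul_div_cancel_left₀ _ z2] at p2
  have p3 := n1_div (n1_symm p2 b0 m3) (low' _ c1 z1) (l c1) hb
  rwa [mul_div_cancel_left₀ _ z1] at p3

end norm

variable {k Ω G : Type} [Field k] [IsAlgClosed k] [CharZero k] [Field Ω] [Algebra k Ω] [Group G]
  [TopologicalSpace G] [IsTopologicalGroup G] [MulSemiringAction G Ω] {z : Ω} {H U : Subgroup G}

omit [TopologicalSpace G] [IsTopologicalGroup G] in
theorem n1_mem {x : Ω} : x ∈ FixedPoints.subfield H Ω ↔ ∀ h ∈ H, h • x = x :=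
  ⟨fun k h hh => k ⟨h, hh⟩, fun k h => k h.1 h.2⟩

omit [TopologicalSpace G] [IsTopologicalGroup G] in
theorem n1_nm : Nm Ω H ↔ ∀ a ∈ FixedPoints.subfield H Ω, ∀ b ∈ FixedPoints.subfield H Ω,
    a ≠ 0 → b ≠ 0 → n1_N (FixedPoints.subfield H Ω) a b := by
  simp only [Nm, n1_N, n1_mem]
  exact ⟨fun k a ha b hb a0 b0 => let ⟨u, v, p, q, e⟩ := k a b a0 b0 ha hb; ⟨u, p, v, q, e⟩,
    fun k a b a0 b0 ha hb => let ⟨u, p, v, q, e⟩ := k a ha b hb a0 b0; ⟨u, v, p, q, e⟩⟩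

omit [TopologicalSpace G] [IsTopologicalGroup G] in
theorem n1_conj (h2 : ∀ a ∈ H, ∀ b ∈ H, a ∉ U → b ∉ U → a * b ∈ U) {t : G}
    (ht : t ∈ H) (ht' : t ∉ U) {x : Ω} (hx : ∀ u ∈ U, u • x = x) {g : G} (hg : g ∈ H) :
    (g ∈ U → g • t • x = t • x) ∧ (g ∉ U → g • x = t • x ∧ g • t • x = x) := by
  have a : ∀ g ∈ H, g ∉ U → g • x = t • x := fun g hg k => by
    rw [← mul_inv_cancel_left t g, mul_smul,
      hx _ (h2 _ (inv_mem ht) _ hg (fun j => ht' (inv_mem_iff.1 j)) k)]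
  refine ⟨fun k => ?_, fun k => ⟨a g hg k, ?_⟩⟩ <;> rw [← mul_smul]
  · exact a _ (mul_mem hg ht) fun j => ht' ((U.mul_mem_cancel_left k).1 j)
  · exact hx _ (h2 _ hg _ ht k ht')

/-- Kummer theory for a subgroup of index two. -/
theorem GD.quad (h : GD k G z) (hU : IsOpen (U : Set G)) (hUH : U ≤ H)
    (h2 : ∀ a ∈ H, ∀ b ∈ H, a ∉ U → b ∉ U → a * b ∈ U) {t : G} (ht : t ∈ H) (ht' : t ∉ U) :
    ∃ δ : Ω, δ ≠ 0 ∧ ∀ g ∈ H, (g ∈ U → g • δ = δ) ∧ (g ∉ U → g • δ = -δ) := by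
  obtain ⟨x, hx, hne⟩ := h.gal U (U.isClosed_of_isOpen hU) t ht'
  refine ⟨x - t • x, sub_ne_zero.2 hne.symm, fun g hg => ?_⟩
  obtain ⟨a, b⟩ := n1_conj h2 ht ht' hx hg
  exact ⟨fun j => by rw [smul_sub, hx g j, a j], fun j => by
    rw [smul_sub, (b j).1, (b j).2, neg_sub]⟩

theorem GD.nm_top (h : GD k G z) : Nm Ω (⊤ : Subgroup G) := by
  have : CharZero Ω := charZero_of_injective_algebraMap (algebraMap k Ω).injective
  rw [n1_nm]
  set E := FixedPoints.subfield (⊤ : Subgroup G) Ω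
  have hk : ∀ c : k, algebraMap k Ω c ∈ E := fun c => n1_mem.2 fun g _ => h.fixk g c
  have hz : z ∈ E := n1_mem.2 fun g _ => h.fixz g
  have A : ∀ b ∈ E, (∀ c : k, n1_N E (z + algebraMap k Ω c) b) → ∀ a ∈ E, n1_N E a b := by
    intro b hb hl a ha
    have P : ∀ p : k[X], aeval z p ∈ E ∧ n1_N E (aeval z p) b := fun p => by
      refine Submonoid.closure_induction
        (motive := fun p _ => aeval z p ∈ E ∧ n1_N E (aeval z p) b)
        ?_ ?_ (fun p q _ _ hp hq => ?_) (IsAlgClosed.splits p)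
      · rintro _ (⟨c, rfl⟩ | ⟨c, rfl⟩)
        · obtain ⟨s, rfl⟩ := IsAlgClosed.exists_pow_nat_eq c two_pos
          rw [aeval_C]
          exact ⟨hk _, by rw [map_pow]; exact n1_sq (hk s) b⟩
        · rw [map_add, aeval_X, aeval_C]
          exact ⟨add_mem hz (hk c), hl c⟩
      · rw [map_one]
        exact ⟨one_mem _, by simpa using n1_sq (one_mem E) b⟩
      · rw [map_mul]
        exact ⟨mul_mem hp.1 hq.1, n1_mul hp.2 hq.2 hb⟩
    obtain ⟨p, q, q0, e⟩ := h.base a fun g => n1_mem.1 ha g trivial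
    rw [eq_div_of_mul_eq (fun j => h.cd.tr ⟨q, q0, j⟩) e]
    exact n1_div (P p).2 (P q).2 (P q).1 hb
  intro a ha b hb _ b0
  refine A b hb (fun c => n1_symm (A _ (add_mem hz (hk c)) (fun c' => ?_) b hb) b0
    (add_mem hz (hk c))) a ha
  obtain ⟨s, hs⟩ := IsAlgClosed.exists_pow_nat_eq (c' - c) two_pos
  obtain ⟨i, hi⟩ := IsAlgClosed.exists_pow_nat_eq (-1 : k) two_pos
  refine ⟨_, hk s, _, hk i, ?_⟩
  rw [← map_pow, ← map_pow, hs, hi, map_sub, map_neg, map_one]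
  ring

theorem GD.nm_step (h : GD k G z) (hH : Nm Ω H) (hUH : U ≤ H) {δ : Ω} (h0 : δ ≠ 0)
    (hδ : ∀ g ∈ H, (g ∈ U → g • δ = δ) ∧ (g ∉ U → g • δ = -δ)) : Nm Ω U := by
  have : CharZero Ω := charZero_of_injective_algebraMap (algebraMap k Ω).injective
  by_cases hle : H ≤ U
  · rwa [le_antisymm hUH hle]
  obtain ⟨t, ht, ht'⟩ := SetLike.not_le_iff_exists.1 hle
  have ne : δ ≠ -δ := fun j => h0 (by linear_combination j / 2)
  have h2 : ∀ a ∈ H, ∀ b ∈ H, a ∉ U → b ∉ U → a * b ∈ U := fun a ha b hb a' b' => by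
    by_contra j
    refine ne (Eq.trans ?_ ((hδ _ (mul_mem ha hb)).2 j))
    rw [mul_smul, (hδ b hb).2 b', smul_neg, (hδ a ha).2 a', neg_neg]
  obtain ⟨i, hi⟩ := IsAlgClosed.exists_pow_nat_eq (-1 : k) two_pos
  have two : ∀ g : G, g • (2 : Ω) = 2 := fun g => by
    rw [← one_add_one_eq_two, smul_add, smul_one]
  rw [n1_nm] at hH ⊢
  intro a ha b hb a0 b0
  refine n1_up (δ := δ) (i := algebraMap k Ω i)
    (fun x hx => n1_mem.2 fun g hg => n1_mem.1 hx g (hUH hg)) hH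
    (n1_mem.2 fun g _ => h.fixk g i) (by rw [← map_pow, hi, map_neg, map_one])
    (n1_mem.2 fun g hg => (hδ g (hUH hg)).1 hg)
    (fun j => ne ((n1_mem.1 j t ht).symm.trans ((hδ t ht).2 ht')))
    (n1_mem.2 fun g hg => ?_) (fun x hx => ?_) ha hb a0 b0
  · by_cases j : g ∈ U
    · rw [smul_pow', (hδ g hg).1 j]
    · rw [smul_pow', (hδ g hg).2 j, neg_sq]
  · rw [n1_mem] at hx
    refine ⟨(x + t • x) / 2, n1_mem.2 fun g hg => ?_, (x - t • x) / (2 * δ),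
      n1_mem.2 fun g hg => ?_, by field_simp; ring⟩ <;>
      obtain ⟨p, q⟩ := n1_conj h2 ht ht' hx hg <;> by_cases j : g ∈ U
    · rw [smul_div₀', smul_add, hx g j, p j, two]
    · rw [smul_div₀', smul_add, (q j).1, (q j).2, two, add_comm]
    · rw [smul_div₀', smul_sub, smul_mul', hx g j, p j, two, (hδ g hg).1 j]
    · rw [smul_div₀', smul_sub, smul_mul', (q j).1, (q j).2, two, (hδ g hg).2 j, mul_neg,
        div_neg, ← neg_div, neg_sub]

end Pool.Agent.Lib.MP_d61fbb_ag.DW
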