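import Pool.Agent.Lib.MP_d61fbb_ag.DW.I1
import Pool.Agent.Lib.MP_d61fbb_ag.DW.N1

/-! Generators of the fundamental group. -/

set_option autoImplicit false

noncomputable section

namespace Pool.Agent.Lib.MP_d61fbb_ag.DW

open Polynomial

variable {k Ω G : Type} [Field k] [IsAlgClosed k] [CharZero k] [Field Ω] [IsAlgClosed Ω]
  [Algebra k Ω] [Group G] [TopologicalSpace G] [IsTopologicalGroup G] [CompactSpace G]
  [MulSemiringAction G Ω] {z : Ω} {ζ : ℕ → k} {S : Set k} {N : Subgroup G}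

lemma f1_orbit (h : GD k G z) (x : Ω) : (Set.range fun g : G => g • x).Finite := by
  refine IsLocallyConstant.range_finite ((IsLocallyConstant.iff_exists_open _).2 fun g0 => ?_)
  refine ⟨(fun g => g0⁻¹ * g) ⁻¹' {g : G | g • x = x}, (h.opn x).preimage (by fun_prop),
    by simp, fun g hg => ?_⟩
  have e : (g0⁻¹ * g) • x = x := hg
  rw [mul_smul, inv_smul_eq_iff] at e
  exact e

lemma f1_val_one {R : ValuationSubring Ω} {p : Ω} {M : ℕ} (hM : M ≠ 0)
    (e : R.valuation (p ^ M) = 1) : R.valuation p = 1 := by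
  rw [map_pow] at e
  exact (pow_eq_one_iff_of_nonneg zero_le hM).1 e

theorem GD.fin_ram (h : GD k G z) (hN : IsOpen (N : Set G)) :
    ∃ T : Finset k, ∀ a ∉ T, ∀ R : ValuationSubring Ω, Ov k R (un z (some a)) →
      ∀ g : G, Dc R g → g ∈ N := by
  classical
  obtain ⟨E, hE⟩ := h.nhd N (hN.mem_nhds N.one_mem)
  have key : ∀ w : Ω, ∃ T : Finset k, w ≠ 0 → ∀ a ∉ T, ∀ R : ValuationSubring Ω,
      Ov k R (un z (some a)) → R.valuation w = 1 := fun w => by
    by_cases hw : w = 0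
    · exact ⟨∅, fun h' => absurd hw h'⟩
    · obtain ⟨T, hT⟩ := unit_fin h.cd hw
      exact ⟨T, fun _ => hT⟩
  choose T hT using key
  refine ⟨E.biUnion fun x => T x ∪ (f1_orbit h x).toFinset.biUnion fun w => T (w - x),
    fun a ha R o g hg => hE g fun x hx => ?_⟩
  by_cases hx0 : x = 0
  · simp [hx0]
  by_contra hne
  have h1 : a ∉ T x := fun h' => ha (Finset.mem_biUnion.2 ⟨x, hx, Finset.mem_union_left _ h'⟩)
  have h2 : a ∉ T (g • x - x) := fun h' => ha (Finset.mem_biUnion.2 ⟨x, hx,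
    Finset.mem_union_right _ (Finset.mem_biUnion.2 ⟨g • x, by simp, h'⟩)⟩)
  have h3 := h.res o hg ((R.valuation_le_one_iff x).1 (hT x hx0 a h1 R o).le)
  exact h3.ne (hT _ (sub_ne_zero.2 hne) a h2 R o)

theorem GD.adm_of (h : GD k G z) (hζ : Rt ζ) (hN : Tw N)
    (hy : ∀ a : k, a ∉ S → ∃ y ∈ N, Gn ζ (un z (some a)) y) : Adm z S N := by
  refine ⟨hN, fun a ha R o g hg => ?_⟩
  obtain ⟨y, hyN, e⟩ := hy a ha
  obtain ⟨u, hu⟩ := h.loc hζ e o
  obtain ⟨j, hj⟩ := hu N hN
  obtain ⟨b, hb⟩ := h.th hζ (some a) g j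
  have h1 := N.mul_mem (N.pow_mem hyN b) (hj j le_rfl g b hg hb)
  have h2 := hN.normal.conj_mem _ h1 u
  simpa [mul_assoc] using h2

/-- The Kummer character of `z - a`. -/
theorem GD.kum (h : GD k G z) (hζ : Rt ζ) (a : k) (j : ℕ) :
    ∃ κ : G →* kˣ, Adm z {a} κ.ker ∧ (∀ g, κ g ^ 2 ^ j = 1) ∧
      (∀ y, Gn ζ (un z (some a)) y → (κ y : k) = ζ j) ∧
      ∀ y, Gn ζ (un z (none : Option k)) y → (κ y : k) * ζ j = 1 := by
  have hM : 2 ^ j ≠ 0 := by positivity
  obtain ⟨p, hp⟩ := IsAlgClosed.exists_pow_nat_eq (un z (some a)) (Nat.pos_of_ne_zero hM)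
  have hp0 : p ≠ 0 := by
    rintro rfl
    exact (h.cd.un (some a)).ne (by rw [← hp, zero_pow hM])
  have inj : ∀ c c' : k, algebraMap k Ω c * p = algebraMap k Ω c' * p → c = c' := fun c c' e =>
    (algebraMap k Ω).injective (mul_right_cancel₀ hp0 e)
  have ex : ∀ g : G, ∃ c : kˣ, g • p = algebraMap k Ω c * p ∧ c ^ 2 ^ j = 1 := fun g => by
    obtain ⟨n, hn⟩ := h.th hζ (some a) g j
    refine ⟨Units.mk0 (ζ j ^ n) (pow_ne_zero _ ((hζ.prim j).ne_zero hM)), ?_, ?_⟩
    · rw [hn p hp, Units.val_mk0, map_pow]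
    · ext
      rw [Units.val_pow_eq_pow_val, Units.val_mk0, ← pow_mul, mul_comm, pow_mul,
        (hζ.prim j).pow_eq_one, one_pow, Units.val_one]
  choose c hc hc1 using ex
  let κ : G →* kˣ := MonoidHom.mk' c fun g g' => by
    ext
    apply inj
    rw [← hc, mul_smul, hc g', smul_mul', h.fixk, hc g, Units.val_mul, map_mul]
    ring
  have hk : ∀ g : G, g ∈ κ.ker ↔ g • p = p := fun g => by
    rw [MonoidHom.mem_ker]
    constructor
    · intro e
      have e' : c g = 1 := e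
      rw [hc g, e']
      simp
    · intro e
      ext
      apply inj
      show algebraMap k Ω (c g) * p = _
      rw [← hc, e]
      simp
  refine ⟨κ, ⟨⟨inferInstance, ?_, fun g => ⟨j, ?_⟩⟩, fun b hb R o g hg => ?_⟩, hc1,
    fun y ⟨R, _, _, hy⟩ => ?_, fun y ⟨R, o, hd, hy⟩ => ?_⟩
  · have : (κ.ker : Set G) = {g : G | g • p = p} := Set.ext hk
    rw [this]
    exact h.opn p
  · rw [MonoidHom.mem_ker, map_pow]
    exact hc1 g
  · refine (hk g).2 (h.unit_root o hg hM (f1_val_one hM ?_) ?_)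
    · rw [hp]
      exact o.unit fun e => hb e.symm
    · rw [hp]
      exact h.fix_un _ g
  · apply inj
    show algebraMap k Ω (c y) * p = _
    rw [← hc, hy j p hp, pow_one]
  · obtain ⟨p', hp'⟩ := IsAlgClosed.exists_pow_nat_eq (un z (none : Option k))
      (Nat.pos_of_ne_zero hM)
    have hp0' : p' ≠ 0 := by
      rintro rfl
      exact (h.cd.un none).ne (by rw [← hp', zero_pow hM])
    have e : y • (p * p') = p * p' := by
      refine h.unit_root o hd hM (f1_val_one hM ?_) ?_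
      · rw [mul_pow, hp, hp']
        exact o.unit_inf h.cd a
      · rw [mul_pow, hp, hp', smul_mul', h.fix_un, h.fix_un]
    rw [smul_mul', hc y, hy j p' hp', pow_one] at e
    apply inj
    apply mul_right_cancel₀ hp0'
    show algebraMap k Ω (c y * ζ j) * p * p' = _
    rw [map_mul, map_one, one_mul, ← e]
    ring

theorem Adm.mono {S' : Set k} (h : Adm z S N) (hS : S ⊆ S') : Adm z S' N :=
  ⟨h.1, fun a ha => h.2 a fun h' => ha (hS h')⟩

theorem Adm.inf {N' : Subgroup G} (h : Adm z S N) (h' : Adm z S N') : Adm z S (N ⊓ N') := by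
  refine ⟨⟨?_, h.1.opn.inter h'.1.opn, fun g => ?_⟩,
    fun a ha R o g hg => ⟨h.2 a ha R o g hg, h'.2 a ha R o g hg⟩⟩
  · exact ⟨fun n hn g => ⟨h.1.normal.conj_mem n hn.1 g, h'.1.normal.conj_mem n hn.2 g⟩⟩
  · obtain ⟨i, hi⟩ := h.1.pw g
    obtain ⟨j, hj⟩ := h'.1.pw g
    refine ⟨i + j, ?_, ?_⟩
    · rw [pow_add, pow_mul]
      exact N.pow_mem hi _
    · rw [add_comm, pow_add, pow_mul]
      exact N'.pow_mem hj _

theorem adm_top : Adm z S (⊤ : Subgroup G) :=
  ⟨⟨inferInstance, isOpen_univ, fun _ => ⟨0, trivial⟩⟩, fun _ _ _ _ _ _ => trivial⟩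

theorem Adm.gn (h : Adm z S N) {a : k} (ha : a ∉ S) {y : G} (hy : Gn ζ (un z (some a)) y) :
    y ∈ N := by
  obtain ⟨R, o, hd, -⟩ := hy
  exact h.2 a ha R o y hd

theorem nz_le (h : Adm z S N) : Nz G z S ≤ N := sInf_le h

theorem nz_normal : (Nz G z S).Normal :=
  ⟨fun n hn g => Subgroup.mem_sInf.2 fun _ hN =>
    hN.1.normal.conj_mem n (Subgroup.mem_sInf.1 hn _ hN) g⟩

theorem nz_closed : IsClosed (Nz G z S : Set G) := by
  rw [Nz, Subgroup.coe_sInf]
  exact isClosed_biInter fun N hN => N.isClosed_of_isOpen hN.1.opn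

theorem exists_adm {U : Set G} (hU : IsOpen U) (h : (Nz G z S : Set G) ⊆ U) :
    ∃ N : Subgroup G, Adm z S N ∧ (N : Set G) ⊆ U := by
  have : Nonempty {N : Subgroup G // Adm z S N} := ⟨⟨⊤, adm_top⟩⟩
  obtain ⟨N, hN⟩ := hU.isClosed_compl.isCompact.elim_directed_family_closed
    (fun N : {N : Subgroup G // Adm z S N} => (N.1 : Set G))
    (fun N => N.1.isClosed_of_isOpen N.2.1.opn)
    (Set.eq_empty_of_forall_notMem fun g hg => hg.1 (h (Subgroup.mem_sInf.2 fun N hN =>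
      Set.mem_iInter.1 hg.2 ⟨N, hN⟩)))
    (fun N N' => ⟨⟨N.1 ⊓ N'.1, N.2.inf N'.2⟩, fun _ hg => hg.1, fun _ hg => hg.2⟩)
  refine ⟨N.1, N.2, fun g hg => ?_⟩
  by_contra hg'
  exact Set.eq_empty_iff_forall_notMem.1 hN g ⟨hg', hg⟩

/-- A proper subgroup of a finite `2`-group lies in a subgroup of index two. -/
lemma f1_two {Q : Type} [Group Q] [Finite Q] (hQ : IsPGroup 2 Q) {K : Subgroup Q} (hK : K ≠ ⊤) :
    ∃ M : Subgroup Q, K ≤ M ∧ M ≠ ⊤ ∧ ∀ a b, a ∉ M → b ∉ M → a * b ∈ M := by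
  classical
  obtain ⟨M, hM, hKM⟩ := (eq_top_or_exists_le_coatom K).resolve_left hK
  have : Group.IsNilpotent Q := hQ.isNilpotent
  have : M.Normal :=
    Subgroup.NormalizerCondition.normal_of_coatom M Group.normalizerCondition_of_isNilpotent hM
  refine ⟨M, hKM, hM.1, fun a b ha hb => ?_⟩
  have ex : ∃ j, a ^ 2 ^ j ∈ M := (hQ a).imp fun j hj => by rw [hj]; exact M.one_mem
  obtain ⟨i, hi⟩ : ∃ i, Nat.find ex = i + 1 := Nat.exists_eq_succ_of_ne_zero fun e => by
    have := Nat.find_spec ex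
    rw [e] at this
    exact ha (by simpa using this)
  have h1 : a ^ 2 ^ i ∉ M := Nat.find_min ex (by omega)
  have h2 : a ^ 2 ^ i * a ^ 2 ^ i ∈ M := by
    have := Nat.find_spec ex
    rwa [hi, pow_succ, pow_mul, sq] at this
  generalize a ^ 2 ^ i = c at h1 h2
  let π := QuotientGroup.mk' M
  have hπ : ∀ x, π x = 1 ↔ x ∈ M := fun x => QuotientGroup.eq_one_iff x
  have hc : π c * π c = 1 := by rw [← map_mul, hπ]; exact h2
  let L : Subgroup Q :=
    { carrier := {x | π x = 1 ∨ π x = π c}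
      one_mem' := Or.inl (map_one π)
      mul_mem' := by
        rintro x y (hx | hx) (hy | hy) <;> simp only [Set.mem_ofPred_eq, map_mul, hx, hy, hc] <;>
          simp
      inv_mem' := by
        rintro x (hx | hx)
        · exact Or.inl (by rw [map_inv, hx, inv_one])
        · exact Or.inr (by rw [map_inv, hx, inv_eq_of_mul_eq_one_right hc]) }
  have hL : L = ⊤ := hM.2 L (lt_of_le_of_ne (fun x hx => Or.inl ((hπ x).2 hx)) fun e =>
    h1 (e ▸ (Or.inr rfl : c ∈ L)))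
  have all : ∀ x, x ∉ M → π x = π c := fun x hx =>
    (show x ∈ L from hL ▸ Subgroup.mem_top x).resolve_left fun e => hx ((hπ x).1 e)
  rw [← hπ, map_mul, all a ha, all b hb, hc]

lemma f1_fix (h : GD k G z) (g : G) (r : k[X]) : g • aeval z r = aeval z r := by
  induction r using Polynomial.induction_on' with
  | add p q hp hq => rw [map_add, smul_add, hp, hq]
  | monomial n c => rw [aeval_monomial, smul_mul', smul_pow', h.fixk, h.fixz]

lemma f1_val {R : ValuationSubring Ω} {a : k} (o : Ov k R (un z (some a))) {r : k[X]}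
    (hr : ¬ r.IsRoot a) : R.valuation (aeval z r) = 1 := by
  have hz : z ∈ R := by
    have := R.add_mem _ _ ((R.valuation_le_one_iff _).1 o.2.le) (o.1 a)
    simpa [un] using this
  have hm : ∀ q : k[X], aeval z q ∈ R := fun q => by
    induction q using Polynomial.induction_on' with
    | add p q hp hq => rw [map_add]; exact add_mem hp hq
    | monomial n c => rw [aeval_monomial]; exact mul_mem (o.1 c) (pow_mem hz n)
  have e : aeval z r = algebraMap k Ω (r.eval a) + un z (some a) * aeval z (r /ₘ (X - C a)) := by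
    conv_lhs => rw [← modByMonic_add_div r (X - C a), modByMonic_X_sub_C_eq_C_eval]
    simp [un]
  have h1 := o.const (a := r.eval a) hr
  rw [e, Valuation.map_add_eq_of_lt_left, h1]
  rw [h1, map_mul]
  exact mul_lt_one_of_nonneg_of_lt_one_left zero_le o.2 ((R.valuation_le_one_iff _).2 (hm _))

lemma f1_sq (h : GD k G z) (hζ : Rt ζ) {M : Subgroup G} {t : G} (ht : t ∉ M)
    (hy : ∀ a : k, ∃ y ∈ M, Gn ζ (un z (some a)) y) (n : ℕ) :
    ∀ r : k[X], r.natDegree = n → ∀ δ : Ω, δ ≠ 0 → δ ^ 2 = aeval z r →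
      (∀ g ∈ M, g • δ = δ) → t • δ ≠ -δ := by
  have : CharZero Ω := charZero_of_injective_algebraMap (algebraMap k Ω).injective
  induction n using Nat.strong_induction_on with
  | _ n ih =>
  intro r hr δ h0 e hM hδ
  have r0 : r ≠ 0 := by
    rintro rfl
    exact pow_ne_zero 2 h0 (by rw [e, map_zero])
  by_cases hd : r.degree = 0
  · obtain ⟨s, hs⟩ := IsAlgClosed.exists_pow_nat_eq (r.coeff 0) two_pos
    rw [eq_C_of_degree_eq_zero hd, aeval_C, ← hs, map_pow] at e
    have : t • δ = δ := by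
      rcases sq_eq_sq_iff_eq_or_eq_neg.1 e with e | e
      · rw [e, h.fixk]
      · rw [e, smul_neg, h.fixk]
    exact h0 (self_eq_neg.1 (this.symm.trans hδ))
  obtain ⟨a, ha⟩ := IsAlgClosed.exists_root r hd
  obtain ⟨r1, rfl⟩ := dvd_iff_isRoot.2 ha
  have u0 : un z (some a) ≠ 0 := (h.cd.un (some a)).ne
  have eu : aeval z (X - C a) = un z (some a) := by simp [un]
  by_cases h1 : r1.IsRoot a
  · obtain ⟨r2, rfl⟩ := dvd_iff_isRoot.2 h1
    have r20 : r2 ≠ 0 := by
      rintro rfl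
      exact r0 (by simp)
    refine ih r2.natDegree ?_ r2 rfl (δ / un z (some a)) (div_ne_zero h0 u0) ?_ ?_ ?_
    · rw [← hr, natDegree_mul (X_sub_C_ne_zero a) (mul_ne_zero (X_sub_C_ne_zero a) r20),
        natDegree_mul (X_sub_C_ne_zero a) r20, natDegree_X_sub_C]
      omega
    · rw [div_pow, e, map_mul, map_mul, eu]
      field_simp
    · intro g hg
      rw [smul_div₀', hM g hg, h.fix_un]
    · rw [smul_div₀', hδ, h.fix_un, neg_div]
  · obtain ⟨y, hyM, R, o, hD, hT⟩ := hy a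
    obtain ⟨p, hp⟩ := IsAlgClosed.exists_pow_nat_eq (un z (some a)) two_pos
    have p0 : p ≠ 0 := by
      rintro rfl
      exact u0 (by rw [← hp]; simp)
    have e1 : (δ / p) ^ 2 = aeval z r1 := by
      rw [div_pow, e, hp, map_mul, eu]
      field_simp
    have e2 : y • (δ / p) = δ / p := by
      refine h.unit_root o hD two_ne_zero (f1_val_one two_ne_zero ?_) ?_
      · rw [e1]
        exact f1_val o h1
      · rw [e1, f1_fix h]
    have e3 : ζ 1 = -1 := (show IsPrimitiveRoot (ζ 1) 2 from hζ.prim 1).eq_neg_one_of_two_right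
    rw [smul_div₀', hM y hyM, hT 1 p hp, e3, pow_one, map_neg, map_one, neg_one_mul,
      div_neg] at e2
    exact div_ne_zero h0 p0 (neg_eq_self.1 e2)

theorem GD.gen (h : GD k G z) (hζ : Rt ζ) {H : Subgroup G} (hH : IsClosed (H : Set G))
    (hN : Nz G z S ≤ H) (hy : ∀ a ∈ S, ∃ y ∈ H, Gn ζ (un z (some a)) y) : H = ⊤ := by
  by_contra hne
  obtain ⟨t, ht⟩ : ∃ t, t ∉ H := by
    by_contra h'
    exact hne ((Subgroup.eq_top_iff' H).2 fun x => not_not.1 fun hx => h' ⟨x, hx⟩)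
  obtain ⟨N, hA, hU⟩ := exists_adm (z := z) (S := S) (U := ((fun g => t * g⁻¹) ⁻¹' (H : Set G))ᶜ)
    (hH.preimage (by fun_prop)).isOpen_compl fun g hg hg' =>
      ht (by simpa using H.mul_mem hg' (hN hg))
  have := hA.1.normal
  have : Finite (G ⧸ N) := N.quotient_finite_of_isOpen hA.1.opn
  let π := QuotientGroup.mk' N
  have hπ : Function.Surjective π := QuotientGroup.mk'_surjective N
  have hQ : IsPGroup 2 (G ⧸ N) := fun q => by
    obtain ⟨g, rfl⟩ := hπ q
    obtain ⟨j, hj⟩ := hA.1.pw g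
    exact ⟨j, by rw [← map_pow]; exact (QuotientGroup.eq_one_iff _).2 hj⟩
  have hK : H.map π ≠ ⊤ := fun e => by
    obtain ⟨x, hx, ex⟩ : π t ∈ H.map π := e ▸ Subgroup.mem_top _
    have h1 : x⁻¹ * t ∈ N := QuotientGroup.eq.1 ex
    exact hU h1 (by simpa using hx)
  obtain ⟨M', h1, h2, h3⟩ := f1_two hQ hK
  have hHM : H ≤ M'.comap π := Subgroup.map_le_iff_le_comap.1 h1
  have hNM : N ≤ M'.comap π := fun g hg => by
    have : π g = 1 := (QuotientGroup.eq_one_iff g).2 hg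
    rw [Subgroup.mem_comap, this]
    exact M'.one_mem
  obtain ⟨t', ht'⟩ : ∃ t', t' ∉ M'.comap π := by
    by_contra h'
    refine h2 ((Subgroup.eq_top_iff' M').2 fun q => ?_)
    obtain ⟨g, rfl⟩ := hπ q
    exact not_not.1 fun hx => h' ⟨g, hx⟩
  obtain ⟨δ, h0, hδ⟩ := h.quad (H := ⊤) (Subgroup.isOpen_mono hNM hA.1.opn) le_top
    (fun a _ b _ ha hb => by
      rw [Subgroup.mem_comap, map_mul]
      exact h3 _ _ ha hb) (Subgroup.mem_top t') ht'
  obtain ⟨p, q, hq, e⟩ := h.base (δ ^ 2) fun g => by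
    by_cases hg : g ∈ M'.comap π
    · rw [smul_pow', (hδ g trivial).1 hg]
    · rw [smul_pow', (hδ g trivial).2 hg, neg_sq]
  have q0 : aeval z q ≠ 0 := fun e' => hq (transcendental_iff.1 h.cd.tr q e')
  refine f1_sq h hζ ht' (fun a => ?_) _ (p * q) rfl (δ * aeval z q) (mul_ne_zero h0 q0) ?_ ?_ ?_
  · by_cases ha : a ∈ S
    · obtain ⟨y, hy1, hy2⟩ := hy a ha
      exact ⟨y, hHM hy1, hy2⟩
    · obtain ⟨y, hy2⟩ := h.exists_gn hζ (some a)
      exact ⟨y, hNM (hA.gn ha hy2), hy2⟩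
  · rw [map_mul, ← e]
    ring
  · intro g hg
    rw [smul_mul', (hδ g trivial).1 hg, f1_fix h]
  · rw [smul_mul', (hδ t' trivial).2 ht', f1_fix h, neg_mul]

end Pool.Agent.Lib.MP_d61fbb_ag.DW
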