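import Pool.Agent.Lib.MP_d61fbb_ag.DW.F1
import Pool.Agent.Lib.MP_d61fbb_ag.DW.E1

/-! Freeness of the fundamental group. -/

set_option autoImplicit false

noncomputable section

namespace Pool.Agent.Lib.MP_d61fbb_ag.DW

open Polynomial

variable {k Ω G : Type} [Field k] [IsAlgClosed k] [CharZero k] [Field Ω] [IsAlgClosed Ω]
  [Algebra k Ω] [Group G] [TopologicalSpace G] [IsTopologicalGroup G] [CompactSpace G]
  [MulSemiringAction G Ω] {z : Ω} {ζ : ℕ → k}

open Classical in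
theorem f2_chi (h : GD k G z) (hζ : Rt ζ) {Y : k → G} (hY : ∀ b, Gn ζ (un z (some b)) (Y b))
    {P : Type} [Group P] {ε : P} (h2 : ε * ε = 1) (b : k) :
    ∃ χ : G →* P, IsOpen (χ.ker : Set G) ∧ (∀ g, χ g = 1 ∨ χ g = ε) ∧ χ (Y b) = ε ∧
      ∀ c, c ≠ b → χ (Y c) = 1 := by
  obtain ⟨κ, k1, k2, k3, -⟩ := h.kum hζ b 1
  have hs : ∀ g, (κ g : k) = 1 ∨ (κ g : k) = -1 := fun g => by
    have := congrArg Units.val (k2 g)
    rw [pow_one, pow_two, Units.val_mul, Units.val_one] at this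
    exact mul_self_eq_one_iff.1 this
  have hn : (-1 : k) ≠ 1 := by norm_num
  let χ : G →* P := MonoidHom.mk' (fun g => if (κ g : k) = 1 then 1 else ε) fun g g' => by
    rw [map_mul, Units.val_mul]
    rcases hs g with e | e <;> rcases hs g' with e' | e' <;> simp [e, e', hn, h2]
  have hχ : ∀ g, χ g = if (κ g : k) = 1 then 1 else ε := fun _ => rfl
  have hk : κ.ker ≤ χ.ker := fun g hg => by
    rw [MonoidHom.mem_ker] at hg ⊢
    rw [hχ, hg, Units.val_one, if_pos rfl]
  refine ⟨χ, Subgroup.isOpen_mono hk k1.1.opn, fun g => ?_, ?_, fun c hc => hk (k1.gn hc (hY c))⟩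
  · rw [hχ]
    split_ifs
    exacts [Or.inl rfl, Or.inr rfl]
  · rw [hχ, k3 _ (hY b), if_neg ((hζ.prim 1).ne_one (by norm_num))]

theorem f2_fix (h : GD k G z) (hζ : Rt ζ) {Y : k → G} (hY : ∀ b, Gn ζ (un z (some b)) (Y b))
    {P : Type} [Group P] {ε : P} (hε : ∀ x, x * ε = ε * x) (h2 : ε * ε = 1) (t : k → P)
    (B : Finset k) : ∀ ψ : G →* P, IsOpen (ψ.ker : Set G) → (∀ b ∉ B, ψ (Y b) = t b) →
      (∀ b ∈ B, ψ (Y b) * ε = t b) →
      ∃ φ : G →* P, IsOpen (φ.ker : Set G) ∧ ∀ b, φ (Y b) = t b := by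
  classical
  induction B using Finset.induction_on with
  | empty => exact fun ψ o e _ => ⟨ψ, o, fun b => e b (Finset.notMem_empty b)⟩
  | insert b B hb ih =>
    intro ψ o e e'
    obtain ⟨χ, c1, c2, c3, c4⟩ := f2_chi h hζ hY h2 b
    have hc : ∀ g x, x * χ g = χ g * x := fun g x => by
      rcases c2 g with r | r <;> rw [r]
      exacts [by rw [mul_one, one_mul], hε x]
    let φ : G →* P := MonoidHom.mk' (fun g => ψ g * χ g) fun g g' => by
      rw [map_mul, map_mul, mul_assoc, mul_assoc, ← mul_assoc (ψ g'), hc g (ψ g'), mul_assoc]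
    have hφ : ∀ g, φ g = ψ g * χ g := fun _ => rfl
    have hk : ψ.ker ⊓ χ.ker ≤ φ.ker := fun g hg => by
      rw [MonoidHom.mem_ker, hφ, MonoidHom.mem_ker.1 hg.1, MonoidHom.mem_ker.1 hg.2, one_mul]
    refine ih φ (Subgroup.isOpen_mono hk (o.inter c1)) (fun c hc' => ?_) fun c hc' => ?_
    · rcases eq_or_ne c b with rfl | r
      · rw [hφ, c3, e' c (Finset.mem_insert_self _ _)]
      · rw [hφ, c4 c r, mul_one, e c (by simp [r, hc'])]
    · rw [hφ, c4 c fun r => hb (r ▸ hc'), mul_one, e' c (Finset.mem_insert_of_mem hc')]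

theorem f2_eps {P : Type} [Group P] [Finite P] [Nontrivial P] (hP : IsPGroup 2 P) :
    ∃ ε : P, ε ≠ 1 ∧ (∀ x, x * ε = ε * x) ∧ ε * ε = 1 := by
  have := hP.center_nontrivial
  obtain ⟨n, hn, e⟩ := (hP.to_subgroup (Subgroup.center P)).nontrivial_iff_card.1 inferInstance
  obtain ⟨c, hc⟩ := exists_prime_orderOf_dvd_card' (G := Subgroup.center P) 2
    (e ▸ dvd_pow_self 2 hn.ne')
  refine ⟨c, fun r => ?_, fun x => Subgroup.mem_center_iff.1 c.2 x, ?_⟩
  · rw [(Subtype.ext r : c = 1), orderOf_one] at hc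
    exact absurd hc (by norm_num)
  · have := pow_orderOf_eq_one c
    rw [hc, pow_two] at this
    exact congrArg Subtype.val this

theorem f2_main (h : GD k G z) (hζ : Rt ζ) {Y : k → G} (hY : ∀ b, Gn ζ (un z (some b)) (Y b))
    (S : Finset k) (n : ℕ) : ∀ (P : Type) [Group P] [Finite P], Nat.card P ≤ n → IsPGroup 2 P →
      ∀ t : k → P, (∀ b ∉ S, t b = 1) →
      ∃ φ : G →* P, IsOpen (φ.ker : Set G) ∧ ∀ b, φ (Y b) = t b := by
  classical
  induction n with
  | zero => exact fun P _ _ c => absurd c (Nat.not_le.2 Nat.card_pos)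
  | succ n ih =>
    intro P _ _ c hP t ht
    rcases subsingleton_or_nontrivial P with s | s
    · exact ⟨1, by simp, fun b => Subsingleton.elim _ _⟩
    obtain ⟨ε, h1, hε, h2⟩ := f2_eps hP
    let Z : Subgroup P :=
      { carrier := {x | x = 1 ∨ x = ε}
        one_mem' := Or.inl rfl
        mul_mem' := by rintro _ _ (rfl | rfl) (rfl | rfl) <;> simp [h2]
        inv_mem' := by
          rintro _ (rfl | rfl)
          exacts [Or.inl inv_one, Or.inr (inv_eq_of_mul_eq_one_right h2)] }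
    have : Z.Normal := ⟨by
      rintro _ (rfl | rfl) g
      · exact Or.inl (by simp)
      · exact Or.inr (by rw [hε g, mul_inv_cancel_right])⟩
    have hq : ∀ x, QuotientGroup.mk' Z x = 1 ↔ x = 1 ∨ x = ε := fun x =>
      QuotientGroup.eq_one_iff x
    have hc : Nat.card (P ⧸ Z) ≤ n := by
      by_contra r
      exact h1 (((QuotientGroup.mk'_surjective Z).bijective_of_nat_card_le (by omega)).1
        (((hq ε).2 (Or.inr rfl)).trans (map_one _).symm))
    obtain ⟨φ, o, e⟩ := ih (P ⧸ Z) hc (hP.to_quotient Z) (fun b => QuotientGroup.mk' Z (t b))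
      fun b hb => by rw [ht b hb, map_one]
    obtain ⟨ψ, o', e'⟩ := h.lift_two (hP.to_quotient Z) (QuotientGroup.mk' Z)
      (QuotientGroup.mk'_surjective Z) hε h2 ((hq ε).2 (Or.inr rfl)) (fun x => (hq x).1) φ o
    obtain ⟨T, hT⟩ := h.fin_ram o'
    refine f2_fix h hζ hY hε h2 t ((T ∪ S).filter fun b => ψ (Y b) ≠ t b) ψ o'
      (fun b hb => ?_) fun b hb => ?_
    · by_contra r
      have hb' : b ∉ T ∪ S := fun m => hb (Finset.mem_filter.2 ⟨m, r⟩)
      rw [Finset.mem_union, not_or] at hb'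
      obtain ⟨R, r1, r2, -⟩ := hY b
      exact r ((MonoidHom.mem_ker.1 (hT b hb'.1 R r1 _ r2)).trans (ht b hb'.2).symm)
    · rcases (hq ((ψ (Y b))⁻¹ * t b)).1 (by rw [map_mul, map_inv, e', e, inv_mul_cancel]) with r | r
      · exact absurd (inv_mul_eq_one.1 r) (Finset.mem_filter.1 hb).2
      · rw [← r, mul_inv_cancel_left]

theorem GD.free (h : GD k G z) (hζ : Rt ζ) {m : ℕ} {a : Fin m → k} (ha : Function.Injective a)
    {y : Fin m → G} (hy : ∀ i, Gn ζ (un z (some (a i))) (y i)) (P : Type) [Group P] [Finite P]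
    (hP : IsPGroup 2 P) (p : Fin m → P) :
    ∃ φ : G →* P, Adm z (Set.range a) φ.ker ∧ ∀ i, φ (y i) = p i := by
  classical
  choose Y0 hY0 using fun b : k => h.exists_gn hζ (some b)
  have hY : ∀ b, Gn ζ (un z (some b)) (Function.extend a y Y0 b) := fun b => by
    by_cases r : ∃ i, a i = b
    · obtain ⟨i, rfl⟩ := r
      rw [ha.extend_apply]
      exact hy i
    · rw [Function.extend_apply' _ _ _ r]
      exact hY0 b
  have ht : ∀ b, ¬ (∃ i, a i = b) → Function.extend a p 1 b = 1 := fun b r => by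
    rw [Function.extend_apply' _ _ _ r, Pi.one_apply]
  obtain ⟨φ, o, e⟩ := f2_main h hζ hY (Finset.univ.image a) _ P le_rfl hP (Function.extend a p 1)
    fun b hb => ht b (by simpa using hb)
  refine ⟨φ, h.adm_of hζ ⟨inferInstance, o, fun g => ?_⟩ fun b hb =>
    ⟨_, (e b).trans (ht b hb), hY b⟩, fun i => ?_⟩
  · obtain ⟨j, hj⟩ := hP (φ g)
    exact ⟨j, by rw [MonoidHom.mem_ker, map_pow, hj]⟩
  · have := e (a i)
    rwa [ha.extend_apply, ha.extend_apply] at this

end Pool.Agent.Lib.MP_d61fbb_ag.DW
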