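import Pool.Agent.Lib.MP_d61fbb_ag.DW.P2

/-! Tame inertia. -/

set_option autoImplicit false
set_option linter.unusedSectionVars false

noncomputable section

namespace Pool.Agent.Lib.MP_d61fbb_ag.DW

open Polynomial

variable {k Ω G : Type} [Field k] [IsAlgClosed k] [CharZero k] [Field Ω] [IsAlgClosed Ω]
  [Algebra k Ω] [Group G] [TopologicalSpace G] [IsTopologicalGroup G] [CompactSpace G]
  [MulSemiringAction G Ω] {z : Ω} {R R' : ValuationSubring Ω} {ζ : ℕ → k} {s : Option k}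
  {g y : G}

theorem i1_step (j : ℕ) (x : k) (hx : IsPrimitiveRoot x (2 ^ j)) :
    ∃ w : k, IsPrimitiveRoot w (2 ^ (j + 1)) ∧ w ^ 2 = x := by
  cases j with
  | zero =>
    refine ⟨-1, by simpa using IsPrimitiveRoot.neg_one 0 (by decide), ?_⟩
    have := hx.pow_eq_one
    simp only [pow_zero, pow_one] at this
    simp [this]
  | succ j =>
    obtain ⟨w, hw⟩ := IsAlgClosed.exists_pow_nat_eq x (n := 2) (by decide)
    refine ⟨w, IsPrimitiveRoot.iff_orderOf.2 (orderOf_eq_prime_pow ?_ ?_), hw⟩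
    · rw [pow_succ', pow_mul, hw]
      exact hx.pow_ne_one_of_pos_of_lt (by positivity)
        (Nat.pow_lt_pow_right (by decide) j.lt_succ_self)
    · rw [pow_succ', pow_mul, hw]
      exact hx.pow_eq_one

theorem exists_rt (k : Type) [Field k] [IsAlgClosed k] [CharZero k] : ∃ ζ : ℕ → k, Rt ζ := by
  choose f hf1 hf2 using i1_step (k := k)
  let F : (j : ℕ) → {x : k // IsPrimitiveRoot x (2 ^ j)} := fun j =>
    Nat.rec ⟨1, by simp⟩ (fun j x => ⟨f j x.1 x.2, hf1 j x.1 x.2⟩) j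
  exact ⟨fun j => (F j).1, fun j => (F j).2, fun j => hf2 j (F j).1 (F j).2⟩

theorem GD.fix_un (h : GD k G z) (s : Option k) (g : G) : g • un z s = un z s := by
  cases s with
  | none => simp only [un, smul_inv'', h.fixz]
  | some a => simp only [un, smul_sub, h.fixz, h.fixk]

theorem i1_lt (R : ValuationSubring Ω) (x : Ω) : R.valuation x < 1 ↔ x = 0 ∨ x⁻¹ ∉ R :=
  R.mem_nonunits_iff_or

theorem i1_dlt (hg : Dc R g) (x : Ω) : R.valuation (g • x) < 1 ↔ R.valuation x < 1 := by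
  rw [i1_lt, i1_lt, ← smul_inv'', hg, smul_eq_zero_iff_eq]

theorem i1_dmul {g' : G} (hg : Dc R g) (hg' : Dc R g') : Dc R (g * g') := fun x => by
  rw [mul_smul, hg, hg']

theorem i1_dinv (hg : Dc R g) : Dc R g⁻¹ := fun x => by
  rw [← hg, smul_inv_smul]

theorem i1_dpow (hg : Dc R g) (n : ℕ) : Dc R (g ^ n) := by
  induction n with
  | zero => intro x; rw [pow_zero, one_smul]
  | succ n ih => rw [pow_succ]; exact i1_dmul ih hg

theorem GD.res (h : GD k G z) (o : Ov k R (un z s)) (hg : Dc R g) {x : Ω} (hx : x ∈ R) :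
    R.valuation (g • x - x) < 1 := by
  obtain ⟨a, ha⟩ := o.res (h.cd.un s) hx
  have e : g • x - x = g • (x - algebraMap k Ω a) - (x - algebraMap k Ω a) := by
    rw [smul_sub, h.fixk]; ring
  rw [e]
  exact Valuation.map_sub_lt _ ((i1_dlt hg _).2 ha) ha

theorem i1_one {t : Ω} (o : Ov k R t) {w : Ω} {M : ℕ} (hM : M ≠ 0) (h1 : w ^ M = 1)
    (h2 : R.valuation (w - 1) < 1) : w = 1 := by
  by_contra hw
  have hw1 : R.valuation w = 1 := by
    have := congrArg R.valuation h1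
    rw [map_pow, map_one] at this
    exact (pow_eq_one_iff_of_nonneg zero_le hM).1 this
  have h3 : ∀ i : ℕ, R.valuation (w ^ i - 1) < 1 := by
    intro i
    induction i with
    | zero => simp
    | succ i ih =>
      have e : w ^ (i + 1) - 1 = w * (w ^ i - 1) + (w - 1) := by ring
      rw [e]
      refine Valuation.map_add_lt _ ?_ h2
      rwa [map_mul, hw1, one_mul]
  have h4 : ∑ i ∈ Finset.range M, w ^ i = 0 := by
    have := mul_geom_sum w M
    rw [h1, sub_self] at this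
    exact (mul_eq_zero.1 this).resolve_left (sub_ne_zero.2 hw)
  have h5 : R.valuation (∑ i ∈ Finset.range M, (w ^ i - 1)) < 1 :=
    Valuation.map_sum_lt _ one_ne_zero fun i _ => h3 i
  rw [Finset.sum_sub_distrib, h4, zero_sub, Valuation.map_neg, Finset.sum_const,
    Finset.card_range, nsmul_eq_mul, mul_one, ← map_natCast (algebraMap k Ω),
    o.const (Nat.cast_ne_zero.2 hM)] at h5
  exact lt_irrefl _ h5

/-- Roots of invariant units are fixed by the decomposition group. -/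
theorem GD.unit_root (h : GD k G z) (o : Ov k R (un z s)) (hg : Dc R g) {p : Ω} {M : ℕ}
    (hM : M ≠ 0) (h1 : R.valuation p = 1) (h2 : g • p ^ M = p ^ M) : g • p = p := by
  have hp : p ≠ 0 := fun e => by simp [e] at h1
  have h3 := h.res o hg ((R.valuation_le_one_iff p).1 h1.le)
  have h4 : g • p / p = 1 := by
    refine i1_one o hM ?_ ?_
    · rw [div_pow, ← smul_pow', h2, div_self (pow_ne_zero _ hp)]
    · rwa [div_sub_one hp, map_div₀, h1, div_one]
  exact (div_eq_one_iff_eq hp).1 h4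

theorem i1_fixz (σ : Ω ≃ₐ[k] Ω) (e : σ (un z s) = un z s) : σ z = z := by
  cases s with
  | none => simpa only [un, map_inv₀, inv_inj] using e
  | some a => simpa only [un, map_sub, AlgEquiv.commutes, sub_left_inj] using e

theorem GD.conj (h : GD k G z) (o : Ov k R (un z s)) (o' : Ov k R' (un z s)) :
    ∃ u : G, ∀ x, u • x ∈ R' ↔ x ∈ R := by
  obtain ⟨σ, h1, h2⟩ := conj_val (h.cd.un s) o o'
  obtain ⟨u, hu⟩ := h.onto σ (i1_fixz σ h1)
  exact ⟨u, fun x => by rw [hu, h2]⟩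

theorem i1_rat (hζ : Rt ζ) {j : ℕ} {p q : Ω} (hp : p ≠ 0) (e : q ^ 2 ^ j = p ^ 2 ^ j) :
    ∃ a : ℕ, q = algebraMap k Ω (ζ j) ^ a * p := by
  have h1 : IsPrimitiveRoot (algebraMap k Ω (ζ j)) (2 ^ j) :=
    (hζ.prim j).map_of_injective (algebraMap k Ω).injective
  obtain ⟨a, -, ha⟩ := h1.eq_pow_of_pow_eq_one (ξ := q / p)
    (by rw [div_pow, e, div_self (pow_ne_zero _ hp)])
  exact ⟨a, by rw [ha, div_mul_cancel₀ _ hp]⟩

theorem i1_th_of (h : GD k G z) (hζ : Rt ζ) {j a : ℕ} {p : Ω} (hp : p ^ 2 ^ j = un z s)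
    (e : g • p = algebraMap k Ω (ζ j) ^ a * p) : Th ζ (un z s) g j a := by
  intro q hq
  obtain ⟨b, rfl⟩ := i1_rat hζ ((h.cd.un s).root (by positivity) hp).ne (hq.trans hp.symm)
  rw [smul_mul', smul_pow', h.fixk, e]
  ring

theorem GD.th (h : GD k G z) (hζ : Rt ζ) (s : Option k) (g : G) (j : ℕ) :
    ∃ a, Th ζ (un z s) g j a := by
  obtain ⟨p, hp⟩ := IsAlgClosed.exists_pow_nat_eq (un z s) (n := 2 ^ j) (by positivity)
  obtain ⟨a, ha⟩ := i1_rat hζ ((h.cd.un s).root (by positivity) hp).ne (q := g • p) (j := j)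
    (by rw [← smul_pow', hp, h.fix_un])
  exact ⟨a, i1_th_of h hζ hp ha⟩

theorem GD.th_conj (h : GD k G z) {j a : ℕ} (e : Th ζ (un z s) g j a) (u : G) :
    Th ζ (un z s) (u * g * u⁻¹) j a := by
  intro p hp
  rw [mul_smul, mul_smul, e (u⁻¹ • p) (by rw [← smul_pow', hp, h.fix_un]), smul_mul', smul_pow',
    h.fixk, smul_inv_smul]

theorem GD.gn_conj (h : GD k G z) (e : Gn ζ (un z s) y) (u : G) :
    Gn ζ (un z s) (u * y * u⁻¹) := by
  obtain ⟨R, o, hy, ht⟩ := e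
  have hm : ∀ x, x ∈ R.comap (MulSemiringAction.toRingHom G Ω u⁻¹) ↔ u⁻¹ • x ∈ R :=
    fun x => Iff.rfl
  refine ⟨R.comap (MulSemiringAction.toRingHom G Ω u⁻¹), ⟨fun a => ?_, ?_⟩, fun x => ?_,
    fun j => h.th_conj (ht j) u⟩
  · rw [hm, h.fixk]
    exact o.1 a
  · rw [i1_lt, hm, smul_inv'', h.fix_un, ← i1_lt]
    exact o.2
  · rw [hm, hm, mul_smul, mul_smul, inv_smul_smul, hy]

theorem i1_aut {p q : Ω} (hp : Cd k p) (hq : Cd k q) : ∃ τ : Ω ≃ₐ[k] Ω, τ p = q := by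
  have : IsAlgClosure (Algebra.adjoin k {p}) Ω := ⟨inferInstance, ⟨hp.alg⟩⟩
  have : IsAlgClosure (Algebra.adjoin k {q}) Ω := ⟨inferInstance, ⟨hq.alg⟩⟩
  let e : Algebra.adjoin k {p} ≃ₐ[k] Algebra.adjoin k {q} :=
    (algEquivOfTranscendental k p hp.tr).symm.trans (algEquivOfTranscendental k q hq.tr)
  let τ : Ω ≃+* Ω := IsAlgClosure.equivOfEquiv Ω Ω e.toRingEquiv
  have hτ : ∀ x : Algebra.adjoin k {p}, τ x = e x := fun x =>
    IsAlgClosure.equivOfEquiv_algebraMap Ω Ω e.toRingEquiv x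
  refine ⟨AlgEquiv.ofRingEquiv (f := τ) fun a => ?_, ?_⟩
  · have := hτ (algebraMap k _ a)
    rw [AlgEquiv.commutes] at this
    exact this
  · have := hτ ⟨p, Algebra.self_mem_adjoin_singleton k p⟩
    simp only [e, AlgEquiv.trans_apply, algEquivOfTranscendental_symm_gen,
      algEquivOfTranscendental_apply_X] at this
    exact this

theorem i1_gn (h : GD k G z) (hζ : Rt ζ) (o : Ov k R (un z s)) (j : ℕ) :
    ∃ g : G, Dc R g ∧ Th ζ (un z s) g j 1 := by
  obtain ⟨p, hp⟩ := IsAlgClosed.exists_pow_nat_eq (un z s) (n := 2 ^ j) (by positivity)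
  have hq : (algebraMap k Ω (ζ j) * p) ^ 2 ^ j = un z s := by
    rw [mul_pow, ← map_pow, (hζ.prim j).pow_eq_one, map_one, one_mul, hp]
  have cp := (h.cd.un s).root (by positivity) hp
  obtain ⟨τ, hτ⟩ := i1_aut cp ((h.cd.un s).root (by positivity) hq)
  have hm : ∀ x, x ∈ R.comap (τ : Ω →+* Ω) ↔ τ x ∈ R := fun x => Iff.rfl
  have o' : Ov k (R.comap (τ : Ω →+* Ω)) p := by
    refine ⟨fun a => ?_, ?_⟩
    · rw [hm, AlgEquiv.commutes]
      exact o.1 a
    · have := (o.root hq).2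
      rw [i1_lt, ← hτ, ← map_inv₀, map_eq_zero] at this
      rwa [i1_lt, hm]
  obtain ⟨σ, h1, h2⟩ := conj_val cp (o.root hp) o'
  have h3 : (σ.trans τ) p = algebraMap k Ω (ζ j) * p := by rw [AlgEquiv.trans_apply, h1, hτ]
  obtain ⟨g, hg⟩ := h.onto (σ.trans τ) (i1_fixz (s := s) _ (by
    rw [← hp, map_pow, h3, hq, hp]))
  refine ⟨g, fun x => ?_, i1_th_of h hζ hp (by rw [hg, h3, pow_one])⟩
  rw [hg, AlgEquiv.trans_apply, ← hm, h2]

theorem i1_down (hζ : Rt ζ) {t : Ω} {j a : ℕ} (e : Th ζ t g (j + 1) a) : Th ζ t g j a := by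
  intro p hp
  obtain ⟨q, rfl⟩ := IsAlgClosed.exists_pow_nat_eq p (n := 2) (by decide)
  rw [smul_pow', e q (by rw [pow_succ', pow_mul, hp]), ← hζ.sq j, map_pow]
  ring

theorem i1_opn (h : GD k G z) (x : Ω) (P : Ω → Prop) : IsOpen {g : G | P (g • x)} := by
  rw [isOpen_iff_forall_mem_open]
  intro g hg
  refine ⟨(fun u => g⁻¹ * u) ⁻¹' {u : G | u • x = x}, fun u hu => ?_,
    (h.opn x).preimage (continuous_const.mul continuous_id), by simp⟩
  have : (g⁻¹ * u) • x = x := hu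
  rw [mul_smul, inv_smul_eq_iff] at this
  show P (u • x)
  rw [this]
  exact hg

theorem i1_clo (h : GD k G z) (x : Ω) (P : Ω → Prop) : IsClosed {g : G | P (g • x)} :=
  isOpen_compl_iff.1 (i1_opn h x fun w => ¬ P w)

theorem i1_closed (h : GD k G z) (R : ValuationSubring Ω) (t : Ω) (j a : ℕ) :
    IsClosed {g : G | Dc R g ∧ Th ζ t g j a} := by
  have e : {g : G | Dc R g ∧ Th ζ t g j a} = (⋂ x, {g : G | g • x ∈ R ↔ x ∈ R}) ∩
      ⋂ p, {g : G | p ^ 2 ^ j = t → g • p = algebraMap k Ω (ζ j) ^ a * p} := by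
    ext g
    simp only [Set.mem_ofPred_eq, Set.mem_inter_iff, Set.mem_iInter, Dc, Th]
  rw [e]
  exact (isClosed_iInter fun x => i1_clo h x fun w => w ∈ R ↔ x ∈ R).inter
    (isClosed_iInter fun p => i1_clo h p fun w => p ^ 2 ^ j = t →
      w = algebraMap k Ω (ζ j) ^ a * p)

theorem GD.exists_gn (h : GD k G z) (hζ : Rt ζ) (s : Option k) :
    ∃ y : G, Gn ζ (un z s) y := by
  obtain ⟨R, o⟩ := exists_ov (h.cd.un s)
  obtain ⟨y, hy⟩ := IsCompact.nonempty_iInter_of_sequence_nonempty_isCompact_isClosed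
    (fun j => {g : G | Dc R g ∧ Th ζ (un z s) g j 1})
    (fun j g hg => ⟨hg.1, i1_down hζ hg.2⟩) (fun j => i1_gn h hζ o j)
    (i1_closed h R _ 0 1).isCompact (fun j => i1_closed h R _ j 1)
  rw [Set.mem_iInter] at hy
  exact ⟨y, R, o, (hy 0).1, fun j => (hy j).2⟩

theorem i1_tpow (h : GD k G z) {t : Ω} {j a : ℕ} (e : Th ζ t g j a) (n : ℕ) :
    Th ζ t (g ^ n) j (a * n) := by
  intro p hp
  induction n with
  | zero => simp
  | succ n ih =>
    rw [pow_succ', mul_smul, ih, smul_mul', smul_pow', h.fixk, e p hp]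
    ring

theorem i1_sq (h : GD k G z) (o : Ov k R (un z s)) (hg : Dc R g)
    (ht : ∀ j, Th ζ (un z s) g j 0) {x : Ω} (hx : g • g • x = x) : g • x = x := by
  have : CharZero Ω := charZero_of_injective_algebraMap (algebraMap k Ω).injective
  by_contra hne
  have hδ : x - g • x ≠ 0 := sub_ne_zero.2 (Ne.symm hne)
  have hd : g • (x - g • x) = -(x - g • x) := by rw [smul_sub, hx, neg_sub]
  generalize x - g • x = δ at hδ hd
  obtain ⟨M, m, hM, hv⟩ := o.val (h.cd.un s) hδ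
  obtain ⟨j, M', hodd, rfl⟩ := Nat.exists_eq_two_pow_mul_odd hM
  obtain ⟨p, hp⟩ := IsAlgClosed.exists_pow_nat_eq (un z s) (n := 2 ^ j) (by positivity)
  have hp0 := ((h.cd.un s).root (by positivity) hp).ne
  have hgp : g • p = p := by simpa using ht j p hp
  have h1 : R.valuation (δ ^ M' / p ^ m) = 1 := by
    refine (pow_eq_one_iff_of_nonneg zero_le (n := 2 ^ j) (by positivity)).1 ?_
    have h0 : R.valuation p ≠ 0 := by simpa using hp0
    rw [map_div₀, map_pow, map_zpow₀, div_pow, ← pow_mul, mul_comm, hv, ← hp, map_pow,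
      ← zpow_natCast, ← zpow_natCast, ← zpow_mul, ← zpow_mul, mul_comm,
      div_self (zpow_ne_zero _ h0)]
  have h2 : g • (δ ^ M' / p ^ m) = -(δ ^ M' / p ^ m) := by
    have : g • p ^ m = p ^ m := by
      show MulSemiringAction.toRingHom G Ω g (p ^ m) = p ^ m
      rw [map_zpow₀]
      exact congrArg (· ^ m) hgp
    rw [div_eq_mul_inv, smul_mul', smul_inv'', this, smul_pow', hd, hodd.neg_pow, neg_mul]
  have h3 := h.unit_root o hg (M := 2) (by decide) h1 (by rw [smul_pow', h2, neg_sq])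
  rw [h2, neg_eq_self] at h3
  simp [h3] at h1

theorem i1_fix (h : GD k G z) (o : Ov k R (un z s)) (hg : Dc R g)
    (ht : ∀ j, Th ζ (un z s) g j 0) {x : Ω} (e : ℕ) (hx : g ^ 2 ^ e • x = x) : g • x = x := by
  induction e with
  | zero => simpa using hx
  | succ e ih =>
    refine ih (i1_sq (ζ := ζ) h o (i1_dpow hg _) (fun j => ?_) ?_)
    · simpa using i1_tpow h (ht j) (2 ^ e)
    · rwa [← mul_smul, ← pow_add, ← two_mul, ← pow_succ']

theorem GD.tame (h : GD k G z) (hζ : Rt ζ) (o : Ov k R (un z s)) {N : Subgroup G} (hN : Tw N) :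
    ∃ j0, ∀ j, j0 ≤ j → ∀ g : G, Dc R g → Th ζ (un z s) g j 0 → g ∈ N := by
  have hc : ∀ j, IsClosed ({g : G | Dc R g ∧ Th ζ (un z s) g j 0} ∩ (N : Set G)ᶜ) :=
    fun j => (i1_closed h R _ j 0).inter hN.opn.isClosed_compl
  have h1 : ∃ j0, ∀ g : G, Dc R g → Th ζ (un z s) g j0 0 → g ∈ N := by
    by_contra hne
    push Not at hne
    obtain ⟨g, hg⟩ := IsCompact.nonempty_iInter_of_sequence_nonempty_isCompact_isClosed
      (fun j => {g : G | Dc R g ∧ Th ζ (un z s) g j 0} ∩ (N : Set G)ᶜ)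
      (fun j g hg => ⟨⟨hg.1.1, i1_down hζ hg.1.2⟩, hg.2⟩)
      (fun j => (hne j).imp fun g hg => ⟨⟨hg.1, hg.2.1⟩, hg.2.2⟩) (hc 0).isCompact hc
    rw [Set.mem_iInter] at hg
    obtain ⟨x, hx, hgx⟩ := h.gal N (N.isClosed_of_isOpen hN.opn) g (hg 0).2
    obtain ⟨e, he⟩ := hN.pw g
    exact hgx (i1_fix h o (hg 0).1.1 (fun j => (hg j).1.2) e (hx _ he))
  obtain ⟨j0, hj⟩ := h1
  refine ⟨j0, fun j hle g hg ht => hj g hg ?_⟩
  induction j, hle using Nat.le_induction with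
  | base => exact ht
  | succ j _ ih => exact ih (i1_down hζ ht)

/-- Modulo `N` the decomposition group is conjugate into the group generated by `y`. -/
theorem GD.loc (h : GD k G z) (hζ : Rt ζ) (e : Gn ζ (un z s) y) (o : Ov k R (un z s)) :
    ∃ u : G, ∀ N : Subgroup G, Tw N → ∃ j0, ∀ j, j0 ≤ j → ∀ (g : G) (a : ℕ), Dc R g →
      Th ζ (un z s) g j a → (y ^ a)⁻¹ * (u⁻¹ * g * u) ∈ N := by
  obtain ⟨R0, o0, hy, ht⟩ := e
  obtain ⟨u, hu⟩ := h.conj o0 o
  refine ⟨u, fun N hN => ?_⟩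
  obtain ⟨j0, hj⟩ := h.tame hζ o0 hN
  refine ⟨j0, fun j hle g a hg hth => hj j hle _ (i1_dmul (i1_dinv (i1_dpow hy a)) fun x => ?_)
    fun p hp => ?_⟩
  · rw [← hu, mul_smul, mul_smul, smul_inv_smul, hg, hu]
  · have h1 := h.th_conj hth u⁻¹ p hp
    have h2 := i1_tpow h (ht j) a p hp
    rw [inv_inv] at h1
    rw [one_mul] at h2
    rw [mul_smul, h1, ← h2, inv_smul_smul, pow_zero, one_mul]

end Pool.Agent.Lib.MP_d61fbb_ag.DW
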