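import Pool.Agent.Lib.MP_d61fbb_ag.DW.SD

/-! Places of the projective line. -/

set_option autoImplicit false

noncomputable section

namespace Pool.Agent.Lib.MP_d61fbb_ag.DW

open Polynomial

variable {k Ω : Type} [Field k] [Field Ω] [Algebra k Ω] {z t : Ω} {R : ValuationSubring Ω}

theorem Cd.ne (h : Cd k t) : t ≠ 0 := fun e => h.tr (e ▸ isAlgebraic_zero)

theorem p1_cd (h : Cd k t) {p : Ω} (h1 : IsAlgebraic k p → IsAlgebraic k t)
    (h2 : IsAlgebraic (Algebra.adjoin k {p}) t) : Cd k p :=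
  ⟨fun e => h.tr (h1 e), fun x => (h.alg x).adjoin_of_forall_isAlgebraic fun y hy => by
    rwa [Set.mem_singleton_iff.1 hy.1]⟩

theorem p1_alg {p x : Ω} (h : x ∈ Algebra.adjoin k {p}) : IsAlgebraic (Algebra.adjoin k {p}) x :=
  isAlgebraic_algebraMap (⟨x, h⟩ : Algebra.adjoin k {p})

theorem Cd.un (h : Cd k z) (s : Option k) : Cd k (un z s) := by
  rcases s with _ | a
  · exact p1_cd h IsAlgebraic.inv_iff.1
      (IsAlgebraic.inv_iff.1 (p1_alg (Algebra.self_mem_adjoin_singleton k _)))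
  · refine p1_cd h (fun e => by simpa [DW.un] using e.add (isAlgebraic_algebraMap a)) (p1_alg ?_)
    simpa [DW.un] using add_mem (Algebra.self_mem_adjoin_singleton k (DW.un z (some a)))
      (Subalgebra.algebraMap_mem _ a)

theorem Cd.root (h : Cd k t) {p : Ω} {M : ℕ} (hM : M ≠ 0) (hp : p ^ M = t) : Cd k p :=
  p1_cd h (fun e => hp ▸ e.pow M)
    (p1_alg (hp ▸ pow_mem (Algebra.self_mem_adjoin_singleton k p) M))

theorem p1_ne {x : Ω} (hx : x ≠ 0) : R.valuation x ≠ 0 := (_root_.map_ne_zero _).2 hx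

theorem Ov.ne_top (h : Cd k t) (o : Ov k R t) : R ≠ ⊤ := by
  rintro rfl
  have := (ValuationSubring.valuation_le_one_iff ⊤ t⁻¹).2 (ValuationSubring.mem_top _)
  rw [map_inv₀, inv_le_one₀ (zero_lt_iff.2 (p1_ne h.ne))] at this
  exact this.not_gt o.2

theorem p1_const (hk : ∀ a : k, algebraMap k Ω a ∈ R) {a : k} (ha : a ≠ 0) :
    R.valuation (algebraMap k Ω a) = 1 := by
  have := (R.valuation_le_one_iff _).2 (hk a⁻¹)
  rw [map_inv₀, map_inv₀, inv_le_one₀ (zero_lt_iff.2 (p1_ne ((_root_.map_ne_zero _).2 ha)))] at this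
  exact le_antisymm ((R.valuation_le_one_iff _).2 (hk a)) this

theorem Ov.const (o : Ov k R t) {a : k} (ha : a ≠ 0) : R.valuation (algebraMap k Ω a) = 1 :=
  p1_const o.1 ha

theorem Ov.unit {a b : k} (o : Ov k R (un z (some a))) (hb : b ≠ a) :
    R.valuation (un z (some b)) = 1 := by
  have h := o.const (sub_ne_zero.2 hb.symm)
  rw [show un z (some b) = un z (some a) + algebraMap k Ω (a - b) by simp [un],
    Valuation.map_add_eq_of_lt_right _ (h ▸ o.2), h]

theorem Ov.unit_inf (h : Cd k z) (o : Ov k R (un z (none : Option k))) (b : k) :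
    R.valuation (un z (some b) * z⁻¹) = 1 := by
  rw [un, sub_mul, mul_inv_cancel₀ h.ne]
  refine Valuation.map_one_sub_of_lt _ ?_
  rw [map_mul]
  exact (mul_le_of_le_one_left' ((R.valuation_le_one_iff _).2 (o.1 b))).trans_lt o.2

theorem Ov.root (o : Ov k R t) {p : Ω} {M : ℕ} (hp : p ^ M = t) : Ov k R p :=
  ⟨o.1, lt_of_not_ge fun h => o.2.not_ge (by
    rw [← hp, map_pow]
    exact one_le_pow₀ h)⟩

theorem exists_ov (h : Cd k t) : ∃ R : ValuationSubring Ω, Ov k R t := by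
  obtain ⟨R, h1, h2⟩ := Ideal.image_subset_nonunits_valuationSubring
    (A := (Algebra.adjoin k {t}).toSubring)
    (Ideal.span {⟨t, Algebra.self_mem_adjoin_singleton k t⟩}) fun e => by
      obtain ⟨⟨y, hy⟩, e⟩ := (Ideal.span_singleton_eq_top.1 e).exists_right_inv
      obtain ⟨q, rfl⟩ := Algebra.adjoin_mem_exists_aeval k t hy
      have := transcendental_iff.1 h.tr (X * q - 1) (by
        rw [map_sub, map_mul, aeval_X, map_one]
        exact sub_eq_zero.2 (congrArg Subtype.val e))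
      simpa using congrArg (eval 0) this
  exact ⟨R, fun a => h1 (Subalgebra.algebraMap_mem _ a),
    R.mem_nonunits_iff.1 (h2 ⟨_, Ideal.mem_span_singleton_self _, rfl⟩)⟩

theorem p1_poly (o : Ov k R t) {c : k[X]} (hc : c ≠ 0) :
    ∃ n : ℕ, R.valuation (aeval t c) = R.valuation t ^ n := by
  obtain ⟨d, e, hd⟩ := exists_eq_pow_rootMultiplicity_mul_and_not_dvd c hc 0
  rw [C_0, sub_zero] at e hd
  refine ⟨c.rootMultiplicity 0, ?_⟩
  have h1 : R.valuation (aeval t d.divX) ≤ 1 := by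
    rw [R.valuation_le_one_iff, aeval_eq_sum_range]
    exact sum_mem fun i _ => by
      rw [Algebra.smul_def]
      exact mul_mem (o.1 _) (pow_mem ((R.valuation_le_one_iff _).1 o.2.le) _)
  have h2 := o.const (mt X_dvd_iff.2 hd)
  have h3 : R.valuation (aeval t d) = 1 := by
    rw [← d.divX_mul_X_add, map_add, map_mul, aeval_X, aeval_C,
      Valuation.map_add_eq_of_lt_right _ _, h2]
    rw [h2, map_mul]
    exact (mul_le_of_le_one_left' h1).trans_lt o.2
  conv_lhs => rw [e]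
  rw [map_mul, map_mul, h3, mul_one, map_pow, map_pow, aeval_X]

theorem p1_rel (h : Cd k t) (x : Ω) : ∃ P : k[X][X], P ≠ 0 ∧ aevalAeval t x P = 0 := by
  obtain ⟨P, h0, hP⟩ := h.alg x
  obtain ⟨Q, rfl⟩ := map_surjective (algEquivOfTranscendental k t h.tr : k[X] →+* _)
    (algEquivOfTranscendental k t h.tr).surjective P
  refine ⟨Q, fun e => h0 (by rw [e, Polynomial.map_zero]), ?_⟩
  rw [← hP, aeval_def, eval₂_map]
  clear h0 hP
  induction Q using Polynomial.induction_on' with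
  | add p q hp hq => rw [map_add, eval₂_add, hp, hq]
  | monomial n a => simp [← C_mul_X_pow_eq_monomial, aeval_subalgebra_coe]

theorem p1_two {x : Ω} {P : k[X][X]} (h0 : P ≠ 0) (hP : aevalAeval t x P = 0)
    (ht : ∀ c : k[X], c ≠ 0 → aeval t c ≠ 0) (hx : x ≠ 0) : ∃ (c d : k[X]) (j : ℕ), c ≠ 0 ∧ d ≠ 0 ∧
      j ≠ 0 ∧ R.valuation (aeval t c) = R.valuation (aeval t d) * R.valuation x ^ j := by
  classical
  let f := fun i => aeval t (P.coeff i) * x ^ i
  have e : ∑ i ∈ P.support, f i = 0 := by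
    rw [← hP]
    conv_rhs => rw [P.as_sum_support_C_mul_X_pow, map_sum]
    exact Finset.sum_congr rfl fun i _ => by simp [f]
  obtain ⟨j, hj, hm⟩ := P.support.exists_max_image (fun i => R.valuation (f i))
    (support_nonempty.2 h0)
  have key : ∀ i ∈ P.support, ∀ j ∈ P.support, i < j → R.valuation (f i) = R.valuation (f j) →
      ∃ (c d : k[X]) (j : ℕ), c ≠ 0 ∧ d ≠ 0 ∧ j ≠ 0 ∧
        R.valuation (aeval t c) = R.valuation (aeval t d) * R.valuation x ^ j :=
    fun i hi j hj l e => by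
      obtain ⟨n, rfl⟩ := Nat.exists_eq_add_of_lt l
      refine ⟨_, _, n + 1, mem_support_iff.1 hi, mem_support_iff.1 hj, n.succ_ne_zero,
        mul_right_cancel₀ (pow_ne_zero i (p1_ne hx)) ?_⟩
      simpa only [f, map_mul, map_pow, pow_add, add_assoc, mul_comm, mul_assoc, mul_left_comm]
        using e
  by_contra hn
  have := R.valuation.map_sum_eq_of_lt (f := f) hj fun i hi => by
    obtain ⟨h1, h2⟩ := Finset.mem_sdiff.1 hi
    refine (hm i h1).lt_of_ne fun e => hn ?_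
    rcases lt_or_gt_of_ne (Finset.notMem_singleton.1 h2) with l | l
    exacts [key i h1 j hj l e, key j hj i h1 l e.symm]
  rw [e, map_zero] at this
  exact p1_ne (mul_ne_zero (ht _ (mem_support_iff.1 hj)) (pow_ne_zero j hx)) this.symm

theorem p1_tr (h : Cd k t) (c : k[X]) (hc : c ≠ 0) : aeval t c ≠ 0 :=
  fun e => hc (transcendental_iff.1 h.tr c e)

theorem Ov.val (h : Cd k t) (o : Ov k R t) {x : Ω} (hx : x ≠ 0) :
    ∃ (M : ℕ) (m : ℤ), M ≠ 0 ∧ R.valuation x ^ M = R.valuation t ^ m := by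
  obtain ⟨P, h0, hP⟩ := p1_rel h x
  obtain ⟨c, d, j, hc, hd, hj, e⟩ := p1_two (R := R) h0 hP (p1_tr h) hx
  obtain ⟨n, hn⟩ := p1_poly o hc
  obtain ⟨n', hn'⟩ := p1_poly o hd
  refine ⟨j, n - n', hj, ?_⟩
  rw [zpow_sub₀ (p1_ne h.ne), zpow_natCast, zpow_natCast, ← hn, e, hn',
    mul_div_cancel_left₀ _ (pow_ne_zero _ (p1_ne h.ne))]

variable [IsAlgClosed k]

theorem p1_ind (S : Submonoid Ω) (h1 : ∀ a : k, a ≠ 0 → algebraMap k Ω a ∈ S)
    (h2 : ∀ a : k, z - algebraMap k Ω a ∈ S) {c : k[X]} (hc : c ≠ 0) : aeval z c ∈ S := by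
  rw [(IsAlgClosed.splits c).eq_prod_roots, map_mul, aeval_C, map_multiset_prod]
  refine mul_mem (h1 _ (leadingCoeff_ne_zero.2 hc)) (S.multiset_prod_mem _ fun y hy => ?_)
  simp only [Multiset.map_map, Multiset.mem_map, Function.comp] at hy
  obtain ⟨a, -, rfl⟩ := hy
  simpa using h2 a

theorem p1_one (hk : ∀ a : k, algebraMap k Ω a ∈ R) (hz : z ∈ R)
    (h : ∀ a : k, ¬ R.valuation (z - algebraMap k Ω a) < 1) {c : k[X]} (hc : c ≠ 0) :
    R.valuation (aeval z c) = 1 :=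
  p1_ind (MonoidHom.mker R.valuation) (fun _ ha => p1_const hk ha) (fun a => le_antisymm
    ((R.valuation_le_one_iff _).2 (sub_mem hz (hk a))) (not_lt.1 (h a))) hc

theorem exists_pt (h : Cd k z) (hR : R ≠ ⊤) (hk : ∀ a : k, algebraMap k Ω a ∈ R) :
    ∃ s : Option k, Ov k R (un z s) := by
  by_cases hz : z ∈ R
  · by_contra hn
    have h1 := fun c => p1_one hk hz (fun a e => hn ⟨some a, hk, e⟩) (c := c)
    refine hR (eq_top_iff.2 fun x _ => ?_)
    rcases eq_or_ne x 0 with rfl | hx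
    · exact zero_mem _
    obtain ⟨P, h0, hP⟩ := p1_rel h x
    obtain ⟨c, d, j, hc, hd, hj, e⟩ := p1_two (R := R) h0 hP (p1_tr h) hx
    rw [h1 c hc, h1 d hd, one_mul] at e
    exact (R.valuation_le_one_iff _).1 ((pow_le_one_iff_of_nonneg zero_le hj).1 e.ge)
  · refine ⟨none, hk, ?_⟩
    rw [un, map_inv₀, inv_lt_one₀ (zero_lt_iff.2 (p1_ne h.ne))]
    exact not_le.1 (mt (R.valuation_le_one_iff _).1 hz)

theorem Ov.res (h : Cd k t) (o : Ov k R t) {x : Ω} (hx : x ∈ R) :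
    ∃ a : k, R.valuation (x - algebraMap k Ω a) < 1 := by
  by_contra hn
  have h1 := fun c => p1_one o.1 hx (fun a e => hn ⟨a, e⟩) (c := c)
  obtain ⟨P, h0, hP⟩ := p1_rel h x
  obtain ⟨c, d, j, hc, hd, hj, e⟩ := p1_two (R := R) (t := x) (x := t)
    ((map_ne_zero_iff _ Bivariate.swap.injective).2 h0) ((Bivariate.aevalAeval_swap _ _ _).trans hP)
    (fun c hc e => by simpa [e] using h1 c hc) h.ne
  rw [h1 c hc, h1 d hd, one_mul] at e
  exact (pow_lt_one₀ zero_le o.2 hj).ne e.symm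

theorem Ov.val_base (h : Cd k z) {s : Option k} (o : Ov k R (un z s)) {x : Ω} (hx : x ≠ 0)
    {p q : k[X]} (hq : q ≠ 0) (e : x * aeval z q = aeval z p) :
    ∃ m : ℤ, R.valuation x = R.valuation (un z s) ^ m := by
  have h0 : R.valuation (un z s) ≠ 0 := p1_ne (h.un s).ne
  let S : Submonoid Ω :=
    { carrier := {y | ∃ m : ℤ, R.valuation y = R.valuation (un z s) ^ m}
      one_mem' := ⟨0, by simp⟩
      mul_mem' := fun ⟨m, hm⟩ ⟨n, hn⟩ => ⟨m + n, by rw [map_mul, hm, hn, zpow_add₀ h0]⟩ }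
  have h1 := fun c => p1_ind (z := z) S (fun a ha => ⟨0, by rw [o.const ha, zpow_zero]⟩)
    (fun b => by
      rcases s with _ | a
      · refine ⟨-1, ?_⟩
        rw [zpow_neg_one]
        exact eq_inv_of_mul_eq_one_left ((map_mul _ _ _).symm.trans (o.unit_inf h b))
      · rcases eq_or_ne b a with rfl | hb
        exacts [⟨1, (zpow_one _).symm⟩, ⟨0, (o.unit hb).trans (zpow_zero _).symm⟩]) (c := c)
  obtain ⟨n, hn⟩ := h1 q hq
  obtain ⟨m, hm⟩ := h1 p fun hp => mul_ne_zero hx (p1_tr h q hq) (by rw [e, hp, map_zero])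
  refine ⟨m - n, ?_⟩
  rw [zpow_sub₀ h0, ← hm, ← e, map_mul, hn, mul_div_cancel_right₀ _ (zpow_ne_zero _ h0)]

end Pool.Agent.Lib.MP_d61fbb_ag.DW
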