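import Pool.Agent.Lib.MP_d61fbb_ag.DW.P1
import Pool.Agent.Lib.MP_d61fbb_ag.FG.V2

/-! Conjugacy of places. -/

set_option autoImplicit false

noncomputable section

namespace Pool.Agent.Lib.MP_d61fbb_ag.DW

open Polynomial

variable {k Ω : Type} [Field k] [Field Ω] [Algebra k Ω] {z t : Ω}

section

open IsLocalRing Pool.Agent.Lib.MP_d61fbb_ag.FG

theorem p2_alg [Algebra k[X] Ω] (e : ∀ p, algebraMap k[X] Ω p = aeval z p) (h : Cd k z) (x : Ω) :
    IsAlgebraic k[X] x :=
  IsAlgebraic.of_ringHom_of_comp_eq (algEquivOfTranscendental k z h.tr) (RingHom.id Ω) (h.alg x)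
    (algEquivOfTranscendental k z h.tr).surjective Function.injective_id (RingHom.ext fun p => by
      change algebraMap (Algebra.adjoin k {z}) Ω (aeval ⟨z, _⟩ p) = algebraMap k[X] Ω p
      rw [e, ← aeval_algebraMap_apply]
      rfl)

theorem p2_over [Algebra k[X] Ω] (e : ∀ p, algebraMap k[X] Ω p = aeval z p) {a : k}
    {R : ValuationSubring Ω} (o : Ov k R (z - algebraMap k Ω a)) :
    ∃ _ : Algebra k (ResidueField R), Over R a := by
  have h1 : z - algebraMap k Ω a ∈ R := (R.valuation_le_one_iff _).1 o.2.le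
  have h2 : z ∈ R := by simpa using add_mem h1 (o.1 a)
  have h3 : ∀ p : k[X], algebraMap k[X] Ω p ∈ R := fun p => by
    rw [e]
    induction p using Polynomial.induction_on' with
    | add p q hp hq => rw [map_add]; exact add_mem hp hq
    | monomial n c => rw [aeval_monomial]; exact mul_mem (o.1 c) (pow_mem h2 n)
  let i : k[X] →+* R := (algebraMap k[X] Ω).codRestrict R h3
  have h4 : residue R (i (X - C a)) = 0 := by
    rw [residue_eq_zero_iff, R.valuation_lt_one_iff]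
    change R.valuation (algebraMap k[X] Ω (X - C a)) < 1
    rw [e, map_sub, aeval_X, aeval_C]
    exact o.2
  refine ⟨((residue R).comp (i.comp C)).toAlgebra, fun p => ⟨i p, rfl, ?_⟩⟩
  obtain ⟨q, hq⟩ := X_sub_C_dvd_sub_C_eval (a := a) (p := p)
  change _ = residue R (i (C (p.eval a)))
  rw [← sub_eq_zero, ← map_sub, ← map_sub, hq, map_mul, map_mul, h4, zero_mul]

open scoped Pointwise in
theorem p2_trans {B G : Type} [CommRing B] [Group G] [MulSemiringAction G B] [TopologicalSpace G]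
    [CompactSpace G] [TotallyDisconnectedSpace G] [IsTopologicalGroup G]
    (ho : ∀ x : B, IsOpen (MulAction.stabilizer G x : Set G)) (P Q : Ideal B)
    [P.IsPrime] [Q.IsPrime] (h : ∀ x : B, (∀ g : G, g • x = x) → (x ∈ P ↔ x ∈ Q)) :
    ∃ g : G, ∀ x : B, g • x ∈ Q ↔ x ∈ P := by
  let : TopologicalSpace B := ⊥
  have : DiscreteTopology B := ⟨rfl⟩
  have : ContinuousSMul G B := continuousSMul_iff_stabilizer_isOpen.2 ho
  have : Algebra.IsInvariant (FixedPoints.subring B G) B G := ⟨fun b hb => ⟨⟨b, hb⟩, rfl⟩⟩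
  obtain ⟨g, rfl⟩ := Algebra.IsInvariant.exists_smul_of_under_eq_of_profinite (G := G)
    (A := FixedPoints.subring B G) P Q (Ideal.ext fun a => h a.1 a.2)
  exact ⟨g, fun x => Ideal.smul_mem_pointwise_smul_iff⟩

variable [Algebra (RatFunc k) Ω] [Algebra k[X] Ω] [IsScalarTower k[X] (RatFunc k) Ω]
  [IsAlgClosure (RatFunc k) Ω] {R R' : ValuationSubring Ω} [Algebra k (ResidueField R)]
  [Algebra k (ResidueField R')] {a : k}

omit [Algebra k Ω] in
theorem p2_mem (h : Over R a) (h' : Over R' a) (g : Ω ≃ₐ[RatFunc k] Ω)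
    (hg : ∀ b : integralClosure k[X] Ω, v2Res h' (g • b) = 0 → v2Res h b = 0) {x : Ω}
    (hx : x ∈ R) : g x ∈ R' := by
  obtain ⟨s, h1, h2, h3⟩ := h.loc ⟨x, hx⟩
  have h4 : R'.valuation (g s) = 1 :=
    (v2_ne h' (g • ⟨s, h1⟩)).1 fun e => (v2_ne h ⟨s, h1⟩).2 h2 (hg _ e)
  have h5 : R'.valuation (g (s * x)) ≤ 1 :=
    (R'.valuation_le_one_iff _).2 (h'.mem (g • (⟨s * x, h3⟩ : integralClosure k[X] Ω)).2)
  rw [map_mul, map_mul, h4, one_mul] at h5
  exact (R'.valuation_le_one_iff _).1 h5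

omit [Algebra k Ω] in
theorem p2_conj [CharZero k] (h : Over R a) (h' : Over R' a) :
    ∃ g : Ω ≃ₐ[RatFunc k] Ω, ∀ x, g x ∈ R' ↔ x ∈ R := by
  have := v2_galois (k := k) (Ω := Ω)
  have : (RingHom.ker (v2Res h)).IsPrime := RingHom.ker_isPrime _
  have : (RingHom.ker (v2Res h')).IsPrime := RingHom.ker_isPrime _
  obtain ⟨g, hg⟩ := p2_trans (G := Ω ≃ₐ[RatFunc k] Ω) (B := integralClosure k[X] Ω) (fun x => by
      have : MulAction.stabilizer (Ω ≃ₐ[RatFunc k] Ω) x =
          MulAction.stabilizer (Ω ≃ₐ[RatFunc k] Ω) (x : Ω) := by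
        ext g
        simp only [MulAction.mem_stabilizer_iff, Subtype.ext_iff, integralClosure.coe_smul]
      rw [this]
      exact stabilizer_isOpen_of_isIntegral _) (RingHom.ker (v2Res h)) (RingHom.ker (v2Res h'))
    fun x hx => by
      obtain ⟨q, hq⟩ := (InfiniteGalois.mem_range_algebraMap_iff_fixed (k := RatFunc k) (x : Ω)).2
        fun g => congrArg Subtype.val (hx g)
      obtain ⟨p, rfl⟩ := v2_base (Ω := Ω) (y := q) (hq ▸ x.2)
      have hp : x = algebraMap k[X] _ p := Subtype.ext (by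
        rw [← hq, ← IsScalarTower.algebraMap_apply]
        rfl)
      rw [RingHom.mem_ker, RingHom.mem_ker, hp, v2_poly, v2_poly, _root_.map_eq_zero,
        _root_.map_eq_zero]
  refine ⟨g, fun x => ⟨fun hx => ?_, p2_mem h h' g fun b hb => (hg b).1 hb⟩⟩
  have := p2_mem h' h g⁻¹ (fun b hb => by
    have k1 := (hg _).2 hb
    rwa [smul_inv_smul] at k1) hx
  simpa using this

end

theorem conj_val [CharZero k] [IsAlgClosed Ω] (h : Cd k t) {R R' : ValuationSubring Ω}
    (o : Ov k R t) (o' : Ov k R' t) :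
    ∃ σ : Ω ≃ₐ[k] Ω, σ t = t ∧ ∀ x, σ x ∈ R' ↔ x ∈ R := by
  let : Algebra k[X] Ω := (aeval t : k[X] →ₐ[k] Ω).toRingHom.toAlgebra
  have e : ∀ p, algebraMap k[X] Ω p = aeval t p := fun _ => rfl
  have inj : Function.Injective (algebraMap k[X] Ω) := transcendental_iff_injective.1 h.tr
  let : Algebra (RatFunc k) Ω := (IsFractionRing.lift inj : RatFunc k →+* Ω).toAlgebra
  have : IsScalarTower k[X] (RatFunc k) Ω :=
    .of_algebraMap_eq fun p => (IsFractionRing.lift_algebraMap inj p).symm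
  have : IsAlgClosure (RatFunc k) Ω := ⟨inferInstance, ⟨fun x =>
    (IsFractionRing.isAlgebraic_iff k[X] (RatFunc k) Ω).1 (p2_alg e h x)⟩⟩
  obtain ⟨_, v⟩ := p2_over (a := 0) (R := R) e (by simpa using o)
  obtain ⟨_, v'⟩ := p2_over (a := 0) (R := R') e (by simpa using o')
  obtain ⟨g, hg⟩ := p2_conj v v'
  have hp : ∀ p : k[X], g (aeval t p) = aeval t p := fun p => by
    rw [← e, IsScalarTower.algebraMap_apply k[X] (RatFunc k) Ω, g.commutes]
  exact ⟨AlgEquiv.ofRingEquiv (f := g.toRingEquiv) fun c => by simpa using hp (C c),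
    by simpa using hp X, hg⟩

theorem unit_fin (h : Cd k z) {x : Ω} (hx : x ≠ 0) :
    ∃ T : Finset k, ∀ a ∉ T, ∀ R : ValuationSubring Ω, Ov k R (un z (some a)) →
      R.valuation x = 1 := by
  classical
  let : Algebra k[X] Ω := (aeval z : k[X] →ₐ[k] Ω).toRingHom.toAlgebra
  have e : ∀ p, algebraMap k[X] Ω p = aeval z p := fun _ => rfl
  obtain ⟨b, hb, h1⟩ := (p2_alg e h x).exists_integral_multiple
  obtain ⟨c, hc, h2⟩ := (p2_alg e h x⁻¹).exists_integral_multiple
  refine ⟨(b * c).roots.toFinset, fun a ha R o => ?_⟩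
  obtain ⟨_, v⟩ := p2_over e o
  rw [Multiset.mem_toFinset, mem_roots (mul_ne_zero hb hc), IsRoot.def, eval_mul] at ha
  have h3 := (R.valuation_le_one_iff _).2 (FG.v1_mem v h1)
  have h4 := (R.valuation_le_one_iff _).2 (FG.v1_mem v h2)
  rw [Algebra.smul_def, map_mul, FG.v1_val v (left_ne_zero_of_mul ha), one_mul] at h3
  rw [Algebra.smul_def, map_mul, FG.v1_val v (right_ne_zero_of_mul ha), one_mul, map_inv₀] at h4
  exact le_antisymm h3 ((inv_le_one₀ (R.valuation.pos_iff.2 hx)).1 h4)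

end Pool.Agent.Lib.MP_d61fbb_ag.DW
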