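import Pool.Agent.Lib.MP_d61fbb_ag.DW.Defs
import Pool.Agent.Lib.MP_d61fbb_ag.SQ.AD

/-! Interface structures between the parts. -/

set_option autoImplicit false

noncomputable section

namespace Pool.Agent.Lib.MP_d61fbb_ag.DW

open Polynomial Matrix Topology Pool.Agent.Lib.MP_d61fbb_ag.SQ

section field

variable (k : Type) {Ω : Type} [Field k] [Field Ω] [Algebra k Ω]

/-- `Ω` is algebraic over the rational function field generated by `t`. -/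
structure Cd (t : Ω) : Prop where
  tr : Transcendental k t
  alg : ∀ x : Ω, IsAlgebraic (Algebra.adjoin k {t}) x

/-- The valuation ring `R` contains the constants and `t` lies in its maximal ideal. -/
def Ov (R : ValuationSubring Ω) (t : Ω) : Prop :=
  (∀ a : k, algebraMap k Ω a ∈ R) ∧ R.valuation t < 1

variable {k}

/-- The local parameter at a point of the projective line. -/
def un (z : Ω) : Option k → Ω
  | some a => z - algebraMap k Ω a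
  | none => z⁻¹

/-- A compatible system of primitive roots of unity. -/
structure Rt (ζ : ℕ → k) : Prop where
  prim : ∀ j, IsPrimitiveRoot (ζ j) (2 ^ j)
  sq : ∀ j, ζ (j + 1) ^ 2 = ζ j

variable (k) (G : Type) [Group G] [TopologicalSpace G] [MulSemiringAction G Ω]

/-- `G` is the Galois group of `Ω` over `k(z)`. -/
structure GD (z : Ω) : Prop where
  cd : Cd k z
  fixk : ∀ (g : G) (a : k), g • algebraMap k Ω a = algebraMap k Ω a
  fixz : ∀ g : G, g • z = z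
  onto : ∀ σ : Ω ≃ₐ[k] Ω, σ z = z → ∃ g : G, ∀ x, g • x = σ x
  opn : ∀ x : Ω, IsOpen {g : G | g • x = x}
  nhd : ∀ U ∈ 𝓝 (1 : G), ∃ E : Finset Ω, ∀ g : G, (∀ x ∈ E, g • x = x) → g ∈ U
  gal : ∀ U : Subgroup G, IsClosed (U : Set G) → ∀ t, t ∉ U →
    ∃ x : Ω, (∀ u ∈ U, u • x = x) ∧ t • x ≠ x
  base : ∀ x : Ω, (∀ g : G, g • x = x) →
    ∃ p q : k[X], q ≠ 0 ∧ x * aeval z q = aeval z p

variable {k G}

/-- `g` lies in the decomposition group of `R`. -/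
def Dc (R : ValuationSubring Ω) (g : G) : Prop := ∀ x, g • x ∈ R ↔ x ∈ R

/-- `g` multiplies the roots of order `2 ^ j` of `t` by `ζ j ^ a`. -/
def Th (ζ : ℕ → k) (t : Ω) (g : G) (j a : ℕ) : Prop :=
  ∀ p : Ω, p ^ 2 ^ j = t → g • p = algebraMap k Ω (ζ j) ^ a * p

/-- `y` generates the tame inertia at a place where `t` is a local parameter. -/
def Gn (ζ : ℕ → k) (t : Ω) (y : G) : Prop :=
  ∃ R : ValuationSubring Ω, Ov k R t ∧ Dc R y ∧ ∀ j, Th ζ t y j 1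

/-- An open normal subgroup whose quotient is a `2`-group. -/
structure Tw (N : Subgroup G) : Prop where
  normal : N.Normal
  opn : IsOpen (N : Set G)
  pw : ∀ g : G, ∃ j, g ^ 2 ^ j ∈ N

/-- The same, and unramified at the finite points outside of `S`. -/
def Adm (z : Ω) (S : Set k) (N : Subgroup G) : Prop :=
  Tw N ∧ ∀ a : k, a ∉ S → ∀ R : ValuationSubring Ω, Ov k R (un z (some a)) →
    ∀ g : G, Dc R g → g ∈ N

/-- The kernel of the map to the pro-`2` fundamental group. -/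
def Nz (G : Type) [Group G] [TopologicalSpace G] [MulSemiringAction G Ω] (z : Ω) (S : Set k) :
    Subgroup G := sInf {N | Adm z S N}

/-- Every nonzero element fixed by `H` is a norm from every quadratic extension. -/
def Nm (Ω : Type) [Field Ω] [MulSemiringAction G Ω] (H : Subgroup G) : Prop :=
  ∀ a b : Ω, a ≠ 0 → b ≠ 0 → (∀ h ∈ H, h • a = a) → (∀ h ∈ H, h • b = b) →
    ∃ u v : Ω, (∀ h ∈ H, h • u = u) ∧ (∀ h ∈ H, h • v = v) ∧ a = u ^ 2 - b * v ^ 2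

end field

section surf

variable {Γ : Type} [Group Γ] [TopologicalSpace Γ] (G : Subgroup Γ) [G.Normal]

/-- The closure of the pairs `(y ^ a n, a)` with `n ∈ N`. -/
def cyc {G : Type} [Group G] [TopologicalSpace G] (N : Subgroup G) (y : G) : Set (G × ℤ_[2]) :=
  closure {p | ∃ a : ℕ, ∃ n ∈ N, p = (y ^ a * n, (a : ℤ_[2]))}

/-- The structure of the pro-`2` fundamental group `G / N` of a punctured projective line. -/
structure Surf (𝒟 good : Set (Set Γ)) (χ : Γ → ℤ_[2]) {m : ℕ} (y : Fin (m + 1) → G)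
    (pm : Γ → Equiv.Perm (Fin (m + 1))) (N : Subgroup G) : Prop where
  normal : N.Normal
  closed : IsClosed (N : Set G)
  stab : ∀ (γ : Γ), ∀ g ∈ N, MulAut.conjNormal γ g ∈ N
  pro : ∀ U : Subgroup G, IsOpen (U : Set G) → U.Normal → N ≤ U → ∀ g : G, ∃ j, g ^ 2 ^ j ∈ U
  gen : ∀ H : Subgroup G, IsClosed (H : Set G) → N ≤ H → (∀ i : Fin m, y i.castSucc ∈ H) → H = ⊤
  free : ∀ (P : Type) [Group P] [Finite P], IsPGroup 2 P → ∀ p : Fin m → P,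
    ∃ φ : G →* P, IsOpen (φ.ker : Set G) ∧ N ≤ φ.ker ∧ ∀ i, φ (y i.castSucc) = p i
  kill : ∀ U : Subgroup G, Tw U → (∀ D ∈ good, ∀ g : G, (g : Γ) ∈ D → g ∈ U) → N ≤ U
  prod : Fin.partialProd y (Fin.last _) ∈ N
  sub : good ⊆ 𝒟
  loc : ∀ D ∈ 𝒟, (∀ g : G, (g : Γ) ∈ D → g ∈ N) ∨
    ∃ (s : Fin (m + 1)) (u : G), ∀ g : G, (g : Γ) ∈ D → ∃ t, (u⁻¹ * g * u, t) ∈ cyc N (y s)
  mem : ∀ s, ∃ D ∈ 𝒟, (y s : Γ) ∈ D
  gal : ∀ (γ : Γ) (s : Fin (m + 1)), ∃ u : G,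
    (u⁻¹ * MulAut.conjNormal γ (y s) * u, χ γ) ∈ cyc N (y (pm γ s))

variable {κ : Type} [Fintype κ] [DecidableEq κ]

/-- A continuous integral representation of `G` that is trivial on `N`. -/
structure Ar {G : Type} [Group G] [TopologicalSpace G] (N : Subgroup G)
    (r : G →* Matrix κ κ ℚ_[2]) : Prop where
  int : ∀ g i j, ‖r g i j‖ ≤ 1
  cont : Continuous r
  kill : ∀ g ∈ N, r g = 1

/-- The continuous cocycles that vanish on `N`. -/
def Co {G : Type} [Group G] [TopologicalSpace G] (N : Subgroup G) (r : G →* Matrix κ κ ℚ_[2]) :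
    Submodule ℚ_[2] (G → κ → ℚ_[2]) where
  carrier := {c | Continuous c ∧ (∀ g h, c (g * h) = c g + r g *ᵥ c h) ∧ ∀ g ∈ N, c g = 0}
  zero_mem' := ⟨continuous_const, by simp, by simp⟩
  add_mem' := fun {a b} ha hb => ⟨ha.1.add hb.1, fun g h => by
    simp only [Pi.add_apply, ha.2.1, hb.2.1, mulVec_add]
    abel, fun g hg => by simp [ha.2.2 g hg, hb.2.2 g hg]⟩
  smul_mem' := fun t a ha => ⟨ha.1.const_smul t, fun g h => by
    simp only [Pi.smul_apply, ha.2.1, mulVec_smul, smul_add], fun g hg => by simp [ha.2.2 g hg]⟩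

/-- Those that are coboundaries at all `y s`. -/
def Pa {G S : Type} [Group G] [TopologicalSpace G] (N : Subgroup G) (r : G →* Matrix κ κ ℚ_[2])
    (y : S → G) : Submodule ℚ_[2] (G → κ → ℚ_[2]) :=
  Co N r ⊓ ⨅ s, (LinearMap.range (r (y s) - 1).mulVecLin).comap (LinearMap.proj (y s))

/-- The coboundary of a vector. -/
def cob {G : Type} [Group G] (r : G →* Matrix κ κ ℚ_[2]) :
    (κ → ℚ_[2]) →ₗ[ℚ_[2]] G → κ → ℚ_[2] :=
  LinearMap.pi fun g => (r g - 1).mulVecLin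

/-- The action of `Γ` on cochains. -/
def ac (r : Γ →* Matrix κ κ ℚ_[2]) (γ : Γ) : (G → κ → ℚ_[2]) →ₗ[ℚ_[2]] G → κ → ℚ_[2] :=
  LinearMap.pi fun g => (r γ).mulVecLin ∘ₗ LinearMap.proj (MulAut.conjNormal γ⁻¹ g)

/-- `Y` is the reflection in the vector `v` of norm `2` times a unit. -/
structure Rf (β Y : Matrix κ κ ℚ_[2]) (v : κ → ℚ_[2]) : Prop where
  int : ∀ i, ‖v i‖ ≤ 1
  nrm : ‖v ⬝ᵥ β *ᵥ v‖ = 2⁻¹
  eq : ∀ x, Y *ᵥ x = x - (2 * (v ⬝ᵥ β *ᵥ x) / (v ⬝ᵥ β *ᵥ v)) • v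

/-- An orthogonal local system. -/
structure Sys (good : Set (Set Γ)) (r : Γ →* Matrix κ κ ℚ_[2]) (β : Matrix κ κ ℚ_[2])
    (μ : Γ → ℚ_[2]) : Prop where
  int : ∀ γ i j, ‖r γ i j‖ ≤ 1
  cont : Continuous fun g : G => r g
  unr : ∀ D ∈ good, ∀ g : G, (g : Γ) ∈ D → r g = 1
  uni : ∀ γ i j, ‖(r γ ^ 4 - 1 : Matrix κ κ ℚ_[2]) i j‖ < 1
  sym : βᵀ = β
  det : β.det ≠ 0
  bint : ∀ i j, ‖β i j‖ ≤ 1
  sim : ∀ γ, (r γ)ᵀ * β * r γ = μ γ • β
  one : ∀ g ∈ G, μ g = 1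
  unit : ∀ γ, ‖μ γ‖ = 1

end surf

/-- Residues of an invariant lattice. -/
structure Rs {Γ E : Type} [Group Γ] [AddCommGroup E] [Module ℚ_[2] E] {n : ℕ}
    (σ : Γ → E →ₗ[ℚ_[2]] E) (pm : Γ →* Equiv.Perm (Fin n)) (A D : Submodule ℚ_[2] E)
    (Z : AddSubgroup E) (lam : Fin n → E →ₗ[ℚ_[2]] ℚ_[2]) : Prop where
  le : ∀ c ∈ Z, c ∈ A
  smul : ∀ t : ℚ_[2], ‖t‖ ≤ 1 → ∀ c ∈ Z, t • c ∈ Z
  act : ∀ γ, ∀ c ∈ Z, σ γ c ∈ Z
  int : ∀ c ∈ Z, ∀ i, ‖lam i c‖ ≤ 1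
  equi : ∀ γ, ∀ c ∈ Z, ∀ i, ‖lam (pm γ i) (σ γ c) - lam i c‖ < 1
  const : ∀ c ∈ Z, c ∈ D → ∀ i j, ‖lam i c - lam j c‖ < 1
  non : ∃ c ∈ Z, ∃ i j, ¬ ‖lam i c - lam j c‖ < 1

/-- An integral representation with an alternating form that lifts the heart of a big permutation
group of odd degree. -/
structure Hd {Γ : Type} [Group Γ] {d : ℕ} (ρ : Γ →* Mat d ℚ_[2])
    (pm : Γ →* Equiv.Perm (Fin (d + 1))) (B : Mat d ℚ_[2]) (ν : Γ → ℚ_[2]) : Prop where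
  int : ∀ γ i j, ‖ρ γ i j‖ ≤ 1
  red : ∀ γ i j, ‖(ρ γ - Hm ℚ_[2] (pm γ)) i j‖ < 1
  alt : Bᵀ = -B
  det : B.det ≠ 0
  sim : ∀ γ, (ρ γ)ᵀ * B * ρ γ = ν γ • B

end Pool.Agent.Lib.MP_d61fbb_ag.DW
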