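import Pool.Agent.Lib.MP_0d42ed_ag.TP.D

/-! The Lie algebra action on tensors; an injective operator. -/

set_option autoImplicit false

noncomputable section

namespace Pool.Agent.Lib.MP_d61fbb_ag.DW

open Matrix Pool.Agent.Lib.MP_0d42ed_ag.TP

variable {Ω ι S : Type} [Field Ω] [CharZero Ω] [Fintype ι] [DecidableEq ι] [Fintype S]
  [DecidableEq S]

/-- The action of a matrix on multilinear forms as a derivation. -/
def dt (X : Matrix ι ι Ω) (t : (S → ι) → Ω) : (S → ι) → Ω :=
  fun I => ∑ s, ∑ b, t (Function.update I s b) * X b (I s)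

omit [CharZero Ω] in
theorem t1_sum (J : S → ι) (s : S) (f : (S → ι) → Ω) :
    ∑ I : S → ι, f I * ∏ s' ∈ Finset.univ.erase s, (1 : Matrix ι ι Ω) (I s') (J s') =
      ∑ b, f (Function.update J s b) := by
  symm
  refine Finset.sum_of_injOn (fun b => Function.update J s b)
    (Function.update_injective J s).injOn (fun _ _ => Finset.mem_coe.2 (Finset.mem_univ _))
    (fun I _ hI => ?_) fun b _ => ?_
  · obtain ⟨s', h1, h2⟩ : ∃ s', s' ≠ s ∧ I s' ≠ J s' := by
      by_contra k
      push Not at k
      refine hI ⟨I s, Finset.mem_coe.2 (Finset.mem_univ _), funext fun x => ?_⟩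
      by_cases hx : x = s
      · subst hx
        simp
      · simp [Function.update_of_ne hx, k x hx]
    exact mul_eq_zero_of_right _ (Finset.prod_eq_zero
      (Finset.mem_erase.2 ⟨h1, Finset.mem_univ _⟩) (Matrix.one_apply_ne h2))
  · rw [Finset.prod_eq_one fun x hx => by
      rw [Function.update_of_ne (Finset.ne_of_mem_erase hx), Matrix.one_apply_eq], mul_one]

theorem dt_of_inv {X : Matrix ι ι Ω} {t : (S → ι) → Ω}
    (h : ∀ c : Ω, t ᵥ* tp S (1 + c • X) = t) : dt X t = 0 := by
  funext J
  set P : Polynomial Ω := ∑ I : S → ι, Polynomial.C (t I) *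
    ∏ s, (Polynomial.C ((1 : Matrix ι ι Ω) (I s) (J s)) +
      Polynomial.X * Polynomial.C (X (I s) (J s))) with hP
  have h1 : P = Polynomial.C (t J) := Polynomial.funext fun c => by
    rw [Polynomial.eval_C, ← congrFun (h c) J, hP]
    simp only [Polynomial.eval_finsetSum, Polynomial.eval_prod, Polynomial.eval_mul,
      Polynomial.eval_C, Polynomial.eval_add, Polynomial.eval_X]
    rfl
  have h2 : (Polynomial.derivative P).eval 0 = 0 := by rw [h1]; simp
  rw [Pi.zero_apply, ← h2, hP, dt]
  simp only [Polynomial.derivative_sum,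
    Polynomial.derivative_prod_finset, Polynomial.eval_finsetSum, Polynomial.eval_mul,
    Polynomial.eval_C, Polynomial.eval_prod, Polynomial.eval_add, Polynomial.eval_X, zero_mul,
    add_zero, Polynomial.derivative_add, Polynomial.derivative_C, Polynomial.derivative_mul,
    Polynomial.derivative_X, zero_add, one_mul, mul_zero, Finset.mul_sum]
  symm
  rw [Finset.sum_comm]
  refine Finset.sum_congr rfl fun s _ => ?_
  have h3 := t1_sum J s fun I => t I * X (I s) (J s)
  simp only [Function.update_self] at h3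
  rw [← h3]
  exact Finset.sum_congr rfl fun I _ => by ring

/-- The operator that changes one letter `a` into `b`. -/
def t1L (a b : ι) (t : (S → ι) → Ω) : (S → ι) → Ω :=
  fun I => ∑ s, if I s = b then t (Function.update I s a) else 0

omit [CharZero Ω] [Fintype ι] in
theorem t1L_perm (a b : ι) (t : (S → ι) → Ω) (σ : Equiv.Perm S) (I : S → ι) :
    t1L a b t (I ∘ σ) = ∑ s, if I s = b then t (Function.update I s a ∘ σ) else 0 := by
  refine Fintype.sum_equiv σ _ _ fun s => ?_
  rw [Function.update_comp_eq_of_injective _ σ.injective]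
  rfl

omit [CharZero Ω] [Fintype ι] in
theorem t1L_ker (s0 : S) (c : Ω) (a b : ι) {t : (S → ι) → Ω}
    (h : ∀ I, c * t I + ∑ j ∈ Finset.univ.erase s0, t (I ∘ Equiv.swap s0 j) = 0) (I : S → ι) :
    c * t1L a b t I + ∑ j ∈ Finset.univ.erase s0, t1L a b t (I ∘ Equiv.swap s0 j) = 0 := by
  simp only [t1L_perm]
  rw [Finset.sum_comm, t1L, Finset.mul_sum, ← Finset.sum_add_distrib]
  refine Finset.sum_eq_zero fun s _ => ?_
  split_ifs with hs
  · exact h _
  · simp

theorem t1_top (s0 : S) (r : ι → ℕ) (hr : Function.Injective r) {t : (S → ι) → Ω}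
    (h : ∀ I, ((Fintype.card ι : Ω) + 1) * t I +
      ∑ j ∈ Finset.univ.erase s0, t (I ∘ Equiv.swap s0 j) = 0)
    (hL : ∀ a b, r b < r a → t1L a b t = 0) : t = 0 := by
  classical
  by_contra h0
  obtain ⟨I0, hI0⟩ := Function.ne_iff.1 h0
  obtain ⟨I, hI, hmax⟩ := (Finset.univ.filter fun I => t I ≠ 0).exists_max_image
    (fun I => r (I s0)) ⟨I0, Finset.mem_filter.2 ⟨Finset.mem_univ _, hI0⟩⟩
  have hI' : t I ≠ 0 := (Finset.mem_filter.1 hI).2
  set m := ((Finset.univ.erase s0).filter fun j => I j = I s0).card with hm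
  have key : ∀ b, ∑ j ∈ (Finset.univ.erase s0).filter (fun j => I j = b),
      t (I ∘ Equiv.swap s0 j) =
      (if b = I s0 then (m : Ω) * t I else 0) - if r b < r (I s0) then t I else 0 := by
    intro b
    rcases lt_trichotomy (r b) (r (I s0)) with hb | hb | hb
    · have hne : b ≠ I s0 := fun e => hb.ne (by rw [e])
      have h1 := congrFun (hL _ _ hb) (Function.update I s0 b)
      rw [t1L, ← Finset.add_sum_erase _ _ (Finset.mem_univ s0), Function.update_self, if_pos rfl,
        Function.update_idem, Function.update_eq_self, Pi.zero_apply] at h1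
      rw [if_neg hne, if_pos hb, zero_sub, eq_neg_iff_add_eq_zero, add_comm, ← h1,
        Finset.sum_filter]
      congr 1
      refine Finset.sum_congr rfl fun j hj => ?_
      have hj' := Finset.ne_of_mem_erase hj
      rw [Function.update_of_ne hj']
      split_ifs with e
      · rw [Equiv.comp_swap_eq_update, e]
        congr 1
        exact Function.update_comm hj' _ _ _
      · rfl
    · have e := hr hb
      rw [if_pos e, if_neg hb.not_lt, sub_zero, e, hm, ← nsmul_eq_mul, ← Finset.sum_const]
      refine Finset.sum_congr rfl fun j hj => ?_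
      have e' := (Finset.mem_filter.1 hj).2
      exact congrArg t (funext (Equiv.apply_swap_eq_self e'.symm))
    · have hne : b ≠ I s0 := fun e => hb.ne' (by rw [e])
      rw [if_neg hne, if_neg hb.not_gt, sub_zero]
      refine Finset.sum_eq_zero fun j hj => by_contra fun k => ?_
      have h1 := hmax _ (Finset.mem_filter.2 ⟨Finset.mem_univ _, k⟩)
      rw [Function.comp_apply, Equiv.swap_apply_left, (Finset.mem_filter.1 hj).2] at h1
      omega
  have h1 := h I
  rw [← Finset.sum_fiberwise (Finset.univ.erase s0) I] at h1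
  simp only [key] at h1
  rw [Finset.sum_sub_distrib, Finset.sum_ite_eq', if_pos (Finset.mem_univ _), ← Finset.sum_filter,
    Finset.sum_const, nsmul_eq_mul] at h1
  set k := (Finset.univ.filter fun b => r b < r (I s0)).card with hk
  have h2 : k ≤ Fintype.card ι := Finset.card_le_univ _
  have h3 : ((Fintype.card ι + 1 + m : ℕ) : Ω) = k := by
    push_cast
    exact mul_right_cancel₀ hI' (by linear_combination h1)
  have h4 := Nat.cast_injective h3
  omega

theorem jm_inj (s0 : S) {t : (S → ι) → Ω}
    (h : ∀ I, ((Fintype.card ι : Ω) + 1) * t I +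
      ∑ j ∈ Finset.univ.erase s0, t (I ∘ Equiv.swap s0 j) = 0) : t = 0 := by
  set r : ι → ℕ := fun x => Fintype.equivFin ι x with hr
  have hri : Function.Injective r := fun x y e => (Fintype.equivFin ι).injective (Fin.ext e)
  have key : ∀ (N : ℕ) (t : (S → ι) → Ω), (∀ I, ((Fintype.card ι : Ω) + 1) * t I +
      ∑ j ∈ Finset.univ.erase s0, t (I ∘ Equiv.swap s0 j) = 0) →
      (∀ I, t I ≠ 0 → ∑ s, r (I s) < N) → t = 0 := by
    intro N
    induction N with
    | zero => exact fun t _ h2 => funext fun I => by_contra fun k => absurd (h2 I k) (by omega)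
    | succ N ih =>
      intro t h1 h2
      refine t1_top s0 r hri h1 fun a b hab => ih _ (t1L_ker s0 _ a b h1) fun I hI => ?_
      obtain ⟨s, -, hs⟩ := Finset.exists_ne_zero_of_sum_ne_zero hI
      have e : I s = b := by_contra fun k => hs (if_neg k)
      rw [if_pos e] at hs
      have h3 := h2 _ hs
      rw [← Finset.add_sum_erase _ _ (Finset.mem_univ s), Function.update_self,
        Finset.sum_congr rfl fun x hx => by
          rw [Function.update_of_ne (Finset.ne_of_mem_erase hx)]] at h3
      rw [← Finset.add_sum_erase _ _ (Finset.mem_univ s), e]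
      omega
  refine key (Finset.univ.sup (fun I : S → ι => ∑ s, r (I s)) + 1) t h fun I _ => ?_
  exact Nat.lt_succ_of_le (Finset.le_sup (f := fun I : S → ι => ∑ s, r (I s)) (Finset.mem_univ I))

theorem ms_perm {i : ℕ} {𝓜 : Set (Matrix ι ι Ω)} {t : (S → ι) → Ω} (ht : t ∈ MS S i 𝓜)
    (σ : Equiv.Perm S) : (fun I => t (I ∘ σ)) ∈ MS S i 𝓜 := by
  induction ht using Submodule.span_induction with
  | mem x hx =>
    obtain ⟨e, M, hM, rfl⟩ := hx
    exact Submodule.subset_span ⟨e.trans σ, M, hM, rfl⟩
  | zero => exact Submodule.zero_mem _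
  | add x y _ _ hx hy => exact Submodule.add_mem _ hx hy
  | smul a x _ hx => exact Submodule.smul_mem _ a hx

theorem ms_of_jm {i : ℕ} {𝓜 : Set (Matrix ι ι Ω)} (s0 : S) {t : (S → ι) → Ω}
    (h : (fun I => ((Fintype.card ι : Ω) + 1) * t I +
      ∑ j ∈ Finset.univ.erase s0, t (I ∘ Equiv.swap s0 j)) ∈ MS S i 𝓜) : t ∈ MS S i 𝓜 := by
  let T : ((S → ι) → Ω) →ₗ[Ω] (S → ι) → Ω := ((Fintype.card ι : Ω) + 1) • LinearMap.id +
    ∑ j ∈ Finset.univ.erase s0, LinearMap.funLeft Ω Ω fun I => I ∘ Equiv.swap s0 j
  have hT : ∀ u, T u = fun I => ((Fintype.card ι : Ω) + 1) * u I +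
      ∑ j ∈ Finset.univ.erase s0, u (I ∘ Equiv.swap s0 j) := fun u => by
    funext I
    simp [T, LinearMap.sum_apply, Finset.sum_apply, LinearMap.funLeft_apply]
  have hi : Function.Injective T := (injective_iff_map_eq_zero T).2 fun u hu =>
    jm_inj s0 fun I => by rw [hT] at hu; exact congrFun hu I
  have hm : ∀ u ∈ MS S i 𝓜, T u ∈ MS S i 𝓜 := fun u hu => by
    simp only [T, LinearMap.add_apply, LinearMap.smul_apply, LinearMap.id_apply,
      LinearMap.sum_apply]
    exact Submodule.add_mem _ (Submodule.smul_mem _ _ hu)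
      (Submodule.sum_mem _ fun j _ => ms_perm hu _)
  have hs : Function.Surjective (T.restrict hm) :=
    LinearMap.surjective_of_injective fun x y e => Subtype.ext (hi (congrArg Subtype.val e))
  obtain ⟨u, hu⟩ := hs ⟨T t, by rw [hT]; exact h⟩
  have e : u.1 = t := hi (congrArg Subtype.val hu)
  exact e ▸ u.2

end Pool.Agent.Lib.MP_d61fbb_ag.DW
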