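import Pool.Agent.Lib.MP_d61fbb_ag.DW.C4
import Pool.Agent.Lib.MP_d61fbb_ag.DW.D6
import Pool.Agent.Lib.MP_d61fbb_ag.DW.T2

/-! The main theorem. -/

set_option autoImplicit false

noncomputable section

namespace Pool.Agent.Lib.MP_d61fbb_ag.DW

open Polynomial Matrix Equiv Pool.Agent.Lib.MP_d61fbb_ag.SQ Pool.Agent.Lib.MP_0d42ed_ag.TP

theorem dw_main (K : Type) [Field K] [CharZero K]
    (hK : ∃ s : Finset K, Subfield.closure (s : Set K) = ⊤) (f S B : K[X]) (c a : K) (N n : ℕ)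
    (hc : c ≠ 0) (ha : a ≠ 0) (h : B ^ 2 * f = S ^ 4 - C c * X ^ N) (hn : Odd n)
    (r : Fin n → Om K) (hr : Function.Injective r)
    (hf : f.map (algebraMap K (Om K)) = C (algebraMap K (Om K) a) * ∏ i, (X - C (r i)))
    (hG : (9 ≤ n ∧ ∀ π ∈ alternatingGroup (Fin n), ∃ γ : Gam K, ∀ i, γ (r i) = r (π i)) ∨
      (7 ≤ n ∧ ∀ π : Perm (Fin n), ∃ γ : Gam K, ∀ i, γ (r i) = r (π i))) :
    ∃ (ρ : Gam K → Matrix (Fin (n - 1)) (Fin (n - 1)) ℚ_[2])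
      (J : Matrix (Fin (n - 1)) (Fin (n - 1)) ℚ_[2]), Coh f S B ρ ∧ Jᵀ = -J ∧ J.det ≠ 0 ∧
      (∀ γ, (ρ γ)ᵀ * J * ρ γ = (cz γ : ℚ_[2]) • J) ∧
      (∀ g : Matrix (Fin (n - 1)) (Fin (n - 1)) (PadicAlgCl 2), g.det ≠ 0 →
        (Zar (Set.range ρ) g ↔ ∃ ν : PadicAlgCl 2,
          gᵀ * J.map (algebraMap _ _) * g = ν • J.map (algebraMap _ _))) ∧
      ∀ (i : ℕ) (U : Subgroup (Gam K)), U.FiniteIndex →
        ∀ t : (Fin (2 * i) → Fin (n - 1)) → ℚ_[2],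
          (∀ γ ∈ U, t ᵥ* tp (Fin (2 * i)) (ρ γ) = (cz γ : ℚ_[2]) ^ i • t) ↔
            t ∈ MS (Fin (2 * i)) i {J} := by
  obtain ⟨d, rfl⟩ : ∃ d, n = d + 1 := ⟨n - 1, by have := hn.pos; omega⟩
  obtain ⟨pa, hp⟩ := exists_pa ha hr hf
  have key : ∀ π, (∃ γ : Gam K, ∀ i, γ (r i) = r (π i)) → π ∈ pa.range := fun π ⟨γ, e⟩ =>
    ⟨γ, Equiv.ext fun i => hr ((hp γ i).symm.trans (e i))⟩
  have hB : Big pa.range := hG.imp (fun k => ⟨by omega, fun π hπ => key π (k.2 π hπ)⟩)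
    fun k => ⟨by omega, top_le_iff.1 fun π _ => key π (k.2 π)⟩
  have he : Even d := by simpa [Nat.odd_add_one] using hn
  have h6 : 6 ≤ d := by omega
  have h0 : ∀ i, r i ≠ 0 := fun i e => by
    obtain ⟨b, hb⟩ := g1a_new [i] (by simp; omega)
    obtain ⟨u, hu⟩ := g1a_new [i, b] (by simp; omega)
    simp only [List.mem_cons, List.not_mem_nil, or_false, not_or] at hb hu
    obtain ⟨t, ht, h1, -⟩ := g1a_three hB (Ne.symm hb) hu.1 hu.2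
    obtain ⟨γ, hγ⟩ := (inv_mem_iff.1 ht : t ∈ pa.range)
    exact hb (hr (by rw [← h1, ← hγ, ← hp, e, map_zero]))
  obtain ⟨ρ, J, h1, h2⟩ := coh_geo hc h hr h0 ha hf hp hB he h6
  have h3 := mono_main h2 hB he h6 (cz_inf hK)
  exact ⟨ρ, J, h1, h2.alt, h2.det, h2.sim, h3, fun i U _ t =>
    tate_main h2.alt h2.det h2.sim (fun g hg e => (h3 g hg).2 ⟨1, by rw [e, one_smul]⟩) i U t⟩

end Pool.Agent.Lib.MP_d61fbb_ag.DW
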